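import Pool.Agent.R839.CircCount

/-!
# Chain rings and the size of the image of the ghost component
-/

namespace Pool.Agent.R839.Circ

open Polynomial Matrix

theorem card_surj {G H : Type*} [AddCommGroup G] [AddCommGroup H] (φ : G →+ H)
    (hφ : Function.Surjective φ) : Nat.card G = Nat.card H * Nat.card φ.ker := by
  have h2 := card_pull_aux φ hφ (fun _ => True)
  have h3 : Nat.card {g : G // True} = Nat.card G :=
    Nat.card_congr (Equiv.subtypeUnivEquiv (by simp))
  have h4 : Nat.card {h : H // True} = Nat.card H :=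
    Nat.card_congr (Equiv.subtypeUnivEquiv (by simp))
  rwa [h3, h4] at h2

theorem card_L {G M : Type*} [AddCommGroup G] [AddCommGroup M] (H H' : AddSubgroup G)
    (hle : H' ≤ H) (θ : M →+ G ⧸ H') (hr : θ.range = H.map (QuotientAddGroup.mk' H')) :
    Nat.card H * Nat.card θ.ker = Nat.card M * Nat.card H' := by
  have hmem : ∀ h : H, QuotientAddGroup.mk' H' (h : G) ∈ θ.range := by
    intro h
    rw [hr]
    exact AddSubgroup.mem_map_of_mem _ h.2
  let ρ : H →+ θ.range := ((QuotientAddGroup.mk' H').comp H.subtype).codRestrict θ.range hmem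
  have hρ : Function.Surjective ρ := by
    rintro ⟨x, hx⟩
    have hx' := hx
    rw [hr] at hx'
    obtain ⟨h, hh, rfl⟩ := hx'
    exact ⟨⟨h, hh⟩, rfl⟩
  have h1 := card_surj ρ hρ
  have h2 := card_surj θ.rangeRestrict θ.rangeRestrict_surjective
  rw [AddMonoidHom.ker_rangeRestrict] at h2
  have h3 : Nat.card ρ.ker = Nat.card H' := by
    refine Nat.card_congr ⟨fun x => ⟨(x.1 : G), ?_⟩, fun y => ⟨⟨y.1, hle y.2⟩, ?_⟩, ?_, ?_⟩
    · have h4 : ρ x.1 = 0 := x.2
      have h5 := congrArg Subtype.val h4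
      exact (QuotientAddGroup.eq_zero_iff (x.1 : G)).mp h5
    · rw [AddMonoidHom.mem_ker]
      apply Subtype.ext
      exact (QuotientAddGroup.eq_zero_iff (y.1 : G)).mpr y.2
    · intro x; rfl
    · intro y; rfl
  rw [h1, h2, h3]; ring

section chain

variable {R : Type*} [CommRing R] {γ : R} {e : ℕ}

theorem isUnit_iff_notMem (hmax : (Ideal.span {γ}).IsMaximal) (hnil : IsNilpotent γ) (x : R) :
    IsUnit x ↔ x ∉ Ideal.span {γ} := by
  constructor
  · intro hx h
    exact hmax.ne_top (Ideal.eq_top_of_isUnit_mem _ h hx)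
  · intro hx
    obtain ⟨y, i, hi, hyi⟩ := hmax.exists_inv hx
    obtain ⟨z, rfl⟩ := Ideal.mem_span_singleton'.mp hi
    have h1 : IsNilpotent (z * γ) := Commute.isNilpotent_mul_left (Commute.all _ _) hnil
    have h2 : IsUnit (y * x) := by
      rw [show y * x = 1 - z * γ by rw [← hyi]; ring]
      exact h1.isUnit_one_sub
    exact isUnit_of_mul_isUnit_right h2

variable (hmax : (Ideal.span {γ}).IsMaximal) (he : IsLeast {s | 0 < s ∧ γ ^ s = 0} e)

include hmax he in
theorem pow_mem_span (i : ℕ) (h : γ ^ i ∈ Ideal.span {γ ^ (i + 1)}) : e ≤ i := by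
  obtain ⟨y, hy⟩ := Ideal.mem_span_singleton'.mp h
  have hnil : IsNilpotent γ := ⟨e, he.1.2⟩
  have h1 : IsNilpotent (y * γ) := Commute.isNilpotent_mul_left (Commute.all _ _) hnil
  have h2 : γ ^ i = 0 := by
    have h3 : γ ^ i * (1 - y * γ) = 0 := by
      have : γ ^ i * (1 - y * γ) = γ ^ i - y * γ ^ (i + 1) := by ring
      rw [this, hy, sub_self]
    exact (h1.isUnit_one_sub.mul_left_eq_zero).mp h3
  rcases Nat.eq_zero_or_pos i with rfl | hi
  · exfalso
    rw [pow_zero] at h2
    apply hmax.ne_top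
    rw [Ideal.eq_top_iff_one, h2]
    exact zero_mem _
  · exact he.2 ⟨hi, h2⟩

include hmax he in
theorem exists_form (x : R) : ∃ s ≤ e, ∃ u : R, IsUnit u ∧ x = γ ^ s * u := by
  have hnil : IsNilpotent γ := ⟨e, he.1.2⟩
  have key : ∀ j ≤ e, (∃ s ≤ e, ∃ u : R, IsUnit u ∧ x = γ ^ s * u) ∨ ∃ y, x = γ ^ j * y := by
    intro j
    induction j with
    | zero => intro _; exact Or.inr ⟨x, by simp⟩
    | succ j ih =>
      intro hj
      rcases ih (by omega) with h | ⟨y, hy⟩
      · exact Or.inl h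
      · by_cases hu : IsUnit y
        · exact Or.inl ⟨j, by omega, y, hu, hy⟩
        · rw [isUnit_iff_notMem hmax hnil, not_not] at hu
          obtain ⟨z, hz⟩ := Ideal.mem_span_singleton'.mp hu
          exact Or.inr ⟨z, by rw [hy, ← hz]; ring⟩
  rcases key e le_rfl with h | ⟨y, hy⟩
  · exact h
  · exact ⟨e, le_rfl, 1, isUnit_one, by rw [hy, he.1.2]; ring⟩

include hmax he in
theorem card_span_aux [Finite R] {i : ℕ} (hi : i < e) : Nat.card (Ideal.span {γ ^ i}) =
    Nat.card (R ⧸ Ideal.span {γ}) * Nat.card (Ideal.span {γ ^ (i + 1)}) := by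
  let H : AddSubgroup R := (Ideal.span {γ ^ i}).toAddSubgroup
  let H' : AddSubgroup R := (Ideal.span {γ ^ (i + 1)}).toAddSubgroup
  have hle : H' ≤ H := by
    intro x hx
    obtain ⟨y, rfl⟩ := Ideal.mem_span_singleton'.mp hx
    exact Ideal.mem_span_singleton'.mpr ⟨y * γ, by ring⟩
  let θ : R →+ R ⧸ H' := (QuotientAddGroup.mk' H').comp (AddMonoidHom.mulLeft (γ ^ i))
  have hr : θ.range = H.map (QuotientAddGroup.mk' H') := by
    ext z
    constructor
    · rintro ⟨x, rfl⟩
      exact ⟨γ ^ i * x, Ideal.mem_span_singleton'.mpr ⟨x, by ring⟩, rfl⟩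
    · rintro ⟨y, hy, rfl⟩
      obtain ⟨x, rfl⟩ := Ideal.mem_span_singleton'.mp hy
      refine ⟨x, ?_⟩
      change QuotientAddGroup.mk' H' (γ ^ i * x) = _
      rw [mul_comm]
  have h1 := card_L H H' hle θ hr
  have h2 : Nat.card θ.ker = Nat.card (Ideal.span {γ}) := by
    refine Nat.card_congr (Equiv.subtypeEquivRight fun x => ?_)
    have h3 : x ∈ θ.ker ↔ γ ^ i * x ∈ Ideal.span {γ ^ (i + 1)} :=
      QuotientAddGroup.eq_zero_iff (N := H') (γ ^ i * x)
    rw [h3]
    constructor
    · intro h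
      by_contra hx
      obtain ⟨u, rfl⟩ := (isUnit_iff_notMem hmax ⟨e, he.1.2⟩ x).mpr hx
      have h4 : γ ^ i ∈ Ideal.span {γ ^ (i + 1)} := by
        have := Ideal.mul_mem_right (↑u⁻¹ : R) _ h
        rwa [mul_assoc, Units.mul_inv, mul_one] at this
      exact absurd (pow_mem_span hmax he i h4) (by omega)
    · intro h
      obtain ⟨y, rfl⟩ := Ideal.mem_span_singleton'.mp h
      exact Ideal.mem_span_singleton'.mpr ⟨y, by ring⟩
  rw [h2] at h1
  have h5 : Nat.card R = Nat.card (Ideal.span {γ}) * Nat.card (R ⧸ Ideal.span {γ}) :=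
    Submodule.card_eq_card_quotient_mul_card (Ideal.span {γ})
  rw [h5] at h1
  have h6 : 0 < Nat.card (Ideal.span {γ}) := Nat.card_pos
  have h7 : Nat.card (Ideal.span {γ}) * Nat.card (Ideal.span {γ ^ i}) =
      Nat.card (Ideal.span {γ}) * (Nat.card (R ⧸ Ideal.span {γ}) *
        Nat.card (Ideal.span {γ ^ (i + 1)})) := by
    have : Nat.card H = Nat.card (Ideal.span {γ ^ i}) := rfl
    have h8 : Nat.card H' = Nat.card (Ideal.span {γ ^ (i + 1)}) := rfl
    rw [this, h8] at h1
    rw [mul_comm, h1]; ring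
  exact Nat.eq_of_mul_eq_mul_left h6 h7

include hmax he in
theorem card_span [Finite R] {i : ℕ} (hi : i ≤ e) :
    Nat.card (Ideal.span {γ ^ i}) = Nat.card (R ⧸ Ideal.span {γ}) ^ (e - i) := by
  induction hd : e - i generalizing i with
  | zero =>
    have : i = e := by omega
    subst this
    rw [he.1.2, pow_zero, Ideal.span_singleton_eq_bot.mpr rfl]
    simp
  | succ d ih =>
    rw [card_span_aux hmax he (show i < e by omega), ih (by omega) (by omega), pow_succ']

include hmax he in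
theorem card_ring [Finite R] : Nat.card R = Nat.card (R ⧸ Ideal.span {γ}) ^ e := by
  have h := card_span hmax he (i := 0) (Nat.zero_le _)
  rw [pow_zero, Nat.sub_zero, Ideal.span_singleton_one] at h
  rw [← h]
  exact (Nat.card_congr (Equiv.subtypeUnivEquiv (fun x => Submodule.mem_top))).symm

include hmax he in
/-- Subsets stable under multiplication are determined by the powers of `γ` they contain. -/
theorem card_stable [Finite R] (K : R → Prop) (h0 : K 0) (hK : ∀ x c, K x → K (x * c)) :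
    Nat.card {x // K x} * Nat.card (R ⧸ Ideal.span {γ}) ^ sInf {s | K (γ ^ s)} = Nat.card R := by
  have hne : {s | K (γ ^ s)}.Nonempty := ⟨e, by rw [Set.mem_ofPred_eq, he.1.2]; exact h0⟩
  set t := sInf {s | K (γ ^ s)} with ht
  have ht1 : K (γ ^ t) := Nat.sInf_mem hne
  have hte : t ≤ e := Nat.sInf_le (by rw [Set.mem_ofPred_eq, he.1.2]; exact h0)
  have h1 : Nat.card {x // K x} = Nat.card (Ideal.span {γ ^ t}) := by
    refine Nat.card_congr (Equiv.subtypeEquivRight fun x => ?_)
    constructor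
    · intro hx
      obtain ⟨s, _, u, ⟨u', rfl⟩, rfl⟩ := exists_form hmax he x
      have h2 : K (γ ^ s) := by
        have := hK _ (↑u'⁻¹ : R) hx
        rwa [mul_assoc, Units.mul_inv, mul_one] at this
      have h3 : t ≤ s := Nat.sInf_le h2
      obtain ⟨d, rfl⟩ := Nat.exists_eq_add_of_le h3
      exact Ideal.mem_span_singleton'.mpr ⟨γ ^ d * u', by ring⟩
    · intro hx
      obtain ⟨y, rfl⟩ := Ideal.mem_span_singleton'.mp hx
      rw [mul_comm]
      exact hK _ _ ht1
  rw [h1, card_span hmax he hte, ← pow_add, card_ring hmax he]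
  congr 1
  omega

end chain

section ghost

variable {p : ℕ} [hp : Fact p.Prime] {R : Type*} [CommRing R]

theorem add_pow_mem (r : ℕ) (a b : R) : ∃ w ∈ gh p r R,
    (a + b) ^ p ^ (r + 1) = a ^ p ^ (r + 1) + b ^ p ^ (r + 1) + p * w := by
  let x : WittVector p R := WittVector.teichmuller p (a + b) - WittVector.teichmuller p a -
    WittVector.teichmuller p b
  have h0 : x.coeff 0 = 0 := by
    have h1 : WittVector.constantCoeff x = 0 := by
      simp only [x, map_sub]
      change (WittVector.teichmuller p (a + b)).coeff 0 - (WittVector.teichmuller p a).coeff 0 -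
        (WittVector.teichmuller p b).coeff 0 = 0
      rw [WittVector.teichmuller_coeff_zero, WittVector.teichmuller_coeff_zero,
        WittVector.teichmuller_coeff_zero]
      ring
    exact h1
  have h2 : x = WittVector.verschiebung (x.shift 1) := by
    have := WittVector.eq_iterate_verschiebung (x := x) (n := 1) (by
      intro i hi
      have : i = 0 := by omega
      rw [this, h0])
    simpa using this
  have h3 : WittVector.ghostComponent (r + 1) x =
      p * WittVector.ghostComponent r (x.shift 1) := by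
    nth_rewrite 1 [h2]
    rw [WittVector.ghostComponent_verschiebung]
  refine ⟨WittVector.ghostComponent r (x.shift 1), ⟨_, rfl⟩, ?_⟩
  rw [← h3]
  simp only [x, map_sub, WittVector.ghostComponent_teichmuller]
  ring

/-- `p^j` times the image of the `r`-th ghost component. -/
noncomputable def pgh (p : ℕ) [Fact p.Prime] (j r : ℕ) (R : Type*) [CommRing R] : AddSubgroup R :=
  (gh p r R).toAddSubgroup.map (AddMonoidHom.mulLeft ((p : R) ^ j))

theorem mem_pgh {j r : ℕ} {x : R} : x ∈ pgh p j r R ↔ ∃ w ∈ gh p r R, (p : R) ^ j * w = x :=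
  Iff.rfl

variable {γ : R} {e : ℕ} (hmax : (Ideal.span {γ}).IsMaximal)
  (he : IsLeast {s | 0 < s ∧ γ ^ s = 0} e)

include hmax he in
theorem card_pgh_zero [Finite R] (j : ℕ) : Nat.card (pgh p j 0 R) =
    Nat.card (R ⧸ Ideal.span {γ}) ^ sInf {s | (p : R) ^ j * γ ^ s = 0} := by
  let f : R →+ R := AddMonoidHom.mulLeft ((p : R) ^ j)
  have h1 := card_surj f.rangeRestrict f.rangeRestrict_surjective
  rw [AddMonoidHom.ker_rangeRestrict] at h1
  have h2 := card_stable hmax he (fun x => (p : R) ^ j * x = 0) (by simp)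
    (fun x c hx => by rw [← mul_assoc, hx, zero_mul])
  have h3 : Nat.card f.ker = Nat.card {x // (p : R) ^ j * x = 0} := rfl
  have h4 : Nat.card (pgh p j 0 R) = Nat.card f.range := by
    refine Nat.card_congr (Equiv.subtypeEquivRight fun x => ?_)
    constructor
    · rintro ⟨w, _, rfl⟩; exact ⟨w, rfl⟩
    · rintro ⟨w, rfl⟩; exact ⟨w, mem_gh_zero w, rfl⟩
  rw [← h2, h3, mul_comm] at h1
  rw [h4]
  have h5 : 0 < Nat.card {x : R // (p : R) ^ j * x = 0} := by
    have : Nonempty {x : R // (p : R) ^ j * x = 0} := ⟨⟨0, mul_zero _⟩⟩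
    exact Nat.card_pos
  exact (Nat.eq_of_mul_eq_mul_right h5 h1).symm

include hmax he in
theorem card_pgh_succ [Finite R] (j r : ℕ) : Nat.card (pgh p j (r + 1) R) =
    Nat.card (R ⧸ Ideal.span {γ}) ^
      sInf {s | (p : R) ^ j * (γ ^ s) ^ p ^ (r + 1) ∈ pgh p (j + 1) r R} *
      Nat.card (pgh p (j + 1) r R) := by
  let H := pgh p j (r + 1) R
  let H' := pgh p (j + 1) r R
  have hle : H' ≤ H := by
    rintro x ⟨w, hw, rfl⟩
    refine ⟨p * w, mul_p_mem hw, ?_⟩
    change (p : R) ^ j * (p * w) = (p : R) ^ (j + 1) * w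
    ring
  let θ : R →+ R ⧸ H' :=
    { toFun := fun a => QuotientAddGroup.mk' H' ((p : R) ^ j * a ^ p ^ (r + 1))
      map_zero' := by
        rw [zero_pow (pow_ne_zero _ hp.out.ne_zero), mul_zero, map_zero]
      map_add' := by
        intro a b
        obtain ⟨w, hw, hab⟩ := add_pow_mem (p := p) r a b
        rw [hab, mul_add, mul_add, map_add, map_add]
        have : QuotientAddGroup.mk' H' ((p : R) ^ j * (p * w)) = 0 := by
          refine (QuotientAddGroup.eq_zero_iff _).mpr ⟨w, hw, ?_⟩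
          change (p : R) ^ (j + 1) * w = (p : R) ^ j * (p * w)
          ring
        rw [this, add_zero] }
  have hr : θ.range = H.map (QuotientAddGroup.mk' H') := by
    ext z
    constructor
    · rintro ⟨x, rfl⟩
      exact ⟨(p : R) ^ j * x ^ p ^ (r + 1), ⟨x ^ p ^ (r + 1), pow_mem_gh _ _, rfl⟩, rfl⟩
    · rintro ⟨y, ⟨w, hw, rfl⟩, rfl⟩
      obtain ⟨a, c, hc, rfl⟩ := mem_gh_succ.mp hw
      refine ⟨a, ?_⟩
      change QuotientAddGroup.mk' H' ((p : R) ^ j * a ^ p ^ (r + 1)) =
        QuotientAddGroup.mk' H' ((p : R) ^ j * (a ^ p ^ (r + 1) + p * c))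
      rw [mul_add, map_add]
      have : QuotientAddGroup.mk' H' ((p : R) ^ j * (p * c)) = 0 := by
        refine (QuotientAddGroup.eq_zero_iff _).mpr ⟨c, hc, ?_⟩
        change (p : R) ^ (j + 1) * c = (p : R) ^ j * (p * c)
        ring
      rw [this, add_zero]
  have h1 := card_L H H' hle θ hr
  have h2 := card_stable hmax he (fun x => (p : R) ^ j * x ^ p ^ (r + 1) ∈ H')
    (by rw [zero_pow (pow_ne_zero _ hp.out.ne_zero), mul_zero]; exact zero_mem _)
    (by
      rintro x c ⟨w, hw, hx⟩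
      refine ⟨w * c ^ p ^ (r + 1), (gh p r R).mul_mem hw (gh_succ_le (pow_mem_gh (r + 1) c)), ?_⟩
      have hx' : (p : R) ^ (j + 1) * w = (p : R) ^ j * x ^ p ^ (r + 1) := hx
      change (p : R) ^ (j + 1) * (w * c ^ p ^ (r + 1)) = (p : R) ^ j * (x * c) ^ p ^ (r + 1)
      rw [mul_pow, ← mul_assoc, hx']; ring)
  have h3 : Nat.card θ.ker = Nat.card {x // (p : R) ^ j * x ^ p ^ (r + 1) ∈ H'} := by
    refine Nat.card_congr (Equiv.subtypeEquivRight fun x => ?_)
    exact QuotientAddGroup.eq_zero_iff (N := H') ((p : R) ^ j * x ^ p ^ (r + 1))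
  rw [h3, ← h2] at h1
  have h4 : 0 < Nat.card {x // (p : R) ^ j * x ^ p ^ (r + 1) ∈ H'} := by
    have : Nonempty {x // (p : R) ^ j * x ^ p ^ (r + 1) ∈ H'} :=
      ⟨⟨0, by rw [zero_pow (pow_ne_zero _ hp.out.ne_zero), mul_zero]; exact zero_mem _⟩⟩
    exact Nat.card_pos
  refine Nat.eq_of_mul_eq_mul_right h4 ?_
  rw [h1]; ring

/-- The set of the sums `∑_{i=j}^{k} p^i b_i^{p^(k-i)}`. -/
def V (p j k : ℕ) (R : Type*) [CommRing R] : Set R :=
  {x | ∃ b : ℕ → R, x = ∑ i ∈ Finset.Ico j (k + 1), (p : R) ^ i * b i ^ p ^ (k - i)}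

theorem mem_V {j r : ℕ} {x : R} : x ∈ V p j (j + r) R ↔ x ∈ pgh p j r R := by
  rw [mem_pgh]
  constructor
  · rintro ⟨b, rfl⟩
    refine ⟨_, mem_gh.mpr ⟨fun i => b (j + i), rfl⟩, ?_⟩
    rw [Finset.sum_Ico_eq_sum_range, show j + r + 1 - j = r + 1 by omega, Finset.mul_sum]
    refine Finset.sum_congr rfl fun i _ => ?_
    rw [show j + r - (j + i) = r - i by omega, pow_add]; ring
  · rintro ⟨w, hw, rfl⟩
    obtain ⟨b, rfl⟩ := mem_gh.mp hw
    refine ⟨fun i => b (i - j), ?_⟩
    rw [Finset.sum_Ico_eq_sum_range, show j + r + 1 - j = r + 1 by omega, Finset.mul_sum]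
    refine Finset.sum_congr rfl fun i _ => ?_
    simp only [Nat.add_sub_cancel_left]
    rw [show j + r - (j + i) = r - i by omega, pow_add]; ring

theorem mem_V_zero {k : ℕ} {x : R} : x ∈ V p 0 k R ↔ x ∈ gh p k R := by
  have := mem_V (p := p) (j := 0) (r := k) (x := x)
  rw [zero_add] at this
  rw [this, mem_pgh]
  simp

/-- The least exponents. -/
noncomputable def tt (p : ℕ) (γ : R) (k j : ℕ) : ℕ :=
  sInf {s | (p : R) ^ j * γ ^ (s * p ^ (k - j)) ∈ V p (j + 1) k R}

include hmax he in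
theorem card_pgh [Finite R] (r j : ℕ) : Nat.card (pgh p j r R) =
    Nat.card (R ⧸ Ideal.span {γ}) ^ ∑ i ∈ Finset.Ico j (j + r + 1), tt p γ (j + r) i := by
  induction r generalizing j with
  | zero =>
    rw [card_pgh_zero hmax he, add_zero, Finset.sum_Ico_succ_top le_rfl, Finset.Ico_self,
      Finset.sum_empty, zero_add, tt]
    congr 2
    ext s
    simp [V]
  | succ r ih =>
    have e1 : j + 1 + r = j + (r + 1) := by omega
    have e2 : {s | (p : R) ^ j * (γ ^ s) ^ p ^ (r + 1) ∈ pgh p (j + 1) r R} =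
        {s | (p : R) ^ j * γ ^ (s * p ^ (j + (r + 1) - j)) ∈ V p (j + 1) (j + (r + 1)) R} := by
      ext s
      change (p : R) ^ j * (γ ^ s) ^ p ^ (r + 1) ∈ pgh p (j + 1) r R ↔
        (p : R) ^ j * γ ^ (s * p ^ (j + (r + 1) - j)) ∈ V p (j + 1) (j + (r + 1)) R
      rw [← e1, mem_V, show j + 1 + r - j = r + 1 by omega, pow_mul]
    rw [card_pgh_succ hmax he, ih, e1, e2, ← pow_add]
    congr 1
    rw [Finset.sum_eq_sum_Ico_succ_bot (show j < j + (r + 1) + 1 by omega)]
    rfl

end ghost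

end Pool.Agent.R839.Circ
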