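import Pool.Agent.R839.CircGhost

/-!
# Counting circulants with unit determinant
-/

namespace Pool.Agent.R839.Circ

open Polynomial Matrix UniqueFactorizationMonoid

section vec

variable {A : Type*} [CommRing A] {n : ℕ}

/-- The polynomial of a vector. -/
noncomputable def pol (v : Fin n → A) : A[X] := ∑ i : Fin n, C (v i) * X ^ (i : ℕ)

/-- The circulant matrix of a vector. -/
def cirM [NeZero n] (v : Fin n → A) : Matrix (Fin n) (Fin n) A := Matrix.of fun i j => v (j - i)

theorem pol_add (v w : Fin n → A) : pol (v + w) = pol v + pol w := by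
  simp [pol, add_mul, Finset.sum_add_distrib]

theorem pol_map {B : Type*} [CommRing B] (ψ : A →+* B) (v : Fin n → A) :
    (pol v).map ψ = pol (fun i => ψ (v i)) := by
  simp [pol, Polynomial.map_sum]

theorem aeval_pol [NeZero n] (v : Fin n → A) : aeval (Q n (1 : A)) (pol v) = cirM v := by
  ext i j
  rw [pol, map_sum, Matrix.sum_apply, cirM, Matrix.of_apply]
  have hterm : ∀ l : Fin n, (aeval (Q n (1 : A)) (C (v l) * X ^ (l : ℕ))) i j =
      if l = j - i then v l else 0 := by
    intro l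
    rw [map_mul, aeval_C, map_pow, aeval_X, Algebra.algebraMap_eq_smul_one, smul_mul_assoc, one_mul,
      Matrix.smul_apply, Q_pow_apply _ _ _ l.isLt.le, smul_eq_mul]
    have hi := i.isLt
    have hj := j.isLt
    have hl := l.isLt
    have h1 : l = j - i ↔ ((j : ℕ) = i + l ∨ (j : ℕ) + n = i + l) := by
      rw [eq_sub_iff_add_eq', Fin.ext_iff, Fin.val_add]
      rcases Nat.lt_or_ge ((i : ℕ) + l) n with h | h
      · rw [Nat.mod_eq_of_lt h]; omega
      · rw [Nat.mod_eq_sub_mod h, Nat.mod_eq_of_lt (by omega)]; omega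
    by_cases h2 : (j : ℕ) = i + l
    · rw [if_pos h2, if_pos (h1.mpr (Or.inl h2)), mul_one]
    · by_cases h3 : (j : ℕ) + n = i + l
      · rw [if_neg h2, if_pos h3, if_pos (h1.mpr (Or.inr h3)), mul_one]
      · rw [if_neg h2, if_neg h3, if_neg (fun h => (h1.mp h).elim h2 h3), mul_zero]
  rw [Finset.sum_congr rfl fun l _ => hterm l]
  simp

theorem det_cirM [NeZero n] (v : Fin n → A) : (cirM v).det = Del n (pol v) := by
  rw [Del, aeval_pol]

theorem cirM_injective [NeZero n] : Function.Injective (cirM : (Fin n → A) → _) := by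
  intro v w h
  funext j
  have := congrFun (congrFun h 0) j
  simpa [cirM] using this

theorem aeval_X_pow_sub (n : ℕ) : aeval (Q n (1 : A)) (X ^ n - 1 : A[X]) = 0 := by
  rw [map_sub, map_pow, aeval_X, Q_pow_self, map_one, map_one, sub_self]

theorem exists_vec [NeZero n] (f : A[X]) : ∃ v : Fin n → A, (X ^ n - 1 : A[X]) ∣ f - pol v := by
  nontriviality A
  have hmon : (X ^ n - 1 : A[X]).Monic := monic_X_pow_sub_C 1 (NeZero.ne n)
  have hdeg : (f %ₘ (X ^ n - 1)).natDegree < n := by
    have h1 : (X ^ n - 1 : A[X]).natDegree = n := natDegree_X_pow_sub_C (r := (1 : A))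
    have := natDegree_modByMonic_lt f hmon (by
      intro h
      have := congrArg natDegree h
      rw [h1, natDegree_one] at this
      exact NeZero.ne n this)
    rwa [h1] at this
  refine ⟨fun i => (f %ₘ (X ^ n - 1)).coeff i, ?_⟩
  have h2 : pol (fun i : Fin n => (f %ₘ (X ^ n - 1)).coeff i) = f %ₘ (X ^ n - 1) := by
    rw [pol, Fin.sum_univ_eq_sum_range (fun i => C ((f %ₘ (X ^ n - 1)).coeff i) * X ^ i)]
    exact ((f %ₘ (X ^ n - 1)).as_sum_range_C_mul_X_pow' hdeg).symm
  rw [h2]
  exact ⟨f /ₘ (X ^ n - 1), by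
    nth_rewrite 1 [← modByMonic_add_div f (X ^ n - 1 : A[X])]
    ring⟩

theorem exists_cir [NeZero n] (f : A[X]) : ∃ v : Fin n → A, cirM v = aeval (Q n (1 : A)) f := by
  obtain ⟨v, g, hg⟩ := exists_vec (n := n) f
  refine ⟨v, ?_⟩
  rw [← aeval_pol, ← sub_eq_zero, ← neg_eq_zero, neg_sub, ← map_sub, hg, map_mul,
    aeval_X_pow_sub, zero_mul]

theorem dvd_of_aeval_eq_zero [NeZero n] {f : A[X]} (h : aeval (Q n (1 : A)) f = 0) :
    (X ^ n - 1 : A[X]) ∣ f := by
  obtain ⟨v, g, hg⟩ := exists_vec (n := n) f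
  have h1 : cirM v = cirM (0 : Fin n → A) := by
    have h0 : cirM (0 : Fin n → A) = 0 := by ext i j; simp [cirM]
    have e : pol v = f - (X ^ n - 1) * g := by rw [← hg]; ring
    rw [h0, ← aeval_pol, e, map_sub, h, map_mul, aeval_X_pow_sub, zero_mul, sub_zero]
  have h2 := cirM_injective h1
  subst h2
  have h3 : pol (0 : Fin n → A) = 0 := by simp [pol]
  rw [h3, sub_zero] at hg
  exact ⟨g, hg⟩

theorem card_fibre [NeZero n] [Finite A] (w : Fin n → A) (hw : IsUnit (cirM w).det) (b : A) :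
    Nat.card {v : Fin n → A // (cirM v).det = (cirM w).det * b} =
      Nat.card {v : Fin n → A // (cirM v).det = b} := by
  have hT : ∀ v : Fin n → A, ∃ u : Fin n → A, cirM u = cirM w * cirM v := by
    intro v
    obtain ⟨u, hu⟩ := exists_cir (n := n) (pol w * pol v)
    exact ⟨u, by rw [hu, map_mul, aeval_pol, aeval_pol]⟩
  choose T hT using hT
  have hwM : IsUnit (cirM w) := (Matrix.isUnit_iff_isUnit_det _).mpr hw
  have hinj : Function.Injective T := by
    intro v v' h
    have := congrArg cirM h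
    rw [hT, hT] at this
    exact cirM_injective (hwM.mul_left_cancel this)
  have hbij : Function.Bijective T := Finite.injective_iff_bijective.mp hinj
  refine (Nat.card_congr ((Equiv.ofBijective T hbij).subtypeEquiv ?_)).symm
  intro v
  change (cirM v).det = b ↔ (cirM (T v)).det = (cirM w).det * b
  rw [hT, Matrix.det_mul]
  exact ⟨fun h => by rw [h], fun h => hw.mul_left_cancel h⟩

theorem isUnit_Del_iff [NeZero n] [Finite A] (f : A[X]) :
    IsUnit (Del n f) ↔ IsCoprime f (X ^ n - 1) := by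
  constructor
  · intro h
    have hu : IsUnit (aeval (Q n (1 : A)) f) := (Matrix.isUnit_iff_isUnit_det _).mpr h
    obtain ⟨u, hu⟩ := hu
    have h1 : 0 < orderOf u := orderOf_pos u
    have h2 : aeval (Q n (1 : A)) (f ^ orderOf u - 1) = 0 := by
      rw [map_sub, map_pow, ← hu, map_one, ← Units.val_pow_eq_pow_val, pow_orderOf_eq_one,
        Units.val_one, sub_self]
    obtain ⟨g, hg⟩ := dvd_of_aeval_eq_zero h2
    refine ⟨f ^ (orderOf u - 1), -g, ?_⟩
    rw [← pow_succ, Nat.sub_add_cancel h1, neg_mul, mul_comm g, ← hg]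
    ring
  · rintro ⟨a, b, hab⟩
    have h1 : aeval (Q n (1 : A)) a * aeval (Q n (1 : A)) f = 1 := by
      have := congrArg (aeval (Q n (1 : A))) hab
      rwa [map_add, map_mul, map_mul, aeval_X_pow_sub, mul_zero, add_zero, map_one] at this
    have h2 : Del n a * Del n f = 1 := by
      rw [Del, Del, ← Matrix.det_mul, h1, Matrix.det_one]
    exact IsUnit.of_mul_eq_one (Del n a) (by rw [mul_comm]; exact h2)

end vec

section pull

theorem card_pull_aux {G H : Type*} [AddCommGroup G] [AddCommGroup H] (φ : G →+ H)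
    (hφ : Function.Surjective φ) (P : H → Prop) :
    Nat.card {g // P (φ g)} = Nat.card {h // P h} * Nat.card φ.ker := by
  choose s hs using hφ
  rw [← Nat.card_prod]
  refine Nat.card_congr ⟨fun g => (⟨φ g.1, g.2⟩, ⟨g.1 - s (φ g.1), ?_⟩),
    fun x => ⟨s x.1.1 + x.2.1, ?_⟩, ?_, ?_⟩
  · rw [AddMonoidHom.mem_ker, map_sub, hs, sub_self]
  · have : φ x.2.1 = 0 := x.2.2
    rw [map_add, hs, this, add_zero]
    exact x.1.2
  · rintro ⟨g, hg⟩
    simp
  · rintro ⟨⟨h, hh⟩, ⟨k, hk⟩⟩
    have hk' : φ k = 0 := hk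
    simp [hs, hk']

theorem card_pull {G H : Type*} [AddCommGroup G] [AddCommGroup H] (φ : G →+ H)
    (hφ : Function.Surjective φ) (P : H → Prop) :
    Nat.card {g // P (φ g)} * Nat.card H = Nat.card G * Nat.card {h // P h} := by
  have h1 := card_pull_aux φ hφ P
  have h2 := card_pull_aux φ hφ (fun _ => True)
  have h3 : Nat.card {g : G // True} = Nat.card G := Nat.card_congr (Equiv.subtypeUnivEquiv (by simp))
  have h4 : Nat.card {h : H // True} = Nat.card H := Nat.card_congr (Equiv.subtypeUnivEquiv (by simp))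
  rw [h3, h4] at h2
  rw [h1, h2]; ring

end pull

section field

variable {F : Type*} [Field F] [DecidableEq F] {p : ℕ} [hp : Fact p.Prime]

/-- The irreducible factors of `X^m - 1`. -/
noncomputable def fac (F : Type*) [Field F] [DecidableEq F] (m : ℕ) : Finset F[X] :=
  (normalizedFactors (X ^ m - 1 : F[X])).toFinset

theorem mem_fac {m : ℕ} {P : F[X]} : P ∈ fac F m ↔ P ∈ normalizedFactors (X ^ m - 1 : F[X]) :=
  Multiset.mem_toFinset

theorem X_pow_sub_ne {m : ℕ} (hm : 0 < m) : (X ^ m - 1 : F[X]) ≠ 0 :=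
  (monic_X_pow_sub_C (1 : F) hm.ne').ne_zero

theorem coprime_iff [CharP F p] (m k : ℕ) (hm : 0 < m) (f : F[X]) :
    IsCoprime f (X ^ (m * p ^ k) - 1) ↔ ∀ P ∈ fac F m, ¬ P ∣ f := by
  have h1 : (X ^ (m * p ^ k) - 1 : F[X]) = (X ^ m - 1) ^ p ^ k := by
    rw [sub_pow_char_pow, one_pow, ← pow_mul]
  rw [h1, IsCoprime.pow_right_iff (pow_pos hp.out.pos k)]
  constructor
  · intro h P hP hPf
    rw [mem_fac] at hP
    exact (irreducible_of_normalized_factor P hP).not_isUnit
      (h.isUnit_of_dvd' hPf (dvd_of_mem_normalizedFactors hP))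
  · intro h
    refine isCoprime_of_irreducible_dvd (fun h' => X_pow_sub_ne hm h'.2) ?_
    intro z hz hzf hzX
    obtain ⟨P, hP, hzP⟩ := exists_mem_normalizedFactors_of_dvd (X_pow_sub_ne hm) hz hzX
    exact h P (mem_fac.mpr hP) (hzP.symm.dvd.trans hzf)

theorem fac_coprime (m : ℕ) :
    Pairwise (Function.onFun IsCoprime (fun P : fac F m => Ideal.span {(P : F[X])})) := by
  intro P P' hne
  have h1 := mem_fac.mp P.2
  have h2 := mem_fac.mp P'.2
  rw [Function.onFun, Ideal.isCoprime_span_singleton_iff]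
  rw [(irreducible_of_normalized_factor _ h1).coprime_iff_not_dvd]
  intro hd
  apply hne
  have h3 : Associated (P : F[X]) P' :=
    (irreducible_of_normalized_factor _ h1).associated_of_dvd
      (irreducible_of_normalized_factor _ h2) hd
  have h4 := normalize_eq_normalize_iff_associated.mpr h3
  rw [normalize_normalized_factor _ h1, normalize_normalized_factor _ h2] at h4
  exact Subtype.ext h4

theorem card_quot (P : F[X]) (hP : P ≠ 0) :
    Nat.card (F[X] ⧸ Ideal.span {P}) = Nat.card F ^ P.natDegree := by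
  have h1 : Module.Finite F (F[X] ⧸ Ideal.span {P}) := by
    have : Module.Finite F (AdjoinRoot P) := by
      exact (AdjoinRoot.powerBasis hP).finite
    exact this
  rw [Module.natCard_eq_pow_finrank (K := F), finrank_quotient_span_eq_natDegree]

end field

section count

variable {F : Type*} [Field F] [Finite F] [DecidableEq F] {p : ℕ} [hp : Fact p.Prime] [CharP F p]
  {R : Type*} [CommRing R] [Finite R]

theorem card_units_aux (π : R →+* F) (hπ : Function.Surjective π)
    (hu : ∀ x : R, IsUnit x ↔ π x ≠ 0) (m k : ℕ) (hm : 0 < m) [NeZero (m * p ^ k)] :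
    (Nat.card {v : Fin (m * p ^ k) → R // IsUnit (cirM v).det} : ℚ) =
      (Nat.card R : ℚ) ^ (m * p ^ k) *
        ∏ P ∈ fac F m, (1 - ((Nat.card F : ℚ) ^ P.natDegree)⁻¹) := by
  set n := m * p ^ k with hn
  let φ : (Fin n → R) →+ ((P : fac F m) → F[X] ⧸ Ideal.span {(P : F[X])}) :=
    { toFun := fun v P => Ideal.Quotient.mk _ ((pol v).map π)
      map_zero' := by
        funext P
        simp [pol]
      map_add' := by
        intro v w
        funext P
        simp [pol_add] }
  have hne : ∀ P : fac F m, (P : F[X]) ≠ 0 := fun P =>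
    (irreducible_of_normalized_factor _ (mem_fac.mp P.2)).ne_zero
  have hφ : Function.Surjective φ := by
    intro x
    obtain ⟨f, hf⟩ := Ideal.pi_quotient_surjective (fac_coprime (F := F) m) x
    obtain ⟨v', hv'⟩ := exists_vec (n := n) f
    choose v hv using fun i => hπ (v' i)
    refine ⟨v, ?_⟩
    funext P
    rw [← hf P]
    change Ideal.Quotient.mk _ ((pol v).map π) = Ideal.Quotient.mk _ f
    rw [pol_map, show (fun i => π (v i)) = v' from funext hv, eq_comm, Ideal.Quotient.eq,
      Ideal.mem_span_singleton]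
    have h1 : (P : F[X]) ∣ X ^ m - 1 := dvd_of_mem_normalizedFactors (mem_fac.mp P.2)
    have h2 : (X ^ m - 1 : F[X]) ∣ X ^ n - 1 := by
      rw [hn, pow_mul]
      simpa using sub_dvd_pow_sub_pow (X ^ m : F[X]) 1 (p ^ k)
    exact (h1.trans h2).trans hv'
  have key : ∀ v : Fin n → R, IsUnit (cirM v).det ↔ ∀ P, φ v P ≠ 0 := by
    intro v
    rw [hu, det_cirM, ← Del_map, ← isUnit_iff_ne_zero, isUnit_Del_iff, coprime_iff (p := p) m k hm]
    constructor
    · intro h P hP
      exact h P P.2 (Ideal.mem_span_singleton.mp (Ideal.Quotient.eq_zero_iff_mem.mp hP))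
    · intro h P hP hPd
      exact h ⟨P, hP⟩ (Ideal.Quotient.eq_zero_iff_mem.mpr (Ideal.mem_span_singleton.mpr hPd))
  have h1 := card_pull φ hφ (fun x => ∀ P, x P ≠ 0)
  have h2 : Nat.card {v : Fin n → R // IsUnit (cirM v).det} =
      Nat.card {v : Fin n → R // ∀ P, φ v P ≠ 0} :=
    Nat.card_congr (Equiv.subtypeEquivRight key)
  have hfin : ∀ P : fac F m, Finite (F[X] ⧸ Ideal.span {(P : F[X])}) := by
    intro P
    apply Nat.finite_of_card_ne_zero
    rw [card_quot _ (hne P)]
    exact pow_ne_zero _ Nat.card_pos.ne'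
  have h3 : Nat.card ((P : fac F m) → F[X] ⧸ Ideal.span {(P : F[X])}) =
      ∏ P ∈ fac F m, Nat.card F ^ P.natDegree := by
    rw [Nat.card_pi, ← Finset.prod_attach (fac F m)]
    exact Finset.prod_congr rfl fun P _ => card_quot _ (hne P)
  have h4 : Nat.card {x : (P : fac F m) → F[X] ⧸ Ideal.span {(P : F[X])} // ∀ P, x P ≠ 0} =
      ∏ P ∈ fac F m, (Nat.card F ^ P.natDegree - 1) := by
    have e : {x : (P : fac F m) → F[X] ⧸ Ideal.span {(P : F[X])} // ∀ P, x P ≠ 0} ≃
        ((P : fac F m) → {b : F[X] ⧸ Ideal.span {(P : F[X])} // b ≠ 0}) :=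
      Equiv.subtypePiEquivPi
        (p := fun (P : fac F m) (b : F[X] ⧸ Ideal.span {(P : F[X])}) => b ≠ 0)
    rw [Nat.card_congr e, Nat.card_pi, ← Finset.prod_attach (fac F m)]
    refine Finset.prod_congr rfl fun P _ => ?_
    have h5 : Nat.card {b : F[X] ⧸ Ideal.span {(P : F[X])} // b ≠ 0} =
        Nat.card (F[X] ⧸ Ideal.span {(P : F[X])}) - 1 := by
      classical
      have := hfin P
      have := Fintype.ofFinite (F[X] ⧸ Ideal.span {(P : F[X])})
      rw [Nat.card_eq_fintype_card, Nat.card_eq_fintype_card, Fintype.card_subtype_compl,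
        Fintype.card_subtype_eq]
    rw [h5, card_quot _ (hne P)]
  have h6 : Nat.card (Fin n → R) = Nat.card R ^ n := by
    rw [Nat.card_fun, Nat.card_fin]
  rw [← h2, h3, h4, h6] at h1
  have hq : (1 : ℕ) ≤ Nat.card F := Nat.card_pos
  have h7 := congrArg (fun x : ℕ => (x : ℚ)) h1
  simp only [Nat.cast_mul, Nat.cast_prod, Nat.cast_pow] at h7
  have h8 : ∀ P ∈ fac F m, ((Nat.card F ^ P.natDegree - 1 : ℕ) : ℚ) =
      (Nat.card F : ℚ) ^ P.natDegree * (1 - ((Nat.card F : ℚ) ^ P.natDegree)⁻¹) := by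
    intro P _
    have hne0 : ((Nat.card F : ℚ) ^ P.natDegree) ≠ 0 :=
      pow_ne_zero _ (by exact_mod_cast (by omega : Nat.card F ≠ 0))
    rw [Nat.cast_sub (Nat.one_le_pow _ _ hq), mul_sub, mul_inv_cancel₀ hne0]
    push_cast; ring
  rw [Finset.prod_congr rfl h8, Finset.prod_mul_distrib] at h7
  have hprod : ∏ P ∈ fac F m, (Nat.card F : ℚ) ^ P.natDegree ≠ 0 := by
    apply Finset.prod_ne_zero_iff.mpr
    intro P _
    exact pow_ne_zero _ (by exact_mod_cast (by omega : Nat.card F ≠ 0))
  have h9 : (Nat.card {v : Fin n → R // IsUnit (cirM v).det} : ℚ) *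
      (∏ P ∈ fac F m, (Nat.card F : ℚ) ^ P.natDegree) =
      ((Nat.card R : ℚ) ^ n * ∏ P ∈ fac F m, (1 - ((Nat.card F : ℚ) ^ P.natDegree)⁻¹)) *
      (∏ P ∈ fac F m, (Nat.card F : ℚ) ^ P.natDegree) := by
    rw [h7]; ring
  exact mul_right_cancel₀ hprod h9

/-- The product over the irreducible factors of `X^m - 1`. -/
theorem prod_fac {f : ℕ} (hF : Nat.card F = p ^ f) {m : ℕ} (hm : ¬ p ∣ m) (hm0 : 0 < m) :
    ∏ P ∈ fac F m, (1 - ((Nat.card F : ℚ) ^ P.natDegree)⁻¹) =
      ∏ d ∈ m.divisors, (1 - ((Nat.card F : ℚ) ^ orderOf (Nat.card F : ZMod d))⁻¹) ^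
        (d.totient / orderOf (Nat.card F : ZMod d)) := by
  have := Fintype.ofFinite F
  have hK : Fintype.card F = p ^ f := by rw [← Nat.card_eq_fintype_card, hF]
  have hmF : (m : F) ≠ 0 := fun h => hm ((CharP.cast_eq_zero_iff F p m).mp h)
  have hsq : Squarefree (X ^ m - 1 : F[X]) := (X_pow_sub_one_separable_iff.mpr hmF).squarefree
  have hnodup : (normalizedFactors (X ^ m - 1 : F[X])).Nodup :=
    (squarefree_iff_nodup_normalizedFactors (X_pow_sub_ne hm0)).mp hsq
  have h1 : ∏ P ∈ fac F m, (1 - ((Nat.card F : ℚ) ^ P.natDegree)⁻¹) =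
      ((normalizedFactors (X ^ m - 1 : F[X])).map
        (fun P => (1 - ((Nat.card F : ℚ) ^ P.natDegree)⁻¹))).prod := by
    rw [fac, Finset.prod, Multiset.toFinset_val, Multiset.dedup_eq_self.mpr hnodup]
  rw [h1, ← prod_cyclotomic_eq_X_pow_sub_one hm0]
  have h2 : ∀ s : Finset ℕ, ((normalizedFactors (∏ d ∈ s, cyclotomic d F)).map
        (fun P => (1 - ((Nat.card F : ℚ) ^ P.natDegree)⁻¹))).prod =
      ∏ d ∈ s, ((normalizedFactors (cyclotomic d F)).map
        (fun P => (1 - ((Nat.card F : ℚ) ^ P.natDegree)⁻¹))).prod := by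
    intro s
    induction s using Finset.induction_on with
    | empty => simp
    | insert a s ha ih =>
      rw [Finset.prod_insert ha, Finset.prod_insert ha, normalizedFactors_mul
        (cyclotomic_ne_zero a F) (Finset.prod_ne_zero_iff.mpr fun d _ => cyclotomic_ne_zero d F),
        Multiset.map_add, Multiset.prod_add, ih]
  rw [h2]
  refine Finset.prod_congr rfl fun d hd => ?_
  have hdm : d ∣ m := Nat.dvd_of_mem_divisors hd
  have hpd : ¬ p ∣ d := fun h => hm (h.trans hdm)
  have hcop : p.Coprime d := (Nat.Prime.coprime_iff_not_dvd hp.out).mpr hpd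
  have hord : orderOf (Nat.card F : ZMod d) =
      orderOf (ZMod.unitOfCoprime _ (hcop.pow_left f)) := by
    rw [← orderOf_units, ZMod.coe_unitOfCoprime, hF]
  have hnd : (normalizedFactors (cyclotomic d F)).Nodup := by
    refine (squarefree_iff_nodup_normalizedFactors (cyclotomic_ne_zero d F)).mp
      (hsq.squarefree_of_dvd ?_)
    rw [← prod_cyclotomic_eq_X_pow_sub_one hm0]
    exact Finset.dvd_prod_of_mem _ hd
  have h3 : (normalizedFactors (cyclotomic d F)).map
        (fun P => (1 - ((Nat.card F : ℚ) ^ P.natDegree)⁻¹)) =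
      (normalizedFactors (cyclotomic d F)).map
        (fun _ => (1 - ((Nat.card F : ℚ) ^ orderOf (Nat.card F : ZMod d))⁻¹)) := by
    refine Multiset.map_congr rfl fun P hP => ?_
    rw [natDegree_of_mem_normalizedFactors_cyclotomic hK hcop hP, hord]
  rw [h3, Multiset.map_const', Multiset.prod_replicate]
  congr 1
  have h4 := normalizedFactors_cyclotomic_card (K := F) hK hcop
  rw [Multiset.toFinset_card_of_nodup hnd] at h4
  rw [h4, hord]

end count

end Pool.Agent.R839.Circ
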