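import Pool.Agent.R839.CircNorm

/-!
# Unit determinants of circulants are ghost components
-/

namespace Pool.Agent.R839.Circ

open Polynomial

/-- The image of the `k`-th ghost component. -/
noncomputable def gh (p : ℕ) [Fact p.Prime] (k : ℕ) (A : Type*) [CommRing A] : Subring A :=
  (WittVector.ghostComponent k : WittVector p A →+* A).range

section basic

variable {p : ℕ} [hp : Fact p.Prime] {A : Type*} [CommRing A]

theorem mem_gh {k : ℕ} {x : A} :
    x ∈ gh p k A ↔ ∃ b : ℕ → A, x = ∑ i ∈ Finset.range (k + 1), (p : A) ^ i * b i ^ p ^ (k - i) := by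
  constructor
  · rintro ⟨w, rfl⟩
    exact ⟨w.coeff, by rw [WittVector.ghostComponent_apply, aeval_wittPolynomial]⟩
  · rintro ⟨b, rfl⟩
    refine ⟨WittVector.mk p b, ?_⟩
    rw [WittVector.ghostComponent_apply, aeval_wittPolynomial]
    simp only [WittVector.coeff_mk]

theorem mem_gh_zero (x : A) : x ∈ gh p 0 A := mem_gh.mpr ⟨fun _ => x, by simp⟩

theorem mem_gh_succ {k : ℕ} {x : A} :
    x ∈ gh p (k + 1) A ↔ ∃ a c : A, c ∈ gh p k A ∧ x = a ^ p ^ (k + 1) + p * c := by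
  constructor
  · intro h
    obtain ⟨b, rfl⟩ := mem_gh.mp h
    refine ⟨b 0, _, mem_gh.mpr ⟨fun i => b (i + 1), rfl⟩, ?_⟩
    rw [Finset.sum_range_succ', Finset.mul_sum, add_comm]
    congr 1
    · simp
    · refine Finset.sum_congr rfl fun i _ => ?_
      rw [pow_succ', mul_assoc, Nat.add_sub_add_right]
  · rintro ⟨a, c, hc, rfl⟩
    obtain ⟨b, rfl⟩ := mem_gh.mp hc
    refine mem_gh.mpr ⟨fun i => if i = 0 then a else b (i - 1), ?_⟩
    rw [Finset.sum_range_succ' _ (k + 1), Finset.mul_sum, add_comm]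
    congr 1
    · refine Finset.sum_congr rfl fun i _ => ?_
      rw [pow_succ', mul_assoc, Nat.add_sub_add_right]
      simp
    · simp

theorem mul_p_mem {k : ℕ} {c : A} (hc : c ∈ gh p k A) : (p : A) * c ∈ gh p (k + 1) A :=
  mem_gh_succ.mpr ⟨0, c, hc, by
    rw [zero_pow (pow_ne_zero _ hp.out.ne_zero), zero_add]⟩

theorem mul_pow_mem {k : ℕ} {c : A} (hc : c ∈ gh p k A) (j : ℕ) :
    (p : A) ^ j * c ∈ gh p (j + k) A := by
  induction j with
  | zero => simpa using hc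
  | succ j ih =>
    have := mul_p_mem ih
    rw [show j + 1 + k = j + k + 1 by omega, pow_succ', mul_assoc]
    exact this

theorem gh_succ_le {k : ℕ} {x : A} (h : x ∈ gh p (k + 1) A) : x ∈ gh p k A := by
  induction k generalizing x with
  | zero => exact mem_gh_zero x
  | succ k ih =>
    obtain ⟨a, c, hc, rfl⟩ := mem_gh_succ.mp h
    refine mem_gh_succ.mpr ⟨a ^ p, c, ih hc, ?_⟩
    rw [← pow_mul, ← pow_succ']

theorem gh_le {k l : ℕ} (hkl : k ≤ l) {x : A} (h : x ∈ gh p l A) : x ∈ gh p k A := by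
  induction l, hkl using Nat.le_induction with
  | base => exact h
  | succ l _ ih => exact ih (gh_succ_le h)

theorem pow_mem_gh (k : ℕ) (a : A) : a ^ p ^ k ∈ gh p k A := by
  cases k with
  | zero => exact mem_gh_zero _
  | succ k => exact mem_gh_succ.mpr ⟨a, 0, zero_mem _, by ring⟩

theorem pow_p_mem {k : ℕ} {x : A} (h : x ∈ gh p k A) : x ^ p ∈ gh p (k + 1) A := by
  cases k with
  | zero => exact mem_gh_succ.mpr ⟨x, 0, zero_mem _, by simp⟩
  | succ k =>
    obtain ⟨a, c, hc, rfl⟩ := mem_gh_succ.mp h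
    have hu : a ^ p ^ (k + 1) ∈ gh p k A := gh_succ_le (pow_mem_gh (k + 1) a)
    have h1 : (p : gh p k A) ∣ ((⟨_, hu⟩ + (p : gh p k A) * ⟨c, hc⟩) - ⟨_, hu⟩ : gh p k A) := by
      rw [add_sub_cancel_left]; exact dvd_mul_right _ _
    obtain ⟨z, hz⟩ := dvd_sub_pow_of_dvd_sub h1 1
    have h2 := congrArg (Subring.subtype (gh p k A)) hz
    simp only [map_sub, map_pow, map_add, map_mul, Subring.subtype_apply, pow_one, map_natCast]
      at h2
    have h3 : (a ^ p ^ (k + 1) + (p : A) * c) ^ p =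
        a ^ p ^ (k + 1 + 1) + p * (p * (z : A)) := by
      rw [sub_eq_iff_eq_add] at h2
      rw [h2, ← pow_mul, ← pow_succ]
      ring
    rw [h3]
    exact mem_gh_succ.mpr ⟨a, _, mul_p_mem z.2, rfl⟩

theorem gh_map {B : Type*} [CommRing B] (ψ : A →+* B) {k : ℕ} {x : A} (h : x ∈ gh p k A) :
    ψ x ∈ gh p k B := by
  obtain ⟨b, rfl⟩ := mem_gh.mp h
  exact mem_gh.mpr ⟨fun i => ψ (b i), by simp⟩

theorem Nm_mem {k : ℕ} {f : A[X]} (hf : ∀ i, f.coeff i ∈ gh p k A) (i : ℕ) :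
    (Nm p f).coeff i ∈ gh p (k + 1) A := by
  have h1 : f ∈ lifts (Subring.subtype (gh p k A)) := by
    rw [lifts_iff_coeff_lifts]
    intro n
    exact ⟨⟨_, hf n⟩, rfl⟩
  obtain ⟨F, rfl⟩ := (mem_lifts _).mp h1
  obtain ⟨g, hg⟩ := Nm_coeff p F i
  rw [Nm_map, coeff_map, hg, map_add, map_pow, map_mul, map_natCast]
  exact add_mem (pow_p_mem (F.coeff i).2) (mul_p_mem g.2)

theorem Del_mem (S : Subring A) {f : A[X]} (hf : ∀ i, f.coeff i ∈ S) (m : ℕ) :
    Del m f ∈ S := by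
  have h1 : f ∈ lifts (Subring.subtype S) := by
    rw [lifts_iff_coeff_lifts]
    intro n
    exact ⟨⟨_, hf n⟩, rfl⟩
  obtain ⟨F, rfl⟩ := (mem_lifts _).mp h1
  rw [Del_map]
  exact (Del m F).2

theorem Del_iter (m k : ℕ) (f : A[X]) : Del (m * p ^ k) f = Del m ((Nm p)^[k] f) := by
  induction k generalizing f with
  | zero => simp
  | succ k ih =>
    rw [pow_succ, ← mul_assoc, Del_tower p (m * p ^ k) hp.out.pos, ih, Function.iterate_succ_apply]

theorem Nm_iter_mem (k : ℕ) (f : A[X]) (i : ℕ) : ((Nm p)^[k] f).coeff i ∈ gh p k A := by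
  induction k generalizing i with
  | zero => exact mem_gh_zero _
  | succ k ih =>
    rw [Function.iterate_succ_apply']
    exact Nm_mem ih i

theorem Del_mem_gh (m k : ℕ) (f : A[X]) : Del (m * p ^ k) f ∈ gh p k A := by
  rw [Del_iter]
  exact Del_mem _ (Nm_iter_mem k f) m

theorem Nm_congr' {r : ℕ} (hr : 1 ≤ r) {f g : A[X]} (h : C ((p : A) ^ r) ∣ f - g) :
    C ((p : A) ^ (r + 1)) ∣ Nm p f - Nm p g := by
  obtain ⟨h, hh⟩ := h
  obtain ⟨h', hh'⟩ := Nm_congr p r hr g h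
  rw [← hh, add_sub_cancel] at hh'
  exact ⟨h', by rw [hh']; ring⟩

theorem Nm_iter_congr {r : ℕ} (hr : 1 ≤ r) {f g : A[X]} (h : C ((p : A) ^ r) ∣ f - g) (j : ℕ) :
    C ((p : A) ^ (r + j)) ∣ (Nm p)^[j] f - (Nm p)^[j] g := by
  induction j with
  | zero => simpa using h
  | succ j ih =>
    rw [Function.iterate_succ_apply', Function.iterate_succ_apply']
    exact Nm_congr' (show 1 ≤ r + j by omega) ih

theorem Del_congr (m : ℕ) {s : A} {f g : A[X]} (h : C s ∣ f - g) : s ∣ Del m f - Del m g := by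
  let π := Ideal.Quotient.mk (Ideal.span {s})
  have hπ : ∀ x : A, s ∣ x ↔ π x = 0 := fun x => by
    rw [Ideal.Quotient.eq_zero_iff_mem, Ideal.mem_span_singleton]
  have h1 : f.map π = g.map π := by
    rw [← sub_eq_zero, ← Polynomial.map_sub]
    obtain ⟨q, hq⟩ := h
    rw [hq, Polynomial.map_mul, map_C, (hπ s).mp dvd_rfl, C_0, zero_mul]
  rw [hπ, map_sub, ← Del_map, ← Del_map, h1, sub_self]

/-- `1 + w (1 + X + ⋯ + X^{l-1})`. -/
noncomputable def El (l : ℕ) (w : A) : A[X] := 1 + C w * ∑ i ∈ Finset.range l, X ^ i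

theorem El_coeff (l : ℕ) (w : A) (i : ℕ) :
    (El l w).coeff i = (if i = 0 then 1 else 0) + (if i < l then w else 0) := by
  rw [El, coeff_add, coeff_one, coeff_C_mul, finsetSum_coeff]
  congr 1
  by_cases h : i < l
  · rw [if_pos h, Finset.sum_eq_single i]
    · simp
    · intro b _ hb
      rw [coeff_X_pow, if_neg (Ne.symm hb)]
    · intro h1; exact absurd (Finset.mem_range.mpr h) h1
  · rw [if_neg h, Finset.sum_eq_zero, mul_zero]
    intro b hb
    rw [Finset.mem_range] at hb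
    rw [coeff_X_pow, if_neg (by omega)]

theorem sum_Q_pow (l : ℕ) (r c : Fin l) :
    (∑ i ∈ Finset.range l, Q l (1 : A) ^ i) r c = 1 := by
  rw [Matrix.sum_apply]
  have hr := r.isLt
  have hc := c.isLt
  by_cases h : (r : ℕ) ≤ c
  · rw [Finset.sum_eq_single ((c : ℕ) - r)]
    · rw [Q_pow_apply _ _ _ (by omega), if_pos (by omega)]
    · intro b hb hb'
      rw [Finset.mem_range] at hb
      rw [Q_pow_apply _ _ _ (by omega), if_neg (by omega), if_neg (by omega)]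
    · intro h1; exact absurd (Finset.mem_range.mpr (by omega)) h1
  · rw [Finset.sum_eq_single ((c : ℕ) + l - r)]
    · rw [Q_pow_apply _ _ _ (by omega), if_neg (by omega), if_pos (by omega)]
    · intro b hb hb'
      rw [Finset.mem_range] at hb
      rw [Q_pow_apply _ _ _ (by omega), if_neg (by omega), if_neg (by omega)]
    · intro h1; exact absurd (Finset.mem_range.mpr (by omega)) h1

theorem Del_El (l : ℕ) (w : A) : Del l (El l w) = 1 + l * w := by
  have h : aeval (Q l (1 : A)) (El l w) =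
      1 + Matrix.replicateCol Unit (fun _ => w) * Matrix.replicateRow Unit (fun _ => (1 : A)) := by
    rw [El, map_add, map_one, map_mul, aeval_C, map_sum]
    congr 1
    ext r c
    simp only [map_pow, aeval_X]
    rw [Algebra.algebraMap_eq_smul_one, Matrix.smul_mul, one_mul, Matrix.smul_apply, sum_Q_pow,
      Matrix.mul_apply]
    simp
  rw [Del, h, Matrix.det_one_add_replicateCol_mul_replicateRow]
  simp [dotProduct]

theorem Nm_El (l : ℕ) (w : A) : C (p : A) ∣ Nm p (El l w) - El l (w ^ p) := by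
  rw [C_dvd_iff_dvd_coeff]
  intro i
  obtain ⟨g, hg⟩ := Nm_coeff p (El l w) i
  rw [coeff_sub, hg, El_coeff, El_coeff]
  obtain ⟨r, hr⟩ := exists_add_pow_prime_eq hp.out (if i = 0 then (1 : A) else 0)
    (if i < l then w else 0)
  rw [hr]
  have e1 : (if i = 0 then (1 : A) else 0) ^ p = if i = 0 then 1 else 0 := by
    split_ifs
    · simp
    · simp [hp.out.ne_zero]
  have e2 : (if i < l then w else 0) ^ p = if i < l then w ^ p else 0 := by
    split_ifs
    · rfl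
    · simp [hp.out.ne_zero]
  rw [e1, e2]
  exact ⟨(if i = 0 then (1 : A) else 0) * (if i < l then w else 0) * r + g, by ring⟩

theorem Nm_iter_El (l : ℕ) (w : A) (r : ℕ) :
    C (p : A) ∣ (Nm p)^[r] (El l w) - El l (w ^ p ^ r) := by
  induction r with
  | zero => simp
  | succ r ih =>
    rw [Function.iterate_succ_apply']
    have h1 : C (p : A) ∣ Nm p ((Nm p)^[r] (El l w)) - Nm p (El l (w ^ p ^ r)) := by
      have ih' : C ((p : A) ^ 1) ∣ (Nm p)^[r] (El l w) - El l (w ^ p ^ r) := by rwa [pow_one]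
      have := Nm_congr' (p := p) (r := 1) le_rfl ih'
      exact (C.map_dvd (Dvd.intro_left _ (pow_succ (p : A) 1).symm)).trans this
    have h2 := Nm_El (p := p) l (w ^ p ^ r)
    rw [← pow_mul, ← pow_succ] at h2
    have := dvd_add h1 h2
    rwa [sub_add_sub_cancel] at this

theorem Del_El_congr (m j r : ℕ) (w : A) : (p : A) ^ (j + 1) ∣
    Del (m * p ^ (j + r)) (El (m * p ^ j) w) - (1 + (m * p ^ j : ℕ) * w ^ p ^ r) := by
  rw [Del_iter, Function.iterate_add_apply]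
  have h1 := Nm_iter_El (p := p) (m * p ^ j) w r
  have h1' : C ((p : A) ^ 1) ∣ (Nm p)^[r] (El (m * p ^ j) w) - El (m * p ^ j) (w ^ p ^ r) := by
    rwa [pow_one]
  have h2 := Nm_iter_congr (p := p) (r := 1) le_rfl h1' j
  have h3 := Del_congr m h2
  rw [← Del_iter m j (El (m * p ^ j) (w ^ p ^ r)), Del_El, add_comm 1 j] at h3
  exact h3

end basic

section universal

variable {p : ℕ} [hp : Fact p.Prime]

theorem prime_p : Prime ((p : ℤ[X])) := by
  rw [← C_eq_natCast, prime_C_iff]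
  exact Nat.prime_iff_prime_int.mp hp.out

theorem gh_div {k : ℕ} {x : ℤ[X]} (hx : x ∈ gh p (k + 1) ℤ[X]) (hd : (p : ℤ[X]) ∣ x) :
    ∃ y ∈ gh p k ℤ[X], x = p * y := by
  obtain ⟨a, c, hc, rfl⟩ := mem_gh_succ.mp hx
  have h1 : (p : ℤ[X]) ∣ a ^ p ^ (k + 1) := by
    have := dvd_sub hd (dvd_mul_right (p : ℤ[X]) c)
    rwa [add_sub_cancel_right] at this
  obtain ⟨b, rfl⟩ := prime_p.dvd_of_dvd_pow h1
  have hpos : p ^ (k + 1) ≠ 0 := pow_ne_zero _ hp.out.ne_zero
  obtain ⟨s, hs⟩ := Nat.exists_eq_succ_of_ne_zero hpos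
  refine ⟨(p : ℤ[X]) ^ s * (b ^ p) ^ p ^ k + c, add_mem (mul_mem ?_ (pow_mem_gh k _)) hc, ?_⟩
  · exact pow_mem (natCast_mem _ p) s
  · rw [mul_pow, ← pow_mul, ← pow_succ']
    have : (p : ℤ[X]) ^ p ^ (k + 1) = p * (p : ℤ[X]) ^ s := by rw [hs, pow_succ']
    rw [this]; ring

theorem gh_div_pow {k : ℕ} (r : ℕ) {x : ℤ[X]} (hx : (p : ℤ[X]) ^ r * x ∈ gh p (k + r) ℤ[X]) :
    x ∈ gh p k ℤ[X] := by
  induction r with
  | zero => simpa using hx
  | succ r ih =>
    obtain ⟨y, hy, hxy⟩ := gh_div (k := k + r) hx ⟨(p : ℤ[X]) ^ r * x, by rw [pow_succ']; ring⟩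
    rw [pow_succ', mul_assoc] at hxy
    have := mul_left_cancel₀ prime_p.ne_zero hxy
    rw [← this] at hy
    exact ih hy

theorem exists_inv_mod {m : ℕ} (hm : ¬ p ∣ m) : ∃ m' z : ℕ → ℤ, ∀ r, (m : ℤ) * m' r ^ p ^ r =
    1 + p * z r := by
  have hu : IsUnit ((m : ZMod p)) := by
    rw [isUnit_iff_ne_zero]
    intro h
    exact hm ((ZMod.natCast_eq_zero_iff m p).mp h)
  have h : ∀ r, ∃ m' z : ℤ, (m : ℤ) * m' ^ p ^ r = 1 + p * z := by
    intro r
    obtain ⟨t, ht⟩ := hu.exists_right_inv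
    obtain ⟨m', rfl⟩ := ZMod.intCast_surjective t
    have h1 : (((m : ℤ) * m' ^ p ^ r - 1 : ℤ) : ZMod p) = 0 := by
      push_cast
      rw [ZMod.pow_card_pow, ht, sub_self]
    obtain ⟨z, hz⟩ := (ZMod.intCast_zmod_eq_zero_iff_dvd _ p).mp h1
    exact ⟨m', z, by rw [← hz]; ring⟩
  choose m' z hz using h
  exact ⟨m', z, hz⟩

theorem universal_aux {m : ℕ} (hm : ¬ p ∣ m) (j r : ℕ) (v : ℤ[X]) :
    ∃ (f : ℤ[X][X]) (z : ℤ[X]), Del (m * p ^ (j + r)) f =
      1 + (p : ℤ[X]) ^ j * v ^ p ^ r + (p : ℤ[X]) ^ (j + 1) * z := by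
  obtain ⟨m', z, hz⟩ := exists_inv_mod hm
  obtain ⟨y, hy⟩ := Del_El_congr (p := p) m j r (C (m' r) * v)
  refine ⟨El (m * p ^ j) (C (m' r) * v), y + C (z r) * v ^ p ^ r, ?_⟩
  rw [sub_eq_iff_eq_add] at hy
  rw [hy]
  have h1 : ((m : ℤ[X])) * C (m' r) ^ p ^ r = 1 + p * C (z r) := by
    have := congrArg (C : ℤ → ℤ[X]) (hz r)
    simpa using this
  push_cast
  calc (p : ℤ[X]) ^ (j + 1) * y + (1 + (m : ℤ[X]) * (p : ℤ[X]) ^ j * (C (m' r) * v) ^ p ^ r) =
      (p : ℤ[X]) ^ (j + 1) * y + 1 + (p : ℤ[X]) ^ j * v ^ p ^ r * ((m : ℤ[X]) * C (m' r) ^ p ^ r) := by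
        rw [mul_pow]; ring
    _ = _ := by rw [h1]; ring

theorem universal_pos {m : ℕ} (hm : ¬ p ∣ m) (j r : ℕ) :
    ∃ (f : ℤ[X][X]) (y : ℤ[X]), y ∈ gh p r ℤ[X] ∧ Del (m * p ^ (j + (r + 1))) f =
      1 + (p : ℤ[X]) ^ j * X ^ p ^ (r + 1) + (p : ℤ[X]) ^ (j + 1) * y := by
  obtain ⟨f, z, hz⟩ := universal_aux hm j (r + 1) X
  refine ⟨f, z, ?_, hz⟩
  apply gh_div_pow (j + 1)
  have h1 : (p : ℤ[X]) ^ (j + 1) * z = Del (m * p ^ (j + (r + 1))) f -
      (1 + (p : ℤ[X]) ^ j * X ^ p ^ (r + 1)) := by rw [hz]; ring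
  rw [h1, show r + (j + 1) = j + (r + 1) by omega]
  exact sub_mem (Del_mem_gh _ _ _) (add_mem (one_mem _) (mul_pow_mem (pow_mem_gh _ _) j))

theorem universal_zero {m : ℕ} (hm : ¬ p ∣ m) (r : ℕ) :
    ∃ (f : ℤ[X][X]) (y : ℤ[X]), y ∈ gh p r ℤ[X] ∧ Del (m * p ^ (r + 1)) f =
      X ^ p ^ (r + 1) + (p : ℤ[X]) * y := by
  obtain ⟨f, z, hz⟩ := universal_aux hm 0 (r + 1) (X - 1)
  obtain ⟨t, ht⟩ := exists_add_pow_prime_pow_eq hp.out (X - 1 : ℤ[X]) 1 (r + 1)
  rw [sub_add_cancel, one_pow] at ht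
  have h0 : Del (m * p ^ (r + 1)) f = X ^ p ^ (r + 1) + (p : ℤ[X]) * (z - (X - 1) * 1 * t) := by
    rw [zero_add] at hz
    rw [hz, ht]; ring
  refine ⟨f, _, ?_, h0⟩
  apply gh_div_pow 1
  have h1 : (p : ℤ[X]) ^ 1 * (z - (X - 1) * 1 * t) = Del (m * p ^ (r + 1)) f -
      X ^ p ^ (r + 1) := by rw [h0]; ring
  rw [h1]
  exact sub_mem (Del_mem_gh _ _ _) (pow_mem_gh _ _)

end universal

section finite

variable {p : ℕ} [hp : Fact p.Prime] {R : Type*} [CommRing R] [Finite R]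

theorem exists_inv_mem (S : Subring R) {g : R} (hg : g ∈ S) (hu : IsUnit g) :
    ∃ h ∈ S, g * h = 1 := by
  obtain ⟨u, rfl⟩ := hu
  have h1 : 0 < orderOf u := orderOf_pos u
  refine ⟨(u : R) ^ (orderOf u - 1), pow_mem hg _, ?_⟩
  rw [← pow_succ', Nat.sub_add_cancel h1, ← Units.val_pow_eq_pow_val, pow_orderOf_eq_one,
    Units.val_one]

theorem realize_pos (hnil : IsNilpotent (p : R)) {m : ℕ} (hm : ¬ p ∣ m) (hmu : IsUnit (m : R))
    (r j : ℕ) (hj : 1 ≤ j) (c : R) (hc : c ∈ gh p r R) :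
    ∃ f : R[X], Del (m * p ^ (j + r)) f = 1 + (p : R) ^ j * c := by
  induction r generalizing j c with
  | zero =>
    obtain ⟨t, ht⟩ := hmu.exists_right_inv
    refine ⟨El (m * p ^ j) (t * c), ?_⟩
    rw [add_zero, Del_El]
    push_cast
    calc 1 + (m : R) * (p : R) ^ j * (t * c) = 1 + (m * t) * ((p : R) ^ j * c) := by ring
      _ = _ := by rw [ht, one_mul]
  | succ r ih =>
    obtain ⟨b, c₁, hc₁, rfl⟩ := mem_gh_succ.mp hc
    obtain ⟨f, y, hy, hf⟩ := universal_pos hm j r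
    let ψ : ℤ[X] →+* R := eval₂RingHom (Int.castRingHom R) b
    have hψ : ψ X = b := by simp [ψ]
    have h1 : Del (m * p ^ (j + (r + 1))) (f.map ψ) =
        1 + (p : R) ^ j * b ^ p ^ (r + 1) + p ^ (j + 1) * ψ y := by
      rw [Del_map, hf]
      simp only [map_add, map_mul, map_pow, map_one, map_natCast, hψ]
    set g := Del (m * p ^ (j + (r + 1))) (f.map ψ) with hg
    have hgm : g ∈ gh p r R := gh_le (by omega) (Del_mem_gh m (j + (r + 1)) (f.map ψ))
    have hpj : IsNilpotent ((p : R) ^ j) := by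
      obtain ⟨N, hN⟩ := hnil
      exact ⟨N, by rw [← pow_mul, mul_comm, pow_mul, hN, zero_pow (by omega)]⟩
    have hgu : IsUnit g := by
      rw [h1, show 1 + (p : R) ^ j * b ^ p ^ (r + 1) + p ^ (j + 1) * ψ y =
        1 + (p : R) ^ j * (b ^ p ^ (r + 1) + p * ψ y) by ring]
      exact (Commute.isNilpotent_mul_right (Commute.all _ _) hpj).isUnit_one_add
    obtain ⟨h, hh, hgh⟩ := exists_inv_mem _ hgm hgu
    obtain ⟨f', hf'⟩ := ih (j + 1) (by omega) (h * (c₁ - ψ y))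
      (mul_mem hh (sub_mem hc₁ (gh_map ψ hy)))
    refine ⟨f.map ψ * f', ?_⟩
    rw [Del_mul, ← hg, show j + (r + 1) = j + 1 + r by omega, hf']
    calc g * (1 + (p : R) ^ (j + 1) * (h * (c₁ - ψ y))) =
        g + (g * h) * ((p : R) ^ (j + 1) * (c₁ - ψ y)) := by ring
      _ = _ := by rw [hgh, h1]; ring

theorem realize (hnil : IsNilpotent (p : R)) {m : ℕ} (hm : ¬ p ∣ m) (hmu : IsUnit (m : R))
    (k : ℕ) (a : R) (ha : a ∈ gh p k R) (hau : IsUnit a) :
    ∃ f : R[X], Del (m * p ^ k) f = a := by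
  cases k with
  | zero =>
    obtain ⟨t, ht⟩ := hmu.exists_right_inv
    refine ⟨El (m * p ^ 0) (t * (a - 1)), ?_⟩
    rw [Del_El]
    push_cast
    calc 1 + (m : R) * (p : R) ^ 0 * (t * (a - 1)) = 1 + (m * t) * (a - 1) := by ring
      _ = _ := by rw [ht]; ring
  | succ r =>
    obtain ⟨b, c₁, hc₁, rfl⟩ := mem_gh_succ.mp ha
    obtain ⟨f, y, hy, hf⟩ := universal_zero hm r
    let ψ : ℤ[X] →+* R := eval₂RingHom (Int.castRingHom R) b
    have hψ : ψ X = b := by simp [ψ]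
    have h1 : Del (m * p ^ (r + 1)) (f.map ψ) = b ^ p ^ (r + 1) + p * ψ y := by
      rw [Del_map, hf]
      simp only [map_add, map_mul, map_pow, map_natCast, hψ]
    set g := Del (m * p ^ (r + 1)) (f.map ψ) with hg
    have hgm : g ∈ gh p r R := gh_le (by omega) (Del_mem_gh m (r + 1) (f.map ψ))
    have hgu : IsUnit g := by
      have e : g = (b ^ p ^ (r + 1) + p * c₁) + p * (ψ y - c₁) := by rw [h1]; ring
      rw [e]
      have hn : IsNilpotent ((p : R) * (ψ y - c₁)) :=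
        Commute.isNilpotent_mul_right (Commute.all _ _) hnil
      exact hn.isUnit_add_left_of_commute hau (Commute.all _ _)
    obtain ⟨h, hh, hgh⟩ := exists_inv_mem _ hgm hgu
    obtain ⟨f', hf'⟩ := realize_pos hnil hm hmu r 1 le_rfl (h * (c₁ - ψ y))
      (mul_mem hh (sub_mem hc₁ (gh_map ψ hy)))
    refine ⟨f.map ψ * f', ?_⟩
    rw [Del_mul, ← hg, show r + 1 = 1 + r by omega, hf']
    calc g * (1 + (p : R) ^ 1 * (h * (c₁ - ψ y))) =
        g + (g * h) * ((p : R) * (c₁ - ψ y)) := by ring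
      _ = _ := by rw [hgh, h1, add_comm 1 r]; ring

end finite

end Pool.Agent.R839.Circ
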