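import Pool.Agent.R839.CircChain

/-!
# The number of circulants with a given unit determinant over a chain ring
-/

namespace Pool.Agent.R839.Circ

open Polynomial Matrix

universe u

/-- The cyclotomic product. -/
noncomputable def pr (q m : ℕ) : ℚ :=
  ∏ d ∈ m.divisors.erase 1,
    (1 - ((q : ℚ) ^ orderOf (q : ZMod d))⁻¹) ^ (d.totient / orderOf (q : ZMod d))

theorem pr_eq {q m : ℕ} (hm : 0 < m) :
    ∏ d ∈ m.divisors, (1 - ((q : ℚ) ^ orderOf (q : ZMod d))⁻¹) ^
        (d.totient / orderOf (q : ZMod d)) = (1 - (q : ℚ)⁻¹) * pr q m := by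
  rw [pr, ← Finset.mul_prod_erase _ _ (Nat.one_mem_divisors.mpr hm.ne')]
  congr 1
  have h1 : orderOf (q : ZMod 1) = 1 := by
    rw [orderOf_eq_one_iff]; exact Subsingleton.elim _ _
  rw [h1, Nat.totient_one]
  simp

/-- The number of circulants with determinant `a`. -/
noncomputable def cc (n : ℕ) [NeZero n] (R : Type*) [CommRing R] (a : R) : ℕ :=
  Nat.card {v : Fin n → R // (cirM v).det = a}

theorem exists_field {R : Type u} [CommRing R] {γ : R} (hmax : (Ideal.span {γ}).IsMaximal) :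
    ∃ (F : Type u) (_ : Field F) (π : R →+* F), Function.Surjective π ∧
      (∀ x, π x = 0 ↔ x ∈ Ideal.span {γ}) ∧ Nat.card F = Nat.card (R ⧸ Ideal.span {γ}) :=
  ⟨R ⧸ Ideal.span {γ}, Ideal.Quotient.field _, Ideal.Quotient.mk (Ideal.span {γ}),
    Ideal.Quotient.mk_surjective, fun _ => Ideal.Quotient.eq_zero_iff_mem, rfl⟩

theorem main {R : Type u} [CommRing R] [Finite R] {γ : R} {e q : ℕ}
    (hmax : (Ideal.span {γ}).IsMaximal) (he : IsLeast {s | 0 < s ∧ γ ^ s = 0} e)
    (hcard : Nat.card (R ⧸ Ideal.span {γ}) = q) {p f : ℕ} [hp : Fact p.Prime] (hq : q = p ^ f)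
    {n k m : ℕ} [NeZero n] (hn : n = m * p ^ k) (hm : ¬ p ∣ m) :
    (∀ a : R, IsUnit a → a ∉ gh p k R → cc n R a = 0) ∧
    (∀ a : R, IsUnit a → a ∈ gh p k R → (cc n R a : ℚ) * Nat.card (gh p k R) =
      (q : ℚ) ^ (e * n) * pr q m) ∧
    (IsNilpotent (p : R)) ∧ (∀ (x : R), ∃ b y : R, x = b ^ p ^ k + γ * y) := by
  classical
  subst hn
  have hm0 : 0 < m := by
    rcases Nat.eq_zero_or_pos m with h | h
    · exact absurd (h ▸ dvd_zero p) hm
    · exact h
  obtain ⟨F, instF, π, hπ, hker, hcF⟩ := exists_field hmax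
  haveI : Finite F := Finite.of_surjective _ hπ
  haveI := Fintype.ofFinite F
  have hcardF : Nat.card F = q := hcF.trans hcard
  haveI hchar : CharP F p := charP_of_card_eq_prime_pow (f := f) (by
    rw [← Nat.card_eq_fintype_card]; exact hcardF.trans hq)
  have hnilγ : IsNilpotent γ := ⟨e, he.1.2⟩
  have hu : ∀ x : R, IsUnit x ↔ π x ≠ 0 := by
    intro x
    rw [isUnit_iff_notMem hmax hnilγ, not_iff_not]
    exact (hker x).symm
  have hpnil : IsNilpotent (p : R) := by
    have h1 : π (p : R) = 0 := by rw [map_natCast]; exact CharP.cast_eq_zero F p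
    obtain ⟨z, hz⟩ := Ideal.mem_span_singleton'.mp ((hker _).mp h1)
    rw [← hz]
    exact Commute.isNilpotent_mul_left (Commute.all _ _) hnilγ
  have hmu : IsUnit (m : R) := by
    rw [hu, map_natCast]
    intro h
    exact hm ((CharP.cast_eq_zero_iff F p m).mp h)
  have hperf : ∀ y : F, ∃ z : F, z ^ p ^ k = y := by
    intro y
    have h1 : Function.Injective (fun z : F => z ^ p ^ k) := by
      intro a b hab
      exact iterateFrobenius_inj F p k hab
    exact (Finite.injective_iff_surjective.mp h1) y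
  have hlift : ∀ y : F, ∃ b : R, π (b ^ p ^ k) = y := by
    intro y
    obtain ⟨z, hz⟩ := hperf y
    obtain ⟨b, hb⟩ := hπ z
    exact ⟨b, by rw [map_pow, hb, hz]⟩
  have hq2 : 2 ≤ q := by
    rw [← hcardF]
    exact Finite.one_lt_card
  -- realization
  have hreal : ∀ a : R, IsUnit a → a ∈ gh p k R →
      ∃ w : Fin (m * p ^ k) → R, (cirM w).det = a := by
    intro a ha hmem
    obtain ⟨g, hg⟩ := realize hpnil hm hmu k a hmem ha
    obtain ⟨w, hw⟩ := exists_cir (n := m * p ^ k) g
    exact ⟨w, by rw [hw]; exact hg⟩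
  have hfib : ∀ a : R, IsUnit a → a ∈ gh p k R → cc (m * p ^ k) R a = cc (m * p ^ k) R 1 := by
    intro a ha hmem
    obtain ⟨w, hw⟩ := hreal a ha hmem
    have := card_fibre w (by rw [hw]; exact ha) 1
    rw [hw, mul_one] at this
    exact this
  refine ⟨?_, ?_, hpnil, ?_⟩
  · intro a _ hmem
    have : IsEmpty {v : Fin (m * p ^ k) → R // (cirM v).det = a} := by
      constructor
      rintro ⟨v, hv⟩
      apply hmem
      rw [← hv, det_cirM]
      exact Del_mem_gh _ _ _
    exact Nat.card_of_isEmpty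
  · intro a ha hmem
    -- counting of units
    let D := {x : R // x ∈ gh p k R ∧ IsUnit x}
    have h1 : Nat.card {v : Fin (m * p ^ k) → R // IsUnit (cirM v).det} =
        Nat.card D * cc (m * p ^ k) R a := by
      have e1 : {v : Fin (m * p ^ k) → R // IsUnit (cirM v).det} ≃
          Σ x : D, {v : Fin (m * p ^ k) → R // (cirM v).det = x.1} :=
        { toFun := fun v => ⟨⟨(cirM v.1).det, by rw [det_cirM]; exact Del_mem_gh _ _ _, v.2⟩,
            ⟨v.1, rfl⟩⟩
          invFun := fun x => ⟨x.2.1, by rw [x.2.2]; exact x.1.2.2⟩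
          left_inv := fun v => rfl
          right_inv := by
            rintro ⟨⟨x, hx⟩, ⟨v, hv⟩⟩
            dsimp only at hv
            subst hv
            rfl }
      haveI := Fintype.ofFinite D
      rw [Nat.card_congr e1, Nat.card_sigma]
      have h2 : ∀ x : D, Nat.card {v : Fin (m * p ^ k) → R // (cirM v).det = x.1} =
          cc (m * p ^ k) R a := by
        intro x
        rw [hfib a ha hmem, ← hfib x.1 x.2.2 x.2.1]
        rfl
      rw [Finset.sum_congr rfl fun x _ => h2 x, Finset.sum_const, Finset.card_univ,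
        Nat.card_eq_fintype_card (α := D), smul_eq_mul]
    have h2 : Nat.card D * q = Nat.card (gh p k R) * (q - 1) := by
      let φ : gh p k R →+ F := (π : R →+ F).comp (gh p k R).subtype.toAddMonoidHom
      have hφ : Function.Surjective φ := by
        intro y
        obtain ⟨b, hb⟩ := hlift y
        exact ⟨⟨b ^ p ^ k, pow_mem_gh k b⟩, hb⟩
      have h3 := card_pull φ hφ (fun y => y ≠ 0)
      have h4 : Nat.card {y : F // y ≠ 0} = q - 1 := by
        rw [← hcardF, Nat.card_eq_fintype_card, Nat.card_eq_fintype_card,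
          Fintype.card_subtype_compl, Fintype.card_subtype_eq]
      have h5 : Nat.card {g : gh p k R // φ g ≠ 0} = Nat.card D := by
        refine Nat.card_congr ⟨fun g => ⟨g.1.1, g.1.2, (hu _).mpr g.2⟩,
          fun x => ⟨⟨x.1, x.2.1⟩, (hu _).mp x.2.2⟩, fun _ => rfl, fun _ => rfl⟩
      rw [h4, h5, hcardF] at h3
      exact h3
    have h3 := card_units_aux (F := F) (R := R) (p := p) π hπ hu m k hm0
    rw [prod_fac (p := p) (f := f) (hcardF.trans hq) hm hm0, hcardF, pr_eq hm0, h1,
      card_ring hmax he, hcard] at h3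
    have hq0 : (q : ℚ) ≠ 0 := by
      have : 0 < q := by omega
      exact_mod_cast this.ne'
    have hq1 : (1 - (q : ℚ)⁻¹) ≠ 0 := by
      have h6 : (2 : ℚ) ≤ q := by exact_mod_cast hq2
      have h7 : (q : ℚ)⁻¹ ≤ 2⁻¹ := inv_anti₀ (by norm_num) h6
      linarith
    have h2' : (Nat.card D : ℚ) = Nat.card (gh p k R) * (1 - (q : ℚ)⁻¹) := by
      have h8 := congrArg (fun x : ℕ => (x : ℚ)) h2
      simp only [Nat.cast_mul] at h8
      rw [Nat.cast_sub (by omega : 1 ≤ q)] at h8
      field_simp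
      rw [h8]
      push_cast
      ring
    have h9 : (1 - (q : ℚ)⁻¹) * ((cc (m * p ^ k) R a : ℚ) * Nat.card (gh p k R)) =
        (1 - (q : ℚ)⁻¹) * ((q : ℚ) ^ (e * (m * p ^ k)) * pr q m) := by
      have h10 : (Nat.card D : ℚ) * cc (m * p ^ k) R a =
          ((q : ℚ) ^ e) ^ (m * p ^ k) * ((1 - (q : ℚ)⁻¹) * pr q m) := by
        exact_mod_cast h3
      rw [h2'] at h10
      rw [pow_mul]
      linarith
    exact mul_left_cancel₀ hq1 h9
  · intro x
    obtain ⟨b, hb⟩ := hlift (π x)
    have h1 : x - b ^ p ^ k ∈ Ideal.span {γ} := by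
      apply (hker _).mp
      rw [map_sub, hb, sub_self]
    obtain ⟨y, hy⟩ := Ideal.mem_span_singleton'.mp h1
    exact ⟨b, y, by rw [mul_comm γ y, hy]; ring⟩

end Pool.Agent.R839.Circ
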