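import Mathlib

/-!
# Circulant determinants and relative norms

`Q A n y` is the twisted cyclic shift matrix, `Del n f` is the determinant of the circulant
matrix `f(P)`, where `P` is the cyclic shift, and `Nm n f` is the relative norm of `f(x)` from
`A[x]` to `A[x^n]`.
-/

namespace Pool.Agent.R839.Circ

open Polynomial Matrix

/-- The twisted cyclic shift. -/
def Q {A : Type*} [CommRing A] (n : ℕ) (y : A) : Matrix (Fin n) (Fin n) A :=
  Matrix.of fun i j =>
    if (j : ℕ) = i + 1 then 1 else if (i : ℕ) + 1 = n ∧ (j : ℕ) = 0 then y else 0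

/-- Determinant of the circulant of the polynomial `f`. -/
noncomputable def Del {A : Type*} [CommRing A] (n : ℕ) (f : A[X]) : A :=
  (aeval (Q n (1 : A)) f).det

/-- Relative norm. -/
noncomputable def Nm {A : Type*} [CommRing A] (n : ℕ) (f : A[X]) : A[X] :=
  (aeval (Q n (X : A[X])) f).det

theorem Q_pow_apply {A : Type*} [CommRing A] (n : ℕ) (y : A) (r : ℕ) (hr : r ≤ n) (i j : Fin n) :
    (Q n y ^ r) i j = if (j : ℕ) = i + r then 1 else if (j : ℕ) + n = i + r then y else 0 := by
  induction r generalizing i j with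
  | zero =>
    rw [pow_zero, Matrix.one_apply]
    by_cases h : i = j
    · subst h; simp
    · have h1 : (j : ℕ) ≠ i := fun h2 => h (Fin.ext h2.symm)
      have h2 : (j : ℕ) + n ≠ i := by omega
      simp [h, h1, h2]
  | succ r ih =>
    rw [pow_succ, Matrix.mul_apply]
    by_cases hj : (j : ℕ) = 0
    · have hn : n - 1 < n := by omega
      rw [Finset.sum_eq_single (⟨n - 1, hn⟩ : Fin n)]
      · rw [ih (by omega)]
        have e1 : Q n y ⟨n - 1, hn⟩ j = y := by
          simp only [Q, Matrix.of_apply]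
          rw [if_neg (by omega), if_pos ⟨by omega, hj⟩]
        rw [e1]
        by_cases h1 : n - 1 = (i : ℕ) + r
        · rw [if_pos h1, if_neg (by omega), if_pos (by omega), one_mul]
        · rw [if_neg h1, if_neg (by simp; omega), if_neg (by omega), if_neg (by omega), zero_mul]
      · intro l _ hl
        have e1 : Q n y l j = 0 := by
          simp only [Q, Matrix.of_apply]
          rw [if_neg (by omega), if_neg]
          rintro ⟨h1, h2⟩
          exact hl (Fin.ext (by simp; omega))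
        rw [e1, mul_zero]
      · intro h; exact absurd (Finset.mem_univ _) h
    · have hn : (j : ℕ) - 1 < n := by omega
      rw [Finset.sum_eq_single (⟨(j : ℕ) - 1, hn⟩ : Fin n)]
      · rw [ih (by omega)]
        have e1 : Q n y ⟨(j : ℕ) - 1, hn⟩ j = 1 := by
          simp only [Q, Matrix.of_apply]
          rw [if_pos (by omega)]
        rw [e1, mul_one]
        by_cases h1 : (j : ℕ) = (i : ℕ) + (r + 1)
        · rw [if_pos h1, if_pos (by simp; omega)]
        · rw [if_neg h1, if_neg (by simp; omega)]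
          by_cases h2 : (j : ℕ) + n = i + (r + 1)
          · rw [if_pos h2, if_pos (by simp; omega)]
          · rw [if_neg h2, if_neg (by simp; omega)]
      · intro l _ hl
        have e1 : Q n y l j = 0 := by
          simp only [Q, Matrix.of_apply]
          rw [if_neg, if_neg (by omega)]
          intro h1
          exact hl (Fin.ext (by simp; omega))
        rw [e1, mul_zero]
      · intro h; exact absurd (Finset.mem_univ _) h

theorem Q_pow_self {A : Type*} [CommRing A] (n : ℕ) (y : A) :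
    Q n y ^ n = algebraMap A (Matrix (Fin n) (Fin n) A) y := by
  ext i j
  rw [Q_pow_apply n y n le_rfl, Matrix.algebraMap_matrix_apply]
  by_cases h : i = j
  · subst h
    rw [if_neg (by omega), if_pos rfl, if_pos rfl]; rfl
  · have h1 : (j : ℕ) ≠ i := fun h2 => h (Fin.ext h2.symm)
    rw [if_neg (by omega), if_neg (by omega), if_neg h]

theorem Q_map {A B : Type*} [CommRing A] [CommRing B] (ψ : A →+* B) (n : ℕ) (y : A) :
    ψ.mapMatrix (Q n y) = Q n (ψ y) := by
  ext i j
  simp only [RingHom.mapMatrix_apply, Matrix.map_apply, Q, Matrix.of_apply]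
  split_ifs <;> simp

theorem det_map_aux {A B S T : Type*} [CommRing A] [CommRing B] [CommRing S] [CommRing T]
    [Algebra A S] [Algebra B T] (ψ : A →+* B) (χ : S →+* T)
    (h : χ.comp (algebraMap A S) = (algebraMap B T).comp ψ) (n : ℕ) (y : S) (f : A[X]) :
    (aeval (Q n (χ y)) (f.map ψ)).det = χ ((aeval (Q n y) f).det) := by
  rw [RingHom.map_det, ← Q_map]
  congr 1
  rw [aeval_def, aeval_def, eval₂_map, hom_eval₂]
  congr 1
  ext a i j
  simp only [RingHom.comp_apply, RingHom.mapMatrix_apply, Matrix.map_apply,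
    Matrix.algebraMap_matrix_apply]
  have h1 : χ (algebraMap A S a) = algebraMap B T (ψ a) := by
    rw [← RingHom.comp_apply, h, RingHom.comp_apply]
  by_cases hij : i = j
  · simp [hij, h1]
  · simp [hij]

theorem Del_map {A B : Type*} [CommRing A] [CommRing B] (ψ : A →+* B) (n : ℕ) (f : A[X]) :
    Del n (f.map ψ) = ψ (Del n f) := by
  have := det_map_aux ψ ψ (by ext; rfl) n (1 : A) f
  rw [map_one] at this
  exact this

theorem Nm_map {A B : Type*} [CommRing A] [CommRing B] (ψ : A →+* B) (n : ℕ) (f : A[X]) :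
    Nm n (f.map ψ) = (Nm n f).map ψ := by
  have := det_map_aux (S := A[X]) (T := B[X]) ψ (mapRingHom ψ) (by ext; simp) n (X : A[X]) f
  rw [coe_mapRingHom, map_X] at this
  exact this

theorem Del_mul {A : Type*} [CommRing A] (n : ℕ) (f g : A[X]) :
    Del n (f * g) = Del n f * Del n g := by
  rw [Del, map_mul, Matrix.det_mul]; rfl

theorem Del_one {A : Type*} [CommRing A] (n : ℕ) : Del n (1 : A[X]) = 1 := by
  rw [Del, map_one, Matrix.det_one]

/-- The transitivity of the norm for circulants. -/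
theorem Del_tower {A : Type*} [CommRing A] (a b : ℕ) (ha : 0 < a) (f : A[X]) :
    Del (b * a) f = Del b (Nm a f) := by
  let g : A[X] →ₐ[A] Matrix (Fin b) (Fin b) A := aeval (Q b (1 : A))
  have h1 := Matrix.det_det (M := aeval (Q a (X : A[X])) f) (g : A[X] →+* Matrix (Fin b) (Fin b) A)
  have h2 : Del b (Nm a f) = (((aeval (Q a (X : A[X])) f).map
      (g : A[X] →+* Matrix (Fin b) (Fin b) A)).comp (Fin a) (Fin a) (Fin b) (Fin b) A).det := h1
  rw [h2]
  let e : Fin a × Fin b ≃ Fin (b * a) := (Equiv.prodComm _ _).trans finProdFinEquiv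
  let Φ : Matrix (Fin a) (Fin a) A[X] →ₐ[A] Matrix (Fin (b * a)) (Fin (b * a)) A :=
    ((reindexAlgEquiv A A e).toAlgHom.comp (compAlgEquiv (Fin a) (Fin b) A A).toAlgHom).comp
      g.mapMatrix
  have h3 : (((aeval (Q a (X : A[X])) f).map
      (g : A[X] →+* Matrix (Fin b) (Fin b) A)).comp (Fin a) (Fin a) (Fin b) (Fin b) A).det =
      (Φ (aeval (Q a (X : A[X])) f)).det := by
    have : Φ (aeval (Q a (X : A[X])) f) = reindexAlgEquiv A A e
      (((aeval (Q a (X : A[X])) f).map
      (g : A[X] →+* Matrix (Fin b) (Fin b) A)).comp (Fin a) (Fin a) (Fin b) (Fin b) A) := rfl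
    rw [this, det_reindexAlgEquiv]
  rw [h3, ← aeval_algHom_apply, Del]
  suffices hQ : Q (b * a) (1 : A) = Φ (Q a (X : A[X])) by rw [hQ]
  ext i j
  have hΦ : Φ (Q a (X : A[X])) i j = g (Q a (X : A[X]) (e.symm i).1 (e.symm j).1)
    (e.symm i).2 (e.symm j).2 := rfl
  rw [hΦ]
  obtain ⟨⟨i1, i2⟩, rfl⟩ := e.surjective i
  obtain ⟨⟨j1, j2⟩, rfl⟩ := e.surjective j
  simp only [Equiv.symm_apply_apply]
  have hei : ((e (i1, i2) : Fin (b * a)) : ℕ) = i1 + a * i2 := rfl
  have hej : ((e (j1, j2) : Fin (b * a)) : ℕ) = j1 + a * j2 := rfl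
  have hi1 := i1.isLt
  have hj1 := j1.isLt
  have hi2 := i2.isLt
  have hj2 := j2.isLt
  simp only [Q, Matrix.of_apply, hei, hej]
  have key : ∀ s t u v : ℕ, s < a → u < a → (s + a * t = u + a * v ↔ s = u ∧ t = v) := by
    intro s t u v hs hu
    constructor
    · intro h
      have h5 : (s + a * t) % a = (u + a * v) % a := by rw [h]
      rw [Nat.add_mul_mod_self_left, Nat.add_mul_mod_self_left, Nat.mod_eq_of_lt hs,
        Nat.mod_eq_of_lt hu] at h5
      subst h5
      exact ⟨rfl, Nat.eq_of_mul_eq_mul_left ha (by omega)⟩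
    · rintro ⟨rfl, rfl⟩; rfl
  by_cases h5 : (i1 : ℕ) + 1 < a
  · -- no wrap
    have h6 : ((j1 : ℕ) + a * j2 = i1 + a * i2 + 1) ↔ ((j1 : ℕ) = i1 + 1 ∧ (j2 : ℕ) = i2) := by
      rw [show (i1 : ℕ) + a * i2 + 1 = (i1 + 1) + a * i2 by ring]
      exact key _ _ _ _ hj1 h5
    have h7 : ¬ ((i1 : ℕ) + a * i2 + 1 = b * a ∧ (j1 : ℕ) + a * j2 = 0) := by
      rintro ⟨h, -⟩
      have : ((i1 : ℕ) + 1) + a * i2 = 0 + a * b := by rw [mul_comm a b]; omega
      have := (key _ _ _ _ h5 ha).mp this
      omega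
    have h8 : ¬ ((i1 : ℕ) + 1 = a ∧ (j1 : ℕ) = 0) := by omega
    rw [if_neg h7, if_neg h8]
    by_cases h9 : (j1 : ℕ) = i1 + 1
    · rw [if_pos h9, map_one, Matrix.one_apply]
      by_cases h10 : i2 = j2
      · rw [if_pos h10, if_pos (h6.mpr ⟨h9, by rw [h10]⟩)]
      · rw [if_neg h10, if_neg]
        intro h; exact h10 (Fin.ext (h6.mp h).2.symm)
    · rw [if_neg h9, map_zero, if_neg]
      · rfl
      · intro h; exact h9 (h6.mp h).1
  · have h5' : (i1 : ℕ) + 1 = a := by omega
    have h6 : ((j1 : ℕ) + a * j2 = i1 + a * i2 + 1) ↔ ((j1 : ℕ) = 0 ∧ (j2 : ℕ) = i2 + 1) := by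
      rw [show (i1 : ℕ) + a * i2 + 1 = 0 + a * (i2 + 1) by rw [mul_add]; omega]
      exact key _ _ _ _ hj1 ha
    have h7 : ((i1 : ℕ) + a * i2 + 1 = b * a ∧ (j1 : ℕ) + a * j2 = 0) ↔
        ((j1 : ℕ) = 0 ∧ ((i2 : ℕ) + 1 = b ∧ (j2 : ℕ) = 0)) := by
      have e1 : ((i1 : ℕ) + a * i2 + 1 = b * a) ↔ (i2 : ℕ) + 1 = b := by
        rw [show (i1 : ℕ) + a * i2 + 1 = 0 + a * (i2 + 1) by rw [mul_add]; omega,
          show b * a = 0 + a * b by ring, key _ _ _ _ ha ha]
        simp
      have e2 : ((j1 : ℕ) + a * j2 = 0) ↔ (j1 : ℕ) = 0 ∧ (j2 : ℕ) = 0 := by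
        rw [show (0 : ℕ) = 0 + a * 0 by ring, key _ _ _ _ hj1 ha]
        simp
      rw [e1, e2]; tauto
    rw [if_neg (show ¬ ((j1 : ℕ) = i1 + 1) by omega)]
    by_cases h9 : (j1 : ℕ) = 0
    · have hq : (if (i1 : ℕ) + 1 = a ∧ (j1 : ℕ) = 0 then (X : A[X]) else 0) = X :=
        if_pos ⟨h5', h9⟩
      have : g X = Q b (1 : A) := aeval_X _
      rw [hq, this]
      simp only [Q, Matrix.of_apply]
      by_cases h10 : (j2 : ℕ) = i2 + 1
      · rw [if_pos h10, if_pos (h6.mpr ⟨h9, h10⟩)]
      · rw [if_neg h10, if_neg (fun h => h10 (h6.mp h).2)]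
        by_cases h11 : (i2 : ℕ) + 1 = b ∧ (j2 : ℕ) = 0
        · rw [if_pos h11, if_pos (h7.mpr ⟨h9, h11⟩)]
        · rw [if_neg h11, if_neg (fun h => h11 (h7.mp h).2)]
    · have hq : (if (i1 : ℕ) + 1 = a ∧ (j1 : ℕ) = 0 then (X : A[X]) else 0) = 0 :=
        if_neg (fun h => h9 h.2)
      rw [hq, map_zero, if_neg (fun h => h9 (h6.mp h).1), if_neg (fun h => h9 (h7.mp h).1)]
      rfl

/-- In characteristic `p`, for a domain, the relative norm is the Frobenius twist. -/
theorem Nm_char {A : Type*} [CommRing A] [IsDomain A] (p : ℕ) [Fact p.Prime] [CharP A p]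
    (f : A[X]) : Nm p f = f.map (frobenius A p) := by
  have h1 : (Nm p f) ^ p = (f.map (frobenius A p)) ^ p := by
    rw [Nm, ← Matrix.det_pow, ← map_pow, ← map_frobenius_expand p f, map_expand,
      expand_aeval, Q_pow_self, aeval_algebraMap_apply, aeval_X_left_apply,
      Algebra.algebraMap_eq_smul_one, Matrix.det_smul, Matrix.det_one, mul_one, Fintype.card_fin]
  have h2 : frobenius A[X] p (Nm p f) = frobenius A[X] p (f.map (frobenius A p)) := h1
  exact frobenius_inj A[X] p h2

/-- The relative norm is the Frobenius twist modulo `p`. -/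
theorem Nm_coeff {A : Type*} [CommRing A] (p : ℕ) [Fact p.Prime] (f : A[X]) (i : ℕ) :
    ∃ g : A, (Nm p f).coeff i = (f.coeff i) ^ p + (p : A) * g := by
  let π : MvPolynomial A ℤ →+* A := (MvPolynomial.aeval (fun a : A => a)).toRingHom
  have hπ : Function.Surjective π := by
    intro a
    exact ⟨MvPolynomial.X a, by simp [π]⟩
  obtain ⟨F, rfl⟩ := Polynomial.map_surjective π hπ f
  let ρ : MvPolynomial A ℤ →+* MvPolynomial A (ZMod p) :=
    MvPolynomial.map (Int.castRingHom (ZMod p))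
  have h1 : ρ ((Nm p F).coeff i - (F.coeff i) ^ p) = 0 := by
    rw [map_sub, map_pow, ← coeff_map, ← coeff_map, ← Nm_map, Nm_char, coeff_map, frobenius_def,
      sub_self]
  have h2 : (MvPolynomial.C (p : ℤ) : MvPolynomial A ℤ) ∣ ((Nm p F).coeff i - (F.coeff i) ^ p) :=
    (MvPolynomial.C_dvd_iff_zmod p _).mpr h1
  obtain ⟨G, hG⟩ := h2
  refine ⟨π G, ?_⟩
  rw [Nm_map, coeff_map, coeff_map, ← map_pow]
  have h3 : (Nm p F).coeff i = (F.coeff i) ^ p + MvPolynomial.C (p : ℤ) * G := by
    rw [← hG]; ring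
  rw [h3, map_add, map_mul]
  congr 2
  simp [π]

/-- The relative norm improves congruences. -/
theorem Nm_congr {A : Type*} [CommRing A] (p : ℕ) [Fact p.Prime] (r : ℕ) (hr : 1 ≤ r)
    (g h : A[X]) : ∃ h' : A[X], Nm p (g + C ((p : A) ^ r) * h) =
      Nm p g + C ((p : A) ^ (r + 1)) * h' := by
  -- the generic deformation
  let F : A[X][X] := g.map C + C X * h.map C
  have hF : ∀ s : A, F.map (evalRingHom s) = g + C s * h := by
    intro s
    simp only [F, Polynomial.map_add, Polynomial.map_mul, map_C, coe_evalRingHom, eval_X,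
      Polynomial.map_map]
    have : (evalRingHom s).comp C = RingHom.id A := by ext; simp
    rw [this, Polynomial.map_id, Polynomial.map_id]
  have hN : ∀ (s : A) (i : ℕ), (Nm p (g + C s * h)).coeff i = ((Nm p F).coeff i).eval s := by
    intro s i
    rw [← hF, Nm_map, coeff_map, coe_evalRingHom]
  have hder : ∀ i, ∃ c : A, (derivative ((Nm p F).coeff i)).eval 0 = (p : A) * c := by
    intro i
    obtain ⟨G, hG⟩ := Nm_coeff p F i
    rw [hG, derivative_add, derivative_pow, derivative_mul]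
    refine ⟨eval 0 ((F.coeff i) ^ (p - 1) * derivative (F.coeff i) + derivative G), ?_⟩
    have : derivative ((p : A[X])) = 0 := by
      rw [← C_eq_natCast]; exact derivative_C
    rw [this]
    simp
    ring
  have hco : ∀ i, ∃ c : A, (Nm p (g + C ((p : A) ^ r) * h)).coeff i =
      (Nm p g).coeff i + (p : A) ^ (r + 1) * c := by
    intro i
    obtain ⟨c, hc⟩ := hder i
    obtain ⟨k, hk⟩ := binomExpansion ((Nm p F).coeff i) 0 ((p : A) ^ r)
    rw [zero_add, hc] at hk
    rw [hN, hk]
    have h0 : ((Nm p F).coeff i).eval 0 = (Nm p g).coeff i := by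
      have := hN 0 i
      rw [C_0, zero_mul, add_zero] at this
      exact this.symm
    rw [h0]
    refine ⟨c + k * (p : A) ^ (r - 1), ?_⟩
    have e : ((p : A) ^ r) ^ 2 = (p : A) ^ (r + 1) * (p : A) ^ (r - 1) := by
      rw [← pow_mul, ← pow_add]; congr 1; omega
    rw [e]; ring
  choose c hc using hco
  let M := max (Nm p (g + C ((p : A) ^ r) * h)).natDegree (Nm p g).natDegree
  refine ⟨∑ i ∈ Finset.range (M + 1), C (c i) * X ^ i, ?_⟩
  ext i
  rw [coeff_add, coeff_C_mul, finsetSum_coeff]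
  by_cases hi : i ≤ M
  · rw [Finset.sum_eq_single i]
    · rw [hc]; simp
    · intro b _ hb
      rw [coeff_C_mul, coeff_X_pow, if_neg (Ne.symm hb), mul_zero]
    · intro h; exact absurd (Finset.mem_range.mpr (by omega)) h
  · rw [Finset.sum_eq_zero, mul_zero, add_zero]
    · rw [coeff_eq_zero_of_natDegree_lt (lt_of_le_of_lt (le_max_left _ _) (not_le.mp hi)),
        coeff_eq_zero_of_natDegree_lt (lt_of_le_of_lt (le_max_right _ _) (not_le.mp hi))]
    · intro b hb
      rw [Finset.mem_range] at hb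
      rw [coeff_C_mul, coeff_X_pow, if_neg (by omega), mul_zero]

end Pool.Agent.R839.Circ
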