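import Mathlib

/-!
For an invertible complex matrix `A` of size at least two, the system `x_i ^ 2 = (A x)_i` has a
solution with at least two nonzero coordinates.
-/

namespace Pool.Agent.R839.EvoPoly

open MvPolynomial Matrix

variable {σ : Type*} [Fintype σ] [DecidableEq σ]

noncomputable section

/-- The linear form `∑ j, A i j X j`. -/
def L (A : Matrix σ σ ℂ) (i : σ) : MvPolynomial σ ℂ := ∑ j, C (A i j) * X j

/-- The polynomial `X i ^ 2 - ∑ j, A i j X j`. -/
def f (A : Matrix σ σ ℂ) (i : σ) : MvPolynomial σ ℂ := X i ^ 2 - L A i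

/-- The one-variable factor. -/
def h (A : Matrix σ σ ℂ) (i : σ) (n : ℕ) : MvPolynomial σ ℂ := f A i ^ (n / 2) * X i ^ (n % 2)

/-- The image of a monomial. -/
def g (A : Matrix σ σ ℂ) (α : σ →₀ ℕ) : MvPolynomial σ ℂ := ∏ i, h A i (α i)

/-- The linear map that sends the monomial `x ^ α` to `g α`. -/
def Psi (A : Matrix σ σ ℂ) : MvPolynomial σ ℂ →ₗ[ℂ] MvPolynomial σ ℂ :=
  (basisMonomials σ ℂ).constr ℂ (g A)

/-- Polynomials of degree less than `d`. -/
def LT (σ : Type*) (d : ℕ) : Submodule ℂ (MvPolynomial σ ℂ) :=
  Submodule.span ℂ ((fun α : σ →₀ ℕ => monomial α (1 : ℂ)) '' {α | α.degree < d})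

omit [Fintype σ] [DecidableEq σ] in
lemma LT_mono {a b : ℕ} (hab : a ≤ b) : LT σ a ≤ LT σ b := by
  apply Submodule.span_mono
  apply Set.image_mono
  intro α hα
  exact lt_of_lt_of_le hα hab

omit [Fintype σ] [DecidableEq σ] in
lemma X_mul_mem (j : σ) {d : ℕ} {p : MvPolynomial σ ℂ} (hp : p ∈ LT σ d) :
    X j * p ∈ LT σ (d + 1) := by
  induction hp using Submodule.span_induction with
  | mem x hx =>
    obtain ⟨α, hα, rfl⟩ := hx
    apply Submodule.subset_span
    refine ⟨Finsupp.single j 1 + α, ?_, ?_⟩
    · simp only [Set.mem_setOf_eq, map_add, Finsupp.degree_single] at hα ⊢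
      omega
    · simp [X, monomial_mul]
  | zero => simp
  | add x y _ _ hx hy => rw [mul_add]; exact Submodule.add_mem _ hx hy
  | smul a x _ hx => rw [mul_smul_comm]; exact Submodule.smul_mem _ _ hx

omit [DecidableEq σ] in
lemma L_mul_mem (A : Matrix σ σ ℂ) (i : σ) {d : ℕ} {p : MvPolynomial σ ℂ} (hp : p ∈ LT σ d) :
    L A i * p ∈ LT σ (d + 1) := by
  unfold L
  rw [Finset.sum_mul]
  refine Submodule.sum_mem _ fun j _ => ?_
  rw [mul_assoc, ← smul_eq_C_mul]
  exact Submodule.smul_mem _ _ (X_mul_mem j hp)

omit [DecidableEq σ] in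
lemma h_add_two (A : Matrix σ σ ℂ) (i : σ) (n : ℕ) : h A i (n + 2) = f A i * h A i n := by
  unfold h
  rw [Nat.add_div_right _ (by norm_num), Nat.add_mod_right, pow_succ]
  ring

omit [DecidableEq σ] in
lemma h_even (A : Matrix σ σ ℂ) (i : σ) (n : ℕ) (hn : n % 2 = 0) :
    h A i (n + 1) = X i * h A i n := by
  unfold h
  have h1 : (n + 1) / 2 = n / 2 := by omega
  have h2 : (n + 1) % 2 = 1 := by omega
  rw [h1, h2, hn]
  ring

lemma prod_change (u v : σ → MvPolynomial σ ℂ) (i : σ) (c : MvPolynomial σ ℂ)
    (h1 : u i = c * v i) (h2 : ∀ j, j ≠ i → u j = v j) : ∏ j, u j = c * ∏ j, v j := by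
  rw [Fintype.prod_eq_mul_prod_compl i u, Fintype.prod_eq_mul_prod_compl i v, h1, mul_assoc]
  congr 1
  congr 1
  refine Finset.prod_congr rfl fun j hj => h2 j ?_
  simpa using hj

lemma g_add_two (A : Matrix σ σ ℂ) (i : σ) (α : σ →₀ ℕ) :
    g A (α + Finsupp.single i 2) = f A i * g A α := by
  unfold g
  apply prod_change _ _ i
  · simp [h_add_two]
  · intro j hj
    simp [Finsupp.single_apply, Ne.symm hj]

lemma g_even (A : Matrix σ σ ℂ) (i : σ) (α : σ →₀ ℕ) (hα : α i % 2 = 0) :
    g A (α + Finsupp.single i 1) = X i * g A α := by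
  unfold g
  apply prod_change _ _ i
  · simp [h_even A i _ hα]
  · intro j hj
    simp [Finsupp.single_apply, Ne.symm hj]

lemma g_zero (A : Matrix σ σ ℂ) : g A 0 = 1 := by
  unfold g h
  simp

lemma mono_mem {α : σ →₀ ℕ} {d : ℕ} (h : α.degree < d) : monomial α (1 : ℂ) ∈ LT σ d :=
  Submodule.subset_span ⟨α, h, rfl⟩

lemma g_sub_mem (A : Matrix σ σ ℂ) : ∀ (d : ℕ) (α : σ →₀ ℕ), α.degree = d →
    g A α - monomial α 1 ∈ LT σ d := by
  intro d
  induction d using Nat.strong_induction_on with
  | _ d ih =>
    intro α hα
    by_cases h0 : α = 0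
    · subst h0
      rw [g_zero]
      simp
    · obtain ⟨i, hi⟩ : ∃ i, α i ≠ 0 := by
        by_contra hcon
        push Not at hcon
        exact h0 (Finsupp.ext hcon)
      rcases Nat.mod_two_eq_zero_or_one (α i) with hpar | hpar
      · -- even
        have h2 : 2 ≤ α i := by omega
        obtain ⟨γ, hγ⟩ : ∃ γ : σ →₀ ℕ, α = γ + Finsupp.single i 2 :=
          ⟨α - Finsupp.single i 2, by
            rw [tsub_add_cancel_of_le]
            rw [Finsupp.single_le_iff]
            exact h2⟩
        have hdeg : γ.degree + 2 = d := by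
          rw [← hα, hγ]
          simp
        subst hγ
        rw [g_add_two]
        have hm : (monomial (γ + Finsupp.single i 2) (1 : ℂ)) = X i * (X i * monomial γ 1) := by
          rw [X, monomial_mul, monomial_mul]
          congr 1
          · rw [← add_assoc, ← Finsupp.single_add, add_comm]
          · norm_num
        have hg : f A i * g A γ = X i * (X i * g A γ) - L A i * g A γ := by
          unfold f; ring
        rw [hm, hg]
        have e1 := ih γ.degree (by omega) γ rfl
        have e2 : g A γ ∈ LT σ (γ.degree + 1) := by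
          have := Submodule.add_mem _ (LT_mono (Nat.le_succ _) e1)
            (mono_mem (α := γ) (Nat.lt_succ_self _))
          simpa using this
        have : X i * (X i * g A γ) - L A i * g A γ - X i * (X i * monomial γ 1)
            = X i * (X i * (g A γ - monomial γ 1)) - L A i * g A γ := by ring
        rw [this]
        apply Submodule.sub_mem
        · have := X_mul_mem i (X_mul_mem i e1)
          rwa [show γ.degree + 1 + 1 = d by omega] at this
        · have := L_mul_mem A i e2
          rwa [show γ.degree + 1 + 1 = d by omega] at this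
      · obtain ⟨γ, hγ⟩ : ∃ γ : σ →₀ ℕ, α = γ + Finsupp.single i 1 :=
          ⟨α - Finsupp.single i 1, by
            rw [tsub_add_cancel_of_le]
            rw [Finsupp.single_le_iff]
            omega⟩
        have hdeg : γ.degree + 1 = d := by
          rw [← hα, hγ]
          simp
        have hγi : γ i % 2 = 0 := by
          rw [hγ] at hpar
          simp at hpar
          omega
        subst hγ
        rw [g_even A i γ hγi]
        have hm : (monomial (γ + Finsupp.single i 1) (1 : ℂ)) = X i * monomial γ 1 := by
          rw [X, monomial_mul, add_comm, one_mul]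
        rw [hm, ← mul_sub]
        have e1 := ih γ.degree (by omega) γ rfl
        have := X_mul_mem i e1
        rwa [hdeg] at this

lemma Psi_monomial (A : Matrix σ σ ℂ) (α : σ →₀ ℕ) : Psi A (monomial α 1) = g A α := by
  have := (basisMonomials σ ℂ).constr_basis ℂ (g A) α
  simpa [Psi] using this

lemma Psi_sub_mem (A : Matrix σ σ ℂ) (d : ℕ) (p : MvPolynomial σ ℂ) (hp : p ∈ LT σ (d + 1)) :
    Psi A p - p ∈ LT σ d := by
  induction hp using Submodule.span_induction with
  | mem x hx =>
    obtain ⟨α, hα, rfl⟩ := hx
    simp only [Set.mem_setOf_eq] at hα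
    show Psi A (monomial α 1) - monomial α 1 ∈ _
    rw [Psi_monomial]
    exact LT_mono (by omega) (g_sub_mem A α.degree α rfl)
  | zero => simp
  | add x y _ _ hx hy =>
    rw [map_add, add_sub_add_comm]
    exact Submodule.add_mem _ hx hy
  | smul a x _ hx =>
    rw [map_smul, ← smul_sub]
    exact Submodule.smul_mem _ _ hx

lemma exists_mem_LT (p : MvPolynomial σ ℂ) : ∃ d, p ∈ LT σ d := by
  induction p using MvPolynomial.induction_on' with
  | monomial α c =>
    refine ⟨α.degree + 1, ?_⟩
    have : monomial α c = c • monomial α (1 : ℂ) := by simp [smul_monomial]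
    rw [this]
    exact Submodule.smul_mem _ _ (mono_mem (Nat.lt_succ_self _))
  | add p q hp hq =>
    obtain ⟨a, ha⟩ := hp
    obtain ⟨b, hb⟩ := hq
    exact ⟨max a b, Submodule.add_mem _ (LT_mono (le_max_left _ _) ha)
      (LT_mono (le_max_right _ _) hb)⟩

lemma Psi_inj (A : Matrix σ σ ℂ) (p : MvPolynomial σ ℂ) (hp : Psi A p = 0) : p = 0 := by
  have key : ∀ d, p ∈ LT σ d → p = 0 := by
    intro d
    induction d with
    | zero =>
      intro h
      simpa [LT] using h
    | succ d ih =>
      intro h
      apply ih
      have := Psi_sub_mem A d p h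
      rw [hp, zero_sub] at this
      simpa using this
  obtain ⟨d, hd⟩ := exists_mem_LT p
  exact key d hd

lemma Psi_surj (A : Matrix σ σ ℂ) (p : MvPolynomial σ ℂ) : ∃ q, Psi A q = p := by
  have key : ∀ d p, p ∈ LT σ d → ∃ q, Psi A q = p := by
    intro d
    induction d with
    | zero =>
      intro p h
      have : p = 0 := by simpa [LT] using h
      exact ⟨0, by simp [this]⟩
    | succ d ih =>
      intro p h
      obtain ⟨q, hq⟩ := ih _ (Psi_sub_mem A d p h)
      exact ⟨p - q, by rw [map_sub, hq]; ring⟩
  obtain ⟨d, hd⟩ := exists_mem_LT p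
  exact key d p hd

lemma Psi_X_sq (A : Matrix σ σ ℂ) (i : σ) (p : MvPolynomial σ ℂ) :
    Psi A (X i * (X i * p)) = f A i * Psi A p := by
  induction p using MvPolynomial.induction_on' with
  | monomial α c =>
    have : monomial α c = c • monomial α (1 : ℂ) := by simp [smul_monomial]
    rw [this, mul_smul_comm, mul_smul_comm, map_smul, map_smul, mul_smul_comm]
    congr 1
    have hm : X i * (X i * monomial α 1) = (monomial (α + Finsupp.single i 2) (1 : ℂ)) := by
      rw [X, monomial_mul, monomial_mul]
      congr 1
      · rw [← add_assoc, ← Finsupp.single_add, add_comm]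
      · norm_num
    rw [hm, Psi_monomial, Psi_monomial, g_add_two]
  | add p q hp hq =>
    rw [mul_add, mul_add, map_add, hp, hq, map_add, mul_add]

/-- The ideal of the system. -/
def I (A : Matrix σ σ ℂ) : Ideal (MvPolynomial σ ℂ) := Ideal.span (Set.range (f A))

lemma not_mem (A : Matrix σ σ ℂ) {p q : σ} (hpq : p ≠ q) : X p * X q ∉ I A := by
  intro hmem
  rw [I, Ideal.mem_span_range_iff_exists_fun] at hmem
  obtain ⟨c, hc⟩ := hmem
  choose r hr using fun i => Psi_surj A (c i)
  have h1 : Psi A (∑ i, X i * (X i * r i)) = X p * X q := by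
    rw [map_sum, ← hc]
    refine Finset.sum_congr rfl fun i _ => ?_
    rw [Psi_X_sq, hr, mul_comm]
  have h2 : Psi A (X p * X q) = X p * X q := by
    have e : (X p * X q : MvPolynomial σ ℂ)
        = monomial (0 + Finsupp.single p 1 + Finsupp.single q 1) 1 := by
      rw [X, X, monomial_mul]
      simp
    rw [e, Psi_monomial, g_even, g_even, g_zero, ← e]
    · ring
    · simp
    · simp [Finsupp.single_apply, hpq]
  have h3 : (∑ i, X i * (X i * r i)) - X p * X q = 0 := Psi_inj A _ (by rw [map_sub, h1, h2, sub_self])
  have h4 := congrArg (coeff (Finsupp.single p 1 + Finsupp.single q 1)) (sub_eq_zero.mp h3)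
  rw [coeff_sum] at h4
  have h5 : ∀ i ∈ Finset.univ,
      coeff (Finsupp.single p 1 + Finsupp.single q 1) (X i * (X i * r i)) = 0 := by
    intro i _
    rw [coeff_X_mul']
    split_ifs with hi
    · rw [coeff_X_mul', if_neg]
      simp only [Finsupp.mem_support_iff, Finsupp.coe_tsub, Finsupp.coe_add, Pi.sub_apply,
        Pi.add_apply, Finsupp.single_apply, ne_eq, not_not]
      by_cases hp : p = i
      · subst hp
        simp [Ne.symm hpq]
      · by_cases hq : q = i
        · subst hq
          simp [hpq]
        · simp [hp, hq]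
    · rfl
  rw [Finset.sum_eq_zero h5] at h4
  have h6 : (X p * X q : MvPolynomial σ ℂ)
      = monomial (Finsupp.single p 1 + Finsupp.single q 1) 1 := by
    rw [X, X, monomial_mul, one_mul]
  rw [h6, coeff_monomial, if_pos rfl] at h4
  exact zero_ne_one h4

/-- The main fact: a solution with two nonzero coordinates. -/
theorem exists_sol (A : Matrix σ σ ℂ) (hA : A.det ≠ 0) {p q : σ} (hpq : p ≠ q) :
    ∃ x : σ → ℂ, (∀ i, x i ^ 2 = ∑ j, A i j * x j) ∧ ∃ i j, i ≠ j ∧ x i ≠ 0 ∧ x j ≠ 0 := by
  by_contra hcon
  push Not at hcon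
  -- the colon ideal
  set J : Ideal (MvPolynomial σ ℂ) :=
    Submodule.comap (LinearMap.toSpanSingleton (MvPolynomial σ ℂ) (MvPolynomial σ ℂ) (X p * X q))
      (I A) with hJ
  have memJ : ∀ u, u ∈ J ↔ u * (X p * X q) ∈ I A := by
    intro u
    simp [hJ, LinearMap.toSpanSingleton_apply, smul_eq_mul]
  have hz : zeroLocus ℂ J = ∅ := by
    rw [Set.eq_empty_iff_forall_notMem]
    intro x hx
    rw [mem_zeroLocus_iff] at hx
    have hf : ∀ i, x i ^ 2 = ∑ j, A i j * x j := by
      intro i
      have h1 : f A i ∈ J := by
        rw [memJ]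
        exact Ideal.mul_mem_right _ _ (Ideal.subset_span ⟨i, rfl⟩)
      have h2 := hx _ h1
      simp only [f, L, map_sub, map_pow, aeval_X, map_sum, map_mul, aeval_C, Algebra.algebraMap_self,
        RingHom.id_apply] at h2
      exact sub_eq_zero.mp h2
    have hsupp := hcon x hf
    -- the matrix G
    let G : Matrix σ σ (MvPolynomial σ ℂ) :=
      Matrix.diagonal (fun i => X i + C (x i)) - A.map C
    have hGv : G *ᵥ (fun k => X k - C (x k)) = fun j => f A j := by
      funext j
      simp only [G, Matrix.sub_mulVec, Pi.sub_apply, Matrix.mulVec_diagonal]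
      simp only [Matrix.mulVec, dotProduct, Matrix.map_apply, f, L]
      have e1 : (X j + C (x j)) * (X j - C (x j)) = X j ^ 2 - C (x j ^ 2) := by
        rw [map_pow]; ring
      rw [e1, hf j, map_sum]
      simp only [mul_sub, Finset.sum_sub_distrib, map_mul]
      ring
    have hdet : ∀ k, G.det * (X k - C (x k)) ∈ I A := by
      intro k
      have e1 : (G.adjugate *ᵥ (G *ᵥ (fun k => X k - C (x k)))) k = G.det * (X k - C (x k)) := by
        rw [Matrix.mulVec_mulVec, Matrix.adjugate_mul]
        simp [Matrix.smul_mulVec]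
      rw [← e1, hGv]
      simp only [Matrix.mulVec, dotProduct]
      exact Ideal.sum_mem _ fun j _ => Ideal.mul_mem_left _ _ (Ideal.subset_span ⟨j, rfl⟩)
    have hGJ : G.det ∈ J := by
      rw [memJ]
      by_cases hp0 : x p = 0
      · have := hdet p
        rw [hp0] at this
        simp only [map_zero, sub_zero] at this
        rw [← mul_assoc]
        exact Ideal.mul_mem_right _ _ this
      · have hq0 : x q = 0 := hsupp p q hpq hp0
        have := hdet q
        rw [hq0] at this
        simp only [map_zero, sub_zero] at this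
        rw [mul_comm (X p), ← mul_assoc]
        exact Ideal.mul_mem_right _ _ this
    have h3 := hx _ hGJ
    have h4 : aeval x G.det = (Matrix.diagonal (fun i => 2 * x i) - A).det := by
      have : aeval x G.det = (G.map (aeval x : MvPolynomial σ ℂ →ₐ[ℂ] ℂ)).det := by
        rw [← AlgHom.coe_toRingHom, RingHom.map_det]
        rfl
      rw [this]
      congr 1
      ext i j
      simp only [G, Matrix.map_apply, Matrix.sub_apply, map_sub, Matrix.diagonal_apply, aeval_C,
        Algebra.algebraMap_self, RingHom.id_apply]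
      split_ifs with hij
      · simp; ring
      · simp
    have h5 : Matrix.diagonal (fun i => 2 * x i) - A
        = (-A) * Matrix.diagonal (fun k => if x k = 0 then (1 : ℂ) else -1) := by
      ext j k
      rw [Matrix.mul_diagonal, Matrix.sub_apply, Matrix.diagonal_apply, Matrix.neg_apply]
      by_cases hk : x k = 0
      · rw [if_pos hk]
        split_ifs with hjk
        · subst hjk
          rw [hk]; ring
        · ring
      · rw [if_neg hk]
        have hother : ∀ l, l ≠ k → x l = 0 := by
          intro l hl
          by_contra hl0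
          exact hk (hsupp l k hl hl0)
        have hfj := hf j
        rw [Finset.sum_eq_single k (fun l _ hl => by rw [hother l hl, mul_zero])
          (by simp)] at hfj
        split_ifs with hjk
        · subst hjk
          have : x j = A j j := by
            have : x j * (x j - A j j) = 0 := by ring_nf; linear_combination hfj
            rcases mul_eq_zero.mp this with h | h
            · exact absurd h hk
            · exact sub_eq_zero.mp h
          rw [this]; ring
        · rw [hother j hjk] at hfj
          have : A j k = 0 := by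
            have : A j k * x k = 0 := by rw [← hfj]; ring
            rcases mul_eq_zero.mp this with h | h
            · exact h
            · exact absurd h hk
          rw [this]; ring
    rw [h4, h5, Matrix.det_mul, Matrix.det_diagonal, Matrix.det_neg] at h3
    have : ∏ k, (if x k = 0 then (1 : ℂ) else -1) ≠ 0 := by
      refine Finset.prod_ne_zero_iff.mpr fun k _ => ?_
      split_ifs <;> norm_num
    rcases mul_eq_zero.mp h3 with h | h
    · rcases mul_eq_zero.mp h with h | h
      · exact absurd h (pow_ne_zero _ (by norm_num))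
      · exact hA h
    · exact this h
  have h6 := vanishingIdeal_zeroLocus_eq_radical (K := ℂ) J
  rw [hz] at h6
  have h7 : J.radical = ⊤ := by
    rw [← h6]
    exact vanishingIdeal_empty
  have h8 : J = ⊤ := Ideal.radical_eq_top.mp h7
  have h9 : (1 : MvPolynomial σ ℂ) ∈ J := by rw [h8]; trivial
  rw [memJ, one_mul] at h9
  exact not_mem A hpq h9

end

end Pool.Agent.R839.EvoPoly
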