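import Pool.Agent.R839.EvoDef
import Pool.Agent.R839.EvoPoly

/-!
Basic facts on evolution algebras with condition `P`.
-/

namespace Pool.Agent.R839.Evo

open Module (Basis)

noncomputable section

section basic

variable {V : Type*} [AddCommGroup V] [Module ℂ V] {ι : Type*} [Fintype ι] [DecidableEq ι]
variable {m : Bil V} {e : Basis ι ℂ V}

lemma mul_eq (he : IsNatural m e) (x y : V) :
    m x y = ∑ i, (e.repr x i * e.repr y i) • m (e i) (e i) := by
  conv_lhs => rw [← e.sum_repr x, ← e.sum_repr y]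
  rw [map_sum m, LinearMap.sum_apply]
  refine Finset.sum_congr rfl fun i _ => ?_
  rw [map_smul, LinearMap.smul_apply, map_sum, Finset.sum_eq_single i, map_smul, smul_smul]
  · intro j _ hj
    rw [map_smul, he i j hj.symm, smul_zero]
  · simp

lemma basis_mul (he : IsNatural m e) (i : ι) (y : V) :
    m (e i) y = e.repr y i • m (e i) (e i) := by
  rw [mul_eq he, Finset.sum_eq_single i]
  · simp
  · intro j _ hj
    simp [Finsupp.single_apply, hj.symm]
  · simp

lemma mul_symm (he : IsNatural m e) (x y : V) : m x y = m y x := by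
  rw [mul_eq he, mul_eq he y x]
  refine Finset.sum_congr rfl fun i _ => ?_
  rw [mul_comm]

lemma mul_basis (he : IsNatural m e) (i : ι) (y : V) :
    m y (e i) = e.repr y i • m (e i) (e i) := by
  rw [mul_symm he, basis_mul he]

omit [DecidableEq ι] in
lemma F1 (hP : CondP m) (x : V) (hx : m x x = 0) (y : V) : m x y = 0 := by
  by_cases h0 : x = 0
  · simp [h0]
  have hS : IsSubalgebra m (Submodule.span ℂ {x}) := by
    intro a ha b hb
    obtain ⟨c, rfl⟩ := Submodule.mem_span_singleton.mp ha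
    obtain ⟨d, rfl⟩ := Submodule.mem_span_singleton.mp hb
    simp [hx]
  obtain ⟨_, n, b, T, hb, hST⟩ := hP _ hS
  have hT : T.Nonempty := by
    rw [Set.nonempty_iff_ne_empty]
    rintro rfl
    rw [Set.image_empty, Submodule.span_empty, Submodule.span_singleton_eq_bot] at hST
    exact h0 hST
  obtain ⟨t, ht⟩ := hT
  have h1 : b t ∈ Submodule.span ℂ {x} := by
    rw [hST]
    exact Submodule.subset_span ⟨t, ht, rfl⟩
  obtain ⟨c, hc⟩ := Submodule.mem_span_singleton.mp h1
  have hc0 : c ≠ 0 := by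
    rintro rfl
    exact b.ne_zero t (by simpa using hc.symm)
  have h2 : m (b t) (b t) = 0 := by
    rw [← hc]
    simp [hx]
  have h3 : m (b t) y = 0 := by
    rw [basis_mul hb, h2, smul_zero]
  rw [← hc, map_smul, LinearMap.smul_apply] at h3
  exact (smul_eq_zero.mp h3).resolve_left hc0

lemma F2 (he : IsNatural m e) (hP : CondP m) {i j : ι} (hij : i ≠ j) (c d : ℂ)
    (h : c • m (e i) (e i) + d • m (e j) (e j) = 0) : c • m (e i) (e i) = 0 := by
  obtain ⟨a, ha⟩ := IsAlgClosed.exists_pow_nat_eq c (n := 2) (by norm_num)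
  obtain ⟨b, hb⟩ := IsAlgClosed.exists_pow_nat_eq d (n := 2) (by norm_num)
  have h1 : m (a • e i + b • e j) (a • e i + b • e j) = 0 := by
    simp only [map_add, map_smul, LinearMap.add_apply, LinearMap.smul_apply, he i j hij,
      he j i hij.symm, smul_zero, add_zero, zero_add, smul_smul]
    rw [← h, ← ha, ← hb, pow_two, pow_two]
  have h2 := F1 hP _ h1 (e i)
  simp only [map_add, map_smul, LinearMap.add_apply, LinearMap.smul_apply,
      he j i hij.symm, smul_zero, add_zero] at h2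
  rw [← ha, pow_two, mul_smul, h2, smul_zero]

lemma F4 (he : IsNatural m e) (hP : CondP m) (S : Submodule ℂ V) (hS : IsSubalgebra m S) (x : V)
    (hx : x ∈ S) (i : ι) (hi : m (e i) (e i) ≠ 0) (hxi : e.repr x i ≠ 0) :
    ∃ u ∈ S, e.repr u i = 1 ∧ ∀ j, j ≠ i → m (e j) (e j) ≠ 0 → e.repr u j = 0 := by
  obtain ⟨_, n, b, T, hb, hST⟩ := hP _ hS
  obtain ⟨t, ht, hti⟩ : ∃ t ∈ T, e.repr (b t) i ≠ 0 := by
    by_contra hcon
    push Not at hcon
    have : S ≤ LinearMap.ker (e.coord i) := by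
      rw [hST, Submodule.span_le]
      rintro _ ⟨t, ht, rfl⟩
      simpa using hcon t ht
    exact hxi (by simpa using this hx)
  have hbt : b t ∈ S := by
    rw [hST]
    exact Submodule.subset_span ⟨t, ht, rfl⟩
  have key : ∀ k, e.repr (b t) k • m (e k) (e k) = b.repr (e k) t • m (b t) (b t) := by
    intro k
    rw [← mul_basis he, basis_mul hb]
  have hz : ∀ j, j ≠ i → m (e j) (e j) ≠ 0 → e.repr (b t) j = 0 := by
    intro j hji hj
    by_contra hne
    have k1 := key i
    have k2 := key j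
    have a1 : b.repr (e j) t ≠ 0 := by
      intro h0
      rw [h0, zero_smul] at k2
      rcases smul_eq_zero.mp k2 with h | h
      · exact hne h
      · exact hj h
    have h1 : (b.repr (e j) t * e.repr (b t) i) • m (e i) (e i)
        + (-(b.repr (e i) t * e.repr (b t) j)) • m (e j) (e j) = 0 := by
      rw [mul_smul, k1, neg_smul, mul_smul, k2, smul_smul, smul_smul, mul_comm]
      exact add_neg_cancel _
    have h2 := F2 he hP hji.symm _ _ h1
    rcases smul_eq_zero.mp h2 with h | h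
    · rcases mul_eq_zero.mp h with h | h
      · exact a1 h
      · exact hti h
    · exact hi h
  refine ⟨(e.repr (b t) i)⁻¹ • b t, S.smul_mem _ hbt, ?_, ?_⟩
  · simp [hti]
  · intro j hji hj
    simp [hz j hji hj]

/-- The coordinate subspace spanned by `e i`, `i ∈ J`. -/
def W (e : Basis ι ℂ V) (J : Finset ι) : Submodule ℂ V where
  carrier := {x | ∀ i, i ∉ J → e.repr x i = 0}
  add_mem' := by
    intro a b ha hb i hi
    simp [ha i hi, hb i hi]
  zero_mem' := by
    intro i _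
    simp
  smul_mem' := by
    intro c x hx i hi
    simp [hx i hi]

omit [Fintype ι] [DecidableEq ι] in
lemma mem_W {J : Finset ι} {x : V} : x ∈ W e J ↔ ∀ i, i ∉ J → e.repr x i = 0 := Iff.rfl

omit [Fintype ι] [DecidableEq ι] in
lemma W_mono {J K : Finset ι} (h : J ⊆ K) : W e J ≤ W e K := by
  intro x hx i hi
  exact hx i (fun h' => hi (h h'))

lemma F5 (he : IsNatural m e) (hP : CondP m) (J : Finset ι)
    (hJ : ∀ i ∈ J, m (e i) (e i) ∈ W e J) (w : V) (hwJ : ∀ i ∈ J, e.repr w i = 0)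
    (a : ℂ) (hw : ∀ j, j ∉ J → e.repr (m w w) j = a * e.repr w j) {i k : ι} (hik : i ≠ k)
    (hqi : m (e i) (e i) ≠ 0) (hqk : m (e k) (e k) ≠ 0) (hi : e.repr w i ≠ 0)
    (hk : e.repr w k ≠ 0) : False := by
  let S : Submodule ℂ V :=
    { carrier := {x | ∃ c : ℂ, ∀ j, j ∉ J → e.repr x j = c * e.repr w j}
      add_mem' := by
        rintro x y ⟨c, hc⟩ ⟨d, hd⟩
        refine ⟨c + d, fun j hj => ?_⟩
        simp [hc j hj, hd j hj, add_mul]
      zero_mem' := ⟨0, by simp⟩
      smul_mem' := by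
        rintro r x ⟨c, hc⟩
        refine ⟨r * c, fun j hj => ?_⟩
        simp [hc j hj, mul_assoc] }
  have hS : IsSubalgebra m S := by
    rintro x ⟨c, hc⟩ y ⟨d, hd⟩
    refine ⟨c * d * a, fun j hj => ?_⟩
    have h1 : m x y - (c * d) • m w w ∈ W e J := by
      rw [mul_eq he x y, mul_eq he w w, Finset.smul_sum, ← Finset.sum_sub_distrib]
      refine Submodule.sum_mem _ fun l _ => ?_
      by_cases hl : l ∈ J
      · exact Submodule.sub_mem _ (Submodule.smul_mem _ _ (hJ l hl))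
          (Submodule.smul_mem _ _ (Submodule.smul_mem _ _ (hJ l hl)))
      · rw [smul_smul, ← sub_smul, hc l hl, hd l hl]
        have : c * e.repr w l * (d * e.repr w l) - c * d * (e.repr w l * e.repr w l) = 0 := by
          ring
        rw [this, zero_smul]
        exact Submodule.zero_mem _
    have h2 := h1 j hj
    simp only [map_sub, map_smul, Finsupp.coe_sub, Pi.sub_apply, Finsupp.coe_smul, Pi.smul_apply,
      smul_eq_mul] at h2
    rw [hw j hj] at h2
    rw [sub_eq_zero.mp h2]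
    ring
  have hwS : w ∈ S := ⟨1, by simp⟩
  obtain ⟨u, ⟨c, hc⟩, hui, huk⟩ := F4 he hP S hS w hwS i hqi hi
  have hiJ : i ∉ J := fun h => hi (hwJ i h)
  have hkJ : k ∉ J := fun h => hk (hwJ k h)
  have h1 := huk k hik.symm hqk
  rw [hc k hkJ] at h1
  rcases mul_eq_zero.mp h1 with h | h
  · rw [hc i hiJ, h, zero_mul] at hui
    exact zero_ne_one hui
  · exact hk h

end basic

section powers

variable {V : Type*} [AddCommGroup V] [Module ℂ V] {m : Bil V}

lemma pw_mul_mem {a b : ℕ} (ha : 1 ≤ a) (hb : 1 ≤ b) {x y : V} (hx : x ∈ pw m a)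
    (hy : y ∈ pw m b) : m x y ∈ pw m (a + b) := by
  obtain ⟨a, rfl⟩ : ∃ a', a = a' + 1 := ⟨a - 1, by omega⟩
  obtain ⟨b, rfl⟩ : ∃ b', b = b' + 1 := ⟨b - 1, by omega⟩
  have e1 : a + 1 + (b + 1) = (a + b) + 2 := by ring
  rw [e1, pw]
  apply Submodule.mem_iSup_of_mem (⟨a, by omega⟩ : Fin (a + b + 1))
  apply Submodule.apply_mem_map₂
  · exact hx
  · have : a + b + 1 - a = b + 1 := by omega
    simp only [this]
    exact hy

lemma pw_one : pw m 1 = ⊤ := by rw [pw]

lemma pw_le (U : ℕ → Submodule ℂ V) (N : ℕ) (hN : U N = ⊤)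
    (h1 : ∀ j, j < N → ∀ x y, x ∈ U (j + 1) → m x y ∈ U j)
    (h2 : ∀ j, j < N → ∀ x y, y ∈ U (j + 1) → m x y ∈ U j) :
    ∀ j, j < N → ∀ k, 2 ^ j + 1 ≤ k → pw m k ≤ U (N - 1 - j) := by
  intro j
  induction j with
  | zero =>
    intro hj k hk
    obtain ⟨k, rfl⟩ : ∃ k', k = k' + 2 := ⟨k - 2, by omega⟩
    rw [pw]
    refine iSup_le fun i => ?_
    rw [Submodule.map₂_le]
    intro x _ y _
    apply h1 (N - 1 - 0) (by omega)
    rw [show N - 1 - 0 + 1 = N by omega, hN]
    trivial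
  | succ j ih =>
    intro hj k hk
    have hpow : 2 ^ (j + 1) = 2 ^ j + 2 ^ j := by ring
    have hpos : 1 ≤ 2 ^ j := Nat.one_le_two_pow
    obtain ⟨k, rfl⟩ : ∃ k', k = k' + 2 := ⟨k - 2, by omega⟩
    rw [pw]
    refine iSup_le fun i => ?_
    rw [Submodule.map₂_le]
    intro x hx y hy
    have e1 : N - 1 - (j + 1) + 1 = N - 1 - j := by omega
    by_cases hcase : 2 ^ j + 1 ≤ (i : ℕ) + 1
    · apply h1 (N - 1 - (j + 1)) (by omega)
      rw [e1]
      exact ih (by omega) _ hcase hx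
    · apply h2 (N - 1 - (j + 1)) (by omega)
      rw [e1]
      have hi := i.2
      exact ih (by omega) _ (by omega) hy

lemma pw_eq_bot (U : ℕ → Submodule ℂ V) (N : ℕ) (hN1 : 1 ≤ N) (hN : U N = ⊤) (h0 : U 0 = ⊥)
    (h1 : ∀ j, j < N → ∀ x y, x ∈ U (j + 1) → m x y ∈ U j)
    (h2 : ∀ j, j < N → ∀ x y, y ∈ U (j + 1) → m x y ∈ U j) (k : ℕ)
    (hk : 2 ^ (N - 1) + 1 ≤ k) : pw m k = ⊥ := by
  have := pw_le U N hN h1 h2 (N - 1) (by omega) k hk
  rw [Nat.sub_self, h0] at this
  exact le_bot_iff.mp this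

end powers

section chain

variable {V : Type*} [AddCommGroup V] [Module ℂ V] {ι : Type*} [Fintype ι] [DecidableEq ι]

open Classical in
/-- The upper annihilating chain of index sets. -/
def Jc (m : Bil V) (e : Basis ι ℂ V) : ℕ → Finset ι
  | 0 => ∅
  | k + 1 => Finset.univ.filter (fun i => m (e i) (e i) ∈ W e (Jc m e k))

variable {m : Bil V} {e : Basis ι ℂ V}

omit [DecidableEq ι] in
lemma mem_Jc_succ {k : ℕ} {i : ι} : i ∈ Jc m e (k + 1) ↔ m (e i) (e i) ∈ W e (Jc m e k) := by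
  simp [Jc]

omit [DecidableEq ι] in
lemma Jc_zero : Jc m e 0 = ∅ := rfl

omit [DecidableEq ι] in
lemma Jc_step (k : ℕ) : Jc m e k ⊆ Jc m e (k + 1) := by
  induction k with
  | zero => simp [Jc_zero]
  | succ k ih =>
    intro i hi
    rw [mem_Jc_succ] at hi ⊢
    exact W_mono ih hi

omit [DecidableEq ι] in
lemma Jc_mono {a b : ℕ} (h : a ≤ b) : Jc m e a ⊆ Jc m e b := by
  induction h with
  | refl => exact Finset.Subset.refl _
  | step _ ih => exact ih.trans (Jc_step _)

omit [DecidableEq ι] in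
lemma sq_mem_of_mem {k : ℕ} {i : ι} (hi : i ∈ Jc m e k) : m (e i) (e i) ∈ W e (Jc m e k) :=
  mem_Jc_succ.mp (Jc_step k hi)

omit [Fintype ι] [DecidableEq ι] in
lemma W_empty : W e ∅ = ⊥ := by
  rw [eq_bot_iff]
  intro x hx
  rw [Submodule.mem_bot]
  apply e.repr.injective
  ext i
  simpa using hx i (by simp)

omit [DecidableEq ι] in
lemma W_univ : W e Finset.univ = ⊤ := by
  rw [eq_top_iff]
  intro x _ i hi
  exact absurd (Finset.mem_univ i) hi

omit [DecidableEq ι] in
lemma mem_Jc_one {i : ι} : i ∈ Jc m e 1 ↔ m (e i) (e i) = 0 := by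
  rw [mem_Jc_succ, Jc_zero, W_empty, Submodule.mem_bot]

lemma mul_mem_W (he : IsNatural m e) (j : ℕ) (x y : V) (hx : x ∈ W e (Jc m e (j + 1))) :
    m x y ∈ W e (Jc m e j) := by
  rw [mul_eq he]
  refine Submodule.sum_mem _ fun i _ => ?_
  by_cases hi : i ∈ Jc m e (j + 1)
  · exact Submodule.smul_mem _ _ (mem_Jc_succ.mp hi)
  · rw [hx i hi, zero_mul, zero_smul]
    exact Submodule.zero_mem _

lemma mul_mem_W' (he : IsNatural m e) (j : ℕ) (x y : V) (hy : y ∈ W e (Jc m e (j + 1))) :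
    m x y ∈ W e (Jc m e j) := by
  rw [mul_symm he]
  exact mul_mem_W he j y x hy

lemma pw_bot_of_univ (he : IsNatural m e) {N : ℕ} (hN1 : 1 ≤ N) (hN : Jc m e N = Finset.univ)
    (k : ℕ) (hk : 2 ^ (N - 1) + 1 ≤ k) : pw m k = ⊥ := by
  apply pw_eq_bot (fun j => W e (Jc m e j)) N hN1
  · simp only [hN, W_univ]
  · simp only [Jc_zero, W_empty]
  · exact fun j _ x y hx => mul_mem_W he j x y hx
  · exact fun j _ x y hy => mul_mem_W' he j x y hy
  · exact hk

lemma nilp_of_univ (he : IsNatural m e) {N : ℕ} (hN : Jc m e N = Finset.univ) : IsNilp m := by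
  have h : Jc m e (N + 1) = Finset.univ :=
    Finset.univ_subset_iff.mp (hN ▸ Jc_step N)
  exact ⟨2 ^ (N + 1 - 1) + 1, Nat.le_add_left _ _, pw_bot_of_univ he (by omega) h _ le_rfl⟩

lemma nilp_step (he : IsNatural m e) (hn : IsNilp m) (k : ℕ) (hk : Jc m e k ≠ Finset.univ) :
    Jc m e k ≠ Jc m e (k + 1) := by
  intro heq
  obtain ⟨i0, hi0⟩ : ∃ i, i ∉ Jc m e k := by
    by_contra hcon
    push Not at hcon
    exact hk (Finset.eq_univ_iff_forall.mpr hcon)
  have key : ∀ l, 1 ≤ l → ∃ x ∈ pw m l, ∃ i, i ∉ Jc m e k ∧ e.repr x i ≠ 0 := by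
    intro l hl
    induction l, hl using Nat.le_induction with
    | base => exact ⟨e i0, by rw [pw_one]; trivial, i0, hi0, by simp⟩
    | succ l hl ih =>
      obtain ⟨x, hx, i, hi, hxi⟩ := ih
      have hi' : i ∉ Jc m e (k + 1) := heq ▸ hi
      rw [mem_Jc_succ, mem_W] at hi'
      push Not at hi'
      obtain ⟨j, hj, hj0⟩ := hi'
      refine ⟨m x (e i), pw_mul_mem hl le_rfl hx (by rw [pw_one]; trivial), j, hj, ?_⟩
      rw [mul_basis he]
      simp [hxi, hj0]
  obtain ⟨l, hl, hbot⟩ := hn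
  obtain ⟨x, hx, i, _, hxi⟩ := key l hl
  rw [hbot, Submodule.mem_bot] at hx
  exact hxi (by simp [hx])

/-- Growth of the chain in the nilpotent case. -/
lemma card_growth (he : IsNatural m e) (hn : IsNilp m) (k : ℕ) :
    Jc m e (k + 1) = Finset.univ ∨ (Jc m e 1).card + k ≤ (Jc m e (k + 1)).card := by
  induction k with
  | zero => right; simp
  | succ k ih =>
    by_cases hu : Jc m e (k + 1) = Finset.univ
    · left
      exact Finset.univ_subset_iff.mp (hu ▸ Jc_step (k + 1))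
    · right
      have h1 := ih.resolve_left hu
      have h2 := nilp_step he hn (k + 1) hu
      have h3 : (Jc m e (k + 1)).card < (Jc m e (k + 1 + 1)).card :=
        Finset.card_lt_card ((Jc_step (k + 1)).ssubset_of_ne h2)
      omega

end chain

end

end Pool.Agent.R839.Evo
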