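import Mathlib

/-!
Definitions for complex evolution algebras. An algebra on a complex vector space `V` is a
bilinear product `m : Bil V`.
-/

namespace Pool.Agent.R839.Evo

open Module (Basis)

/-- A bilinear product on `V`. -/
abbrev Bil (V : Type*) [AddCommGroup V] [Module ℂ V] := V →ₗ[ℂ] V →ₗ[ℂ] V

section defs

variable {V : Type*} [AddCommGroup V] [Module ℂ V]

/-- `e` is a natural basis: products of distinct basis vectors vanish. -/
def IsNatural {ι : Type*} (m : Bil V) (e : Basis ι ℂ V) : Prop :=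
  ∀ i j, i ≠ j → m (e i) (e j) = 0

/-- The algebra is an evolution algebra of some finite dimension. -/
def IsEvolution (m : Bil V) : Prop :=
  ∃ (n : ℕ) (e : Basis (Fin n) ℂ V), IsNatural m e

/-- Subalgebras: subspaces closed under the product. -/
def IsSubalgebra (m : Bil V) (S : Submodule ℂ V) : Prop :=
  ∀ x ∈ S, ∀ y ∈ S, m x y ∈ S

/-- Evolution subalgebras: subalgebras with a natural basis that extends to a natural basis of
the whole algebra. -/
def IsEvolutionSubalgebra (m : Bil V) (S : Submodule ℂ V) : Prop :=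
  IsSubalgebra m S ∧ ∃ (n : ℕ) (e : Basis (Fin n) ℂ V) (T : Set (Fin n)),
    IsNatural m e ∧ S = Submodule.span ℂ (e '' T)

/-- Condition `P`: every subalgebra is an evolution subalgebra. -/
def CondP (m : Bil V) : Prop :=
  ∀ S : Submodule ℂ V, IsSubalgebra m S → IsEvolutionSubalgebra m S

/-- The powers `E ^ k`, `k ≥ 1`: `E ^ 1 = E` and `E ^ k = ∑ E ^ i E ^ (k - i)` over
`1 ≤ i ≤ k - 1` (the value at `0` is never used). -/
def pw (m : Bil V) : ℕ → Submodule ℂ V
  | 0 => ⊤
  | 1 => ⊤
  | k + 2 => ⨆ i : Fin (k + 1), Submodule.map₂ m (pw m (i + 1)) (pw m (k + 1 - i))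
  termination_by k => k
  decreasing_by all_goals omega

/-- Nilpotent algebras. -/
def IsNilp (m : Bil V) : Prop := ∃ k, 1 ≤ k ∧ pw m k = ⊥

/-- The index of nilpotency: the least `k ≥ 1` with `E ^ k = 0`. -/
noncomputable def nilIndex (m : Bil V) : ℕ := sInf {k | 1 ≤ k ∧ pw m k = ⊥}

/-- The class `ZN ^ s`: nilpotent evolution algebras of dimension `s` whose index of nilpotency
is the largest possible among nilpotent evolution algebras of dimension `s`. -/
def IsZN (s : ℕ) (m : Bil V) : Prop :=
  IsEvolution m ∧ Module.finrank ℂ V = s ∧ IsNilp m ∧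
    ∀ (W : Type) [AddCommGroup W] [Module ℂ W] (m' : Bil W),
      IsEvolution m' → Module.finrank ℂ W = s → IsNilp m' → nilIndex m' ≤ nilIndex m

/-- Isomorphism of algebras. -/
def Iso {W : Type*} [AddCommGroup W] [Module ℂ W] (m : Bil V) (m' : Bil W) : Prop :=
  ∃ φ : V ≃ₗ[ℂ] W, ∀ x y, φ (m x y) = m' (φ x) (φ y)

/-- The direct sum of two algebras. -/
def dsum {W : Type*} [AddCommGroup W] [Module ℂ W] (m : Bil V) (m' : Bil W) : Bil (V × W) :=
  LinearMap.mk₂ ℂ (fun x y => (m x.1 y.1, m' x.2 y.2))
    (fun x x' y => by simp) (fun c x y => by simp) (fun x y y' => by simp)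
    (fun c x y => by simp)

end defs

/-- The algebra `ES_1`, one-dimensional with `e e = e`: the complex numbers. -/
noncomputable def ES1 : Bil ℂ := LinearMap.mul ℂ ℂ

/-- The `k`-dimensional algebra with zero product. -/
def zeroAlg (k : ℕ) : Bil (Fin k → ℂ) := 0

end Pool.Agent.R839.Evo
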