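import Pool.Agent.R839.EvoStruct

/-!
The isomorphism types of non-nilpotent evolution algebras with condition `P`.
-/

namespace Pool.Agent.R839.Evo

open Module (Basis)

noncomputable section

section decomp

variable {V : Type*} [AddCommGroup V] [Module ℂ V] {ι : Type*} [Fintype ι] [DecidableEq ι]
variable {m : Bil V} {e : Basis ι ℂ V}

omit [Fintype ι] [DecidableEq ι] in
lemma iso_of_decomp (hsymm : ∀ x y, m x y = m y x) (K : Finset ι) (r : ι) (hr : r ∉ K)
    (huniq : ∀ j, j ∉ K → j = r) (v : V) (hv : m v v = v) (hvr : e.repr v r ≠ 0)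
    (hvK : ∀ y ∈ W e K, m v y = 0) (S Z : Submodule ℂ V) (hSK : S ≤ W e K) (hZK : Z ≤ W e K)
    (hsup : W e K ≤ S ⊔ Z) (hinf : S ⊓ Z = ⊥) (hZ : ∀ z ∈ Z, ∀ y, m z y = 0)
    (hS : IsSubalgebra m S) (a : ℕ) (ψ : (Fin a → ℂ) ≃ₗ[ℂ] Z) :
    Iso m (dsum ES1 (dsum (restr m S hS) (zeroAlg a))) := by
  let Φ : (ℂ × (S × (Fin a → ℂ))) →ₗ[ℂ] V :=
    (LinearMap.toSpanSingleton ℂ V v).coprod (S.subtype.coprod (Z.subtype ∘ₗ ψ.toLinearMap))
  have hΦ : ∀ c x z, Φ (c, (x, z)) = c • v + ((x : V) + (ψ z : V)) := by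
    intro c x z
    simp [Φ, LinearMap.toSpanSingleton_apply]
  have hinj : Function.Injective Φ := by
    rw [injective_iff_map_eq_zero]
    rintro ⟨c, x, z⟩ h
    rw [hΦ] at h
    have h1 := congrArg (fun y => e.repr y r) h
    simp only [map_add, map_smul, Finsupp.add_apply, Finsupp.smul_apply, smul_eq_mul,
      hSK x.2 r hr, hZK (ψ z).2 r hr, add_zero, map_zero, Finsupp.coe_zero, Pi.zero_apply] at h1
    have hc : c = 0 := (mul_eq_zero.mp h1).resolve_right hvr
    rw [hc, zero_smul, zero_add] at h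
    have h2 : (x : V) ∈ S ⊓ Z := by
      refine ⟨x.2, ?_⟩
      rw [eq_neg_of_add_eq_zero_left h]
      exact Submodule.neg_mem _ (ψ z).2
    rw [hinf, Submodule.mem_bot] at h2
    rw [h2, zero_add] at h
    have h3 : ψ z = 0 := Subtype.ext h
    have h4 : z = 0 := by simpa using h3
    have h5 : x = 0 := Subtype.ext h2
    rw [hc, h4, h5]
    rfl
  have hsurj : Function.Surjective Φ := by
    intro y
    have h1 : y - (e.repr y r / e.repr v r) • v ∈ W e K := by
      intro i hi
      rw [huniq i hi]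
      simp only [map_sub, map_smul, Finsupp.coe_sub, Pi.sub_apply, Finsupp.smul_apply,
        smul_eq_mul]
      rw [div_mul_cancel₀ _ hvr, sub_self]
    obtain ⟨x, hx, z, hz, hxz⟩ := Submodule.mem_sup.mp (hsup h1)
    refine ⟨(e.repr y r / e.repr v r, (⟨x, hx⟩, ψ.symm ⟨z, hz⟩)), ?_⟩
    rw [hΦ, LinearEquiv.apply_symm_apply]
    show _ • v + (x + z) = y
    rw [hxz]
    abel
  let Ψ := LinearEquiv.ofBijective Φ ⟨hinj, hsurj⟩
  refine ⟨Ψ.symm, ?_⟩
  intro p q
  apply Ψ.injective
  rw [LinearEquiv.apply_symm_apply]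
  obtain ⟨p', rfl⟩ := Ψ.surjective p
  obtain ⟨q', rfl⟩ := Ψ.surjective q
  rw [LinearEquiv.symm_apply_apply, LinearEquiv.symm_apply_apply]
  obtain ⟨c, x, z⟩ := p'
  obtain ⟨d, x', z'⟩ := q'
  show m (Φ _) (Φ _) = Φ _
  have e1 : dsum ES1 (dsum (restr m S hS) (zeroAlg a)) (c, (x, z)) (d, (x', z'))
      = (c * d, (restr m S hS x x', 0)) := rfl
  rw [e1, hΦ, hΦ, hΦ]
  have a1 : m v x' = 0 := hvK _ (hSK x'.2)
  have a2 : m v (ψ z') = 0 := hvK _ (hZK (ψ z').2)
  have a3 : m x v = 0 := by rw [hsymm]; exact hvK _ (hSK x.2)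
  have a4 : ∀ y, m (ψ z : V) y = 0 := hZ _ (ψ z).2
  have a5 : ∀ y, m y (ψ z' : V) = 0 := by intro y; rw [hsymm]; exact hZ _ (ψ z').2 y
  rw [restr_apply]
  simp only [map_add, map_smul, LinearMap.add_apply, LinearMap.smul_apply, hv, a1, a3, a4,
    a5, smul_zero, add_zero, zero_add, smul_smul, map_zero, Submodule.coe_zero]
  rw [mul_comm d c]

omit [Fintype ι] [DecidableEq ι] in
lemma iso_of_decomp' (K : Finset ι) (r : ι) (hr : r ∉ K)
    (huniq : ∀ j, j ∉ K → j = r) (v : V) (hv : m v v = v) (hvr : e.repr v r ≠ 0)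
    (hsymm : ∀ x y, m x y = m y x) (hvK : ∀ y ∈ W e K, m v y = 0)
    (hZ : ∀ z ∈ W e K, ∀ y, m z y = 0)
    (a : ℕ) (ψ : (Fin a → ℂ) ≃ₗ[ℂ] W e K) :
    Iso m (dsum ES1 (zeroAlg a)) := by
  let Φ : (ℂ × (Fin a → ℂ)) →ₗ[ℂ] V :=
    (LinearMap.toSpanSingleton ℂ V v).coprod ((W e K).subtype ∘ₗ ψ.toLinearMap)
  have hΦ : ∀ c z, Φ (c, z) = c • v + (ψ z : V) := by
    intro c z
    simp [Φ, LinearMap.toSpanSingleton_apply]
  have hinj : Function.Injective Φ := by
    rw [injective_iff_map_eq_zero]
    rintro ⟨c, z⟩ h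
    rw [hΦ] at h
    have h1 := congrArg (fun y => e.repr y r) h
    simp only [map_add, map_smul, Finsupp.add_apply, Finsupp.smul_apply, smul_eq_mul,
      (ψ z).2 r hr, add_zero, map_zero, Finsupp.coe_zero, Pi.zero_apply] at h1
    have hc : c = 0 := (mul_eq_zero.mp h1).resolve_right hvr
    rw [hc, zero_smul, zero_add] at h
    have h3 : ψ z = 0 := Subtype.ext h
    have h4 : z = 0 := by simpa using h3
    rw [hc, h4]
    rfl
  have hsurj : Function.Surjective Φ := by
    intro y
    have h1 : y - (e.repr y r / e.repr v r) • v ∈ W e K := by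
      intro i hi
      rw [huniq i hi]
      simp only [map_sub, map_smul, Finsupp.coe_sub, Pi.sub_apply, Finsupp.smul_apply,
        smul_eq_mul]
      rw [div_mul_cancel₀ _ hvr, sub_self]
    refine ⟨(e.repr y r / e.repr v r, ψ.symm ⟨_, h1⟩), ?_⟩
    rw [hΦ, LinearEquiv.apply_symm_apply]
    show _ • v + (y - _) = y
    abel
  let Ψ := LinearEquiv.ofBijective Φ ⟨hinj, hsurj⟩
  refine ⟨Ψ.symm, ?_⟩
  intro p q
  apply Ψ.injective
  rw [LinearEquiv.apply_symm_apply]
  obtain ⟨p', rfl⟩ := Ψ.surjective p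
  obtain ⟨q', rfl⟩ := Ψ.surjective q
  rw [LinearEquiv.symm_apply_apply, LinearEquiv.symm_apply_apply]
  obtain ⟨c, z⟩ := p'
  obtain ⟨d, z'⟩ := q'
  show m (Φ _) (Φ _) = Φ _
  have e1 : dsum ES1 (zeroAlg a) (c, z) (d, z') = (c * d, 0) := rfl
  rw [e1, hΦ, hΦ, hΦ]
  have a4 : ∀ y, m (ψ z : V) y = 0 := hZ _ (ψ z).2
  have a5 : ∀ y, m y (ψ z' : V) = 0 := by intro y; rw [hsymm]; exact hZ _ (ψ z').2 y
  simp only [map_add, map_smul, LinearMap.add_apply, LinearMap.smul_apply, hv, a4,
    a5, smul_zero, add_zero, smul_smul, map_zero, Submodule.coe_zero]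
  rw [mul_comm d c]

end decomp

section main

variable {V : Type*} [AddCommGroup V] [Module ℂ V] {ι : Type*} [Fintype ι] [DecidableEq ι]
variable {m : Bil V} {e : Basis ι ℂ V}

/-- The span of the products in the nilpotent ideal. -/
def D (m : Bil V) (e : Basis ι ℂ V) (K : Finset ι) : Submodule ℂ V :=
  Submodule.span ℂ ((fun i => m (e i) (e i)) '' (K : Set ι))

lemma mul_mem_D (he : IsNatural m e) (K : Finset ι) (x : V) (hx : x ∈ W e K) (y : V) :
    m x y ∈ D m e K := by
  rw [mul_eq he]
  refine Submodule.sum_mem _ fun i _ => ?_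
  by_cases hi : i ∈ K
  · exact Submodule.smul_mem _ _ (Submodule.subset_span ⟨i, hi, rfl⟩)
  · rw [hx i hi, zero_mul, zero_smul]
    exact Submodule.zero_mem _

lemma sqs_chain (he : IsNatural m e) (hP : CondP m) (N : ℕ) (t : ι) (ht : t ∈ Jc m e N)
    (ht' : t ∉ Jc m e (N - 1)) (hN : 1 ≤ N) : ∀ j s, j + s + 1 = N →
    sqs m (e t) j ∈ W e (Jc m e (s + 1)) ∧
    ∃ l, l ∈ Jc m e (s + 1) ∧ l ∉ Jc m e s ∧ e.repr (sqs m (e t) j) l ≠ 0 := by
  intro j
  induction j with
  | zero =>
    intro s hs
    have h1 : s + 1 = N := by omega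
    have h2 : s = N - 1 := by omega
    rw [h1, h2]
    refine ⟨?_, t, ht, ht', ?_⟩
    · intro i hi
      have : i ≠ t := fun h => hi (h ▸ ht)
      simp [sqs, Finsupp.single_apply, this.symm]
    · simp [sqs]
  | succ j ih =>
    intro s hs
    obtain ⟨h1, l, hl, hl', hl0⟩ := ih (s + 1) (by omega)
    refine ⟨mul_mem_W he (s + 1) _ _ h1, ?_⟩
    rw [mem_Jc_succ, mem_W] at hl'
    push Not at hl'
    obtain ⟨l', hl's, hl'0⟩ := hl'
    refine ⟨l', ?_, hl's, ?_⟩
    · by_contra hcon
      exact hl'0 (mem_Jc_succ.mp hl l' hcon)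
    · show e.repr (m (sqs m (e t) j) (sqs m (e t) j)) l' ≠ 0
      rw [mul_eq he, map_sum, Finsupp.finset_sum_apply, Finset.sum_eq_single l]
      · simp only [map_smul, Finsupp.smul_apply, smul_eq_mul]
        exact mul_ne_zero (mul_ne_zero hl0 hl0) hl'0
      · intro i _ hi
        simp only [map_smul, Finsupp.smul_apply, smul_eq_mul]
        by_cases hiJ : i ∈ Jc m e (s + 1 + 1)
        · have : i ∈ Jc m e (s + 1) := by
            by_contra hcon
            refine hi (growth_one he hP (by omega) hiJ hcon hl ?_)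
            intro h
            exact hl'0 (mem_Jc_succ.mp h l' hl's)
          rw [mem_Jc_succ.mp this l' hl's, mul_zero]
        · rw [h1 i hiJ, mul_zero, zero_mul]
      · simp

/-- The structure theorem in coordinates. -/
theorem structure_thm (he : IsNatural m e) (hP : CondP m) (hnil : ¬ IsNilp m) :
    Iso m (dsum ES1 (zeroAlg (Fintype.card ι - 1))) ∨
    ∃ s, 2 ≤ s ∧ s ≤ Fintype.card ι - 1 ∧
      ∃ (S : Submodule ℂ V) (hS : IsSubalgebra m S), IsZN s (restr m S hS) ∧
        Iso m (dsum ES1 (dsum (restr m S hS) (zeroAlg (Fintype.card ι - s - 1)))) := by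
  classical
  have hfin : Module.Finite ℂ V := Module.Finite.of_basis e
  obtain ⟨N, hN, hmin⟩ : ∃ N, Jc m e N = Jc m e (N + 1) ∧
      ∀ k < N, Jc m e k ≠ Jc m e (k + 1) :=
    ⟨Nat.find (exists_stable m e), Nat.find_spec (exists_stable m e),
      fun k hk => Nat.find_min (exists_stable m e) hk⟩
  obtain ⟨r, hr, huniq, hrr⟩ := exists_root he hP hnil N hN
  obtain ⟨v, hv, hvr, hvK⟩ := exists_idem he hP N hN r hr huniq hrr
  have hKcard : (Jc m e N).card = Fintype.card ι - 1 := by
    have : Jc m e N = Finset.univ.erase r := by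
      ext i
      simp only [Finset.mem_erase, Finset.mem_univ, and_true]
      constructor
      · intro hi h
        exact hr (h ▸ hi)
      · intro hi
        by_contra hcon
        exact hi (huniq i hcon)
    rw [this, Finset.card_erase_of_mem (Finset.mem_univ r), Finset.card_univ]
  have hZero : ∀ z ∈ W e (Jc m e 1), ∀ y, m z y = 0 := by
    intro z hz y
    have := mul_mem_W he 0 z y hz
    rwa [Jc_zero, W_empty, Submodule.mem_bot] at this
  by_cases hN1 : N ≤ 1
  · left
    have hle : W e (Jc m e N) ≤ W e (Jc m e 1) := W_mono (Jc_mono hN1)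
    refine iso_of_decomp' (e := e) (Jc m e N) r hr huniq v hv hvr (mul_symm he) hvK
      (fun z hz => hZero z (hle hz)) _ (LinearEquiv.ofFinrankEq _ _ ?_)
    rw [finrank_W, hKcard]
    simp
  · right
    push Not at hN1
    obtain ⟨t, ht, ht'⟩ : ∃ t, t ∈ Jc m e N ∧ t ∉ Jc m e (N - 1) := by
      have h1 := hmin (N - 1) (by omega)
      have h2 : N - 1 + 1 = N := by omega
      rw [h2] at h1
      have h3 : Jc m e (N - 1) ⊆ Jc m e N := Jc_mono (by omega)
      by_contra hcon
      push Not at hcon
      exact h1 (Finset.Subset.antisymm h3 hcon)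
    have hch := sqs_chain he hP N t ht ht' (by omega)
    have hsub : ∀ {k l : ℕ}, k ≤ l → Jc m e k ⊆ Jc m e l := fun h => Jc_mono h
    -- cardinalities
    have hcard : ∀ s, s + 1 ≤ N → (Jc m e (s + 1)).card = (Jc m e 1).card + s := by
      intro s
      induction s with
      | zero => intro _; simp
      | succ s ih =>
        intro hs
        obtain ⟨_, l, hl, hl', _⟩ := hch (N - 1 - (s + 1)) (s + 1) (by omega)
        have : Jc m e (s + 1 + 1) = insert l (Jc m e (s + 1)) := by
          apply Finset.Subset.antisymm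
          · intro i hi
            rw [Finset.mem_insert]
            by_cases h : i ∈ Jc m e (s + 1)
            · right; exact h
            · left; exact growth_one he hP (by omega) hi h hl hl'
          · intro i hi
            rcases Finset.mem_insert.mp hi with rfl | h
            · exact hl
            · exact Jc_step _ h
        rw [this, Finset.card_insert_of_notMem hl', ih (by omega)]
        ring
    set K := Jc m e N with hK
    let S : Submodule ℂ V := Submodule.span ℂ {e t} ⊔ D m e K
    have hDK : D m e K ≤ W e K := by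
      unfold D
      rw [Submodule.span_le]
      rintro _ ⟨i, hi, rfl⟩
      exact sq_mem_of_mem hi
    have hSK : S ≤ W e K := by
      refine sup_le ?_ hDK
      rw [Submodule.span_singleton_le_iff_mem]
      intro i hi
      have : i ≠ t := fun h => hi (h ▸ ht)
      simp [Finsupp.single_apply, this.symm]
    have hS : IsSubalgebra m S := by
      intro x hx y _
      exact (le_sup_right : D m e K ≤ S) (mul_mem_D he K x (hSK hx) y)
    have hsqS : ∀ j, sqs m (e t) j ∈ S := by
      intro j
      induction j with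
      | zero => exact (le_sup_left : Submodule.span ℂ {e t} ≤ S) (Submodule.mem_span_singleton_self _)
      | succ j ih => exact hS _ ih _ ih
    obtain ⟨hx1, l1, hl1, _, hl10⟩ := hch (N - 1) 0 (by omega)
    let Z : Submodule ℂ V := W e ((Jc m e 1).erase l1)
    have hZ1 : Z ≤ W e (Jc m e 1) := W_mono (Finset.erase_subset _ _)
    have hZK : Z ≤ W e K := hZ1.trans (W_mono (hsub (by omega)))
    have hspan : ∀ s, s + 1 ≤ N → W e (Jc m e (s + 1)) ≤ S ⊔ Z := by
      intro s
      induction s with
      | zero =>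
        intro _ y hy
        have h1 : y - (e.repr y l1 / e.repr (sqs m (e t) (N - 1)) l1) • sqs m (e t) (N - 1)
            ∈ Z := by
          intro i hi
          simp only [map_sub, map_smul, Finsupp.coe_sub, Pi.sub_apply, Finsupp.smul_apply,
            smul_eq_mul]
          by_cases hil : i = l1
          · rw [hil, div_mul_cancel₀ _ hl10, sub_self]
          · have hi1 : i ∉ Jc m e 1 := fun h => hi (Finset.mem_erase.mpr ⟨hil, h⟩)
            rw [hy i hi1, hx1 i hi1, mul_zero, sub_zero]
        have h2 : y = (e.repr y l1 / e.repr (sqs m (e t) (N - 1)) l1) • sqs m (e t) (N - 1)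
            + (y - (e.repr y l1 / e.repr (sqs m (e t) (N - 1)) l1) • sqs m (e t) (N - 1)) := by
          abel
        rw [h2]
        exact Submodule.add_mem_sup (Submodule.smul_mem _ _ (hsqS _)) h1
      | succ s ih =>
        intro hs y hy
        obtain ⟨hx, l, hl, hl', hl0⟩ := hch (N - 1 - (s + 1)) (s + 1) (by omega)
        set x := sqs m (e t) (N - 1 - (s + 1)) with hxdef
        have h1 : y - (e.repr y l / e.repr x l) • x ∈ W e (Jc m e (s + 1)) := by
          intro i hi
          simp only [map_sub, map_smul, Finsupp.coe_sub, Pi.sub_apply, Finsupp.smul_apply,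
            smul_eq_mul]
          by_cases hil : i = l
          · rw [hil, div_mul_cancel₀ _ hl0, sub_self]
          · have hi1 : i ∉ Jc m e (s + 1 + 1) := by
              intro h
              exact hil (growth_one he hP (by omega) h hi hl hl')
            rw [hy i hi1, hx i hi1, mul_zero, sub_zero]
        have h2 : y = (e.repr y l / e.repr x l) • x + (y - (e.repr y l / e.repr x l) • x) := by
          abel
        rw [h2]
        apply Submodule.add_mem
        · exact (le_sup_left : S ≤ S ⊔ Z) (Submodule.smul_mem _ _ (hsqS _))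
        · exact ih (by omega) h1
    have hsup : W e K ≤ S ⊔ Z := by
      have := hspan (N - 1) (by omega)
      rwa [show N - 1 + 1 = N by omega] at this
    -- dimensions
    have hKc : K.card = (Jc m e 1).card + (N - 1) := by
      have := hcard (N - 1) (by omega)
      rwa [show N - 1 + 1 = N by omega] at this
    have hJ1 : 1 ≤ (Jc m e 1).card := Finset.card_pos.mpr ⟨l1, hl1⟩
    have hZf : Module.finrank ℂ Z = (Jc m e 1).card - 1 := by
      rw [finrank_W, Finset.card_erase_of_mem hl1]
    have hDf : Module.finrank ℂ (D m e K) ≤ N - 1 := by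
      have h1 : D m e K ≤ Submodule.span ℂ
          (((K \ Jc m e 1).image (fun i => m (e i) (e i)) : Finset V) : Set V) := by
        unfold D
        rw [Submodule.span_le]
        rintro _ ⟨i, hi, rfl⟩
        by_cases h1 : i ∈ Jc m e 1
        · show m (e i) (e i) ∈ _
          rw [mem_Jc_one.mp h1]
          exact Submodule.zero_mem _
        · apply Submodule.subset_span
          rw [Finset.coe_image]
          exact ⟨i, by simpa using ⟨hi, h1⟩, rfl⟩
      refine (Submodule.finrank_mono h1).trans ?_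
      refine (finrank_span_finset_le_card _).trans ?_
      refine Finset.card_image_le.trans ?_
      rw [Finset.card_sdiff_of_subset (hsub (by omega)), hKc]
      omega
    have hSf : Module.finrank ℂ S ≤ N := by
      have h1 := Submodule.finrank_add_le_finrank_add_finrank (Submodule.span ℂ {e t}) (D m e K)
      have h2 : Module.finrank ℂ (Submodule.span ℂ {e t}) ≤ 1 := by
        rw [finrank_span_singleton (e.ne_zero t)]
      have h3 : Module.finrank ℂ S
          = Module.finrank ℂ ((Submodule.span ℂ {e t} ⊔ D m e K : Submodule ℂ V)) := rfl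
      omega
    have hWf : Module.finrank ℂ (W e K) = (Jc m e 1).card + (N - 1) := by
      rw [finrank_W, hKc]
    have hsupf : Module.finrank ℂ (W e K) ≤ Module.finrank ℂ (S ⊔ Z : Submodule ℂ V) :=
      Submodule.finrank_mono hsup
    have hsi := Submodule.finrank_sup_add_finrank_inf_eq S Z
    have hSN : Module.finrank ℂ S = N := by omega
    have hinf : S ⊓ Z = ⊥ := by
      rw [← Submodule.finrank_eq_zero (R := ℂ)]
      omega
    have hev : IsEvolution (restr m S hS) := restr_evolution m S hS (hP S hS)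
    have hbot : ∀ k, 2 ^ (N - 1) + 1 ≤ k → pw (restr m S hS) k = ⊥ := by
      apply pw_eq_bot (fun j => (W e (Jc m e j)).comap S.subtype) N (by omega)
      · rw [eq_top_iff]
        intro x _
        exact hSK x.2
      · rw [eq_bot_iff]
        intro x hx
        have hx' : (x : V) ∈ W e (Jc m e 0) := hx
        rw [Jc_zero, W_empty, Submodule.mem_bot] at hx'
        rw [Submodule.mem_bot]
        exact Subtype.ext hx'
      · intro j _ x y hx
        exact mul_mem_W he j _ _ hx
      · intro j _ x y hy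
        exact mul_mem_W' he j _ _ hy
    have hnilS : IsNilp (restr m S hS) :=
      ⟨2 ^ (N - 1) + 1, Nat.le_add_left _ _, hbot _ le_rfl⟩
    have hsqr : ∀ j, ((sqs (restr m S hS) ⟨e t, hsqS 0⟩ j : S) : V) = sqs m (e t) j := by
      intro j
      induction j with
      | zero => rfl
      | succ j ih =>
        show ((restr m S hS _ _ : S) : V) = m _ _
        rw [restr_apply, ih]
    have hne : pw (restr m S hS) (2 ^ (N - 1)) ≠ ⊥ := by
      intro h
      have h1 := sqs_mem (m := restr m S hS) ⟨e t, hsqS 0⟩ (N - 1)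
      rw [h, Submodule.mem_bot] at h1
      have h2 := hsqr (N - 1)
      rw [h1] at h2
      rw [← h2] at hl10
      simp at hl10
    have hZN : IsZN N (restr m S hS) := by
      obtain ⟨N', rfl⟩ : ∃ N', N = N' + 1 := ⟨N - 1, by omega⟩
      exact isZN_of hev hSN hnilS hne
    have hcardι : 1 ≤ Fintype.card ι := Fintype.card_pos_iff.mpr ⟨r⟩
    refine ⟨N, by omega, by omega, S, hS, hZN, ?_⟩
    refine iso_of_decomp (e := e) (mul_symm he) K r hr huniq v hv hvr hvK S Z hSK hZK hsup hinf
      (fun z hz => hZero z (hZ1 hz)) hS _ (LinearEquiv.ofFinrankEq _ _ ?_)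
    rw [hZf]
    simp only [Module.finrank_fintype_fun_eq_card, Fintype.card_fin]
    omega

end main

end

end Pool.Agent.R839.Evo
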