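import Pool.Agent.R839.EvoIso

/-!
Non-isomorphism of the algebras in the classification.
-/

namespace Pool.Agent.R839.Evo

open Module (Basis)

noncomputable section

section en

/-- The chain algebra `EN_{s+1}`. -/
def en (s : ℕ) : Bil (Fin (s + 1) → ℂ) :=
  LinearMap.mk₂ ℂ (fun x y k => if (k : ℕ) = 0 then 0 else
      x ⟨k - 1, by omega⟩ * y ⟨k - 1, by omega⟩)
    (fun x x' y => by ext k; simp only [Pi.add_apply]; split_ifs <;> ring)
    (fun c x y => by ext k; simp only [Pi.smul_apply, smul_eq_mul]; split_ifs <;> ring)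
    (fun x y y' => by ext k; simp only [Pi.add_apply]; split_ifs <;> ring)
    (fun c x y => by ext k; simp only [Pi.smul_apply, smul_eq_mul]; split_ifs <;> ring)

lemma en_apply (s : ℕ) (x y : Fin (s + 1) → ℂ) (k : Fin (s + 1)) :
    en s x y k = if (k : ℕ) = 0 then 0 else x ⟨k - 1, by omega⟩ * y ⟨k - 1, by omega⟩ := rfl

lemma en_evolution (s : ℕ) : IsEvolution (en s) := by
  refine ⟨s + 1, Pi.basisFun ℂ (Fin (s + 1)), ?_⟩
  intro i j hij
  ext k
  rw [en_apply]
  simp only [Pi.basisFun_apply, Pi.zero_apply, ite_eq_left_iff]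
  intro _
  by_cases h1 : i = (⟨k - 1, by omega⟩ : Fin (s + 1))
  · have : j ≠ (⟨k - 1, by omega⟩ : Fin (s + 1)) := fun h => hij (h1.trans h.symm)
    simp [Pi.single_apply, this.symm]
  · simp [Pi.single_apply, Ne.symm h1]

/-- Vectors whose first coordinates vanish. -/
def Uen (s j : ℕ) : Submodule ℂ (Fin (s + 1) → ℂ) where
  carrier := {x | ∀ k : Fin (s + 1), (k : ℕ) < s + 1 - j → x k = 0}
  add_mem' := by
    intro a b ha hb k hk
    simp [ha k hk, hb k hk]
  zero_mem' := by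
    intro k _
    rfl
  smul_mem' := by
    intro c x hx k hk
    simp [hx k hk]

lemma en_nilp (s : ℕ) : IsNilp (en s) := by
  refine ⟨2 ^ s + 1, Nat.le_add_left _ _, ?_⟩
  apply pw_eq_bot (Uen s) (s + 1) (by omega)
  · rw [eq_top_iff]
    intro x _ k hk
    omega
  · rw [eq_bot_iff]
    intro x hx
    rw [Submodule.mem_bot]
    funext k
    exact hx k (by have := k.2; omega)
  · intro j hj x y hx k hk
    rw [en_apply]
    split_ifs with h
    · rfl
    · rw [hx ⟨k - 1, by omega⟩ (by show (k : ℕ) - 1 < _; omega), zero_mul]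
  · intro j hj x y hy k hk
    rw [en_apply]
    split_ifs with h
    · rfl
    · rw [hy ⟨k - 1, by omega⟩ (by show (k : ℕ) - 1 < _; omega), mul_zero]
  · simp

lemma en_sqs (s : ℕ) : ∀ j (hj : j < s + 1), sqs (en s) (Pi.single 0 1) j = Pi.single ⟨j, hj⟩ 1 := by
  intro j
  induction j with
  | zero => intro _; rfl
  | succ j ih =>
    intro hj
    show en s (sqs _ _ j) (sqs _ _ j) = _
    rw [ih (by omega)]
    ext k
    rw [en_apply]
    simp only [Pi.single_apply, Fin.ext_iff]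
    by_cases h0 : (k : ℕ) = 0
    · rw [if_pos h0, if_neg]
      omega
    · rw [if_neg h0]
      by_cases h1 : (k : ℕ) = j + 1
      · rw [if_pos (by omega), if_pos h1, mul_one]
      · rw [if_neg (by omega), if_neg h1, mul_zero]

lemma en_ne (s : ℕ) : pw (en s) (2 ^ s) ≠ ⊥ := by
  intro h
  have h1 := sqs_mem (m := en s) (Pi.single 0 1) s
  rw [h, Submodule.mem_bot, en_sqs s s (by omega)] at h1
  have := congrFun h1 ⟨s, by omega⟩
  simp at this

end en

section facts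

variable {V : Type*} [AddCommGroup V] [Module ℂ V] {m : Bil V}

lemma ZN_ne {s : ℕ} (h : IsZN (s + 1) m) : pw m (2 ^ s) ≠ ⊥ := by
  obtain ⟨_, _, _, hmax⟩ := h
  have h1 := hmax (Fin (s + 1) → ℂ) (en s) (en_evolution s) (by simp) (en_nilp s)
  have h2 := nilIndex_ge (en_nilp s) (en_ne s)
  intro hbot
  have h3 : nilIndex m ≤ 2 ^ s := Nat.sInf_le ⟨Nat.one_le_two_pow, hbot⟩
  omega

/-- Annihilator elements of a `ZN` algebra of dimension at least two are in its square. -/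
lemma ZN_ann {s : ℕ} (hs : 1 ≤ s) (h : IsZN (s + 1) m) (x : V) (hx : ∀ y, m x y = 0) :
    x ∈ pw m 2 := by
  have hne := ZN_ne h
  obtain ⟨⟨n, e, he⟩, hdim, hn, _⟩ := h
  have hcard : Fintype.card (Fin n) = s + 1 := by
    rw [← hdim, Module.finrank_eq_card_basis e]
  have htop := Jc_top_of_nilp he hn hcard
  have hfin : Module.Finite ℂ V := Module.Finite.of_basis e
  have hpow : 2 ^ (s - 1) + 1 ≤ 2 ^ s := by
    obtain ⟨s', rfl⟩ : ∃ s', s = s' + 1 := ⟨s - 1, by omega⟩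
    have : 1 ≤ 2 ^ s' := Nat.one_le_two_pow
    rw [pow_succ]
    simp only [Nat.add_sub_cancel]
    omega
  have hle : (Jc m e 1).card ≤ 1 := by
    by_contra hcon
    push Not at hcon
    have hsu : Jc m e s = Finset.univ := by
      obtain ⟨s', rfl⟩ : ∃ s', s = s' + 1 := ⟨s - 1, by omega⟩
      rcases card_growth he hn s' with h | h
      · exact h
      · rw [← Finset.card_eq_iff_eq_univ]
        have := Finset.card_le_univ (Jc m e (s' + 1))
        omega
    exact hne (pw_bot_of_univ he hs hsu _ hpow)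
  have h1 : pw m (2 ^ s) ≤ W e (Jc m e 1) := by
    have := pw_le (m := m) (fun j => W e (Jc m e j)) (s + 1)
      (by simp only [htop, W_univ]) (fun j _ x y hx => mul_mem_W he j x y hx)
      (fun j _ x y hy => mul_mem_W' he j x y hy) (s - 1) (by omega) (2 ^ s) hpow
    rwa [show s + 1 - 1 - (s - 1) = 1 by omega] at this
  have h2 : pw m (2 ^ s) = W e (Jc m e 1) := by
    apply Submodule.eq_of_le_of_finrank_le h1
    rw [finrank_W]
    have : Module.finrank ℂ (pw m (2 ^ s)) ≠ 0 := by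
      intro h
      exact hne (Submodule.finrank_eq_zero.mp h)
    omega
  have h3 : x ∈ W e (Jc m e 1) := by
    intro i hi
    have h4 : m (e i) (e i) ≠ 0 := fun h => hi (mem_Jc_one.mpr h)
    have h5 := hx (e i)
    rw [mul_basis he] at h5
    exact (smul_eq_zero.mp h5).resolve_right h4
  rw [← h2] at h3
  have hpos : 1 ≤ 2 ^ (s - 1) := Nat.one_le_two_pow
  exact pw_antitone (by omega) (by omega : 2 ≤ 2 ^ s) h3

lemma mem_pw_two {N : Submodule ℂ V} (h : ∀ x y, m x y ∈ N) : pw m 2 ≤ N := by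
  rw [show (2 : ℕ) = 0 + 2 by rfl, pw]
  refine iSup_le fun i => ?_
  rw [Submodule.map₂_le]
  intro x _ y _
  exact h x y

lemma ZN_mul_ne {s : ℕ} (hs : 1 ≤ s) (h : IsZN (s + 1) m) : ∃ x y, m x y ≠ 0 := by
  by_contra hcon
  push Not at hcon
  have h1 : pw m 2 ≤ ⊥ := mem_pw_two (fun x y => by rw [hcon]; exact Submodule.zero_mem _)
  have h2 : 2 ≤ 2 ^ s := by
    calc 2 = 2 ^ 1 := by norm_num
      _ ≤ 2 ^ s := Nat.pow_le_pow_right (by norm_num) hs
  exact ZN_ne h (le_bot_iff.mp ((pw_antitone (by omega) h2).trans h1))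

lemma nilp_idem (hn : IsNilp m) (y : V) (hy : m y y = y) : y = 0 := by
  have h1 : ∀ j, sqs m y j = y := by
    intro j
    induction j with
    | zero => rfl
    | succ j ih =>
      show m (sqs m y j) (sqs m y j) = y
      rw [ih, hy]
  obtain ⟨k, hk, hbot⟩ := hn
  have h2 := sqs_mem (m := m) y k
  rw [h1] at h2
  have h3 := pw_antitone (m := m) hk (Nat.lt_two_pow_self (n := k)).le h2
  rwa [hbot, Submodule.mem_bot] at h3

end facts

section noniso

variable {V : Type*} [AddCommGroup V] [Module ℂ V] {W' : Type*} [AddCommGroup W'] [Module ℂ W']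

lemma Iso.symm' {m : Bil V} {m' : Bil W'} (h : Iso m m') : Iso m' m := by
  obtain ⟨φ, hφ⟩ := h
  refine ⟨φ.symm, fun x y => ?_⟩
  apply φ.injective
  rw [hφ, LinearEquiv.apply_symm_apply, LinearEquiv.apply_symm_apply,
    LinearEquiv.apply_symm_apply]

lemma not_iso {s : ℕ} (hs : 1 ≤ s) {t : Bil V} (ht : IsZN (s + 1) t) (a b : ℕ) :
    ¬ Iso (dsum ES1 (zeroAlg a)) (dsum ES1 (dsum t (zeroAlg b))) := by
  intro h
  obtain ⟨ψ, hψ⟩ := h.symm'
  obtain ⟨y, y', hy⟩ := ZN_mul_ne hs ht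
  have e1 : ψ (1, (0, 0)) = ((ψ (1, (0, 0))).1 * (ψ (1, (0, 0))).1, 0) := by
    have := hψ (1, (0, 0)) (1, (0, 0))
    have e : dsum ES1 (dsum t (zeroAlg b)) (1, (0, 0)) (1, (0, 0)) = (1, (0, 0)) := by
      show ((1 : ℂ) * 1, (t 0 0, (0 : Fin b → ℂ))) = _
      simp
    rw [e] at this
    exact this
  have e2 : ψ (0, (t y y', 0)) = ((ψ (0, (y, 0))).1 * (ψ (0, (y', 0))).1, 0) := by
    have := hψ (0, (y, 0)) (0, (y', 0))
    have e : dsum ES1 (dsum t (zeroAlg b)) (0, (y, 0)) (0, (y', 0)) = (0, (t y y', 0)) := by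
      show ((0 : ℂ) * 0, (t y y', (0 : Fin b → ℂ))) = _
      simp
    rw [e] at this
    exact this
  set p := (ψ (1, (0, 0))).1 * (ψ (1, (0, 0))).1
  set q := (ψ (0, (y, 0))).1 * (ψ (0, (y', 0))).1
  have h3 : ψ (p • (0, (t y y', 0)) - q • (1, (0, 0))) = 0 := by
    rw [map_sub, map_smul, map_smul, e1, e2]
    ext
    · simp [mul_comm]
    · simp
  have h4 := (map_eq_zero_iff ψ ψ.injective).mp h3
  have h5 : q = 0 := by
    have := congrArg Prod.fst h4
    simpa using this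
  rw [h5] at e2
  have h6 : ψ (0, (t y y', 0)) = 0 := e2
  have h7 := (map_eq_zero_iff ψ ψ.injective).mp h6
  have h8 := congrArg (fun z => z.2.1) h7
  exact hy h8

lemma half {s : ℕ} (hs : 1 ≤ s) {t : Bil V} (ht : IsZN (s + 1) t) {t' : Bil W'}
    (ht' : IsNilp t') (a b : ℕ)
    (h : Iso (dsum ES1 (dsum t (zeroAlg a))) (dsum ES1 (dsum t' (zeroAlg b)))) :
    ∃ ψ : V →ₗ[ℂ] W', Function.Injective ψ ∧ ∀ x y, ψ (t x y) = t' (ψ x) (ψ y) := by
  obtain ⟨φ, hφ⟩ := h
  have d1 : ∀ (p q : ℂ × (V × (Fin a → ℂ))), dsum ES1 (dsum t (zeroAlg a)) p q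
      = (p.1 * q.1, (t p.2.1 q.2.1, 0)) := fun p q => rfl
  have d2 : ∀ (p q : ℂ × (W' × (Fin b → ℂ))), dsum ES1 (dsum t' (zeroAlg b)) p q
      = (p.1 * q.1, (t' p.2.1 q.2.1, 0)) := fun p q => rfl
  -- the idempotent
  have hid : φ (1, (0, 0)) = (1, (0, 0)) := by
    have h1 := hφ (1, (0, 0)) (1, (0, 0))
    rw [d1, d2] at h1
    simp only [mul_one, map_zero] at h1
    have h2 : (φ (1, (0, 0))).1 * (φ (1, (0, 0))).1 = (φ (1, (0, 0))).1 :=
      (congrArg Prod.fst h1).symm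
    have h3 : t' (φ (1, (0, 0))).2.1 (φ (1, (0, 0))).2.1 = (φ (1, (0, 0))).2.1 :=
      (congrArg (fun z => z.2.1) h1).symm
    have h4 : (φ (1, (0, 0))).2.2 = 0 := congrArg (fun z => z.2.2) h1
    have h5 := nilp_idem ht' _ h3
    have h6 : (φ (1, (0, 0))).1 ≠ 0 := by
      intro h0
      have : φ (1, (0, 0)) = 0 := Prod.ext h0 (Prod.ext h5 h4)
      have := (map_eq_zero_iff φ φ.injective).mp this
      have := congrArg Prod.fst this
      exact one_ne_zero this
    have h7 : (φ (1, (0, 0))).1 = 1 := mul_left_cancel₀ h6 (by rw [h2, mul_one])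
    exact Prod.ext h7 (Prod.ext h5 h4)
  have hfst : ∀ y z, (φ (0, (y, z))).1 = 0 := by
    intro y z
    have h1 := hφ (1, (0, 0)) (0, (y, z))
    rw [d1, d2, hid] at h1
    simp only [mul_zero, map_zero, LinearMap.zero_apply, one_mul] at h1
    have h2 : φ (0, ((0 : V), (0 : Fin a → ℂ))) = 0 := map_zero φ
    rw [h2] at h1
    exact (congrArg Prod.fst h1).symm
  let ψ : V →ₗ[ℂ] W' :=
    LinearMap.fst ℂ W' (Fin b → ℂ) ∘ₗ LinearMap.snd ℂ ℂ (W' × (Fin b → ℂ)) ∘ₗ φ.toLinearMap ∘ₗ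
      LinearMap.inr ℂ ℂ (V × (Fin a → ℂ)) ∘ₗ LinearMap.inl ℂ V (Fin a → ℂ)
  let χ : V →ₗ[ℂ] (Fin b → ℂ) :=
    LinearMap.snd ℂ W' (Fin b → ℂ) ∘ₗ LinearMap.snd ℂ ℂ (W' × (Fin b → ℂ)) ∘ₗ φ.toLinearMap ∘ₗ
      LinearMap.inr ℂ ℂ (V × (Fin a → ℂ)) ∘ₗ LinearMap.inl ℂ V (Fin a → ℂ)
  have hψ : ∀ y, ψ y = (φ (0, (y, 0))).2.1 := fun y => rfl
  have hχ : ∀ y, χ y = (φ (0, (y, 0))).2.2 := fun y => rfl
  have hmul : ∀ x y, φ (0, (t x y, 0)) = (0, (t' (ψ x) (ψ y), 0)) := by
    intro x y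
    have h1 := hφ (0, (x, 0)) (0, (y, 0))
    rw [d1, d2] at h1
    simp only [mul_zero, hfst] at h1
    exact h1
  refine ⟨ψ, ?_, fun x y => ?_⟩
  · rw [injective_iff_map_eq_zero]
    intro y hy
    have h1 : ∀ y', t y y' = 0 := by
      intro y'
      have h2 := hmul y y'
      rw [hy] at h2
      simp only [map_zero, LinearMap.zero_apply] at h2
      have h3 : φ (0, (t y y', 0)) = 0 := h2
      have h4 := (map_eq_zero_iff φ φ.injective).mp h3
      exact congrArg (fun z => z.2.1) h4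
    have h2 := ZN_ann hs ht y h1
    have h3 : pw t 2 ≤ LinearMap.ker χ := by
      apply mem_pw_two
      intro x y
      rw [LinearMap.mem_ker, hχ, hmul]
    have h4 := h3 h2
    rw [LinearMap.mem_ker, hχ] at h4
    have h5 : φ (0, (y, 0)) = 0 := Prod.ext (hfst _ _) (Prod.ext hy h4)
    have h6 := (map_eq_zero_iff φ φ.injective).mp h5
    exact congrArg (fun z => z.2.1) h6
  · rw [hψ (t x y), hmul]

end noniso

end

end Pool.Agent.R839.Evo
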