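import Pool.Agent.R839.EvoBasic

/-!
Outside the nilpotent ideal there is exactly one natural basis vector.
-/

namespace Pool.Agent.R839.Evo

open Module (Basis)

noncomputable section

variable {V : Type*} [AddCommGroup V] [Module ℂ V] {ι : Type*} [Fintype ι] [DecidableEq ι]
variable {m : Bil V} {e : Basis ι ℂ V}

omit [DecidableEq ι] in
lemma exists_stable (m : Bil V) (e : Basis ι ℂ V) : ∃ k, Jc m e k = Jc m e (k + 1) := by
  by_contra hcon
  push Not at hcon
  have key : ∀ k, k ≤ (Jc m e k).card := by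
    intro k
    induction k with
    | zero => simp
    | succ k ih =>
      have := Finset.card_lt_card ((Jc_step (m := m) (e := e) k).ssubset_of_ne (hcon k))
      omega
  have h1 := key (Fintype.card ι + 1)
  have h2 := Finset.card_le_univ (Jc m e (Fintype.card ι + 1))
  omega

lemma coord_sq (he : IsNatural m e) (K : Finset ι) (y : ι → ℂ) (hy : ∀ i ∈ K, y i = 0) (j : ι) :
    e.repr (m (e.equivFun.symm y) (e.equivFun.symm y)) j
      = ∑ c : {i // i ∉ K}, y c ^ 2 * e.repr (m (e c) (e c)) j := by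
  rw [mul_eq he, map_sum, Finsupp.finset_sum_apply]
  have h1 : ∀ i, e.repr (e.equivFun.symm y) i = y i := by
    intro i
    rw [← Basis.equivFun_apply, LinearEquiv.apply_symm_apply]
  simp only [h1, map_smul, Finsupp.coe_smul, Pi.smul_apply, smul_eq_mul]
  rw [← Finset.sum_subtype (Finset.univ.filter (fun i => i ∉ K)) (by simp)
    (fun i => y i ^ 2 * e.repr (m (e i) (e i)) j), Finset.sum_filter]
  refine Finset.sum_congr rfl fun i _ => ?_
  by_cases hi : i ∈ K
  · rw [if_neg (by simpa using hi), hy i hi]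
    ring
  · rw [if_pos hi]
    ring

lemma exists_root (he : IsNatural m e) (hP : CondP m) (hnil : ¬ IsNilp m) (k0 : ℕ)
    (hk0 : Jc m e k0 = Jc m e (k0 + 1)) :
    ∃ r, r ∉ Jc m e k0 ∧ (∀ j, j ∉ Jc m e k0 → j = r) ∧ e.repr (m (e r) (e r)) r ≠ 0 := by
  set K := Jc m e k0 with hK
  have hJ : ∀ i ∈ K, m (e i) (e i) ∈ W e K := fun i hi => sq_mem_of_mem hi
  have hoff : ∀ i, i ∉ K → ∃ j, j ∉ K ∧ e.repr (m (e i) (e i)) j ≠ 0 := by
    intro i hi
    rw [hk0, mem_Jc_succ, mem_W] at hi
    push Not at hi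
    exact hi
  have hq : ∀ i, i ∉ K → m (e i) (e i) ≠ 0 := by
    intro i hi h0
    obtain ⟨j, _, hj⟩ := hoff i hi
    rw [h0] at hj
    simp at hj
  have hreprsymm : ∀ (y : ι → ℂ) (i : ι), e.repr (e.equivFun.symm y) i = y i := by
    intro y i
    rw [← Basis.equivFun_apply, LinearEquiv.apply_symm_apply]
  let a : Matrix {i // i ∉ K} {i // i ∉ K} ℂ := fun i j => e.repr (m (e i) (e i)) j
  -- extension by zero
  let ext : ({i // i ∉ K} → ℂ) → ι → ℂ := fun v i => if h : i ∉ K then v ⟨i, h⟩ else 0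
  have ext_mem : ∀ v i, i ∈ K → ext v i = 0 := by
    intro v i hi
    simp [ext, hi]
  have ext_val : ∀ v (c : {i // i ∉ K}), ext v c = v c := by
    intro v c
    simp [ext, c.2]
  -- F5 for extended vectors
  have hF5 : ∀ (v : {i // i ∉ K} → ℂ) (t : ℂ),
      (∀ j : {i // i ∉ K}, ∑ c, v c ^ 2 * a c j = t * v j) →
      ∀ i k, i ≠ k → v i ≠ 0 → v k ≠ 0 → False := by
    intro v t hv i k hik hi hk
    refine F5 he hP K hJ (e.equivFun.symm (ext v)) ?_ t ?_ (i := i) (k := k) ?_ (hq _ i.2)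
      (hq _ k.2) ?_ ?_
    · intro l hl
      rw [hreprsymm, ext_mem v l hl]
    · intro j hj
      rw [coord_sq he K (ext v) (ext_mem v), hreprsymm]
      have := hv ⟨j, hj⟩
      rw [ext_val v ⟨j, hj⟩, ← this]
      refine Finset.sum_congr rfl fun c _ => ?_
      rw [ext_val]
    · exact fun h => hik (Subtype.ext h)
    · rw [hreprsymm, ext_val]; exact hi
    · rw [hreprsymm, ext_val]; exact hk
  have hdet : a.det ≠ 0 := by
    intro h0
    obtain ⟨v, hv0, hv⟩ := Matrix.exists_vecMul_eq_zero_iff.mpr h0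
    choose s hs using fun c => IsAlgClosed.exists_pow_nat_eq (v c) (n := 2) (by norm_num)
    obtain ⟨c0, hc0⟩ : ∃ c, v c ≠ 0 := by
      by_contra hcon
      push Not at hcon
      exact hv0 (funext hcon)
    have hs0 : ∀ c, v c ≠ 0 → s c ≠ 0 := by
      intro c hc h
      rw [← hs c, h] at hc
      simp at hc
    have h1 : ∀ j : {i // i ∉ K}, ∑ c, s c ^ 2 * a c j = 0 * s j := by
      intro j
      have := congrFun hv j
      simp only [Matrix.vecMul, dotProduct, Pi.zero_apply] at this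
      rw [zero_mul, ← this]
      exact Finset.sum_congr rfl fun c _ => by rw [hs]
    have h2 : ∀ c, c ≠ c0 → v c = 0 := by
      intro c hc
      by_contra hne
      exact hF5 s 0 h1 c c0 hc (hs0 c hne) (hs0 c0 hc0)
    obtain ⟨j, hj, hj0⟩ := hoff c0 c0.2
    have h3 := congrFun hv ⟨j, hj⟩
    simp only [Matrix.vecMul, dotProduct, Pi.zero_apply] at h3
    rw [Finset.sum_eq_single c0 (fun c _ hc => by rw [h2 c hc, zero_mul]) (by simp)] at h3
    rcases mul_eq_zero.mp h3 with h | h
    · exact hc0 h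
    · exact hj0 h
  have huniq : ∀ p q : {i // i ∉ K}, p = q := by
    intro p q
    by_contra hpq
    have hdetT : IsUnit (a.transpose).det := by
      rw [Matrix.det_transpose]
      exact isUnit_iff_ne_zero.mpr hdet
    have hdetB : ((a.transpose)⁻¹).det ≠ 0 := by
      have := (Matrix.isUnit_nonsing_inv_det _ hdetT)
      exact this.ne_zero
    obtain ⟨x, hx, i, j, hij, hi, hj⟩ := EvoPoly.exists_sol _ hdetB hpq
    refine hF5 x 1 ?_ i j hij hi hj
    intro l
    have h1 : (fun c => x c ^ 2) = (a.transpose)⁻¹.mulVec x := by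
      funext c
      rw [hx c]
      rfl
    have h2 : (a.transpose).mulVec (fun c => x c ^ 2) = x := by
      rw [h1, Matrix.mulVec_mulVec, Matrix.mul_nonsing_inv _ hdetT, Matrix.one_mulVec]
    have h3 := congrFun h2 l
    simp only [Matrix.mulVec, dotProduct, Matrix.transpose_apply] at h3
    rw [one_mul]
    refine Eq.trans (Finset.sum_congr rfl fun c _ => ?_) h3
    rw [mul_comm]
  obtain ⟨r, hr⟩ : ∃ r, r ∉ K := by
    by_contra hcon
    push Not at hcon
    exact hnil (nilp_of_univ he (Finset.eq_univ_iff_forall.mpr hcon))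
  refine ⟨r, hr, ?_, ?_⟩
  · intro j hj
    exact congrArg Subtype.val (huniq ⟨j, hj⟩ ⟨r, hr⟩)
  · obtain ⟨j, hj, hj0⟩ := hoff r hr
    have : j = r := congrArg Subtype.val (huniq ⟨j, hj⟩ ⟨r, hr⟩)
    rwa [this] at hj0

end

end Pool.Agent.R839.Evo
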