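import Pool.Agent.R839.EvoRoot

/-!
Structure of non-nilpotent evolution algebras with condition `P`.
-/

namespace Pool.Agent.R839.Evo

open Module (Basis)

noncomputable section

section one

variable {V : Type*} [AddCommGroup V] [Module ℂ V] {ι : Type*} [Fintype ι] [DecidableEq ι]
variable {m : Bil V} {e : Basis ι ℂ V}

omit [DecidableEq ι] in
lemma sq_ne {k : ℕ} (hk : 1 ≤ k) {i : ι} (hi : i ∉ Jc m e k) : m (e i) (e i) ≠ 0 := by
  intro h
  exact hi (Jc_mono hk (mem_Jc_one.mpr h))

lemma growth_one (he : IsNatural m e) (hP : CondP m) {k : ℕ} (hk : 1 ≤ k) {i j : ι}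
    (hi : i ∈ Jc m e (k + 1)) (hi' : i ∉ Jc m e k) (hj : j ∈ Jc m e (k + 1))
    (hj' : j ∉ Jc m e k) : i = j := by
  by_contra hij
  refine F5 he hP (Jc m e k) (fun l hl => sq_mem_of_mem hl) (e i + e j) ?_ 0 ?_ hij
    (sq_ne hk hi') (sq_ne hk hj') ?_ ?_
  · intro l hl
    have h1 : l ≠ i := fun h => hi' (h ▸ hl)
    have h2 : l ≠ j := fun h => hj' (h ▸ hl)
    simp [Finsupp.single_apply, h1.symm, h2.symm]
  · intro l hl
    have h1 : m (e i + e j) (e i + e j) = m (e i) (e i) + m (e j) (e j) := by
      simp only [map_add, LinearMap.add_apply, he i j hij, he j i (Ne.symm hij), add_zero,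
        zero_add]
    rw [h1, zero_mul, map_add, Finsupp.add_apply, mem_Jc_succ.mp hi l hl,
      mem_Jc_succ.mp hj l hl, add_zero]
  · simp [Finsupp.single_apply, Ne.symm hij]
  · simp [Finsupp.single_apply, hij]

lemma exists_idem (he : IsNatural m e) (hP : CondP m) (N : ℕ)
    (hN : Jc m e N = Jc m e (N + 1)) (r : ι) (hr : r ∉ Jc m e N)
    (huniq : ∀ j, j ∉ Jc m e N → j = r) (hc : e.repr (m (e r) (e r)) r ≠ 0) :
    ∃ v, m v v = v ∧ e.repr v r ≠ 0 ∧ ∀ y ∈ W e (Jc m e N), m v y = 0 := by
  set K := Jc m e N with hK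
  set c := e.repr (m (e r) (e r)) r with hcdef
  have memK : ∀ x : V, e.repr x r = 0 → x ∈ W e K := by
    intro x hx i hi
    rw [huniq i hi, hx]
  have hKr : ∀ x ∈ W e K, e.repr x r = 0 := fun x hx => hx r hr
  have hmulK : ∀ x ∈ W e K, ∀ y, m x y ∈ W e K := by
    intro x hx y
    exact mul_mem_W he N x y (by rw [← hN]; exact hx)
  set y' : V := (c⁻¹ * c⁻¹) • m (e r) (e r) - c⁻¹ • e r with hy'
  have hy'K : y' ∈ W e K := by
    apply memK
    rw [hy', map_sub, map_smul, map_smul]
    simp only [Finsupp.coe_sub, Pi.sub_apply, Finsupp.coe_smul, Pi.smul_apply, smul_eq_mul,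
      Basis.repr_self, Finsupp.single_eq_same, mul_one]
    rw [← hcdef, mul_assoc, inv_mul_cancel₀ hc, mul_one, sub_self]
  let w : ℕ → V := fun k => Nat.rec 0 (fun _ x => y' + m x x) k
  have w0 : w 0 = 0 := rfl
  have ws : ∀ k, w (k + 1) = y' + m (w k) (w k) := fun k => rfl
  have wK : ∀ k, w k ∈ W e K := by
    intro k
    induction k with
    | zero => rw [w0]; exact Submodule.zero_mem _
    | succ k ih =>
      rw [ws]
      exact Submodule.add_mem _ hy'K (hmulK _ ih _)
  have hdiff : ∀ k l, k + l = N → w (k + 1) - w k ∈ W e (Jc m e l) := by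
    intro k
    induction k with
    | zero =>
      intro l hl
      have : l = N := by omega
      subst this
      rw [ws, w0]
      simpa using hy'K
    | succ k ih =>
      intro l hl
      have h1 := ih (l + 1) (by omega)
      have h2 : w (k + 1 + 1) - w (k + 1) = m (w (k + 1) - w k) (w (k + 1) + w k) := by
        have h3 : w (k + 1 + 1) - w (k + 1)
            = m (w (k + 1)) (w (k + 1)) - m (w k) (w k) := by
          have a1 := ws (k + 1)
          have a2 := ws k
          rw [a1]
          nth_rewrite 3 [a2]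
          abel
        rw [h3]
        generalize w (k + 1) = p
        generalize w k = q
        simp only [map_sub, map_add, LinearMap.sub_apply]
        rw [mul_symm he q p]
        abel
      rw [h2]
      exact mul_mem_W he l _ _ h1
  have hfix : w (N + 1) = w N := by
    have := hdiff N 0 (by omega)
    rw [Jc_zero, W_empty, Submodule.mem_bot] at this
    exact sub_eq_zero.mp this
  set v : V := c⁻¹ • e r + w N with hv
  have hwr : m (w N) (e r) = 0 := by
    rw [mul_basis he, hKr _ (wK N), zero_smul]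
  have hrw : m (e r) (w N) = 0 := by rw [mul_symm he, hwr]
  have hidem : m v v = v := by
    have h1 : m v v = (c⁻¹ * c⁻¹) • m (e r) (e r) + m (w N) (w N) := by
      rw [hv]
      simp only [map_add, map_smul, LinearMap.add_apply, LinearMap.smul_apply, hwr, hrw,
        smul_zero, add_zero, zero_add, smul_smul]
    have h2 : m (w N) (w N) = w N - y' := by
      have := ws N
      rw [hfix] at this
      exact eq_sub_of_add_eq' this.symm
    rw [h1, h2, hy', hv]
    abel
  have hvr : e.repr v r = c⁻¹ := by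
    rw [hv, map_add, map_smul]
    simp [hKr _ (wK N)]
  have hvr0 : e.repr v r ≠ 0 := by rw [hvr]; exact inv_ne_zero hc
  have hqr : m (e r) (e r) ≠ 0 := by
    intro h
    rw [hcdef, h] at hc
    simp at hc
  have hS : IsSubalgebra m (Submodule.span ℂ {v}) := by
    intro a ha b hb
    obtain ⟨c, rfl⟩ := Submodule.mem_span_singleton.mp ha
    obtain ⟨d, rfl⟩ := Submodule.mem_span_singleton.mp hb
    simp only [map_smul, LinearMap.smul_apply, hidem]
    exact Submodule.smul_mem _ _ (Submodule.smul_mem _ _ (Submodule.mem_span_singleton_self v))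
  obtain ⟨u, hu, hur, huz⟩ := F4 he hP _ hS v (Submodule.mem_span_singleton_self v) r hqr hvr0
  obtain ⟨d, rfl⟩ := Submodule.mem_span_singleton.mp hu
  have hd : d ≠ 0 := by
    rintro rfl
    simp at hur
  refine ⟨v, hidem, hvr0, ?_⟩
  intro y hy
  rw [mul_eq he]
  refine Finset.sum_eq_zero fun i _ => ?_
  by_cases hir : i = r
  · rw [hir, hKr y hy, mul_zero, zero_smul]
  · by_cases hq : m (e i) (e i) = 0
    · rw [hq, smul_zero]
    · have := huz i hir hq
      rw [map_smul] at this
      simp only [Finsupp.coe_smul, Pi.smul_apply, smul_eq_mul] at this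
      rw [(mul_eq_zero.mp this).resolve_left hd, zero_mul, zero_smul]

end one

section finrank

variable {V : Type*} [AddCommGroup V] [Module ℂ V] {ι : Type*} [Fintype ι] [DecidableEq ι]

omit [Fintype ι] [DecidableEq ι] in
lemma W_eq_span (e : Basis ι ℂ V) (J : Finset ι) :
    W e J = Submodule.span ℂ (e '' (J : Set ι)) := by
  ext x
  rw [Basis.mem_span_image]
  constructor
  · intro h i hi
    by_contra hiJ
    exact (Finsupp.mem_support_iff.mp hi) (h i hiJ)
  · intro h i hi
    by_contra hne
    exact hi (h (Finsupp.mem_support_iff.mpr hne))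

omit [Fintype ι] [DecidableEq ι] in
lemma finrank_W (e : Basis ι ℂ V) (J : Finset ι) : Module.finrank ℂ (W e J) = J.card := by
  rw [W_eq_span, Set.image_eq_range]
  have h1 : LinearIndependent ℂ (fun i : (J : Set ι) => e i) :=
    e.linearIndependent.comp _ Subtype.val_injective
  rw [finrank_span_eq_card h1]
  simp

end finrank

section restr

variable {V : Type*} [AddCommGroup V] [Module ℂ V]

/-- The restriction of the product to a subalgebra. -/
def restr (m : Bil V) (S : Submodule ℂ V) (hS : IsSubalgebra m S) : Bil S :=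
  LinearMap.mk₂ ℂ (fun x y => ⟨m x y, hS x x.2 y y.2⟩)
    (fun x x' y => by ext; simp) (fun c x y => by ext; simp) (fun x y y' => by ext; simp)
    (fun c x y => by ext; simp)

lemma restr_apply (m : Bil V) (S : Submodule ℂ V) (hS : IsSubalgebra m S) (x y : S) :
    (restr m S hS x y : V) = m x y := rfl

lemma restr_evolution (m : Bil V) (S : Submodule ℂ V) (hS : IsSubalgebra m S)
    (h : IsEvolutionSubalgebra m S) : IsEvolution (restr m S hS) := by
  classical
  obtain ⟨_, n, b, T, hb, hST⟩ := h
  have hli : LinearIndependent ℂ (fun t : T => b t) :=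
    b.linearIndependent.comp _ Subtype.val_injective
  let b1 := Basis.span hli
  have hrange : Submodule.span ℂ (Set.range (fun t : T => b t)) = S := by
    rw [hST, Set.image_eq_range]
  let eqv : Submodule.span ℂ (Set.range (fun t : T => b t)) ≃ₗ[ℂ] S :=
    LinearEquiv.ofEq _ _ hrange
  let b2 : Basis T ℂ S := b1.map eqv
  have hb2 : ∀ t : T, (b2 t : V) = b t := by
    intro t
    simp only [b2, Basis.map_apply, eqv, LinearEquiv.coe_ofEq_apply]
    exact congrArg Subtype.val (Basis.span_apply hli t)
  have : Fintype T := Fintype.ofFinite T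
  refine ⟨Fintype.card T, b2.reindex (Fintype.equivFin T), ?_⟩
  intro i j hij
  apply Subtype.ext
  rw [restr_apply, Basis.reindex_apply, Basis.reindex_apply, hb2, hb2]
  apply hb
  intro h
  apply hij
  exact (Fintype.equivFin T).symm.injective (Subtype.ext h)

end restr

section antitone

variable {V : Type*} [AddCommGroup V] [Module ℂ V] {m : Bil V}

lemma pw_succ_le : ∀ k, 1 ≤ k → pw m (k + 1) ≤ pw m k := by
  intro k
  induction k using Nat.strong_induction_on with
  | _ k ih =>
    intro hk
    by_cases h1 : k = 1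
    · subst h1
      rw [pw_one]
      exact le_top
    · obtain ⟨k, rfl⟩ : ∃ k', k = k' + 2 := ⟨k - 2, by omega⟩
      rw [show k + 2 + 1 = (k + 1) + 2 by ring, pw]
      refine iSup_le fun i => ?_
      rw [Submodule.map₂_le]
      intro x hx y hy
      have hi := i.2
      by_cases hcase : 1 ≤ (i : ℕ)
      · have hx' : x ∈ pw m i := ih i (by omega) hcase hx
        have := pw_mul_mem hcase (by omega : 1 ≤ k + 1 + 1 - i) hx' hy
        rwa [show (i : ℕ) + (k + 1 + 1 - i) = k + 2 by omega] at this
      · have hi0 : (i : ℕ) = 0 := by omega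
        rw [hi0] at hx hy
        have hy' : y ∈ pw m (k + 1) := ih (k + 1) (by omega) (by omega) (by simpa using hy)
        have := pw_mul_mem (by omega : 1 ≤ 0 + 1) (by omega : 1 ≤ k + 1) hx hy'
        rwa [show 0 + 1 + (k + 1) = k + 2 by omega] at this

lemma pw_antitone {a b : ℕ} (ha : 1 ≤ a) (hab : a ≤ b) : pw m b ≤ pw m a := by
  induction hab with
  | refl => exact le_rfl
  | step h ih => exact (pw_succ_le _ (ha.trans h)).trans ih

/-- Iterated squares. -/
def sqs (m : Bil V) (x : V) : ℕ → V
  | 0 => x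
  | j + 1 => m (sqs m x j) (sqs m x j)

lemma sqs_mem (x : V) (j : ℕ) : sqs m x j ∈ pw m (2 ^ j) := by
  induction j with
  | zero => rw [pow_zero, pw_one]; trivial
  | succ j ih =>
    rw [pow_succ, mul_two]
    exact pw_mul_mem Nat.one_le_two_pow Nat.one_le_two_pow ih ih

lemma nilIndex_ge {s : ℕ} (hn : IsNilp m) (h : pw m (2 ^ s) ≠ ⊥) : 2 ^ s + 1 ≤ nilIndex m := by
  have h1 := Nat.sInf_mem hn
  by_contra hcon
  have h2 : sInf {k | 1 ≤ k ∧ pw m k = ⊥} ≤ 2 ^ s := by
    unfold nilIndex at hcon
    omega
  have h3 := pw_antitone (m := m) h1.1 h2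
  rw [h1.2] at h3
  exact h (le_bot_iff.mp h3)

end antitone

section ZN

variable {V : Type*} [AddCommGroup V] [Module ℂ V] {m : Bil V}

lemma Jc_top_of_nilp {ι : Type*} [Fintype ι] [DecidableEq ι] {e : Basis ι ℂ V}
    (he : IsNatural m e) (hn : IsNilp m) {s : ℕ} (hs : Fintype.card ι = s + 1) :
    Jc m e (s + 1) = Finset.univ := by
  rcases card_growth he hn s with h | h
  · exact h
  · have h0 : Jc m e 0 ≠ Finset.univ := by
      rw [Jc_zero]
      intro h
      have := congrArg Finset.card h
      rw [Finset.card_empty, Finset.card_univ] at this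
      omega
    have h1 := nilp_step he hn 0 h0
    have h2 : 0 < (Jc m e 1).card := by
      rw [Finset.card_pos, Finset.nonempty_iff_ne_empty]
      exact h1.symm
    rw [← Finset.card_eq_iff_eq_univ]
    have := Finset.card_le_univ (Jc m e (s + 1))
    omega

lemma nilIndex_le (he : IsEvolution m) (hn : IsNilp m) {s : ℕ}
    (hs : Module.finrank ℂ V = s + 1) : nilIndex m ≤ 2 ^ s + 1 := by
  obtain ⟨n, e, he⟩ := he
  have hcard : Fintype.card (Fin n) = s + 1 := by
    rw [← hs, Module.finrank_eq_card_basis e]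
  have h1 := Jc_top_of_nilp he hn hcard
  exact Nat.sInf_le ⟨Nat.le_add_left _ _, pw_bot_of_univ he (by omega) h1 _ le_rfl⟩

lemma isZN_of {s : ℕ} (he : IsEvolution m) (hs : Module.finrank ℂ V = s + 1) (hn : IsNilp m)
    (h : pw m (2 ^ s) ≠ ⊥) : IsZN (s + 1) m := by
  refine ⟨he, hs, hn, ?_⟩
  intro W _ _ m' he' hs' hn'
  exact (nilIndex_le he' hn' hs').trans (nilIndex_ge hn h)

end ZN

end

end Pool.Agent.R839.Evo
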