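import Mathlib

/-!
# Sums of squares of real polynomials: order arguments and the Motzkin form

Shared lemmas: the coefficient ring `MvPolynomial σ ℝ` is formally real, orders of sums of squares,
and the Motzkin form `v⁶ + u⁴ w² + u² w⁴ - 3 u² v² w²` is not a sum of squares of polynomials.
-/

set_option autoImplicit false

open MvPolynomial

namespace Pool.Agent.R839

/-- `f` is a sum of squares of polynomials. -/
def IsSOS {σ : Type*} (f : MvPolynomial σ ℝ) : Prop :=
  ∃ (m : ℕ) (h : Fin m → MvPolynomial σ ℝ), f = ∑ i, h i ^ 2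

theorem eq_zero_of_sum_sq {σ ι : Type*} {s : Finset ι} {h : ι → MvPolynomial σ ℝ}
    (H : ∑ i ∈ s, h i ^ 2 = 0) : ∀ i ∈ s, h i = 0 := by
  intro i hi
  apply MvPolynomial.funext
  intro x
  rw [map_zero]
  have h1 := congrArg (eval x) H
  rw [map_sum, map_zero] at h1
  simp only [map_pow] at h1
  have h2 := (Finset.sum_eq_zero_iff_of_nonneg (fun i _ => sq_nonneg (eval x (h i)))).1 h1 i hi
  exact pow_eq_zero_iff two_ne_zero |>.1 h2

/-- If `X ^ (2 k)` divides a sum of squares in `ℝ[σ][X]` then `X ^ k` divides every summand. -/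
theorem X_pow_dvd_of_sum_sq {σ ι : Type*} {s : Finset ι} (k : ℕ) :
    ∀ {G : ι → Polynomial (MvPolynomial σ ℝ)}, Polynomial.X ^ (2 * k) ∣ ∑ i ∈ s, G i ^ 2 →
      ∀ i ∈ s, Polynomial.X ^ k ∣ G i := by
  induction k with
  | zero => intro G _ i _; simp
  | succ k ih =>
    intro G hG
    -- constant terms vanish
    have h0 : ∀ i ∈ s, (G i).coeff 0 = 0 := by
      apply eq_zero_of_sum_sq
      have h1 : (Polynomial.X : Polynomial (MvPolynomial σ ℝ)) ∣ ∑ i ∈ s, G i ^ 2 :=
        (dvd_pow_self _ (by omega)).trans hG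
      rw [Polynomial.X_dvd_iff, Polynomial.finsetSum_coeff] at h1
      rw [← h1]
      refine Finset.sum_congr rfl fun i _ => ?_
      rw [pow_two, pow_two, Polynomial.mul_coeff_zero]
    choose! G' hG' using fun i (hi : i ∈ s) => (Polynomial.X_dvd_iff.2 (h0 i hi))
    have h2 : ∑ i ∈ s, G i ^ 2 = Polynomial.X ^ 2 * ∑ i ∈ s, G' i ^ 2 := by
      rw [Finset.mul_sum]
      refine Finset.sum_congr rfl fun i hi => ?_
      rw [hG' i hi]; ring
    rw [h2, show 2 * (k + 1) = 2 + 2 * k by ring, pow_add] at hG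
    have h3 : (Polynomial.X : Polynomial (MvPolynomial σ ℝ)) ^ (2 * k) ∣ ∑ i ∈ s, G' i ^ 2 :=
      (mul_dvd_mul_iff_left (pow_ne_zero 2 Polynomial.X_ne_zero)).1 hG
    intro i hi
    rw [hG' i hi, pow_succ']
    exact mul_dvd_mul_left _ (ih h3 i hi)

/-- The lowest order part of a sum of squares is a sum of squares. -/
theorem coeff_sum_sq {σ ι : Type*} {s : Finset ι} (k : ℕ) {G : ι → Polynomial (MvPolynomial σ ℝ)}
    {F : Polynomial (MvPolynomial σ ℝ)} (h : Polynomial.X ^ (2 * k) * F = ∑ i ∈ s, G i ^ 2) :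
    F.coeff 0 = ∑ i ∈ s, ((G i).coeff k) ^ 2 := by
  have h1 := X_pow_dvd_of_sum_sq k (s := s) (G := G) ⟨F, h.symm⟩
  choose! H hH using h1
  have h2 : ∑ i ∈ s, G i ^ 2 = Polynomial.X ^ (2 * k) * ∑ i ∈ s, H i ^ 2 := by
    rw [Finset.mul_sum]
    refine Finset.sum_congr rfl fun i hi => ?_
    rw [hH i hi]; ring
  rw [h2] at h
  have h3 : F = ∑ i ∈ s, H i ^ 2 := mul_left_cancel₀ (pow_ne_zero _ Polynomial.X_ne_zero) h
  rw [h3, Polynomial.finsetSum_coeff]
  refine Finset.sum_congr rfl fun i hi => ?_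
  have h4 : (G i).coeff k = (H i).coeff 0 := by
    rw [hH i hi]
    have := Polynomial.coeff_X_pow_mul (H i) k 0
    rwa [zero_add] at this
  rw [h4, pow_two, pow_two, Polynomial.mul_coeff_zero]

/-- The substitution `x_i ↦ x_i X ^ (w i)`. -/
noncomputable def wt {σ : Type*} (w : σ → ℕ) :
    MvPolynomial σ ℝ →ₐ[ℝ] Polynomial (MvPolynomial σ ℝ) :=
  aeval fun i => Polynomial.C (X i) * Polynomial.X ^ w i

theorem wt_monomial {σ : Type*} [Fintype σ] (w : σ → ℕ) (m : σ →₀ ℕ) (a : ℝ) :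
    wt w (monomial m a) = Polynomial.C (monomial m a) * Polynomial.X ^ (∑ i, w i * m i) := by
  classical
  rw [wt, aeval_monomial, Finsupp.prod_fintype _ _ (fun _ => pow_zero _)]
  simp only [mul_pow, ← pow_mul, Finset.prod_mul_distrib, Finset.prod_pow_eq_pow_sum]
  rw [← mul_assoc]
  congr 1
  rw [monomial_eq, Finsupp.prod_fintype _ _ (fun _ => pow_zero _), map_mul, map_prod]
  simp only [map_pow]
  rfl

theorem coeff_wt {σ : Type*} [Fintype σ] (w : σ → ℕ) (f : MvPolynomial σ ℝ) (n : ℕ)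
    (m : σ →₀ ℕ) :
    coeff m ((wt w f).coeff n) = if ∑ i, w i * m i = n then coeff m f else 0 := by
  classical
  induction f using MvPolynomial.induction_on' with
  | monomial u a =>
    rw [wt_monomial, Polynomial.coeff_C_mul, Polynomial.coeff_X_pow]
    by_cases hu : m = u
    · subst hu
      by_cases hn : n = ∑ i, w i * m i
      · rw [if_pos hn, if_pos hn.symm, mul_one]
      · rw [if_neg hn, if_neg (fun h => hn h.symm), mul_zero, coeff_zero]
    · have h1 : coeff m (monomial u a : MvPolynomial σ ℝ) = 0 := by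
        rw [coeff_monomial, if_neg (fun h => hu h.symm)]
      split_ifs <;> simp [h1]
  | add f g hf hg =>
    rw [map_add, Polynomial.coeff_add, coeff_add, hf, hg, coeff_add]
    split_ifs <;> simp

/-- Weights of the exponents in a representation as a sum of squares. -/
theorem weight_le_of_sum_sq {σ ι : Type*} [Fintype σ] {s : Finset ι} (w : σ → ℕ) (k : ℕ)
    {f : MvPolynomial σ ℝ} {h : ι → MvPolynomial σ ℝ} (hf : f = ∑ i ∈ s, h i ^ 2)
    (hw : ∀ m, coeff m f ≠ 0 → 2 * k ≤ ∑ i, w i * m i) :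
    ∀ i ∈ s, ∀ m, coeff m (h i) ≠ 0 → k ≤ ∑ i, w i * m i := by
  classical
  have hdvd : Polynomial.X ^ (2 * k) ∣ ∑ i ∈ s, (wt w (h i)) ^ 2 := by
    have h1 : ∑ i ∈ s, (wt w (h i)) ^ 2 = wt w f := by
      rw [hf, map_sum]
      simp only [map_pow]
    rw [h1, Polynomial.X_pow_dvd_iff]
    intro n hn
    ext m
    rw [coeff_wt, coeff_zero]
    split_ifs with h2
    · by_contra h3
      have := hw m h3
      omega
    · rfl
  intro i hi m hm
  have h1 := X_pow_dvd_of_sum_sq k hdvd i hi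
  rw [Polynomial.X_pow_dvd_iff] at h1
  by_contra hlt
  push Not at hlt
  have h2 := h1 _ hlt
  have h3 := coeff_wt w (h i) (∑ i, w i * m i) m
  rw [h2, coeff_zero, if_pos rfl] at h3
  exact hm h3.symm

/-- The Motzkin form `v⁶ + u⁴ w² + u² w⁴ - 3 u² v² w²` in the variables `u, v, w`. -/
noncomputable def motzkin : MvPolynomial (Fin 3) ℝ :=
  X 1 ^ 6 + X 0 ^ 4 * X 2 ^ 2 + X 0 ^ 2 * X 2 ^ 4 - 3 * (X 0 ^ 2 * X 1 ^ 2 * X 2 ^ 2)

/-- exponent vector -/
noncomputable def ex (a b c : ℕ) : Fin 3 →₀ ℕ := Finsupp.equivFunOnFinite.symm ![a, b, c]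

theorem ex_apply0 (a b c : ℕ) : ex a b c 0 = a := rfl
theorem ex_apply1 (a b c : ℕ) : ex a b c 1 = b := rfl
theorem ex_apply2 (a b c : ℕ) : ex a b c 2 = c := rfl

theorem ex_eq (m : Fin 3 →₀ ℕ) : m = ex (m 0) (m 1) (m 2) := by
  ext i
  fin_cases i <;> rfl

theorem monomial_ex (a b c : ℕ) (r : ℝ) :
    (monomial (ex a b c) r : MvPolynomial (Fin 3) ℝ) = C r * (X 0 ^ a * X 1 ^ b * X 2 ^ c) := by
  rw [monomial_eq, Finsupp.prod_fintype _ _ (fun _ => pow_zero _), Fin.prod_univ_three]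
  rfl

theorem motzkin_eq : motzkin = monomial (ex 0 6 0) 1 + monomial (ex 4 0 2) 1 +
    monomial (ex 2 0 4) 1 + monomial (ex 2 2 2) (-3) := by
  rw [monomial_ex, monomial_ex, monomial_ex, monomial_ex, motzkin]
  simp only [map_neg, map_one, map_ofNat]
  ring

theorem coeff_motzkin (m : Fin 3 →₀ ℕ) : coeff m motzkin =
    (if ex 0 6 0 = m then 1 else 0) + (if ex 4 0 2 = m then 1 else 0) +
    (if ex 2 0 4 = m then 1 else 0) + (if ex 2 2 2 = m then -3 else 0) := by
  rw [motzkin_eq]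
  simp only [coeff_add, coeff_monomial]

theorem motzkin_support {m : Fin 3 →₀ ℕ} (h : coeff m motzkin ≠ 0) :
    m = ex 0 6 0 ∨ m = ex 4 0 2 ∨ m = ex 2 0 4 ∨ m = ex 2 2 2 := by
  by_contra hcon
  push Not at hcon
  apply h
  rw [coeff_motzkin, if_neg (Ne.symm hcon.1), if_neg (Ne.symm hcon.2.1),
    if_neg (Ne.symm hcon.2.2.1), if_neg (Ne.symm hcon.2.2.2)]
  norm_num

theorem motzkin_coeff_222 : coeff (ex 2 2 2) motzkin = -3 := by
  rw [coeff_motzkin, if_neg, if_neg, if_neg, if_pos rfl]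
  · norm_num
  · intro h; have := DFunLike.congr_fun h 1; simp [ex_apply1] at this
  · intro h; have := DFunLike.congr_fun h 1; simp [ex_apply1] at this
  · intro h; have := DFunLike.congr_fun h 0; simp [ex_apply0] at this

/-- The Motzkin form is not a sum of squares. -/
theorem motzkin_not_sum_sq {ι : Type*} (s : Finset ι) (h : ι → MvPolynomial (Fin 3) ℝ) :
    motzkin ≠ ∑ i ∈ s, h i ^ 2 := by
  classical
  intro H
  have w1 := weight_le_of_sum_sq ![1, 1, 1] 3 H (by
    intro m hm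
    rcases motzkin_support hm with rfl | rfl | rfl | rfl <;>
      simp [Fin.sum_univ_three, ex_apply0, ex_apply1, ex_apply2])
  have w2 := weight_le_of_sum_sq ![0, 1, 3] 3 H (by
    intro m hm
    rcases motzkin_support hm with rfl | rfl | rfl | rfl <;>
      simp [Fin.sum_univ_three, ex_apply1, ex_apply2])
  have w3 := weight_le_of_sum_sq ![3, 1, 0] 3 H (by
    intro m hm
    rcases motzkin_support hm with rfl | rfl | rfl | rfl <;>
      simp [Fin.sum_univ_three, ex_apply0, ex_apply1])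
  have key : ∀ i ∈ s, coeff (ex 2 2 2) (h i ^ 2) = coeff (ex 1 1 1) (h i) ^ 2 := by
    intro i hi
    rw [pow_two, pow_two, coeff_mul]
    rw [Finset.sum_eq_single (ex 1 1 1, ex 1 1 1)]
    · rintro ⟨a, b⟩ hab hne
      rw [Finset.HasAntidiagonal.mem_antidiagonal] at hab
      by_contra h0
      have ha : coeff a (h i) ≠ 0 := fun h1 => h0 (by simp [h1])
      have hb : coeff b (h i) ≠ 0 := fun h1 => h0 (by simp [h1])
      have a1 := w1 i hi a ha
      have a2 := w2 i hi a ha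
      have a3 := w3 i hi a ha
      have b1 := w1 i hi b hb
      have b2 := w2 i hi b hb
      have b3 := w3 i hi b hb
      have s0 := DFunLike.congr_fun hab 0
      have s1 := DFunLike.congr_fun hab 1
      have s2 := DFunLike.congr_fun hab 2
      simp [Fin.sum_univ_three] at a1 a2 a3 b1 b2 b3
      simp only [Finsupp.add_apply, ex_apply0, ex_apply1, ex_apply2] at s0 s1 s2
      apply hne
      have e1 : a = ex 1 1 1 := by
        rw [ex_eq a]
        congr 1 <;> omega
      have e2 : b = ex 1 1 1 := by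
        rw [ex_eq b]
        congr 1 <;> omega
      rw [e1, e2]
    · intro hcon
      exfalso
      apply hcon
      rw [Finset.HasAntidiagonal.mem_antidiagonal]
      ext i
      fin_cases i <;> rfl
  have h1 := congrArg (coeff (ex 2 2 2)) H
  rw [motzkin_coeff_222, coeff_sum, Finset.sum_congr rfl key] at h1
  have h2 : (0 : ℝ) ≤ ∑ i ∈ s, coeff (ex 1 1 1) (h i) ^ 2 :=
    Finset.sum_nonneg fun i _ => sq_nonneg _
  linarith

/-- A positive multiple of the Motzkin form is not a sum of squares. -/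
theorem mul_motzkin_not_sum_sq {ι : Type*} (s : Finset ι) (h : ι → MvPolynomial (Fin 3) ℝ)
    {c : ℝ} (hc : 0 < c) : C c * motzkin ≠ ∑ i ∈ s, h i ^ 2 := by
  intro H
  apply motzkin_not_sum_sq s (fun i => C (Real.sqrt c)⁻¹ * h i)
  have h1 : ∑ i ∈ s, (C (Real.sqrt c)⁻¹ * h i) ^ 2 = C (c⁻¹) * ∑ i ∈ s, h i ^ 2 := by
    rw [Finset.mul_sum]
    refine Finset.sum_congr rfl fun i _ => ?_
    rw [mul_pow, ← C_pow, inv_pow, Real.sq_sqrt hc.le]
  rw [h1, ← H, ← mul_assoc, ← C_mul, inv_mul_cancel₀ hc.ne', C_1, one_mul]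

end Pool.Agent.R839
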