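import Mathlib

/-! Words in free groups: full words, and the bound `Q` on contiguous parts that are not full. -/

namespace Pool.Agent.R839.Prim

open FreeGroup

section Words

variable {α : Type} [DecidableEq α]

/-- A word is full if it contains every reduced two-letter word as a contiguous part. -/
def Full (w : List (α × Bool)) : Prop :=
  ∀ a b : α × Bool, b ≠ (a.1, !a.2) → [a, b] <:+: w

/-- Every contiguous part of `w` that is not full has length at most `D`. -/
def Q (w : List (α × Bool)) (D : ℕ) : Prop :=
  ∀ z, z <:+: w → ¬ Full z → z.length ≤ D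

theorem Full.mono {u v : List (α × Bool)} (h : u <:+: v) (hu : Full u) : Full v :=
  fun a b hab => (hu a b hab).trans h

theorem Q.sub {u v : List (α × Bool)} {D : ℕ} (h : u <:+: v) (hv : Q v D) : Q u D :=
  fun z hz hn => hv z (hz.trans h) hn

theorem Q.mono {u : List (α × Bool)} {D D' : ℕ} (h : D ≤ D') (hv : Q u D) : Q u D' :=
  fun z hz hn => (hv z hz hn).trans h

/-- A contiguous part of a reduced word is reduced. -/
theorem redInf {u v : List (α × Bool)} (h : FreeGroup.IsReduced v) (h' : u <:+: v) :
    FreeGroup.IsReduced u := by
  obtain ⟨s, t, rfl⟩ := h'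
  unfold FreeGroup.IsReduced at h ⊢
  exact (List.IsChain.left_of_append h).right_of_append

theorem Q_length (u : List (α × Bool)) : Q u u.length :=
  fun _ hz _ => hz.length_le

theorem Q.append {u v : List (α × Bool)} {D E : ℕ} (hu : Q u D) (hv : Q v E) :
    Q (u ++ v) (D + E) := by
  intro z hz hn
  rcases List.infix_append_iff.1 hz with h | h | ⟨z1, z2, rfl, h1, h2⟩
  · exact (hu z h hn).trans (Nat.le_add_right _ _)
  · exact (hv z h hn).trans (Nat.le_add_left _ _)
  · have n1 : ¬ Full z1 := fun h => hn (h.mono ⟨[], z2, by simp⟩)
    have n2 : ¬ Full z2 := fun h => hn (h.mono ⟨z1, [], by simp⟩)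
    have := hu z1 h1.isInfix n1
    have := hv z2 h2.isInfix n2
    simp only [List.length_append]
    omega

/-- The reduced word of a product is a beginning piece of the first reduced word followed by an
end piece of the second. -/
theorem reduced_append : ∀ (n : ℕ) (u v : List (α × Bool)), u.length ≤ n →
    FreeGroup.IsReduced u → FreeGroup.IsReduced v → ∃ p s, p <+: u ∧ s <:+ v ∧ reduce (u ++ v) = p ++ s := by
  intro n
  induction n with
  | zero =>
    intro u v hu _ hv
    have : u = [] := by
      apply List.eq_nil_of_length_eq_zero; omega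
    subst this
    exact ⟨[], v, List.prefix_rfl, List.suffix_rfl, by simpa using hv.reduce_eq⟩
  | succ n ih =>
    intro u v hu hru hrv
    by_cases hred : FreeGroup.IsReduced (u ++ v)
    · exact ⟨u, v, List.prefix_rfl, List.suffix_rfl, hred.reduce_eq⟩
    · -- the last letter of `u` cancels with the first letter of `v`
      rcases List.eq_nil_or_concat u with rfl | ⟨u0, a, rfl⟩
      · exact absurd (by simpa using hrv) hred
      · cases v with
        | nil => exact absurd (by simpa using hru) hred
        | cons b v0 =>
          have hab : a.1 = b.1 ∧ a.2 ≠ b.2 := by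
            by_contra hcon
            apply hred
            have key : a.1 = b.1 → a.2 = b.2 := by
              intro h1
              by_contra h2
              exact hcon ⟨h1, h2⟩
            unfold FreeGroup.IsReduced at hru hrv ⊢
            rw [List.isChain_append]
            refine ⟨by simpa using hru, hrv, ?_⟩
            intro x hx y hy
            simp at hx hy
            subst hx hy
            exact key
          have hu0 : FreeGroup.IsReduced u0 := redInf hru ⟨[], [a], by simp⟩
          have hv0 : FreeGroup.IsReduced v0 := redInf hrv ⟨[b], [], by simp⟩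
          obtain ⟨p, s, hp, hs, he⟩ := ih u0 v0 (by simp at hu; omega) hu0 hv0
          refine ⟨p, s, ?_, ?_, ?_⟩
          · exact hp.trans ⟨[a], by simp⟩
          · exact hs.trans ⟨[b], by simp⟩
          · rw [← he]
            apply reduce.Step.eq
            obtain ⟨a1, a2⟩ := a
            obtain ⟨b1, b2⟩ := b
            simp only at hab
            obtain ⟨rfl, h2⟩ := hab
            have : b2 = !a2 := by cases a2 <;> cases b2 <;> simp_all
            subst this
            have := @Red.Step.not α u0 v0 a1 a2
            simpa using this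

/-- `Q` for group elements. -/
def Qg (g : FreeGroup α) (D : ℕ) : Prop := Q g.toWord D

theorem Qg.mul {g h : FreeGroup α} {D E : ℕ} (hg : Qg g D) (hh : Qg h E) :
    Qg (g * h) (D + E) := by
  obtain ⟨p, s, hp, hs, he⟩ := reduced_append _ g.toWord h.toWord le_rfl isReduced_toWord
    isReduced_toWord
  unfold Qg
  rw [toWord_mul, he]
  exact (Q.sub hp.isInfix hg).append (Q.sub hs.isInfix hh)

theorem Qg_one : Qg (1 : FreeGroup α) 0 := by
  unfold Qg
  rw [toWord_one]
  exact Q_length []

end Words

section Blocks

variable {α : Type} [DecidableEq α]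

/-- A block is a copy of `H` or its inverse (`Sum.inl`), or a short word (`Sum.inr`). -/
def blk (H : List (α × Bool)) (G : α → List (α × Bool)) : Bool ⊕ (α × Bool) → List (α × Bool)
  | Sum.inl true => H
  | Sum.inl false => invRev H
  | Sum.inr (i, true) => G i
  | Sum.inr (i, false) => invRev (G i)

/-- The relation between consecutive blocks. -/
def CR : Bool ⊕ (α × Bool) → Bool ⊕ (α × Bool) → Prop
  | Sum.inl b, Sum.inl b' => b = b'
  | Sum.inl _, Sum.inr _ => True
  | Sum.inr _, Sum.inl _ => True
  | Sum.inr _, Sum.inr _ => False

theorem full_invRev {w : List (α × Bool)} (h : Full w) : Full (invRev w) := by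
  intro a b hab
  have := h (b.1, !b.2) (a.1, !a.2) (by
    intro hh
    apply hab
    simp only [Prod.ext_iff, Bool.not_not] at hh ⊢
    exact ⟨hh.1.symm, by rw [← hh.2]⟩)
  obtain ⟨s, t, rfl⟩ := this
  refine ⟨invRev t, invRev s, ?_⟩
  simp [invRev]

variable {H : List (α × Bool)} {G : α → List (α × Bool)}

theorem full_blk (hH : Full H) (b : Bool) : Full (blk H G (Sum.inl b)) := by
  cases b
  · exact full_invRev hH
  · exact hH

theorem length_blk_inl (b : Bool) : (blk H G (Sum.inl b)).length = H.length := by
  cases b <;> simp [blk]

theorem length_blk_inr (hG : ∀ i, (G i).length ≤ 3) (a : α × Bool) :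
    (blk H G (Sum.inr a)).length ≤ 3 := by
  obtain ⟨i, b⟩ := a
  cases b <;> simp [blk, hG]

theorem prefix_split {z u v : List (α × Bool)} (h : z <+: u ++ v) :
    z <+: u ∨ ∃ z', z = u ++ z' ∧ z' <+: v := by
  obtain ⟨t, ht⟩ := h
  rcases List.append_eq_append_iff.mp ht with ⟨as, hxs, _⟩ | ⟨bs, hsl, hys⟩
  · left; exact ⟨as, hxs.symm⟩
  · right; exact ⟨bs, hsl, ⟨t, hys.symm⟩⟩

theorem prefix_bound (hH : Full H) (hG : ∀ i, (G i).length ≤ 3) :
    ∀ (B : List (Bool ⊕ (α × Bool))), B.IsChain CR → ∀ z, z <+: (B.map (blk H G)).flatten →
      ¬ Full z → z.length ≤ H.length + 3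
  | [], _, z, hz, _ => by
    simp at hz
    subst hz
    simp
  | Sum.inl b :: B, _, z, hz, hn => by
    rw [List.map_cons, List.flatten_cons] at hz
    rcases prefix_split hz with h | ⟨z', rfl, _⟩
    · have := h.length_le
      rw [length_blk_inl] at this
      omega
    · exact absurd ((full_blk (G := G) hH b).mono ⟨[], z', by simp⟩) hn
  | [Sum.inr a], _, z, hz, hn => by
    rw [List.map_cons, List.flatten_cons] at hz
    simp at hz
    have := hz.length_le
    have := length_blk_inr (H := H) hG a
    omega
  | Sum.inr a :: Sum.inl b :: B, _, z, hz, hn => by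
    rw [List.map_cons, List.flatten_cons, List.map_cons, List.flatten_cons,
      ← List.append_assoc] at hz
    rcases prefix_split hz with h | ⟨z', rfl, _⟩
    · have := h.length_le
      rw [List.length_append, length_blk_inl] at this
      have := length_blk_inr (H := H) hG a
      omega
    · exact absurd ((full_blk (G := G) hH b).mono ⟨blk H G (Sum.inr a), z', by simp⟩) hn
  | Sum.inr a :: Sum.inr a' :: B, hc, z, hz, hn => by
    rw [List.isChain_cons_cons] at hc
    exact absurd hc.1 (by simp [CR])

theorem blocks_Q (hH : Full H) (hG : ∀ i, (G i).length ≤ 3) (B : List (Bool ⊕ (α × Bool)))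
    (hB : B.IsChain CR) : Q (B.map (blk H G)).flatten (2 * H.length + 6) := by
  induction B with
  | nil => exact (Q_length _).mono (by simp)
  | cons x B ih =>
    have hB' : B.IsChain CR := hB.tail
    intro z hz hn
    rw [List.map_cons, List.flatten_cons] at hz
    have hx : (blk H G x).length ≤ H.length + 3 := by
      cases x with
      | inl b => rw [length_blk_inl]; omega
      | inr a => have := length_blk_inr (H := H) hG a; omega
    rcases List.infix_append_iff.1 hz with h | h | ⟨z1, z2, rfl, h1, h2⟩
    · have := h.length_le
      omega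
    · exact ih hB' z h hn
    · have n2 : ¬ Full z2 := fun h => hn (h.mono ⟨z1, [], by simp⟩)
      have := h1.length_le
      have := prefix_bound hH hG B hB' z2 h2 n2
      simp only [List.length_append]
      omega

end Blocks

end Pool.Agent.R839.Prim
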