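import Pool.Agent.R839.PrimA

/-! The generating sets `S_n` and the bound for products of few generators. -/

namespace Pool.Agent.R839.Prim

open FreeGroup

section Existence

variable {α : Type} [DecidableEq α]

theorem isReduced_append {u v : List (α × Bool)} (hu : FreeGroup.IsReduced u)
    (hv : FreeGroup.IsReduced v)
    (h : ∀ a ∈ u.getLast?, ∀ b ∈ v.head?, a.1 = b.1 → a.2 = b.2) :
    FreeGroup.IsReduced (u ++ v) := by
  unfold FreeGroup.IsReduced at hu hv ⊢
  rw [List.isChain_append]
  exact ⟨hu, hv, h⟩

theorem ne_nil_split {β : Type} {w : List β} (h : w ≠ []) : ∃ w0 l, w = w0 ++ [l] :=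
  ⟨w.dropLast, w.getLast h, (List.dropLast_append_getLast h).symm⟩

theorem exists_word (c0 c1 : α) (hc : c0 ≠ c1) (Ps : List ((α × Bool) × (α × Bool)))
    (hP : ∀ p ∈ Ps, p.2 ≠ (p.1.1, !p.1.2)) :
    ∃ w : List (α × Bool), FreeGroup.IsReduced w ∧ w.head? = some (c1, true) ∧
      ∀ p ∈ Ps, [p.1, p.2] <:+: w := by
  induction Ps with
  | nil => exact ⟨[(c1, true)], IsReduced.singleton, rfl, by simp⟩
  | cons p Ps ih =>
    obtain ⟨w, hw, hhead, hall⟩ := ih (fun q hq => hP q (List.mem_cons_of_mem _ hq))
    have hp := hP p List.mem_cons_self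
    have hp2 : FreeGroup.IsReduced [p.1, p.2] := by
      unfold FreeGroup.IsReduced
      rw [List.isChain_pair]
      intro h1
      by_contra h2
      apply hp
      obtain ⟨⟨a1, a2⟩, ⟨b1, b2⟩⟩ := p
      simp only at h1 h2 ⊢
      subst h1
      congr 1
      cases a2 <;> cases b2 <;> simp_all
    have hne : w ≠ [] := by rintro rfl; simp at hhead
    obtain ⟨w0, l, rfl⟩ := ne_nil_split hne
    by_cases h : p.1 = (l.1, !l.2)
    · let c : α := if l.1 = c0 then c1 else c0
      have hcl : c ≠ l.1 := by
        by_cases h0 : l.1 = c0
        · simp only [c, h0, if_true]; exact hc.symm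
        · simp only [c, h0, if_false]; exact fun h' => h0 h'.symm
      refine ⟨(w0 ++ [l]) ++ ([(c, true)] ++ [p.1, p.2]), ?_, ?_, ?_⟩
      · apply isReduced_append hw
        · apply isReduced_append IsReduced.singleton hp2
          intro a ha b hb hab
          simp at ha hb
          subst ha hb
          rw [h] at hab
          exact absurd hab hcl
        · intro a ha b hb hab
          simp at ha hb
          subst ha hb
          exact absurd hab.symm hcl
      · rw [List.head?_append, hhead]; rfl
      · intro q hq
        rcases List.mem_cons.1 hq with rfl | hq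
        · exact ⟨(w0 ++ [l]) ++ [(c, true)], [], by simp⟩
        · exact (hall q hq).trans List.infix_append_left
    · refine ⟨(w0 ++ [l]) ++ [p.1, p.2], ?_, ?_, ?_⟩
      · apply isReduced_append hw hp2
        intro a ha b hb hab
        simp at ha hb
        subst ha hb
        by_contra h2
        apply h
        obtain ⟨⟨a1, a2⟩, ⟨b1, b2⟩⟩ := p
        obtain ⟨l1, l2⟩ := l
        simp only at hab h2 ⊢
        subst hab
        congr 1
        cases a2 <;> cases l2 <;> simp_all
      · rw [List.head?_append, hhead]; rfl
      · intro q hq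
        rcases List.mem_cons.1 hq with rfl | hq
        · exact ⟨(w0 ++ [l]), [], by simp⟩
        · exact (hall q hq).trans List.infix_append_left

theorem exists_H [Fintype α] (c0 c1 : α) (hc : c0 ≠ c1) :
    ∃ H : List (α × Bool), FreeGroup.IsReduced H ∧ Full H ∧ H.head? = some (c1, true) ∧
      H.getLast? = some (c1, true) := by
  obtain ⟨w, hw, hhead, hall⟩ := exists_word c0 c1 hc
    ((Finset.univ : Finset ((α × Bool) × (α × Bool))).filter
      (fun p => p.2 ≠ (p.1.1, !p.1.2))).toList (by
        intro p hp
        simpa using hp)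
  have hfull : Full w := by
    intro a b hab
    exact hall (a, b) (by simpa using hab)
  have hne : w ≠ [] := by rintro rfl; simp at hhead
  obtain ⟨w0, l, rfl⟩ := ne_nil_split hne
  by_cases h1 : l = (c1, true)
  · subst h1
    exact ⟨_, hw, hfull, hhead, by simp⟩
  · by_cases h2 : l.1 = c1
    · refine ⟨(w0 ++ [l]) ++ [(c0, true), (c1, true)], ?_, ?_, ?_, by simp⟩
      · apply isReduced_append hw
        · unfold FreeGroup.IsReduced
          rw [List.isChain_pair]
          intro h
          exact absurd h hc
        · intro a ha b hb hab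
          simp at ha hb
          subst ha hb
          simp only at hab
          exact absurd (hab.symm.trans h2) hc
      · exact hfull.mono List.infix_append_left
      · rw [List.head?_append, hhead]; rfl
    · refine ⟨(w0 ++ [l]) ++ [(c1, true)], ?_, ?_, ?_, by simp⟩
      · apply isReduced_append hw IsReduced.singleton
        intro a ha b hb hab
        simp at ha hb
        subst ha hb
        exact absurd hab h2
      · exact hfull.mono List.infix_append_left
      · rw [List.head?_append, hhead]; rfl

end Existence

/-- The sign of a Boolean. -/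
def sg (b : Bool) : ℤ := if b then 1 else -1

variable {k : ℕ}

/-- The exponent attached to a letter. -/
def lv (n : ℕ) (p : Fin k × Bool) : ℤ := sg p.2 * ((n : ℤ) * ((p.1.val : ℤ) + 1))

/-- The normal form of a word in the generators of `S_n`. -/
def nf (n : ℕ) : List (Option (Fin k) × Bool) → ℤ × List ((Fin k × Bool) × ℤ)
  | [] => (0, [])
  | (none, b) :: L => (sg b + (nf n L).1, (nf n L).2)
  | (some i, b) :: L => (lv n (i, b), ((i, b), lv n (i, b) + (nf n L).1) :: (nf n L).2)

/-- A letter as a group element. -/
def gl (g : Fin k → FreeGroup (Fin k)) (p : Fin k × Bool) : FreeGroup (Fin k) :=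
  cond p.2 (g p.1) (g p.1)⁻¹

/-- Evaluation of a normal form. -/
def evalN (h : FreeGroup (Fin k)) (g : Fin k → FreeGroup (Fin k))
    (x : ℤ × List ((Fin k × Bool) × ℤ)) : FreeGroup (Fin k) :=
  h ^ x.1 * (x.2.map (fun q => gl g q.1 * h ^ q.2)).prod

/-- The generators of `S_n`. -/
def genF (n : ℕ) (h : FreeGroup (Fin k)) (g : Fin k → FreeGroup (Fin k)) :
    Option (Fin k) → FreeGroup (Fin k)
  | none => h
  | some i => h ^ ((n : ℤ) * ((i.val : ℤ) + 1)) * g i * h ^ ((n : ℤ) * ((i.val : ℤ) + 1))

theorem phi_mk (n : ℕ) (h : FreeGroup (Fin k)) (g : Fin k → FreeGroup (Fin k))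
    (L : List (Option (Fin k) × Bool)) :
    FreeGroup.lift (genF n h g) (FreeGroup.mk L) = evalN h g (nf n L) := by
  induction L with
  | nil => simp [evalN, nf]
  | cons x L ih =>
    have e : FreeGroup.mk (x :: L) = FreeGroup.mk [x] * FreeGroup.mk L := by
      rw [mul_mk]; rfl
    rw [e, _root_.map_mul, ih]
    obtain ⟨o, b⟩ := x
    cases o with
    | none =>
      cases b
      · simp [evalN, nf, genF, sg, zpow_add, mul_assoc]
      · simp [evalN, nf, genF, sg, zpow_add, mul_assoc]
    | some i =>
      cases b
      · simp [evalN, nf, genF, sg, lv, gl, zpow_add, mul_assoc]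
      · simp [evalN, nf, genF, sg, lv, gl, zpow_add, mul_assoc]

theorem nf_inv (n : ℕ) (L : List (Option (Fin k) × Bool)) (hL : FreeGroup.IsReduced L)
    (hn : L.length < n) :
    (nf n L).2.IsChain (fun a _ => a.2 ≠ 0) ∧ ((nf n L).2 ≠ [] → ∃ j : ℤ, ∃ p : Fin k × Bool,
      (nf n L).1 = j + lv n p ∧ |j| ≤ (L.length : ℤ) ∧
      (0 < j → L.head? = some (none, true)) ∧ (j < 0 → L.head? = some (none, false)) ∧
      (j = 0 → L.head? = some (some p.1, p.2))) := by
  induction L with
  | nil => simp [nf]
  | cons x L ih =>
    have hL' : FreeGroup.IsReduced L := redInf hL ⟨[x], [], by simp⟩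
    simp only [List.length_cons] at hn
    obtain ⟨ih1, ih2⟩ := ih hL' (by omega)
    have hadj : ∀ y, L.head? = some y → x.1 = y.1 → x.2 = y.2 := by
      intro y hy
      unfold FreeGroup.IsReduced at hL
      rw [List.isChain_cons] at hL
      exact hL.1 y hy
    obtain ⟨o, b⟩ := x
    cases o with
    | none =>
      refine ⟨ih1, ?_⟩
      intro hne
      obtain ⟨j, p, h1, h2, h3, h4, h5⟩ := ih2 hne
      refine ⟨sg b + j, p, ?_, ?_, ?_, ?_, ?_⟩
      · simp only [nf]; rw [h1]; ring
      · have : |sg b| = 1 := by cases b <;> simp [sg]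
        have := abs_add_le (sg b) j
        push_cast [List.length_cons]
        omega
      · intro hpos
        cases b
        · exfalso
          have hj : 0 < j := by simp [sg] at hpos; omega
          have := hadj _ (h3 hj) rfl
          simp at this
        · rfl
      · intro hneg
        cases b
        · rfl
        · exfalso
          have hj : j < 0 := by simp [sg] at hneg; omega
          have := hadj _ (h4 hj) rfl
          simp at this
      · intro hz
        exfalso
        cases b
        · have hj : 0 < j := by simp [sg] at hz; omega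
          have := hadj _ (h3 hj) rfl
          simp at this
        · have hj : j < 0 := by simp [sg] at hz; omega
          have := hadj _ (h4 hj) rfl
          simp at this
    | some i =>
      constructor
      · simp only [nf]
        rw [List.isChain_cons]
        refine ⟨?_, ih1⟩
        intro y hy
        have hne : (nf n L).2 ≠ [] := by
          intro h0
          rw [h0] at hy
          simp at hy
        obtain ⟨j, p, h1, h2, h3, h4, h5⟩ := ih2 hne
        simp only
        rw [h1]
        intro hz
        have hnpos : (0 : ℤ) < n := by exact_mod_cast (by omega : 0 < n)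
        have hdvd : (n : ℤ) ∣ j := by
          have : j = (n : ℤ) * (-(sg b * ((i.val : ℤ) + 1)) - sg p.2 * ((p.1.val : ℤ) + 1)) := by
            unfold lv at hz
            simp only at hz
            linarith
          exact ⟨_, this⟩
        have hj0 : j = 0 := by
          apply Int.eq_zero_of_abs_lt_dvd hdvd
          omega
        subst hj0
        have hhd := h5 rfl
        unfold lv at hz
        simp only at hz
        have hz' : sg b * ((i.val : ℤ) + 1) + sg p.2 * ((p.1.val : ℤ) + 1) = 0 := by
          have : (n : ℤ) * (sg b * ((i.val : ℤ) + 1) + sg p.2 * ((p.1.val : ℤ) + 1)) = 0 := by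
            linarith
          rcases mul_eq_zero.1 this with h | h
          · omega
          · exact h
        have hx := hadj _ hhd
        simp only at hx
        obtain ⟨p1, p2⟩ := p
        simp only at hz' hx
        have hip : i = p1 := by
          apply Fin.ext
          cases b <;> cases p2 <;> simp [sg] at hz' <;> omega
        subst hip
        have := hx rfl
        subst this
        cases b <;> simp [sg] at hz' <;> omega
      · intro _
        refine ⟨0, (i, b), ?_, ?_, ?_, ?_, ?_⟩
        · simp [nf]
        · simp
          positivity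
        · intro h; exact absurd h (lt_irrefl _)
        · intro h; exact absurd h (lt_irrefl _)
        · intro _; rfl

/-- A power of `H` as a list of blocks. -/
def pw (e : ℤ) : List (Bool ⊕ (Fin k × Bool)) := List.replicate e.natAbs (Sum.inl (decide (0 ≤ e)))

/-- The blocks of a normal form. -/
def toBlk (x : ℤ × List ((Fin k × Bool) × ℤ)) : List (Bool ⊕ (Fin k × Bool)) :=
  pw x.1 ++ x.2.flatMap (fun q => Sum.inr q.1 :: pw q.2)

theorem pw_chain (e : ℤ) (B : List (Bool ⊕ (Fin k × Bool))) (hB : B.IsChain CR)
    (hd : ∀ y ∈ B.head?, ∃ a, y = Sum.inr a) : (pw e ++ B).IsChain CR := by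
  rw [List.isChain_append]
  refine ⟨List.isChain_replicate_of_rel _ (by simp [CR]), hB, ?_⟩
  intro x hx y hy
  obtain ⟨a, rfl⟩ := hd y hy
  have : x = Sum.inl (decide (0 ≤ e)) := by
    have := List.mem_of_getLast? hx
    exact List.eq_of_mem_replicate this
  subst this
  simp [CR]

theorem toBlk_chain (x : ℤ × List ((Fin k × Bool) × ℤ))
    (hx : x.2.IsChain (fun a _ => a.2 ≠ 0)) : (toBlk x).IsChain CR := by
  unfold toBlk
  have key : ∀ R : List ((Fin k × Bool) × ℤ), R.IsChain (fun a _ => a.2 ≠ 0) →
      (R.flatMap (fun q => Sum.inr q.1 :: pw q.2)).IsChain CR ∧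
      (∀ y ∈ (R.flatMap (fun q => Sum.inr q.1 :: pw q.2)).head?, ∃ a, y = Sum.inr a) := by
    intro R
    induction R with
    | nil => simp
    | cons q R ih =>
      intro hc
      rw [List.isChain_cons] at hc
      obtain ⟨ih1, ih2⟩ := ih hc.2
      rw [List.flatMap_cons, List.cons_append]
      refine ⟨?_, ?_⟩
      · rw [List.isChain_cons]
        refine ⟨?_, pw_chain _ _ ih1 ih2⟩
        intro y hy
        cases R with
        | nil =>
          rw [List.flatMap_nil, List.append_nil] at hy
          have : y = Sum.inl (decide (0 ≤ q.2)) := List.eq_of_mem_replicate (List.mem_of_head? hy)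
          subst this
          simp [CR]
        | cons q' R' =>
          have h0 : q.2 ≠ 0 := hc.1 q' (by simp)
          have hpos : q.2.natAbs = (q.2.natAbs - 1) + 1 := by omega
          have : pw q.2 = (Sum.inl (decide (0 ≤ q.2)) : Bool ⊕ (Fin k × Bool)) ::
              List.replicate (q.2.natAbs - 1) (Sum.inl (decide (0 ≤ q.2))) := by
            unfold pw
            rw [hpos]
            rfl
          rw [this] at hy
          simp at hy
          subst hy
          simp [CR]
      · intro y hy
        simp at hy
        exact ⟨q.1, hy.symm⟩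
  obtain ⟨h1, h2⟩ := key x.2 hx
  exact pw_chain _ _ h1 h2

theorem mk_blocks (H : List (Fin k × Bool)) (G : Fin k → List (Fin k × Bool))
    (B : List (Bool ⊕ (Fin k × Bool))) :
    FreeGroup.mk (B.map (blk H G)).flatten = (B.map (fun b => FreeGroup.mk (blk H G b))).prod := by
  induction B with
  | nil => simp [one_eq_mk]
  | cons x B ih =>
    rw [List.map_cons, List.flatten_cons, ← mul_mk, ih, List.map_cons, List.prod_cons]

theorem mk_toBlk (H : List (Fin k × Bool)) (G : Fin k → List (Fin k × Bool))
    (x : ℤ × List ((Fin k × Bool) × ℤ)) :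
    FreeGroup.mk ((toBlk x).map (blk H G)).flatten =
      evalN (FreeGroup.mk H) (fun i => FreeGroup.mk (G i)) x := by
  have hpw : ∀ e : ℤ, ((pw e).map (fun b => FreeGroup.mk (blk H G b))).prod =
      (FreeGroup.mk H) ^ e := by
    intro e
    unfold pw
    rw [List.map_replicate, List.prod_replicate]
    rcases le_or_gt 0 e with he | he
    · rw [decide_eq_true he]
      simp only [blk]
      rw [← zpow_natCast, Int.natAbs_of_nonneg he]
    · rw [decide_eq_false (by omega)]
      simp only [blk]
      rw [← inv_mk, inv_pow, ← zpow_natCast, ← zpow_neg]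
      congr 1
      omega
  rw [mk_blocks]
  unfold toBlk evalN
  rw [List.map_append, List.prod_append, hpw]
  congr 1
  induction x.2 with
  | nil => simp
  | cons q R ih =>
    rw [List.flatMap_cons, List.map_append, List.prod_append, ih, List.map_cons, List.prod_cons,
      List.map_cons, List.prod_cons, hpw]
    congr 2
    obtain ⟨⟨i, b⟩, e⟩ := q
    cases b <;> simp [gl, blk, inv_mk]

theorem reduced_blocks {H : List (Fin k × Bool)} {G : Fin k → List (Fin k × Bool)} {c0 c1 : Fin k}
    (hc : c0 ≠ c1) (hH : FreeGroup.IsReduced H) (hH1 : H.head? = some (c1, true))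
    (hH2 : H.getLast? = some (c1, true)) (hG : ∀ i, FreeGroup.IsReduced (G i))
    (hG1 : ∀ i, (G i).head? = some (c0, true)) (hG2 : ∀ i, (G i).getLast? = some (c0, true))
    (B : List (Bool ⊕ (Fin k × Bool))) (hB : B.IsChain CR) :
    FreeGroup.IsReduced (B.map (blk H G)).flatten := by
  have hne : ∀ b : Bool ⊕ (Fin k × Bool), blk H G b ≠ [] := by
    have h0 : H ≠ [] := by rintro rfl; simp at hH1
    have h1 : ∀ i, G i ≠ [] := by
      intro i h
      have := hG1 i
      rw [h] at this
      simp at this
    rintro (b | ⟨i, b⟩) <;> cases b <;> simp [blk, invRev, h0, h1]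
  have hinv : ∀ w : List (Fin k × Bool), FreeGroup.IsReduced w → FreeGroup.IsReduced (invRev w) := by
    intro w hw
    rw [isReduced_iff_reduce_eq] at hw ⊢
    rw [reduce_invRev, hw]
  unfold FreeGroup.IsReduced
  rw [List.isChain_flatten]
  · constructor
    · intro l hl
      rw [List.mem_map] at hl
      obtain ⟨b, _, rfl⟩ := hl
      rcases b with (b | ⟨i, b⟩) <;> cases b
      · exact hinv _ hH
      · exact hH
      · exact hinv _ (hG i)
      · exact hG i
    · rw [List.isChain_map]
      refine hB.imp ?_
      rintro (b | ⟨i, b⟩) (b' | ⟨i', b'⟩) hcr x hx y hy hxy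
      · simp only [CR] at hcr
        subst hcr
        cases b
        · simp [blk, invRev, hH1, hH2] at hx hy
          rw [← hx, ← hy]
        · simp [blk, hH1, hH2] at hx hy
          rw [← hx, ← hy]
      · exfalso
        cases b <;> cases b' <;> simp [blk, invRev, hH1, hH2, hG1, hG2] at hx hy <;>
          rw [← hx, ← hy] at hxy <;> exact hc hxy.symm
      · exfalso
        cases b <;> cases b' <;> simp [blk, invRev, hH1, hH2, hG1, hG2] at hx hy <;>
          rw [← hx, ← hy] at hxy <;> exact hc hxy
      · exact absurd hcr (by simp [CR])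
  · intro h
    rw [List.mem_map] at h
    obtain ⟨b, _, hb⟩ := h
    exact hne b hb

/-- Data for the generating sets. -/
structure Data (k : ℕ) where
  c0 : Fin k
  c1 : Fin k
  hc : c0 ≠ c1
  H : List (Fin k × Bool)
  hH : FreeGroup.IsReduced H
  hfull : Full H
  hH1 : H.head? = some (c1, true)
  hH2 : H.getLast? = some (c1, true)

/-- The short words `x_0` and `x_0 x_i x_0`. -/
def Data.G (d : Data k) (i : Fin k) : List (Fin k × Bool) :=
  if i = d.c0 then [(d.c0, true)] else [(d.c0, true), (i, true), (d.c0, true)]

theorem Data.G_reduced (d : Data k) (i : Fin k) : FreeGroup.IsReduced (d.G i) := by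
  unfold Data.G
  split_ifs with h
  · exact IsReduced.singleton
  · unfold FreeGroup.IsReduced
    simp

theorem Data.G_head (d : Data k) (i : Fin k) : (d.G i).head? = some (d.c0, true) := by
  unfold Data.G
  split_ifs <;> simp

theorem Data.G_last (d : Data k) (i : Fin k) : (d.G i).getLast? = some (d.c0, true) := by
  unfold Data.G
  split_ifs <;> simp

theorem Data.G_length (d : Data k) (i : Fin k) : (d.G i).length ≤ 3 := by
  unfold Data.G
  split_ifs <;> simp

/-- The homomorphism onto the free group given by the generators of `S_n`. -/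
noncomputable def Data.phi (d : Data k) (n : ℕ) : FreeGroup (Option (Fin k)) →* FreeGroup (Fin k) :=
  FreeGroup.lift (genF n (FreeGroup.mk d.H) (fun i => FreeGroup.mk (d.G i)))

/-- The constant. -/
def Data.D (d : Data k) : ℕ := 2 * d.H.length + 6

theorem Data.chunk (d : Data k) (n : ℕ) (L : List (Option (Fin k) × Bool)) (hL : L.length < n) :
    Qg (d.phi n (FreeGroup.mk L)) d.D := by
  have e : FreeGroup.mk L = FreeGroup.mk (reduce L) := by rw [reduce.self]
  have hr : FreeGroup.IsReduced (reduce L) := by
    rw [isReduced_iff_reduce_eq, reduce.idem]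
  have hlen : (reduce L).length < n :=
    lt_of_le_of_lt (Red.length_le reduce.red) hL
  rw [e]
  unfold Data.phi
  rw [phi_mk, ← mk_toBlk]
  have hch := toBlk_chain _ (nf_inv n (reduce L) hr hlen).1
  unfold Qg
  rw [toWord_mk, (reduced_blocks d.hc d.hH d.hH1 d.hH2 d.G_reduced d.G_head d.G_last _
    hch).reduce_eq]
  exact blocks_Q d.hfull d.G_length _ hch

theorem Data.chunks (d : Data k) (q : ℕ) (r : ℕ) (L : List (Option (Fin k) × Bool))
    (hL : L.length ≤ r * q) : Qg (d.phi (q + 1) (FreeGroup.mk L)) (r * d.D) := by
  induction r generalizing L with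
  | zero =>
    have : L = [] := by
      apply List.eq_nil_of_length_eq_zero
      simpa using hL
    subst this
    rw [← one_eq_mk, _root_.map_one]
    simpa using Qg_one
  | succ r ih =>
    have e : L = L.take q ++ L.drop q := (List.take_append_drop q L).symm
    rw [e, ← mul_mk, _root_.map_mul]
    have h1 := d.chunk (q + 1) (L.take q) (by
      have := List.length_take_le q L
      omega)
    have h2 := ih (L.drop q) (by
      rw [List.length_drop]
      have : (r + 1) * q = r * q + q := by ring
      omega)
    have := h1.mul h2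
    have e2 : (r + 1) * d.D = d.D + r * d.D := by ring
    rw [e2]
    exact this

end Pool.Agent.R839.Prim
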