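import Pool.Agent.R839.PrimA

/-! Powers of cyclically reduced primitive elements are never full. -/

namespace Pool.Agent.R839.Prim

open FreeGroup

section Tree

variable {α : Type} [DecidableEq α]

/-- The half-tree at `v` in direction `x`. -/
def HT (v : FreeGroup α) (x : α × Bool) : Set (FreeGroup α) :=
  {u | (v⁻¹ * u).toWord.head? = some x}

/-- The distance. -/
def vlen (v u : FreeGroup α) : ℕ := (v⁻¹ * u).toWord.length

theorem toWord_mk_of_reduced {L : List (α × Bool)} (h : FreeGroup.IsReduced L) :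
    (FreeGroup.mk L).toWord = L := by
  rw [toWord_mk, h.reduce_eq]

theorem cons_reduced {x : α × Bool} {L : List (α × Bool)} (hL : FreeGroup.IsReduced L)
    (hx : L.head? ≠ some (x.1, !x.2)) : FreeGroup.IsReduced (x :: L) := by
  unfold FreeGroup.IsReduced at hL ⊢
  rw [List.isChain_cons]
  refine ⟨?_, hL⟩
  intro y hy h1
  by_contra h2
  apply hx
  have hy' : L.head? = some y := hy
  rw [hy']
  obtain ⟨x1, x2⟩ := x
  obtain ⟨y1, y2⟩ := y
  simp only at h1 h2
  subst h1
  simp only [Option.some.injEq, Prod.mk.injEq, true_and]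
  cases x2 <;> cases y2 <;> simp_all

theorem head_ne_of_reduced {x : α × Bool} {L : List (α × Bool)}
    (h : FreeGroup.IsReduced (x :: L)) : L.head? ≠ some (x.1, !x.2) := by
  intro hy
  unfold FreeGroup.IsReduced at h
  rw [List.isChain_cons] at h
  have := h.1 _ hy rfl
  simp at this

theorem HT_cases {v u : FreeGroup α} {x : α × Bool} (hu : u ∈ HT v x) :
    u = v * FreeGroup.mk [x] ∨
      ∃ y : α × Bool, y ≠ (x.1, !x.2) ∧ u ∈ HT (v * FreeGroup.mk [x]) y := by
  have hu' : (v⁻¹ * u).toWord.head? = some x := hu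
  obtain ⟨t, ht⟩ : ∃ t, (v⁻¹ * u).toWord = x :: t := by
    cases h : (v⁻¹ * u).toWord with
    | nil => rw [h] at hu'; simp at hu'
    | cons y t =>
      rw [h] at hu'
      simp at hu'
      subst hu'
      exact ⟨t, rfl⟩
  have hred : FreeGroup.IsReduced (x :: t) := ht ▸ isReduced_toWord
  have hg : v⁻¹ * u = FreeGroup.mk [x] * FreeGroup.mk t := by
    rw [mul_mk, ← mk_toWord (x := v⁻¹ * u), ht]; rfl
  have hred' : FreeGroup.IsReduced t := redInf hred ⟨[x], [], by simp⟩
  have h2 : (v * FreeGroup.mk [x])⁻¹ * u = FreeGroup.mk t := by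
    rw [mul_inv_rev, mul_assoc, hg]; group
  cases t with
  | nil =>
    left
    have : u = v * (v⁻¹ * u) := by group
    rw [this, hg, ← one_eq_mk, mul_one]
  | cons y t' =>
    right
    refine ⟨y, ?_, ?_⟩
    · intro h
      apply head_ne_of_reduced hred
      rw [h]; rfl
    · show ((v * FreeGroup.mk [x])⁻¹ * u).toWord.head? = some y
      rw [h2, toWord_mk_of_reduced hred']
      rfl

theorem HT_sub {v u : FreeGroup α} {x y : α × Bool} (hy : y ≠ (x.1, !x.2))
    (hu : u ∈ HT (v * FreeGroup.mk [x]) y) :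
    u ∈ HT v x ∧ vlen (v * FreeGroup.mk [x]) u + 1 = vlen v u := by
  have hu' : ((v * FreeGroup.mk [x])⁻¹ * u).toWord.head? = some y := hu
  have hne : ((v * FreeGroup.mk [x])⁻¹ * u).toWord.head? ≠ some (x.1, !x.2) := by
    rw [hu']
    intro h
    exact hy (Option.some.inj h)
  have hred := cons_reduced (x := x) (isReduced_toWord
    (x := (v * FreeGroup.mk [x])⁻¹ * u)) hne
  have hg : v⁻¹ * u = FreeGroup.mk (x :: ((v * FreeGroup.mk [x])⁻¹ * u).toWord) := by
    have : FreeGroup.mk (x :: ((v * FreeGroup.mk [x])⁻¹ * u).toWord) =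
        FreeGroup.mk [x] * ((v * FreeGroup.mk [x])⁻¹ * u) := by
      conv_rhs => rw [← mk_toWord (x := (v * FreeGroup.mk [x])⁻¹ * u), mul_mk]
      rfl
    rw [this]
    group
  have hw : (v⁻¹ * u).toWord = x :: ((v * FreeGroup.mk [x])⁻¹ * u).toWord := by
    rw [hg]
    exact toWord_mk_of_reduced hred
  constructor
  · show (v⁻¹ * u).toWord.head? = some x
    rw [hw]; rfl
  · unfold vlen
    rw [hw, List.length_cons]

/-- The elements incident with the coboundary of `U`. -/
def bd (U : Set (FreeGroup α)) : Set (FreeGroup α) :=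
  {u | ∃ y : α × Bool, ¬ (u ∈ U ↔ u * FreeGroup.mk [y] ∈ U)}

theorem const_of_no_bd (U : Set (FreeGroup α)) (v : FreeGroup α) (x : α × Bool)
    (h : HT v x ∩ bd U = ∅) : ∀ u ∈ HT v x, (u ∈ U ↔ v * FreeGroup.mk [x] ∈ U) := by
  have key : ∀ t : List (α × Bool), FreeGroup.IsReduced (x :: t) →
      (v * FreeGroup.mk (x :: t) ∈ U ↔ v * FreeGroup.mk [x] ∈ U) := by
    intro t
    induction t using List.reverseRecOn with
    | nil => intro _; rfl
    | append_singleton t y ih =>
      intro hred
      have hred0 : FreeGroup.IsReduced (x :: t) := redInf hred ⟨[], [y], by simp⟩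
      rw [← ih hred0]
      have hmem : v * FreeGroup.mk (x :: t) ∈ HT v x := by
        show (v⁻¹ * (v * FreeGroup.mk (x :: t))).toWord.head? = some x
        rw [inv_mul_cancel_left, toWord_mk_of_reduced hred0]
        rfl
      have hnb : v * FreeGroup.mk (x :: t) ∉ bd U := by
        intro hb
        have : v * FreeGroup.mk (x :: t) ∈ HT v x ∩ bd U := ⟨hmem, hb⟩
        rw [h] at this
        exact this
      have h3 : (v * FreeGroup.mk (x :: t) ∈ U ↔
          v * FreeGroup.mk (x :: t) * FreeGroup.mk [y] ∈ U) := by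
        by_contra hcon
        exact hnb ⟨y, hcon⟩
      rw [h3, mul_assoc, mul_mk]
      simp
  intro u hu
  have hu' : (v⁻¹ * u).toWord.head? = some x := hu
  obtain ⟨t, ht⟩ : ∃ t, (v⁻¹ * u).toWord = x :: t := by
    cases h : (v⁻¹ * u).toWord with
    | nil => rw [h] at hu'; simp at hu'
    | cons y t =>
      rw [h] at hu'
      simp at hu'
      subst hu'
      exact ⟨t, rfl⟩
  have hred : FreeGroup.IsReduced (x :: t) := ht ▸ isReduced_toWord
  have : u = v * FreeGroup.mk (x :: t) := by
    rw [← ht, mk_toWord]; group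
  rw [this]
  exact key t hred

/-- A half-tree that contains infinitely many elements of `U` and of its complement. -/
def NP (U : Set (FreeGroup α)) (v : FreeGroup α) (x : α × Bool) : Prop :=
  (HT v x ∩ U).Infinite ∧ (HT v x ∩ Uᶜ).Infinite

theorem NP_bd {U : Set (FreeGroup α)} {v : FreeGroup α} {x : α × Bool} (h : NP U v x) :
    (HT v x ∩ bd U).Nonempty := by
  by_contra hcon
  rw [Set.not_nonempty_iff_eq_empty] at hcon
  have hc := const_of_no_bd U v x hcon
  by_cases hv : v * FreeGroup.mk [x] ∈ U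
  · apply h.2
    have : HT v x ∩ Uᶜ = ∅ := by
      ext u
      simp only [Set.mem_inter_iff, Set.mem_compl_iff, Set.mem_empty_iff_false, iff_false,
        not_and, not_not]
      intro hu
      exact (hc u hu).2 hv
    rw [this]
    exact Set.finite_empty
  · apply h.1
    have : HT v x ∩ U = ∅ := by
      ext u
      simp only [Set.mem_inter_iff, Set.mem_empty_iff_false, iff_false, not_and]
      intro hu hU
      exact hv ((hc u hu).1 hU)
    rw [this]
    exact Set.finite_empty

open Classical in
theorem descent [Fintype α] (U : Set (FreeGroup α)) (hE : (bd U).Finite) (n : ℕ) :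
    ∀ (v : FreeGroup α) (x : α × Bool), NP U v x →
    (∑ u ∈ hE.toFinset.filter (fun u => u ∈ HT v x), vlen v u) ≤ n →
    ∃ w : FreeGroup α, (∃ a, (HT w a ∩ Uᶜ).Finite) ∧ (∃ b, (HT w b ∩ U).Finite) := by
  induction n using Nat.strong_induction_on with
  | _ n ih =>
    intro v x hNP hle
    by_cases hall : ∃ y : α × Bool, y ≠ (x.1, !x.2) ∧ NP U (v * FreeGroup.mk [x]) y
    · obtain ⟨y, hy, hNPy⟩ := hall
      have hlt : (∑ u ∈ hE.toFinset.filter (fun u => u ∈ HT (v * FreeGroup.mk [x]) y),
          vlen (v * FreeGroup.mk [x]) u) <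
          ∑ u ∈ hE.toFinset.filter (fun u => u ∈ HT v x), vlen v u := by
        have hsub : hE.toFinset.filter (fun u => u ∈ HT (v * FreeGroup.mk [x]) y) ⊆
            hE.toFinset.filter (fun u => u ∈ HT v x) := by
          intro u hu
          rw [Finset.mem_filter] at hu ⊢
          exact ⟨hu.1, (HT_sub hy hu.2).1⟩
        have hne : (hE.toFinset.filter (fun u => u ∈ HT (v * FreeGroup.mk [x]) y)).Nonempty := by
          obtain ⟨u, hu1, hu2⟩ := NP_bd hNPy
          exact ⟨u, by rw [Finset.mem_filter]; exact ⟨by simpa using hu2, hu1⟩⟩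
        calc (∑ u ∈ hE.toFinset.filter (fun u => u ∈ HT (v * FreeGroup.mk [x]) y),
            vlen (v * FreeGroup.mk [x]) u) <
            ∑ u ∈ hE.toFinset.filter (fun u => u ∈ HT (v * FreeGroup.mk [x]) y), vlen v u := by
              apply Finset.sum_lt_sum_of_nonempty hne
              intro u hu
              rw [Finset.mem_filter] at hu
              have := (HT_sub hy hu.2).2
              omega
          _ ≤ _ := Finset.sum_le_sum_of_subset hsub
      exact ih _ (lt_of_lt_of_le hlt hle) _ _ hNPy le_rfl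
    · push Not at hall
      refine ⟨v * FreeGroup.mk [x], ?_, ?_⟩
      · by_contra hcon
        push Not at hcon
        apply hNP.1
        have hsub : HT v x ∩ U ⊆ {v * FreeGroup.mk [x]} ∪
            ⋃ y ∈ {y : α × Bool | y ≠ (x.1, !x.2)}, (HT (v * FreeGroup.mk [x]) y ∩ U) := by
          rintro u ⟨hu, hU⟩
          rcases HT_cases hu with h | ⟨y, hy, hy2⟩
          · left; exact h
          · right
            exact Set.mem_biUnion (show y ∈ {y : α × Bool | y ≠ (x.1, !x.2)} from hy) ⟨hy2, hU⟩
        refine Set.Finite.subset ?_ hsub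
        refine (Set.finite_singleton _).union (Set.Finite.biUnion (Set.toFinite _) ?_)
        intro y hy
        by_contra hinf
        exact hall y hy ⟨hinf, hcon y⟩
      · by_contra hcon
        push Not at hcon
        apply hNP.2
        have hsub : HT v x ∩ Uᶜ ⊆ {v * FreeGroup.mk [x]} ∪
            ⋃ y ∈ {y : α × Bool | y ≠ (x.1, !x.2)}, (HT (v * FreeGroup.mk [x]) y ∩ Uᶜ) := by
          rintro u ⟨hu, hU⟩
          rcases HT_cases hu with h | ⟨y, hy, hy2⟩
          · left; exact h
          · right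
            exact Set.mem_biUnion (show y ∈ {y : α × Bool | y ≠ (x.1, !x.2)} from hy) ⟨hy2, hU⟩
        refine Set.Finite.subset ?_ hsub
        refine (Set.finite_singleton _).union (Set.Finite.biUnion (Set.toFinite _) ?_)
        intro y hy
        by_contra hinf
        exact hall y hy ⟨hcon y, hinf⟩

theorem exists_vertex [Fintype α] (U : Set (FreeGroup α)) (hE : (bd U).Finite)
    (hU : U.Infinite) (hUc : Uᶜ.Infinite) :
    ∃ w : FreeGroup α, (∃ a, (HT w a ∩ Uᶜ).Finite) ∧ (∃ b, (HT w b ∩ U).Finite) := by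
  by_cases h : ∃ x, NP U 1 x
  · obtain ⟨x, hx⟩ := h
    exact descent U hE _ 1 x hx le_rfl
  · push Not at h
    have hcov : ∀ u : FreeGroup α, u = 1 ∨ ∃ y, u ∈ HT 1 y := by
      intro u
      cases hu : u.toWord with
      | nil => left; exact toWord_eq_nil_iff.1 hu
      | cons y t =>
        right
        refine ⟨y, ?_⟩
        show ((1 : FreeGroup α)⁻¹ * u).toWord.head? = some y
        rw [inv_one, one_mul, hu]; rfl
    refine ⟨1, ?_, ?_⟩
    · by_contra hcon
      push Not at hcon
      apply hU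
      have hsub : U ⊆ {1} ∪ ⋃ y : α × Bool, (HT 1 y ∩ U) := by
        intro u hu
        rcases hcov u with h | ⟨y, hy⟩
        · left; exact h
        · right; exact Set.mem_iUnion.2 ⟨y, hy, hu⟩
      refine Set.Finite.subset ?_ hsub
      refine (Set.finite_singleton _).union (Set.finite_iUnion ?_)
      intro y
      by_contra hinf
      exact h y ⟨hinf, hcon y⟩
    · by_contra hcon
      push Not at hcon
      apply hUc
      have hsub : Uᶜ ⊆ {1} ∪ ⋃ y : α × Bool, (HT 1 y ∩ Uᶜ) := by
        intro u hu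
        rcases hcov u with h | ⟨y, hy⟩
        · left; exact h
        · right; exact Set.mem_iUnion.2 ⟨y, hy, hu⟩
      refine Set.Finite.subset ?_ hsub
      refine (Set.finite_singleton _).union (Set.finite_iUnion ?_)
      intro y
      by_contra hinf
      exact h y ⟨hcon y, hinf⟩

theorem HT_infinite (w : FreeGroup α) (a : α × Bool) : (HT w a).Infinite := by
  have hred : ∀ n : ℕ, FreeGroup.IsReduced (List.replicate n a) := by
    intro n
    rw [isReduced_iff_reduce_eq, reduce_replicate]
  apply Set.infinite_of_injective_forall_mem (f := fun n : ℕ =>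
    w * FreeGroup.mk (List.replicate (n + 1) a))
  · intro n m hnm
    have h1 : FreeGroup.mk (List.replicate (n + 1) a) = FreeGroup.mk (List.replicate (m + 1) a) :=
      mul_left_cancel hnm
    have h2 := congrArg (fun g => (FreeGroup.toWord g).length) h1
    simp only [toWord_mk_of_reduced (hred _), List.length_replicate] at h2
    omega
  · intro n
    show (w⁻¹ * (w * FreeGroup.mk (List.replicate (n + 1) a))).toWord.head? = some a
    rw [inv_mul_cancel_left, toWord_mk_of_reduced (hred _)]
    rfl

theorem pow_mk_flatten (g : FreeGroup α) (j : ℕ) :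
    g ^ j = FreeGroup.mk (List.replicate j g.toWord).flatten := by
  conv_lhs => rw [← mk_toWord (x := g)]
  rw [pow_mk]

theorem not_full_pow [Fintype α] [Nonempty α] (g : FreeGroup α) (U : Set (FreeGroup α))
    (hE : (bd U).Finite)
    (hU : U.Infinite) (hUc : Uᶜ.Infinite)
    (hside : ∀ p, ∃ σ : Prop, ∃ J : ℕ, ∀ j ≥ J, (p * g ^ j ∈ U ↔ σ) ∧ (p * (g ^ j)⁻¹ ∈ U ↔ σ))
    (hcyc : IsCyclicallyReduced g.toWord) (m : ℕ) :
    ¬ Full (List.replicate m g.toWord).flatten := by
  intro hfull
  obtain ⟨w, ⟨a, ha⟩, ⟨b, hb⟩⟩ := exists_vertex U hE hU hUc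
  have hab : a ≠ b := by
    rintro rfl
    apply HT_infinite w a
    have : HT w a ⊆ (HT w a ∩ Uᶜ) ∪ (HT w a ∩ U) := by
      intro u hu
      by_cases h : u ∈ U
      · right; exact ⟨hu, h⟩
      · left; exact ⟨hu, h⟩
    exact (ha.union hb).subset this
  obtain ⟨P, Q', hPQ⟩ := hfull (b.1, !b.2) a (by
    intro h
    apply hab
    rw [h]
    simp)
  have hlen : 0 < g.toWord.length := by
    rcases Nat.eq_zero_or_pos g.toWord.length with h | h
    · have : g.toWord = [] := List.eq_nil_of_length_eq_zero h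
      rw [this] at hPQ
      have := congrArg List.length hPQ
      simp at this
    · exact h
  have hflat : ∀ j, FreeGroup.IsReduced (List.replicate j g.toWord).flatten := fun j =>
    (hcyc.flatten_replicate j).isReduced
  have hinj : ∀ i j : ℕ, g ^ i = g ^ j → i = j := by
    intro i j hij
    have h2 := congrArg (fun g => (FreeGroup.toWord g).length) hij
    simp only [pow_mk_flatten g, toWord_mk_of_reduced (hflat _)] at h2
    simp at h2
    rcases h2 with h2 | h2
    · exact h2
    · rw [h2] at hlen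
      simp at hlen
  set r : FreeGroup α := FreeGroup.mk (P ++ [(b.1, !b.2)]) with hr
  have hi : ∀ j, (w * r⁻¹) * g ^ (m + j) ∈ HT w a := by
    intro j
    have e1 : (List.replicate (m + j) g.toWord).flatten =
        P ++ [(b.1, !b.2)] ++ (a :: (Q' ++ (List.replicate j g.toWord).flatten)) := by
      rw [List.replicate_add, List.flatten_append, ← hPQ]
      simp
    have e2 : g ^ (m + j) = r * FreeGroup.mk (a :: (Q' ++ (List.replicate j g.toWord).flatten)) := by
      rw [pow_mk_flatten, e1, hr, mul_mk]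
    have hred : FreeGroup.IsReduced (a :: (Q' ++ (List.replicate j g.toWord).flatten)) := by
      have := hflat (m + j)
      rw [e1] at this
      exact redInf this ⟨P ++ [(b.1, !b.2)], [], by simp⟩
    show (w⁻¹ * ((w * r⁻¹) * g ^ (m + j))).toWord.head? = some a
    have e3 : w⁻¹ * ((w * r⁻¹) * g ^ (m + j)) =
        FreeGroup.mk (a :: (Q' ++ (List.replicate j g.toWord).flatten)) := by
      rw [e2]; group
    rw [e3, toWord_mk_of_reduced hred]
    rfl
  have hii : ∀ j, (w * r⁻¹) * (g ^ j)⁻¹ ∈ HT w b := by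
    intro j
    have hred : FreeGroup.IsReduced ((List.replicate j g.toWord).flatten ++ (P ++ [(b.1, !b.2)])) := by
      have := hflat (j + m)
      rw [List.replicate_add, List.flatten_append, ← hPQ] at this
      exact redInf this ⟨[], [a] ++ Q', by simp⟩
    show (w⁻¹ * ((w * r⁻¹) * (g ^ j)⁻¹)).toWord.head? = some b
    have e3 : w⁻¹ * ((w * r⁻¹) * (g ^ j)⁻¹) =
        (FreeGroup.mk ((List.replicate j g.toWord).flatten ++ (P ++ [(b.1, !b.2)])))⁻¹ := by
      rw [← mul_mk, ← hr, ← pow_mk_flatten]; group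
    rw [e3, toWord_inv, toWord_mk_of_reduced hred]
    simp [invRev]
  obtain ⟨σ, J, hJ⟩ := hside (w * r⁻¹)
  by_cases hσ : σ
  · refine Set.infinite_of_injective_forall_mem (f := fun n : ℕ =>
      (w * r⁻¹) * (g ^ (J + n))⁻¹) ?_ ?_ hb
    · intro i j hij
      have := hinj _ _ (inv_injective (mul_left_cancel hij))
      omega
    · intro n
      exact ⟨hii _, (hJ (J + n) (by omega)).2.2 hσ⟩
  · refine Set.infinite_of_injective_forall_mem (f := fun n : ℕ =>
      (w * r⁻¹) * (g ^ (m + (J + n)))) ?_ ?_ ha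
    · intro i j hij
      have := hinj _ _ (mul_left_cancel hij)
      omega
    · intro n
      refine ⟨hi _, ?_⟩
      intro hmem
      exact hσ ((hJ (m + (J + n)) (by omega)).1.1 hmem)

end Tree

section Basis

variable {ι : Type} [DecidableEq ι]

/-- The elements whose reduced word starts with the letter `i`. -/
def UU (i : ι) : Set (FreeGroup ι) := {P | P.toWord.head? = some (i, true)}

theorem UU_bd_one (i : ι) (y : ι × Bool) :
    {P : FreeGroup ι | ¬ (P ∈ UU i ↔ P * FreeGroup.mk [y] ∈ UU i)}.Finite := by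
  apply Set.Finite.subset (Set.toFinite {1, FreeGroup.mk [(y.1, !y.2)]})
  intro P hP
  by_contra hcon
  simp only [Set.mem_insert_iff, Set.mem_singleton_iff, not_or] at hcon
  apply hP
  have hne : P.toWord ≠ [] := fun h => hcon.1 (toWord_eq_nil_iff.1 h)
  obtain ⟨t, z, htz⟩ : ∃ t z, P.toWord = t ++ [z] :=
    ⟨_, _, (List.dropLast_append_getLast hne).symm⟩
  have hred : FreeGroup.IsReduced (t ++ [z]) := htz ▸ isReduced_toWord
  have hP' : P = FreeGroup.mk (t ++ [z]) := by rw [← htz, mk_toWord]
  by_cases hz : z = (y.1, !y.2)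
  · have ht : t ≠ [] := by
      rintro rfl
      apply hcon.2
      rw [hP', hz]; rfl
    have e : P * FreeGroup.mk [y] = FreeGroup.mk t := by
      rw [hP', hz, mul_mk]
      apply Quot.sound
      have := @Red.Step.not_rev ι t [] y.1 y.2
      simpa using this
    show P.toWord.head? = some (i, true) ↔ (P * FreeGroup.mk [y]).toWord.head? = some (i, true)
    rw [e, toWord_mk_of_reduced (redInf hred ⟨[], [z], by simp⟩), htz, List.head?_append]
    cases t with
    | nil => exact absurd rfl ht
    | cons c t => simp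
  · have hred2 : FreeGroup.IsReduced (t ++ [z] ++ [y]) := by
      unfold FreeGroup.IsReduced at hred ⊢
      rw [List.isChain_append]
      refine ⟨hred, List.isChain_singleton _, ?_⟩
      intro u hu v hv huv
      simp at hu hv
      subst hu hv
      by_contra h2
      apply hz
      obtain ⟨z1, z2⟩ := z
      obtain ⟨y1, y2⟩ := y
      simp only at huv h2 ⊢
      subst huv
      congr 1
      cases z2 <;> cases y2 <;> simp_all
    have e : P * FreeGroup.mk [y] = FreeGroup.mk (t ++ [z] ++ [y]) := by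
      rw [hP', mul_mk]
    show P.toWord.head? = some (i, true) ↔ (P * FreeGroup.mk [y]).toWord.head? = some (i, true)
    rw [e, toWord_mk_of_reduced hred2, htz, List.head?_append (l := t ++ [z])]
    cases t with
    | nil => simp
    | cons c t => simp

theorem UU_bd (i : ι) (x : FreeGroup ι) :
    {P : FreeGroup ι | ¬ (P ∈ UU i ↔ P * x ∈ UU i)}.Finite := by
  rw [← mk_toWord (x := x)]
  induction x.toWord with
  | nil =>
    have : {P : FreeGroup ι | ¬ (P ∈ UU i ↔ P * FreeGroup.mk [] ∈ UU i)} = ∅ := by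
      ext P
      simp [← one_eq_mk]
    rw [this]
    exact Set.finite_empty
  | cons y L ih =>
    have hsub : {P : FreeGroup ι | ¬ (P ∈ UU i ↔ P * FreeGroup.mk (y :: L) ∈ UU i)} ⊆
        {P : FreeGroup ι | ¬ (P ∈ UU i ↔ P * FreeGroup.mk [y] ∈ UU i)} ∪
        (fun P => P * FreeGroup.mk [y]) ⁻¹'
          {P : FreeGroup ι | ¬ (P ∈ UU i ↔ P * FreeGroup.mk L ∈ UU i)} := by
      intro P hP
      by_contra hcon
      simp only [Set.mem_union, not_or] at hcon
      have h1 : P ∈ UU i ↔ P * FreeGroup.mk [y] ∈ UU i := by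
        by_contra h; exact hcon.1 h
      have h2 : P * FreeGroup.mk [y] ∈ UU i ↔ P * FreeGroup.mk [y] * FreeGroup.mk L ∈ UU i := by
        by_contra h; exact hcon.2 h
      apply hP
      rw [h1, h2, mul_assoc, mul_mk]
      rfl
    refine Set.Finite.subset ((UU_bd_one i y).union ?_) hsub
    exact ih.preimage (Set.injOn_of_injective (mul_left_injective _))

theorem UU_infinite (i : ι) : (UU i).Infinite := by
  apply Set.infinite_of_injective_forall_mem (f := fun n : ℕ => (FreeGroup.of i) ^ (n + 1))
  · intro n m hnm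
    have h2 := congrArg (fun g => (FreeGroup.toWord g).length) hnm
    simp only [toWord_of_pow, List.length_replicate] at h2
    omega
  · intro n
    show (FreeGroup.toWord ((FreeGroup.of i) ^ (n + 1))).head? = _
    rw [toWord_of_pow]
    rfl

theorem UU_compl_infinite (i i' : ι) (h : i' ≠ i) : (UU i)ᶜ.Infinite := by
  apply Set.infinite_of_injective_forall_mem (f := fun n : ℕ => (FreeGroup.of i') ^ (n + 1))
  · intro n m hnm
    have h2 := congrArg (fun g => (FreeGroup.toWord g).length) hnm
    simp only [toWord_of_pow, List.length_replicate] at h2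
    omega
  · intro n hn
    have hn' : (FreeGroup.toWord ((FreeGroup.of i') ^ (n + 1))).head? = some (i, true) := hn
    rw [toWord_of_pow] at hn'
    simp [List.replicate_succ] at hn'
    exact h hn'

theorem decomp (i : ι) (P : FreeGroup ι) : ∃ (c : ℤ) (P0 : FreeGroup ι),
    P = P0 * (FreeGroup.of i) ^ c ∧ ∀ z ∈ P0.toWord.getLast?, z.1 ≠ i := by
  have key : ∀ L : List (ι × Bool), FreeGroup.IsReduced L → ∃ (c : ℤ) (P0 : FreeGroup ι),
    FreeGroup.mk L = P0 * (FreeGroup.of i) ^ c ∧ ∀ z ∈ P0.toWord.getLast?, z.1 ≠ i := by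
    intro L
    induction L using List.reverseRecOn with
    | nil =>
      intro _
      exact ⟨0, 1, by simp [← one_eq_mk], by simp⟩
    | append_singleton t z ih =>
      intro hred
      by_cases hz : z.1 = i
      · obtain ⟨c, P0, h1, h2⟩ := ih (redInf hred ⟨[], [z], by simp⟩)
        obtain ⟨z1, z2⟩ := z
        simp only at hz
        subst hz
        cases z2
        · refine ⟨c - 1, P0, ?_, h2⟩
          rw [← mul_mk, h1, zpow_sub_one, mul_assoc]
          rfl
        · refine ⟨c + 1, P0, ?_, h2⟩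
          rw [← mul_mk, h1, zpow_add_one, mul_assoc]
          rfl
      · refine ⟨0, FreeGroup.mk (t ++ [z]), by simp, ?_⟩
        intro y hy
        rw [toWord_mk_of_reduced hred] at hy
        simp at hy
        subst hy
        exact hz
  obtain ⟨c, P0, h1, h2⟩ := key P.toWord isReduced_toWord
  exact ⟨c, P0, by rw [← h1, mk_toWord], h2⟩

theorem UU_mul_pow (i i' : ι) (h : i' ≠ i) (P0 : FreeGroup ι)
    (hP : ∀ z ∈ P0.toWord.getLast?, z.1 ≠ i') (e : ℤ) (he : e ≠ 0) :
    P0 * (FreeGroup.of i') ^ e ∈ UU i ↔ P0 ∈ UU i := by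
  obtain ⟨n, b, hnb⟩ : ∃ (n : ℕ) (b : Bool),
      (FreeGroup.of i') ^ e = FreeGroup.mk (List.replicate (n + 1) (i', b)) := by
    rcases lt_or_gt_of_ne he with hneg | hpos
    · refine ⟨(-e).toNat - 1, false, ?_⟩
      have h1 : e = -(((-e).toNat - 1 + 1 : ℕ) : ℤ) := by omega
      have h2 : FreeGroup.mk (List.replicate ((-e).toNat - 1 + 1) (i', false)) =
          (FreeGroup.mk (List.replicate ((-e).toNat - 1 + 1) (i', true)))⁻¹ := by
        rw [inv_mk]
        congr 1
        simp [invRev]
      rw [h2, ← toWord_of_pow, mk_toWord]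
      conv_lhs => rw [h1]
      rw [zpow_neg, zpow_natCast]
    · refine ⟨e.toNat - 1, true, ?_⟩
      have h1 : e = ((e.toNat - 1 + 1 : ℕ) : ℤ) := by omega
      rw [← toWord_of_pow, mk_toWord]
      conv_lhs => rw [h1]
      rw [zpow_natCast]
  rw [hnb]
  have hred : FreeGroup.IsReduced (P0.toWord ++ List.replicate (n + 1) (i', b)) := by
    have h1 : FreeGroup.IsReduced P0.toWord := isReduced_toWord
    unfold FreeGroup.IsReduced at h1 ⊢
    rw [List.isChain_append]
    refine ⟨h1, ?_, ?_⟩
    · exact List.isChain_replicate_of_rel _ (fun _ => rfl)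
    · intro x hx y hy hxy
      have : y = (i', b) := List.eq_of_mem_replicate (List.mem_of_head? hy)
      subst this
      exact absurd hxy (hP x hx)
  have e1 : P0 * FreeGroup.mk (List.replicate (n + 1) (i', b)) =
      FreeGroup.mk (P0.toWord ++ List.replicate (n + 1) (i', b)) := by
    rw [← mul_mk, mk_toWord]
  show (P0 * FreeGroup.mk (List.replicate (n + 1) (i', b))).toWord.head? = some (i, true) ↔
    P0.toWord.head? = some (i, true)
  rw [e1, toWord_mk_of_reduced hred, List.head?_append]
  cases hw : P0.toWord with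
  | nil =>
    simp [List.replicate_succ]
    intro h'
    exact absurd h' h
  | cons c t => simp

theorem UU_side (i i' : ι) (h : i' ≠ i) (P : FreeGroup ι) : ∃ σ : Prop, ∃ J : ℕ, ∀ j ≥ J,
    (P * (FreeGroup.of i') ^ j ∈ UU i ↔ σ) ∧ (P * ((FreeGroup.of i') ^ j)⁻¹ ∈ UU i ↔ σ) := by
  obtain ⟨c, P0, h1, h2⟩ := decomp i' P
  refine ⟨P0 ∈ UU i, c.natAbs + 1, ?_⟩
  intro j hj
  constructor
  · rw [h1, mul_assoc, ← zpow_natCast, ← zpow_add]
    exact UU_mul_pow i i' h P0 h2 _ (by omega)
  · rw [h1, mul_assoc, ← zpow_natCast, ← zpow_neg, ← zpow_add]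
    exact UU_mul_pow i i' h P0 h2 _ (by omega)

end Basis

/-- An element of a free group is primitive if it belongs to a basis. -/
def IsPrimitive {k : ℕ} (g : FreeGroup (Fin k)) : Prop :=
  ∃ (ι : Type) (b : FreeGroupBasis ι (FreeGroup (Fin k))), g ∈ Set.range b

theorem not_full_primitive {k : ℕ} (hk : 2 ≤ k) {g : FreeGroup (Fin k)} (hg : IsPrimitive g)
    (hcyc : IsCyclicallyReduced g.toWord) (m : ℕ) :
    ¬ Full (List.replicate m g.toWord).flatten := by
  classical
  obtain ⟨ι, b, i', rfl⟩ := hg
  have hex : ∃ i, i' ≠ i := by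
    by_contra hcon
    push Not at hcon
    letI : Unique ι := ⟨⟨i'⟩, fun i => (hcon i).symm⟩
    have hcomm : ∀ x y : FreeGroup ι, x * y = y * x := by
      intro x y
      apply (FreeGroup.mulEquivIntOfUnique (α := ι)).injective
      rw [_root_.map_mul, _root_.map_mul, mul_comm]
    let c0 : Fin k := ⟨0, by omega⟩
    let c1 : Fin k := ⟨1, by omega⟩
    have h1 : FreeGroup.of c0 * FreeGroup.of c1 = FreeGroup.of c1 * FreeGroup.of c0 := by
      apply b.repr.injective
      rw [_root_.map_mul, _root_.map_mul]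
      exact hcomm _ _
    have h2 := congrArg FreeGroup.toWord h1
    simp [toWord_mul, c0, c1] at h2
  obtain ⟨i, hi⟩ := hex
  haveI : Nonempty (Fin k) := ⟨⟨0, by omega⟩⟩
  have hmem : ∀ u : FreeGroup (Fin k), u ∈ (b.repr ⁻¹' (UU i)) ↔ b.repr u ∈ UU i :=
    fun u => Iff.rfl
  refine not_full_pow (b i') (b.repr ⁻¹' (UU i)) ?_ ?_ ?_ ?_ hcyc m
  · have hsub : bd (b.repr ⁻¹' (UU i)) ⊆
        ⋃ y : Fin k × Bool, b.repr ⁻¹' {P | ¬ (P ∈ UU i ↔ P * b.repr (FreeGroup.mk [y]) ∈ UU i)} := by
      rintro u ⟨y, hy⟩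
      refine Set.mem_iUnion.2 ⟨y, ?_⟩
      intro h
      apply hy
      rw [hmem, hmem, _root_.map_mul]
      exact h
    refine Set.Finite.subset (Set.finite_iUnion ?_) hsub
    intro y
    exact (UU_bd i _).preimage (Set.injOn_of_injective b.repr.injective)
  · exact (UU_infinite i).preimage (by
      rw [b.repr.surjective.range_eq]; exact Set.subset_univ _)
  · rw [← Set.preimage_compl]
    exact (UU_compl_infinite i i' hi).preimage (by
      rw [b.repr.surjective.range_eq]; exact Set.subset_univ _)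
  · intro p
    obtain ⟨σ, J, hJ⟩ := UU_side i i' hi (b.repr p)
    refine ⟨σ, J, ?_⟩
    intro j hj
    rw [hmem, hmem, _root_.map_mul, _root_.map_mul, _root_.map_inv, _root_.map_pow,
      FreeGroupBasis.repr_apply_coe]
    exact hJ j hj

end Pool.Agent.R839.Prim
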