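import Pool.Agent.R839.QuatODE

/-!
# The companion matrix and semisimplicity
-/

namespace Pool.Agent.R839.Quat

open Quaternion Matrix

section ops

variable {ι : Type*} [Fintype ι] [DecidableEq ι]

/-- Left multiplication by a matrix as a real linear operator. -/
noncomputable def toE : Matrix ι ι ℍ[ℝ] →+* Module.End ℝ (ι → ℍ[ℝ]) where
  toFun M :=
    { toFun := fun x => M *ᵥ x
      map_add' := fun x y => Matrix.mulVec_add M x y
      map_smul' := fun c x => by
        funext i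
        simp only [Matrix.mulVec, dotProduct, Pi.smul_apply, RingHom.id_apply, Finset.smul_sum,
          mul_smul_comm] }
  map_one' := LinearMap.ext fun x => Matrix.one_mulVec x
  map_mul' M N := LinearMap.ext fun x => (Matrix.mulVec_mulVec x M N).symm
  map_zero' := LinearMap.ext fun x => Matrix.zero_mulVec x
  map_add' M N := LinearMap.ext fun x => Matrix.add_mulVec M N x

theorem toE_apply (M : Matrix ι ι ℍ[ℝ]) (x : ι → ℍ[ℝ]) : toE M x = M *ᵥ x := rfl

theorem toE_smul (c : ℝ) (M : Matrix ι ι ℍ[ℝ]) : toE (c • M) = c • toE M := by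
  apply LinearMap.ext
  intro x
  rw [LinearMap.smul_apply, toE_apply, toE_apply, Matrix.smul_mulVec]

/-- Right multiplication by a quaternion. -/
noncomputable def Rr (μ : ℍ[ℝ]) : Module.End ℝ (ι → ℍ[ℝ]) where
  toFun x := fun i => x i * μ
  map_add' x y := by funext i; simp [add_mul]
  map_smul' c x := by funext i; simp

theorem Rr_apply (μ : ℍ[ℝ]) (x : ι → ℍ[ℝ]) (i : ι) : Rr μ x i = x i * μ := rfl

theorem toE_Rr (M : Matrix ι ι ℍ[ℝ]) (μ : ℍ[ℝ]) : toE M * Rr μ = Rr μ * toE M := by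
  apply LinearMap.ext
  intro x
  funext i
  simp only [Module.End.mul_apply, toE_apply, Rr_apply, Matrix.mulVec, dotProduct,
    Finset.sum_mul, mul_assoc]

theorem Rr_mul (μ ν : ℍ[ℝ]) : (Rr μ * Rr ν : Module.End ℝ (ι → ℍ[ℝ])) = Rr (ν * μ) := by
  apply LinearMap.ext
  intro x
  funext i
  simp only [Module.End.mul_apply, Rr_apply, mul_assoc]

theorem Rr_add (μ ν : ℍ[ℝ]) : (Rr (μ + ν) : Module.End ℝ (ι → ℍ[ℝ])) = Rr μ + Rr ν := by
  apply LinearMap.ext
  intro x
  funext i
  simp only [LinearMap.add_apply, Pi.add_apply, Rr_apply, mul_add]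

theorem Rr_real (r : ℝ) : (Rr (r : ℍ[ℝ]) : Module.End ℝ (ι → ℍ[ℝ])) = r • 1 := by
  apply LinearMap.ext
  intro x
  funext i
  simp only [LinearMap.smul_apply, Pi.smul_apply, Rr_apply, Module.End.one_apply,
    Quaternion.mul_coe_eq_smul]

end ops

section abs

variable {V : Type*} [AddCommGroup V] [Module ℝ V]

theorem pow_ker (P : Module.End ℝ V) (m : ℕ) {x : V} (hx : (P ^ m) x = 0) (hx0 : x ≠ 0) :
    ∃ y, y ≠ 0 ∧ P y = 0 := by
  induction m with
  | zero => exact absurd hx hx0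
  | succ m ih =>
    by_cases h : (P ^ m) x = 0
    · exact ih h
    · exact ⟨_, h, by rw [← Module.End.mul_apply, ← pow_succ']; exact hx⟩

theorem pow_ker2 (P : Module.End ℝ V) (hP : ∀ y, P (P y) = 0 → P y = 0) (m : ℕ) {x : V}
    (hx : (P ^ m) x = 0) : P x = 0 := by
  induction m generalizing x with
  | zero =>
    have : x = 0 := hx
    rw [this, map_zero]
  | succ m ih =>
    rw [pow_succ, Module.End.mul_apply] at hx
    exact hP x (ih hx)

/-- The two semisimplicity arguments. -/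
theorem semisimple_nonreal (C L : Module.End ℝ V) (hCL : C * L = L * C) {c : ℝ} (hc : c ≠ 0)
    (hL : L * L = -(c ^ 2) • 1)
    (h1 : ∀ y, (C - L) ((C - L) y) = 0 → (C - L) y = 0)
    (h2 : ∀ y, (C + L) ((C + L) y) = 0 → (C + L) y = 0)
    {x : V} (hx : (C * C + (c ^ 2) • (1 : Module.End ℝ V))
      ((C * C + (c ^ 2) • (1 : Module.End ℝ V)) x) = 0) :
    (C * C + (c ^ 2) • (1 : Module.End ℝ V)) x = 0 := by
  set P := C * C + (c ^ 2) • (1 : Module.End ℝ V) with hP
  have e1 : P = (C - L) * (C + L) := by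
    rw [sub_mul, mul_add, mul_add, hL, hCL, hP, neg_smul]; abel
  have e2 : P = (C + L) * (C - L) := by
    rw [add_mul, mul_sub, mul_sub, hL, hCL, hP, neg_smul]; abel
  have hcomm : (C - L) * (C + L) = (C + L) * (C - L) := by rw [← e1, ← e2]
  have a1 : (C - L) ((C - L) ((C + L) ((C + L) x))) = 0 := by
    have : (C - L) * ((C - L) * ((C + L) * (C + L))) = P * P := by
      rw [← mul_assoc (C - L) (C + L), hcomm, mul_assoc (C + L), ← mul_assoc (C - L) (C + L), ← e1]
    have h3 := congrArg (fun T : Module.End ℝ V => T x) this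
    simp only [Module.End.mul_apply] at h3
    rw [h3]; exact hx
  have a2 : (C + L) ((C + L) ((C - L) ((C - L) x))) = 0 := by
    have : (C + L) * ((C + L) * ((C - L) * (C - L))) = P * P := by
      rw [← mul_assoc (C + L) (C - L), ← hcomm, mul_assoc (C - L), ← mul_assoc (C + L) (C - L), ← e2]
    have h3 := congrArg (fun T : Module.End ℝ V => T x) this
    simp only [Module.End.mul_apply] at h3
    rw [h3]; exact hx
  have b1 := h1 _ a1
  have b2 := h2 _ a2
  have e3 : (C - L) * ((C + L) * (C + L)) - (C + L) * ((C - L) * (C - L)) = P * (L + L) := by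
    rw [← mul_assoc, ← mul_assoc, ← e1, ← e2, ← mul_sub]
    congr 1; abel
  have h4 : (P * (L + L)) x = 0 := by
    rw [← e3, LinearMap.sub_apply]
    simp only [Module.End.mul_apply]
    rw [b1, b2, sub_zero]
  have hPL : P * (L + L) = (2 : ℝ) • (L * P) := by
    rw [hP, mul_add, add_mul, mul_add, mul_assoc, hCL, ← mul_assoc C L, hCL, mul_assoc L C C,
      smul_mul_assoc, one_mul, mul_smul_comm, mul_one, two_smul]
  rw [hPL, LinearMap.smul_apply] at h4
  have h5 := (smul_eq_zero.mp h4).resolve_left two_ne_zero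
  rw [Module.End.mul_apply] at h5
  have h6 : (L * L) (P x) = 0 := by rw [Module.End.mul_apply, h5, map_zero]
  rw [hL, LinearMap.smul_apply, Module.End.one_apply] at h6
  exact (smul_eq_zero.mp h6).resolve_left (neg_ne_zero.mpr (pow_ne_zero 2 hc))

end abs

section comp

variable {n l : ℕ} {A : ℕ → Matrix (Fin n) (Fin n) ℍ[ℝ]}

/-- The blocks of a vector. -/
noncomputable def bl (x : Fin l × Fin n → ℍ[ℝ]) (k : ℕ) : Fin n → ℍ[ℝ] :=
  if hk : k < l then fun a => x (⟨k, hk⟩, a) else 0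

theorem bl_of_lt (x : Fin l × Fin n → ℍ[ℝ]) {k : ℕ} (hk : k < l) (a : Fin n) :
    bl x k a = x (⟨k, hk⟩, a) := by
  simp [bl, hk]

theorem spec1 (x : Fin l × Fin n → ℍ[ℝ]) {k : ℕ} (hk : k + 1 < l) :
    bl (companion l A *ᵥ x) k = bl x (k + 1) := by
  funext a
  rw [bl_of_lt _ (by omega : k < l), bl_of_lt _ hk, Matrix.mulVec, dotProduct,
    Finset.sum_eq_single ((⟨k + 1, hk⟩ : Fin l), a)]
  · simp [companion, hk]
  · rintro ⟨j, c⟩ _ hne
    have : ¬ ((j : ℕ) = k + 1 ∧ c = a) := by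
      rintro ⟨h1, h2⟩
      exact hne (Prod.ext (Fin.ext h1) h2)
    simp [companion, hk, this]
  · intro h; exact absurd (Finset.mem_univ _) h

theorem spec2 (hA : IsUnit (A l)) (hl : 1 ≤ l) (x : Fin l × Fin n → ℍ[ℝ]) :
    A l *ᵥ bl (companion l A *ᵥ x) (l - 1) = -∑ k ∈ Finset.range l, A k *ᵥ bl x k := by
  have h1 : bl (companion l A *ᵥ x) (l - 1) =
      -∑ k ∈ Finset.range l, (Ring.inverse (A l) * A k) *ᵥ bl x k := by
    funext a
    rw [bl_of_lt _ (by omega : l - 1 < l), Matrix.mulVec, dotProduct, Fintype.sum_prod_type]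
    rw [Finset.sum_range, Pi.neg_apply, Finset.sum_apply, ← Finset.sum_neg_distrib]
    refine Finset.sum_congr rfl fun k _ => ?_
    rw [Matrix.mulVec, dotProduct, ← Finset.sum_neg_distrib]
    refine Finset.sum_congr rfl fun c _ => ?_
    rw [bl_of_lt _ k.isLt, companion, Matrix.of_apply, if_neg (by simp; omega), neg_mul]
  rw [h1, Matrix.mulVec_neg, Matrix.mulVec_sum]
  congr 1
  refine Finset.sum_congr rfl fun k _ => ?_
  rw [Matrix.mulVec_mulVec, ← mul_assoc, Ring.mul_inverse_cancel _ hA, one_mul]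

theorem mulVec_mul_right (M : Matrix (Fin n) (Fin n) ℍ[ℝ]) (x : Fin n → ℍ[ℝ]) (μ : ℍ[ℝ]) :
    M *ᵥ (fun i => x i * μ) = fun i => (M *ᵥ x) i * μ := by
  funext i
  simp only [Matrix.mulVec, dotProduct, Finset.sum_mul, mul_assoc]

/-- The structure of generalized eigenvectors of the companion matrix. -/
theorem gen_struct (hA : IsUnit (A l)) (hl : 1 ≤ l) (μ : ℍ[ℝ]) (y z : Fin l × Fin n → ℍ[ℝ])
    (hz : companion l A *ᵥ z = fun p => z p * μ)
    (hy : companion l A *ᵥ y = fun p => y p * μ + z p) :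
    (∀ k < l, bl z k = fun i => bl z 0 i * μ ^ k) ∧
    (∀ k < l, bl y k = fun i => bl y 0 i * μ ^ k + (k : ℝ) • (bl z 0 i * μ ^ (k - 1))) ∧
    (∑ k ∈ Finset.range (l + 1), A k *ᵥ (fun i => bl z 0 i * μ ^ k) = 0) ∧
    (∑ k ∈ Finset.range (l + 1),
      A k *ᵥ (fun i => bl y 0 i * μ ^ k + (k : ℝ) • (bl z 0 i * μ ^ (k - 1))) = 0) := by
  have hz' : ∀ k < l, bl (companion l A *ᵥ z) k = fun i => bl z k i * μ := by
    intro k hk
    funext i
    rw [hz, bl_of_lt _ hk, bl_of_lt _ hk]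
  have hy' : ∀ k < l, bl (companion l A *ᵥ y) k = fun i => bl y k i * μ + bl z k i := by
    intro k hk
    funext i
    rw [hy, bl_of_lt _ hk, bl_of_lt _ hk, bl_of_lt _ hk]
  have a1 : ∀ k < l, bl z k = fun i => bl z 0 i * μ ^ k := by
    intro k
    induction k with
    | zero => intro _; funext i; simp
    | succ k ih =>
      intro hk
      rw [← spec1 (A := A) z hk, hz' k (by omega), ih (by omega)]
      funext i
      rw [mul_assoc, ← pow_succ]
  have a2 : ∀ k < l, bl y k =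
      fun i => bl y 0 i * μ ^ k + (k : ℝ) • (bl z 0 i * μ ^ (k - 1)) := by
    intro k
    induction k with
    | zero => intro _; funext i; simp
    | succ k ih =>
      intro hk
      rw [← spec1 (A := A) y hk, hy' k (by omega), ih (by omega), a1 k (by omega)]
      funext i
      rw [add_mul, mul_assoc, ← pow_succ, smul_mul_assoc, mul_assoc, Nat.add_sub_cancel]
      have e : (k : ℝ) • (bl z 0 i * (μ ^ (k - 1) * μ)) = (k : ℝ) • (bl z 0 i * μ ^ k) := by
        rcases Nat.eq_zero_or_pos k with rfl | hk'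
        · simp
        · rw [← pow_succ, Nat.sub_add_cancel hk']
      rw [e, Nat.cast_add, Nat.cast_one, add_smul, one_smul, add_assoc]
  refine ⟨a1, a2, ?_, ?_⟩
  · rw [Finset.sum_range_succ]
    have h1 := spec2 hA hl z
    rw [hz' (l - 1) (by omega), a1 (l - 1) (by omega)] at h1
    have h2 : (fun i => bl z 0 i * μ ^ (l - 1) * μ) = fun i => bl z 0 i * μ ^ l := by
      funext i
      rw [mul_assoc, ← pow_succ, Nat.sub_add_cancel hl]
    rw [h2] at h1
    rw [h1, Finset.sum_congr rfl fun k hk => by rw [← a1 k (Finset.mem_range.mp hk)]]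
    exact add_neg_cancel _
  · rw [Finset.sum_range_succ]
    have h1 := spec2 hA hl y
    rw [hy' (l - 1) (by omega), a1 (l - 1) (by omega), a2 (l - 1) (by omega)] at h1
    have h2 : (fun i => (bl y 0 i * μ ^ (l - 1) +
        ((l - 1 : ℕ) : ℝ) • (bl z 0 i * μ ^ (l - 1 - 1))) * μ + bl z 0 i * μ ^ (l - 1)) =
        fun i => bl y 0 i * μ ^ l + (l : ℝ) • (bl z 0 i * μ ^ (l - 1)) := by
      funext i
      obtain ⟨m, rfl⟩ := Nat.exists_eq_add_of_le' hl
      rw [Nat.add_sub_cancel, add_mul, mul_assoc, ← pow_succ, smul_mul_assoc, mul_assoc]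
      have e : (m : ℝ) • (bl z 0 i * (μ ^ (m - 1) * μ)) = (m : ℝ) • (bl z 0 i * μ ^ m) := by
        rcases Nat.eq_zero_or_pos m with rfl | hk'
        · simp
        · rw [← pow_succ, Nat.sub_add_cancel hk']
      rw [e, Nat.cast_add, Nat.cast_one, add_smul, one_smul, add_assoc]
    rw [h2] at h1
    rw [h1, Finset.sum_congr rfl fun k hk => by rw [← a2 k (Finset.mem_range.mp hk)]]
    exact add_neg_cancel _

theorem eq_zero_of_bl {x : Fin l × Fin n → ℍ[ℝ]} (h : ∀ k < l, bl x k = 0) : x = 0 := by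
  funext ⟨k, a⟩
  have := congrFun (h k k.isLt) a
  rwa [bl_of_lt _ k.isLt] at this

/-- (F1) and the structure of eigenvectors. -/
theorem eig_struct (hA : IsUnit (A l)) (hl : 1 ≤ l) (μ : ℍ[ℝ]) (y : Fin l × Fin n → ℍ[ℝ])
    (hy : companion l A *ᵥ y = fun p => y p * μ) :
    (∀ k < l, bl y k = fun i => bl y 0 i * μ ^ k) ∧
    (∑ k ∈ Finset.range (l + 1), A k *ᵥ (fun i => bl y 0 i * μ ^ k) = 0) ∧
    (y ≠ 0 → bl y 0 ≠ 0) := by
  have h := gen_struct hA hl μ y y hy
  have h1 := gen_struct hA hl μ y 0 (by rw [Matrix.mulVec_zero]; funext p; simp)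
    (by rw [hy]; funext p; simp)
  have hz : bl (0 : Fin l × Fin n → ℍ[ℝ]) 0 = 0 := by
    funext i
    rw [bl_of_lt _ hl]; rfl
  obtain ⟨-, h2, -, h3⟩ := h1
  rw [hz] at h2 h3
  have h2' : ∀ k < l, bl y k = fun i => bl y 0 i * μ ^ k := by
    intro k hk
    rw [h2 k hk]; funext i; simp
  refine ⟨h2', ?_, ?_⟩
  · have : ∀ k : ℕ, (fun i => bl y 0 i * μ ^ k + (k : ℝ) • ((0 : Fin n → ℍ[ℝ]) i * μ ^ (k - 1))) =
        fun i => bl y 0 i * μ ^ k := by
      intro k; funext i; simp
    rw [Finset.sum_congr rfl fun k _ => by rw [this k]] at h3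
    exact h3
  · intro hy0 h0
    apply hy0
    apply eq_zero_of_bl
    intro k hk
    rw [h2' k hk, h0]; funext i; simp

theorem F1 (hb : Bounded l A) (hA : IsUnit (A l)) (hl : 1 ≤ l) (μ : ℍ[ℝ])
    (y : Fin l × Fin n → ℍ[ℝ]) (hy0 : y ≠ 0)
    (hy : companion l A *ᵥ y = fun p => y p * μ) : μ.re = 0 := by
  obtain ⟨_, h2, h3⟩ := eig_struct hA hl μ y hy
  have hz : ∑ k ∈ Finset.range (l + 1),
      A k *ᵥ (fun i => (0 : Fin n → ℍ[ℝ]) i * μ ^ k) = 0 := by
    apply Finset.sum_eq_zero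
    intro k _
    have : (fun i => (0 : Fin n → ℍ[ℝ]) i * μ ^ k) = 0 := by funext i; simp
    rw [this, Matrix.mulVec_zero]
  exact (bounded_imp hb (bl y 0) 0 μ hz (by simpa using h2)).2 (h3 hy0)

theorem F2 (hb : Bounded l A) (hA : IsUnit (A l)) (hl : 1 ≤ l) (μ : ℍ[ℝ])
    (y : Fin l × Fin n → ℍ[ℝ])
    (hy : (toE (companion l A) - Rr μ : Module.End ℝ (Fin l × Fin n → ℍ[ℝ]))
      ((toE (companion l A) - Rr μ : Module.End ℝ (Fin l × Fin n → ℍ[ℝ])) y) = 0) :
    (toE (companion l A) - Rr μ : Module.End ℝ (Fin l × Fin n → ℍ[ℝ])) y = 0 := by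
  set z := (toE (companion l A) - Rr μ : Module.End ℝ (Fin l × Fin n → ℍ[ℝ])) y with hz
  have h1 : companion l A *ᵥ z = fun p => z p * μ := by
    have := sub_eq_zero.mp hy
    exact this
  have h2 : companion l A *ᵥ y = fun p => y p * μ + z p := by
    funext p
    have : z p = (companion l A *ᵥ y) p - y p * μ := rfl
    rw [this]; abel
  obtain ⟨a1, a2, a3, a4⟩ := gen_struct hA hl μ y z h1 h2
  have h3 := (bounded_imp hb _ _ μ a3 a4).1
  apply eq_zero_of_bl
  intro k hk
  rw [a1 k hk, h3]; funext i; simp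

end comp

end Pool.Agent.R839.Quat
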