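import Pool.Agent.R839.QuatComp

/-!
# The form `x_φ G x` on eigenvectors
-/

namespace Pool.Agent.R839.Quat

open Quaternion Matrix

/-- The real part as a linear map. -/
noncomputable def reL : ℍ[ℝ] →ₗ[ℝ] ℝ where
  toFun x := x.re
  map_add' x y := Quaternion.re_add x y
  map_smul' c x := Quaternion.re_smul x c

theorem reL_comm (x y : ℍ[ℝ]) : reL (x * y) = reL (y * x) := re_comm x y

theorem reL_phi {φ : ℍ[ℝ] →ₗ[ℝ] ℍ[ℝ]} (h : IsInv φ) (x : ℍ[ℝ]) : reL (φ x) = reL x := re_map h x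

section form

variable {ι : Type*} [Fintype ι] {φ : ℍ[ℝ] →ₗ[ℝ] ℍ[ℝ]}

theorem form_apply (M : Matrix ι ι ℍ[ℝ]) (x z : ι → ℍ[ℝ]) :
    form φ M x z = ∑ i, ∑ j, φ (x i) * (M i j * z j) := by
  simp only [form, dotProduct, Matrix.mulVec, Finset.mul_sum]

theorem form_map (h : IsInv φ) (M : Matrix ι ι ℍ[ℝ]) (x z : ι → ℍ[ℝ]) :
    φ (form φ M x z) = form φ (M.map φ).transpose z x := by
  rw [form_apply, form_apply, map_sum]
  simp only [map_sum]
  rw [Finset.sum_comm]
  refine Finset.sum_congr rfl fun j _ => Finset.sum_congr rfl fun i _ => ?_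
  rw [h.mul, h.mul, h.invol, mul_assoc]
  rfl

theorem form_add_left (M : Matrix ι ι ℍ[ℝ]) (x y z : ι → ℍ[ℝ]) :
    form φ M (x + y) z = form φ M x z + form φ M y z := by
  simp only [form_apply, Pi.add_apply, map_add, add_mul, Finset.sum_add_distrib]

theorem form_add_right (M : Matrix ι ι ℍ[ℝ]) (x y z : ι → ℍ[ℝ]) :
    form φ M x (y + z) = form φ M x y + form φ M x z := by
  simp only [form_apply, Pi.add_apply, mul_add, Finset.sum_add_distrib]

theorem form_smul_left (M : Matrix ι ι ℍ[ℝ]) (c : ℝ) (x z : ι → ℍ[ℝ]) :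
    form φ M (c • x) z = c • form φ M x z := by
  simp only [form_apply, Pi.smul_apply, map_smul, smul_mul_assoc, Finset.smul_sum]

theorem form_smul_right (M : Matrix ι ι ℍ[ℝ]) (c : ℝ) (x z : ι → ℍ[ℝ]) :
    form φ M x (c • z) = c • form φ M x z := by
  simp only [form_apply, Pi.smul_apply, mul_smul_comm, Finset.smul_sum]

theorem form_mul_right (M : Matrix ι ι ℍ[ℝ]) (x z : ι → ℍ[ℝ]) (μ : ℍ[ℝ]) :
    form φ M x (fun i => z i * μ) = form φ M x z * μ := by
  simp only [form_apply, Finset.sum_mul, mul_assoc]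

theorem form_mul_left (h : IsInv φ) (M : Matrix ι ι ℍ[ℝ]) (x z : ι → ℍ[ℝ]) (μ : ℍ[ℝ]) :
    form φ M (fun i => x i * μ) z = φ μ * form φ M x z := by
  simp only [form_apply, Finset.mul_sum, h.mul, mul_assoc]

theorem continuous_form (M : Matrix ι ι ℍ[ℝ]) {X : Type*} [TopologicalSpace X]
    {f g : X → ι → ℍ[ℝ]} (hf : Continuous f) (hg : Continuous g) :
    Continuous (fun t => form φ M (f t) (g t)) := by
  have hφ : Continuous φ := φ.continuous_of_finiteDimensional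
  simp only [form_apply]
  refine continuous_finsetSum _ fun i _ => continuous_finsetSum _ fun j _ => ?_
  have h1 : Continuous (fun t => f t i) := (continuous_apply i).comp hf
  have h2 : Continuous (fun t => g t j) := (continuous_apply j).comp hg
  exact (hφ.comp h1).mul (continuous_const.mul h2)

end form

section gram

variable {n l : ℕ} {A : ℕ → Matrix (Fin n) (Fin n) ℍ[ℝ]} {φ : ℍ[ℝ] →ₗ[ℝ] ℍ[ℝ]}

theorem form_gram (x z : Fin l × Fin n → ℍ[ℝ]) :
    form φ (gram l A) x z = ∑ i ∈ Finset.range l, ∑ j ∈ Finset.range l,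
      if i + j + 1 ≤ l then ((-1 : ℝ) ^ i) • form φ (A (i + j + 1)) (bl x i) (bl z j) else 0 := by
  rw [form_apply, Finset.sum_range, Fintype.sum_prod_type]
  refine Finset.sum_congr rfl fun i _ => ?_
  rw [Finset.sum_range]
  have h1 : ∀ a : Fin n, ∑ q : Fin l × Fin n, φ (x (i, a)) * (gram l A (i, a) q * z q) =
      ∑ j : Fin l, ∑ c : Fin n, φ (x (i, a)) * (gram l A (i, a) (j, c) * z (j, c)) :=
    fun a => Fintype.sum_prod_type _
  rw [Finset.sum_congr rfl fun a _ => h1 a, Finset.sum_comm]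
  refine Finset.sum_congr rfl fun j _ => ?_
  by_cases hij : (i : ℕ) + j + 1 ≤ l
  · rw [if_pos hij, form_apply, Finset.smul_sum]
    refine Finset.sum_congr rfl fun a _ => ?_
    rw [Finset.smul_sum]
    refine Finset.sum_congr rfl fun c _ => ?_
    have e1 : gram l A (i, a) (j, c) = ((-1 : ℝ) ^ (i : ℕ)) • A (i + j + 1) a c := by
      simp only [gram, Matrix.of_apply]
      rw [if_pos hij, ← Quaternion.coe_mul_eq_smul]
      simp
    rw [e1, bl_of_lt _ i.isLt, bl_of_lt _ j.isLt, smul_mul_assoc, mul_smul_comm]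
  · rw [if_neg hij]
    apply Finset.sum_eq_zero
    intro a _
    apply Finset.sum_eq_zero
    intro c _
    have e1 : gram l A (i, a) (j, c) = 0 := by
      simp only [gram, Matrix.of_apply]
      rw [if_neg hij]
    rw [e1, zero_mul, mul_zero]

theorem hB_form (h : IsInv φ) (hB : HypB φ l A) {k : ℕ} (hk : k ≤ l) (x z : Fin n → ℍ[ℝ]) :
    φ (form φ (A k) x z) = ((-1 : ℝ) ^ k) • form φ (A k) z x := by
  rw [form_map h]
  rcases Nat.even_or_odd k with he | ho
  · rw [hB.even k hk he, he.neg_one_pow, one_smul]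
  · rw [hB.odd k hk ho, ho.neg_one_pow, neg_one_smul]
    simp only [form_apply, Matrix.neg_apply, neg_mul, mul_neg, Finset.sum_neg_distrib]

theorem tri_sum (l : ℕ) (f : ℕ → ℕ → ℝ) :
    ∑ i ∈ Finset.range l, ∑ j ∈ Finset.range l, (if i + j + 1 ≤ l then f i j else 0) =
      ∑ k ∈ Finset.range (l + 1), ∑ i ∈ Finset.range k, f i (k - 1 - i) := by
  rw [← Finset.sum_product', ← Finset.sum_filter, Finset.sum_sigma']
  refine Finset.sum_nbij' (fun p => ⟨p.1 + p.2 + 1, p.1⟩) (fun q => (q.2, q.1 - 1 - q.2)) ?_ ?_ ?_ ?_ ?_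
  · rintro ⟨i, j⟩ hp
    simp only [Finset.mem_filter, Finset.mem_product, Finset.mem_range] at hp
    simp only [Finset.mem_sigma, Finset.mem_range]
    omega
  · rintro ⟨k, i⟩ hq
    simp only [Finset.mem_sigma, Finset.mem_range] at hq
    simp only [Finset.mem_filter, Finset.mem_product, Finset.mem_range]
    omega
  · rintro ⟨i, j⟩ _
    simp only [Prod.mk.injEq, true_and]
    omega
  · rintro ⟨k, i⟩ hq
    simp only [Finset.mem_sigma, Finset.mem_range] at hq
    simp only [Sigma.mk.injEq, heq_eq_eq, and_true]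
    omega
  · rintro ⟨i, j⟩ _
    simp only
    congr 1
    omega

end gram

section key

variable {n l : ℕ} {A : ℕ → Matrix (Fin n) (Fin n) ℍ[ℝ]} {φ : ℍ[ℝ] →ₗ[ℝ] ℍ[ℝ]}

theorem phi_pow (h : IsInv φ) (x : ℍ[ℝ]) (k : ℕ) : φ (x ^ k) = φ x ^ k := by
  induction k with
  | zero => rw [pow_zero, pow_zero, map_one' h]
  | succ k ih => rw [pow_succ, h.mul, ih, pow_succ']

theorem neg_pow_smul (x : ℍ[ℝ]) (k : ℕ) : (-x) ^ k = ((-1 : ℝ) ^ k) • x ^ k := by
  rw [← smul_pow, neg_one_smul]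

/-- `T_k(Y) = -Re(Y λ^{k-1} b)`. -/
noncomputable def T (lam b : ℍ[ℝ]) (k : ℕ) (Y : ℍ[ℝ]) : ℝ := -reL (Y * lam ^ (k - 1) * b)

theorem T_add (lam b : ℍ[ℝ]) (k : ℕ) (Y Z : ℍ[ℝ]) :
    T lam b k (Y + Z) = T lam b k Y + T lam b k Z := by
  simp only [T, add_mul, map_add]; ring

theorem T_smul (lam b : ℍ[ℝ]) (k : ℕ) (c : ℝ) (Y : ℍ[ℝ]) :
    T lam b k (c • Y) = c * T lam b k Y := by
  simp only [T, smul_mul_assoc, map_smul, smul_eq_mul]; ring

theorem T_symm (h : IsInv φ) (hB : HypB φ l A) {lam b : ℍ[ℝ]} (hb : φ b = -b)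
    (hlam : φ lam = -lam) (hc : lam * b = b * lam) {k : ℕ} (hk : k ≤ l) (hk1 : 1 ≤ k)
    (x z : Fin n → ℍ[ℝ]) :
    T lam b k (form φ (A k) x z) = T lam b k (form φ (A k) z x) := by
  have hcp : lam ^ (k - 1) * b = b * lam ^ (k - 1) :=
    (Commute.pow_left (show Commute lam b from hc) (k - 1)).eq
  rw [T, ← reL_phi h, h.mul, h.mul, hb, phi_pow h, hlam, hB_form h hB hk, neg_pow_smul,
    smul_mul_smul_comm, neg_mul, mul_smul_comm, map_neg, map_smul, T]
  have hs : ((-1 : ℝ) ^ (k - 1) * (-1) ^ k) = -1 := by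
    rw [← pow_add, show k - 1 + k = 2 * (k - 1) + 1 by omega, pow_add, pow_mul]; norm_num
  rw [hs, ← mul_assoc, ← hcp, reL_comm (lam ^ (k - 1) * b), ← mul_assoc]
  simp

/-- `γ(v) = ∑ k T_k(v_φ A_k v)`. -/
noncomputable def gam (φ : ℍ[ℝ] →ₗ[ℝ] ℍ[ℝ]) (l : ℕ) (A : ℕ → Matrix (Fin n) (Fin n) ℍ[ℝ])
    (lam b : ℍ[ℝ]) (v : Fin n → ℍ[ℝ]) : ℝ :=
  ∑ k ∈ Finset.range (l + 1), (k : ℝ) * T lam b k (form φ (A k) v v)

theorem alt_sum (k : ℕ) : ∑ i ∈ Finset.range k, (-1 : ℝ) ^ (k - 1 - i) =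
    ∑ i ∈ Finset.range k, (-1 : ℝ) ^ i :=
  Finset.sum_range_reflect (fun i => (-1 : ℝ) ^ i) k

theorem alt_sum_two (k : ℕ) : 2 * ∑ i ∈ Finset.range k, (-1 : ℝ) ^ i = 1 - (-1) ^ k := by
  induction k with
  | zero => simp
  | succ k ih => rw [Finset.sum_range_succ, mul_add, ih, pow_succ]; ring

theorem re_term (h : IsInv φ) {lam b : ℍ[ℝ]} (hlam : φ lam = -lam) (hc : lam * b = b * lam)
    (i j : ℕ) (M : Matrix (Fin n) (Fin n) ℍ[ℝ]) (x z : Fin n → ℍ[ℝ]) :
    -reL ((((-1 : ℝ) ^ i) • form φ M (fun a => x a * lam ^ i) (fun a => z a * lam ^ j)) * b) =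
      T lam b (i + j + 1) (form φ M x z) := by
  have hcp : lam ^ i * b = b * lam ^ i := (Commute.pow_left (show Commute lam b from hc) i).eq
  rw [form_mul_left h, form_mul_right, phi_pow h, hlam, neg_pow_smul, smul_mul_assoc,
    smul_mul_assoc, smul_mul_assoc, smul_smul, ← mul_pow]
  have hs : ((-1 : ℝ) * -1) ^ i = 1 := by norm_num
  rw [hs, one_smul, T, mul_assoc (lam ^ i), reL_comm, mul_assoc, ← hcp, Nat.add_sub_cancel,
    ← mul_assoc, mul_assoc (form φ M x z), ← pow_add, add_comm j i]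

/-- The expansion of the form at `X_i = v λ^i - w (-λ)^i`. -/
theorem form_expand (h : IsInv φ) (hB : HypB φ l A) {lam b : ℍ[ℝ]} (hb : φ b = -b)
    (hlam : φ lam = -lam) (hc : lam * b = b * lam) (v w : Fin n → ℍ[ℝ])
    (X : Fin l × Fin n → ℍ[ℝ])
    (hX : ∀ i < l, bl X i = fun a => v a * lam ^ i - w a * (-lam) ^ i) :
    -reL (form φ (gram l A) X X * b) = ∑ k ∈ Finset.range (l + 1),
      ((k : ℝ) * T lam b k (form φ (A k) v v) +
        (k : ℝ) * ((-1) ^ (k - 1) * T lam b k (form φ (A k) w w)) -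
        2 * (∑ i ∈ Finset.range k, (-1 : ℝ) ^ i) * T lam b k (form φ (A k) v w)) := by
  have hX' : ∀ i < l, bl X i = fun a => (v + (-(-1 : ℝ) ^ i) • w) a * lam ^ i := by
    intro i hi
    rw [hX i hi]
    funext a
    rw [neg_pow_smul, Pi.add_apply, Pi.smul_apply, add_mul, neg_smul, neg_mul, smul_mul_assoc,
      mul_smul_comm, sub_eq_add_neg]
  have h1 : -reL (form φ (gram l A) X X * b) = ∑ i ∈ Finset.range l, ∑ j ∈ Finset.range l,
      (if i + j + 1 ≤ l then
        (fun i j => T lam b (i + j + 1) (form φ (A (i + j + 1)) (v + (-(-1 : ℝ) ^ i) • w)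
          (v + (-(-1 : ℝ) ^ j) • w))) i j else 0) := by
    rw [form_gram, Finset.sum_mul, map_sum, ← Finset.sum_neg_distrib]
    refine Finset.sum_congr rfl fun i hi => ?_
    rw [Finset.sum_mul, map_sum, ← Finset.sum_neg_distrib]
    refine Finset.sum_congr rfl fun j hj => ?_
    rw [Finset.mem_range] at hi hj
    by_cases hij : i + j + 1 ≤ l
    · rw [if_pos hij, if_pos hij, hX' i hi, hX' j hj, re_term h hlam hc]
    · rw [if_neg hij, if_neg hij]; simp
  rw [h1, tri_sum]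
  refine Finset.sum_congr rfl fun k hk => ?_
  rw [Finset.mem_range] at hk
  rcases Nat.eq_zero_or_pos k with rfl | hk1
  · simp
  have h2 : ∀ i ∈ Finset.range k, T lam b (i + (k - 1 - i) + 1)
      (form φ (A (i + (k - 1 - i) + 1)) (v + (-(-1 : ℝ) ^ i) • w)
        (v + (-(-1 : ℝ) ^ (k - 1 - i)) • w)) =
      T lam b k (form φ (A k) v v) + (-1) ^ (k - 1) * T lam b k (form φ (A k) w w) -
        ((-1) ^ i + (-1) ^ (k - 1 - i)) * T lam b k (form φ (A k) v w) := by
    intro i hi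
    rw [Finset.mem_range] at hi
    rw [show i + (k - 1 - i) + 1 = k by omega]
    rw [form_add_left, form_add_right, form_add_right, form_smul_left, form_smul_left,
      form_smul_right, form_smul_right, T_add, T_add, T_add, T_smul, T_smul, T_smul, T_smul,
      T_symm h hB hb hlam hc (show k ≤ l by omega) hk1 w v]
    have hs : (-1 : ℝ) ^ (k - 1) = (-1) ^ i * (-1) ^ (k - 1 - i) := by
      rw [← pow_add]; congr 1; omega
    rw [hs]; ring
  rw [Finset.sum_congr rfl h2, Finset.sum_sub_distrib, ← Finset.sum_mul, Finset.sum_add_distrib,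
    Finset.sum_add_distrib, alt_sum, Finset.sum_const, Finset.sum_const, Finset.card_range,
    nsmul_eq_mul, nsmul_eq_mul]
  ring

end key

end Pool.Agent.R839.Quat
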