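import Mathlib

/-!
# Nonstandard involutions of the quaternions
-/

namespace Pool.Agent.R839.Quat

open Quaternion

/-- A nonstandard involution of the real quaternions. -/
structure IsInv (φ : ℍ[ℝ] →ₗ[ℝ] ℍ[ℝ]) : Prop where
  mul : ∀ x y, φ (x * y) = φ y * φ x
  invol : ∀ x, φ (φ x) = x
  ne : ∃ x, φ x ≠ star x

theorem re_comm (x y : ℍ[ℝ]) : (x * y).re = (y * x).re := by
  simp only [re_mul]; ring

theorem pure_sq {b : ℍ[ℝ]} (hb : b.re = 0) : b * b = -((normSq b : ℝ) : ℍ[ℝ]) := by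
  rw [← sq]; exact sq_eq_neg_normSq.mpr hb

theorem smul_unit {a : ℍ[ℝ]} (ha : a ≠ 0) (hre : a.re = 0) :
    (‖a‖⁻¹ • a) * (‖a‖⁻¹ • a) = -1 := by
  have hn : ‖a‖ ≠ 0 := norm_ne_zero_iff.mpr ha
  have hre' : (‖a‖⁻¹ • a).re = 0 := by rw [Quaternion.re_smul, hre, smul_zero]
  rw [pure_sq hre', Quaternion.normSq_eq_norm_mul_self, norm_smul, norm_inv, norm_norm,
    inv_mul_cancel₀ hn]
  simp

/-- The commutant decomposition. -/
theorem comm_part {b : ℍ[ℝ]} (hb : b.re = 0) (hb2 : b * b = -1) (x : ℍ[ℝ]) :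
    x - b * x * b = (2 * x.re) • (1 : ℍ[ℝ]) - (2 * (x * b).re) • b := by
  have h1 : b.imI ^ 2 + b.imJ ^ 2 + b.imK ^ 2 = 1 := by
    have := congrArg (fun z : ℍ[ℝ] => z.re) hb2
    simp only [re_mul, hb] at this
    simp at this
    linarith
  ext
  · simp [hb]
    linear_combination (x.re) * h1
  · simp [hb]
    linear_combination (-(x.imI)) * h1
  · simp [hb]
    linear_combination (-(x.imJ)) * h1
  · simp [hb]
    linear_combination (-(x.imK)) * h1

variable {φ : ℍ[ℝ] →ₗ[ℝ] ℍ[ℝ]} (h : IsInv φ)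
include h

theorem inj : Function.Injective φ := fun x y hxy => by rw [← h.invol x, hxy, h.invol]

theorem map_one' : φ 1 = 1 := by
  have h1 : φ 1 * φ 1 = φ 1 := by rw [← h.mul, one_mul]
  have h2 : φ 1 ≠ 0 := fun h0 => one_ne_zero (inj h (h0.trans φ.map_zero.symm))
  exact mul_left_cancel₀ h2 (by rw [h1, mul_one])

theorem map_real (r : ℝ) : φ (r : ℍ[ℝ]) = r := by
  have e : (r : ℍ[ℝ]) = r • (1 : ℍ[ℝ]) := by rw [← Quaternion.coe_mul_eq_smul, mul_one]
  rw [e, φ.map_smul, map_one' h]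

theorem re_pure {p : ℍ[ℝ]} (hp : p.re = 0) : (φ p).re = 0 := by
  by_cases hp0 : p = 0
  · rw [hp0, φ.map_zero]; rfl
  have hN : 0 < normSq p := by
    rcases (Quaternion.normSq_nonneg (a := p)).lt_or_eq with h1 | h1
    · exact h1
    · exact absurd (Quaternion.normSq_eq_zero.mp h1.symm) hp0
  have hy : φ p * φ p = ((-(normSq p) : ℝ) : ℍ[ℝ]) := by
    rw [← h.mul, pure_sq hp]
    rw [← Quaternion.coe_neg, map_real h]
  set y := φ p
  have h1 := congrArg (fun z : ℍ[ℝ] => z.re) hy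
  have h2 := congrArg (fun z : ℍ[ℝ] => z.imI) hy
  have h3 := congrArg (fun z : ℍ[ℝ] => z.imJ) hy
  have h4 := congrArg (fun z : ℍ[ℝ] => z.imK) hy
  simp at h1 h2 h3 h4
  by_contra hr
  have e2 : y.imI = 0 := by
    have : y.re * y.imI = 0 := by linarith
    exact (mul_eq_zero.mp this).resolve_left hr
  have e3 : y.imJ = 0 := by
    have : y.re * y.imJ = 0 := by linarith
    exact (mul_eq_zero.mp this).resolve_left hr
  have e4 : y.imK = 0 := by
    have : y.re * y.imK = 0 := by linarith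
    exact (mul_eq_zero.mp this).resolve_left hr
  rw [e2, e3, e4] at h1
  nlinarith [mul_self_nonneg y.re]

theorem re_map (x : ℍ[ℝ]) : (φ x).re = x.re := by
  have e : x = (x.re : ℍ[ℝ]) + x.im := (Quaternion.re_add_im x).symm
  have h1 : φ x = (x.re : ℍ[ℝ]) + φ x.im := by
    conv_lhs => rw [e]
    rw [map_add, map_real h]
  rw [h1, Quaternion.re_add, re_pure h (Quaternion.re_im x)]
  simp

theorem exists_b : ∃ b : ℍ[ℝ], b.re = 0 ∧ b * b = -1 ∧ φ b = -b := by
  by_cases hex : ∃ p : ℍ[ℝ], p.re = 0 ∧ φ p ≠ p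
  · obtain ⟨p, hp, hne⟩ := hex
    set a := p - φ p with ha
    have ha0 : a ≠ 0 := fun h0 => hne (sub_eq_zero.mp h0).symm
    have hre : a.re = 0 := by rw [ha, Quaternion.re_sub, re_map h, sub_self]
    refine ⟨‖a‖⁻¹ • a, by rw [Quaternion.re_smul, hre, smul_zero], smul_unit ha0 hre, ?_⟩
    rw [φ.map_smul, ha, map_sub, h.invol, ← smul_neg, neg_sub]
  · exfalso
    push Not at hex
    let i : ℍ[ℝ] := ⟨0, 1, 0, 0⟩
    let j : ℍ[ℝ] := ⟨0, 0, 1, 0⟩
    have h1 := h.mul i j
    rw [hex (i * j) (by simp [i, j]), hex i rfl, hex j rfl] at h1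
    have h2 := congrArg (fun z : ℍ[ℝ] => z.imK) h1
    simp [i, j] at h2
    norm_num at h2

theorem anti_map {b x : ℍ[ℝ]} (hb : φ b = -b) (hx : x * b = -(b * x)) :
    φ x * b = -(b * φ x) := by
  have h1 := congrArg φ hx
  rw [h.mul, map_neg, h.mul, hb] at h1
  rw [neg_mul, mul_neg, neg_neg] at h1
  exact h1.symm

theorem exists_u {b : ℍ[ℝ]} (hb0 : b.re = 0) (hb2 : b * b = -1) (hb : φ b = -b) :
    ∃ u : ℍ[ℝ], u * u = -1 ∧ u * b = -(b * u) ∧ φ u = u := by
  by_cases hex : ∃ y : ℍ[ℝ], y ≠ 0 ∧ y * b = -(b * y) ∧ φ y = y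
  · obtain ⟨y, hy0, hyb, hy⟩ := hex
    have hre : y.re = 0 := by
      have h1 : b * y * b = y := by
        rw [mul_assoc, hyb, mul_neg, ← mul_assoc, hb2, neg_one_mul, neg_neg]
      have h2 : (b * y * b).re = -(y.re) := by
        rw [mul_assoc, re_comm, mul_assoc, hb2, mul_neg_one, Quaternion.re_neg]
      rw [h1] at h2
      linarith
    refine ⟨‖y‖⁻¹ • y, smul_unit hy0 hre, ?_, by rw [φ.map_smul, hy]⟩
    rw [smul_mul_assoc, hyb, mul_smul_comm, smul_neg]
  · exfalso
    push Not at hex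
    have hanti : ∀ x : ℍ[ℝ], x * b = -(b * x) → φ x = -x := by
      intro x hx
      have h1 : (x + φ x) * b = -(b * (x + φ x)) := by
        rw [add_mul, mul_add, hx, anti_map h hb hx]; abel
      by_cases h2 : x + φ x = 0
      · exact (neg_eq_of_add_eq_zero_right h2).symm
      · exact absurd (by rw [map_add, h.invol, add_comm]) (hex _ h2 h1)
    obtain ⟨c, hc⟩ := h.ne
    apply hc
    have h1 := comm_part hb0 hb2 c
    have h2 : (c + b * c * b) * b = -(b * (c + b * c * b)) := by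
      have e1 : b * c * b * b = -(b * c) := by rw [mul_assoc, hb2, mul_neg_one]
      have e2 : b * (b * c * b) = -(c * b) := by
        rw [← mul_assoc, ← mul_assoc, hb2, neg_one_mul, neg_mul]
      rw [add_mul, e1, mul_add, e2]; abel
    have h3 := hanti _ h2
    have h4 : φ (c - b * c * b) = (2 * c.re) • (1 : ℍ[ℝ]) + (2 * (c * b).re) • b := by
      rw [h1, map_sub, φ.map_smul, φ.map_smul, map_one' h, hb, smul_neg, sub_neg_eq_add]
    have h5 : (2 : ℝ) • φ c = (4 * c.re) • (1 : ℍ[ℝ]) - (2 : ℝ) • c := by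
      have e1 : (2 : ℝ) • c = (c - b * c * b) + (c + b * c * b) := by
        rw [two_smul]; abel
      have e2 : (c + b * c * b) = (2 : ℝ) • c - (c - b * c * b) := by
        rw [e1]; abel
      rw [← φ.map_smul]
      conv_lhs => rw [e1]
      rw [map_add, h4, h3, e2, h1]
      module
    have h6 : (2 : ℝ) • φ c = (2 : ℝ) • star c := by
      rw [h5]
      have : star c = (2 * c.re) • (1 : ℍ[ℝ]) - c := by
        ext <;> simp
        ring
      rw [this]; module
    exact smul_right_injective _ (two_ne_zero) h6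

theorem skew_zero {D : ℍ[ℝ]} {b u : ℍ[ℝ]} (hb0 : b.re = 0) (hb2 : b * b = -1) (hb : φ b = -b)
    (hu2 : u * u = -1) (hub : u * b = -(b * u)) (hu : φ u = u)
    (hD : φ D = -D) (hre : (D * b).re = 0) : D = 0 := by
  have hD0 : D.re = 0 := by
    have := re_map h D
    rw [hD, Quaternion.re_neg] at this
    linarith
  have h1 := comm_part hb0 hb2 D
  rw [hD0, hre, mul_zero, zero_smul, zero_smul, sub_zero] at h1
  have h2 : b * D = -(D * b) := by
    have : D = b * D * b := sub_eq_zero.mp h1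
    have h3 : D * b = b * D * b * b := by rw [← this]
    rw [mul_assoc (b * D), hb2, mul_neg_one] at h3
    rw [h3, neg_neg]
  have h3 : b * (u * D) * b = -(u * D) := by
    have e1 : b * u = -(u * b) := by rw [hub, neg_neg]
    rw [← mul_assoc b u D, e1, neg_mul, mul_assoc u b D, h2, mul_neg, neg_neg, ← mul_assoc,
      mul_assoc, hb2, mul_neg_one]
  have h4 := comm_part hb0 hb2 (u * D)
  rw [h3, sub_neg_eq_add, ← two_smul ℝ, mul_smul, mul_smul, ← smul_sub] at h4
  have h5 := smul_right_injective _ (two_ne_zero) h4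
  have h6 : D = -(u * (((u * D).re) • (1 : ℍ[ℝ]) - ((u * D * b).re) • b)) := by
    have : u * (u * D) = -D := by rw [← mul_assoc, hu2, neg_one_mul]
    rw [← h5, this, neg_neg]
  have h7 : φ D = D := by
    conv_lhs => rw [h6]
    rw [map_neg, h.mul, map_sub, φ.map_smul, φ.map_smul, map_one' h, hb, hu]
    conv_rhs => rw [h6]
    congr 1
    rw [sub_mul, mul_sub, smul_mul_assoc, smul_mul_assoc, mul_smul_comm, mul_smul_comm, one_mul,
      mul_one, neg_mul, hub]
  rw [h7] at hD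
  have h8 : (2 : ℝ) • D = 0 := by
    rw [two_smul]
    nth_rewrite 1 [hD]
    exact neg_add_cancel D
  exact (smul_eq_zero.mp h8).resolve_left two_ne_zero

end Pool.Agent.R839.Quat
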