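import Pool.Agent.R839.QuatForm

/-!
# An isotropic eigenvector
-/

namespace Pool.Agent.R839.Quat

open Quaternion Matrix

variable {n l : ℕ} {A : ℕ → Matrix (Fin n) (Fin n) ℍ[ℝ]} {φ : ℍ[ℝ] →ₗ[ℝ] ℍ[ℝ]}

theorem sum_form (v : Fin n → ℍ[ℝ]) (s : Finset ℕ) (f : ℕ → Fin n → ℍ[ℝ]) :
    ∑ k ∈ s, form φ (A k) v (f k) = (fun i => φ (v i)) ⬝ᵥ ∑ k ∈ s, A k *ᵥ f k := by
  rw [dotProduct_sum]; rfl

theorem smul_b_comm (ω : ℝ) (b : ℍ[ℝ]) : (ω • b) * b = b * (ω • b) := by
  rw [smul_mul_assoc, mul_smul_comm]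

theorem phi_smul_b {b : ℍ[ℝ]} (hb : φ b = -b) (ω : ℝ) : φ (ω • b) = -(ω • b) := by
  rw [map_smul, hb, smul_neg]

theorem cross_zero (h : IsInv φ) (hB : HypB φ l A) {ω : ℝ} (hω : ω ≠ 0) {b : ℍ[ℝ]}
    (hb : φ b = -b) (v w : Fin n → ℍ[ℝ])
    (hv : ∑ k ∈ Finset.range (l + 1), A k *ᵥ (fun i => v i * (ω • b) ^ k) = 0)
    (hw : ∑ k ∈ Finset.range (l + 1), A k *ᵥ (fun i => w i * (-(ω • b)) ^ k) = 0) :
    ∑ k ∈ Finset.range (l + 1), (∑ i ∈ Finset.range k, (-1 : ℝ) ^ i) *
      T (ω • b) b k (form φ (A k) v w) = 0 := by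
  set lam := ω • b with hlam
  have hφl : φ lam = -lam := phi_smul_b hb ω
  have e2 : ∑ k ∈ Finset.range (l + 1), reL (form φ (A k) v w * (-lam) ^ k) = 0 := by
    rw [← map_sum]
    have : ∑ k ∈ Finset.range (l + 1), form φ (A k) v w * (-lam) ^ k = 0 := by
      rw [Finset.sum_congr rfl fun k _ => (form_mul_right (φ := φ) (A k) v w ((-lam) ^ k)).symm,
        sum_form, hw, dotProduct_zero]
    rw [this, map_zero]
  have e1 : ∑ k ∈ Finset.range (l + 1), reL (form φ (A k) v w * lam ^ k) = 0 := by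
    have h1 : ∀ k ∈ Finset.range (l + 1), reL (form φ (A k) v w * lam ^ k) =
        reL (form φ (A k) w v * lam ^ k) := by
      intro k hk
      rw [Finset.mem_range] at hk
      rw [← reL_phi h, h.mul, phi_pow h, hφl, hB_form h hB (by omega), neg_pow_smul,
        smul_mul_smul_comm, ← mul_pow, reL_comm (form φ (A k) w v)]
      norm_num
    rw [Finset.sum_congr rfl h1, ← map_sum]
    have : ∑ k ∈ Finset.range (l + 1), form φ (A k) w v * lam ^ k = 0 := by
      rw [Finset.sum_congr rfl fun k _ => (form_mul_right (φ := φ) (A k) w v (lam ^ k)).symm,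
        sum_form, hv, dotProduct_zero]
    rw [this, map_zero]
  have e3 : ∑ k ∈ Finset.range (l + 1), (-2 * ω) * ((∑ i ∈ Finset.range k, (-1 : ℝ) ^ i) *
      T lam b k (form φ (A k) v w)) = 0 := by
    have h2 : ∀ k ∈ Finset.range (l + 1), (-2 * ω) * ((∑ i ∈ Finset.range k, (-1 : ℝ) ^ i) *
        T lam b k (form φ (A k) v w)) =
        reL (form φ (A k) v w * lam ^ k) - reL (form φ (A k) v w * (-lam) ^ k) := by
      intro k _
      rw [neg_pow_smul, mul_smul_comm, map_smul, smul_eq_mul]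
      have h3 : reL (form φ (A k) v w * lam ^ k) - (-1) ^ k * reL (form φ (A k) v w * lam ^ k) =
          (2 * ∑ i ∈ Finset.range k, (-1 : ℝ) ^ i) * reL (form φ (A k) v w * lam ^ k) := by
        rw [alt_sum_two]; ring
      rw [h3]
      rcases Nat.eq_zero_or_pos k with rfl | hk
      · simp
      · have h4 : reL (form φ (A k) v w * lam ^ k) =
            -ω * T lam b k (form φ (A k) v w) := by
          obtain ⟨m, rfl⟩ := Nat.exists_eq_add_of_le' hk
          rw [T, Nat.add_sub_cancel, pow_succ]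
          nth_rewrite 2 [hlam]
          rw [mul_smul_comm, mul_smul_comm, map_smul, ← mul_assoc, smul_eq_mul]
          ring
        rw [h4]; ring
    rw [Finset.sum_congr rfl h2, Finset.sum_sub_distrib, e1, e2, sub_zero]
  rw [← Finset.mul_sum] at e3
  exact (mul_eq_zero.mp e3).resolve_left (by
    intro h0
    apply hω
    linarith)

theorem u_pow {ω : ℝ} {b u : ℍ[ℝ]} (hub : u * b = -(b * u)) (k : ℕ) :
    u * (ω • b) ^ k = (-(ω • b)) ^ k * u := by
  induction k with
  | zero => simp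
  | succ k ih =>
    rw [pow_succ, ← mul_assoc, ih, mul_assoc, mul_smul_comm, hub, pow_succ, mul_assoc, neg_mul,
      smul_mul_assoc, smul_neg]

theorem T_u (h : IsInv φ) {ω : ℝ} {b u : ℍ[ℝ]} (hu2 : u * u = -1)
    (hub : u * b = -(b * u)) (hu : φ u = u) (M : Matrix (Fin n) (Fin n) ℍ[ℝ])
    (w : Fin n → ℍ[ℝ]) (k : ℕ) :
    T (ω • b) b k (form φ M (fun i => w i * u) (fun i => w i * u)) =
      (-1) ^ (k - 1) * T (ω • b) b k (form φ M w w) := by
  rw [form_mul_left h, form_mul_right, hu, T, T]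
  have e1 : u * (form φ M w w * u) * (ω • b) ^ (k - 1) * b =
      u * (form φ M w w * ((-(ω • b)) ^ (k - 1) * (u * b))) := by
    rw [← mul_assoc ((-(ω • b)) ^ (k - 1)), ← u_pow hub]
    simp only [mul_assoc]
  have e2 : form φ M w w * ((-(ω • b)) ^ (k - 1) * (u * b)) * u =
      ((-1 : ℝ) ^ (k - 1)) • (form φ M w w * (ω • b) ^ (k - 1) * b) := by
    rw [hub, neg_pow_smul]
    have e3 : -(b * u) * u = b := by
      rw [neg_mul, mul_assoc, hu2, mul_neg_one, neg_neg]
    rw [mul_assoc, mul_assoc, e3, smul_mul_assoc, mul_smul_comm, mul_assoc]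
  rw [e1, reL_comm, e2, map_smul, smul_eq_mul]
  ring

theorem gam_smul (lam b : ℍ[ℝ]) (c : ℝ) (v : Fin n → ℍ[ℝ]) :
    gam φ l A lam b (c • v) = c ^ 2 * gam φ l A lam b v := by
  rw [gam, gam, Finset.mul_sum]
  refine Finset.sum_congr rfl fun k _ => ?_
  rw [form_smul_left, form_smul_right, T_smul, T_smul]; ring

theorem continuous_reL : Continuous (reL : ℍ[ℝ] → ℝ) := reL.continuous_of_finiteDimensional

theorem continuous_gam (lam b : ℍ[ℝ]) {X : Type*} [TopologicalSpace X] {f : X → Fin n → ℍ[ℝ]}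
    (hf : Continuous f) : Continuous (fun t => gam φ l A lam b (f t)) := by
  unfold gam T
  refine continuous_finsetSum _ fun k _ => continuous_const.mul ?_
  exact (continuous_reL.comp (((continuous_form (A k) hf hf).mul continuous_const).mul
    continuous_const)).neg

theorem isotropic (h : IsInv φ) (hB : HypB φ l A) (hl : 1 ≤ l) {ω : ℝ} (hω : ω ≠ 0) {b u : ℍ[ℝ]}
    (hb2 : b * b = -1) (hb : φ b = -b) (hu2 : u * u = -1) (hub : u * b = -(b * u)) (hu : φ u = u)
    (x : Fin l × Fin n → ℍ[ℝ]) (hx0 : x ≠ 0)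
    (hx : companion l A *ᵥ (companion l A *ᵥ x) = fun p => -(ω ^ 2) • x p)
    (hform : form φ (gram l A) x x = 0) :
    ∃ v : Fin n → ℍ[ℝ], v ≠ 0 ∧
      ∑ k ∈ Finset.range (l + 1), A k *ᵥ (fun i => v i * (ω • b) ^ k) = 0 ∧
      gam φ l A (ω • b) b v = 0 := by
  set lam := ω • b with hlam
  set C := companion l A with hC
  have hll : lam * lam = -(ω ^ 2) • (1 : ℍ[ℝ]) := by
    rw [hlam, smul_mul_smul_comm, hb2, smul_neg, neg_smul, sq]
  have hXl : ∀ Y : ℍ[ℝ], Y * (lam * lam) = -(ω ^ 2) • Y := by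
    intro Y
    rw [hll, mul_smul_comm, mul_one]
  have hCmul : ∀ (y : Fin l × Fin n → ℍ[ℝ]) (μ : ℍ[ℝ]),
      C *ᵥ (fun p => y p * μ) = fun p => (C *ᵥ y) p * μ := by
    intro y μ
    funext i
    simp only [Matrix.mulVec, dotProduct, Finset.sum_mul, mul_assoc]
  set y : Fin l × Fin n → ℍ[ℝ] := C *ᵥ x + fun p => x p * lam with hy
  set z : Fin l × Fin n → ℍ[ℝ] := C *ᵥ x - fun p => x p * lam with hz
  have hCy : C *ᵥ y = fun p => y p * lam := by
    rw [hy, Matrix.mulVec_add, hx, hCmul]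
    funext p
    simp only [Pi.add_apply]
    rw [add_mul, mul_assoc, hXl, add_comm]
  have hCz : C *ᵥ z = fun p => z p * (-lam) := by
    rw [hz, Matrix.mulVec_sub, hx, hCmul]
    funext p
    simp only [Pi.sub_apply]
    rw [mul_neg, sub_mul, mul_assoc, hXl]
    abel
  obtain ⟨y1, y2, y3⟩ := eig_struct hB.unit hl lam y hCy
  obtain ⟨z1, z2, z3⟩ := eig_struct hB.unit hl (-lam) z hCz
  set v := bl y 0 with hv
  set w := bl z 0 with hw
  let X : Fin l × Fin n → ℍ[ℝ] := fun p => x p * ((2 : ℝ) • lam)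
  have hXyz : ∀ p, X p = y p - z p := by
    intro p
    simp only [X, hy, hz, Pi.add_apply, Pi.sub_apply]
    rw [mul_smul_comm, two_smul]; abel
  have hXX : form φ (gram l A) X X = 0 := by
    rw [form_mul_left h, form_mul_right, hform, zero_mul, mul_zero]
  have hX : ∀ i < l, bl X i = fun a => v a * lam ^ i - w a * (-lam) ^ i := by
    intro i hi
    funext a
    rw [bl_of_lt _ hi, hXyz, ← bl_of_lt y hi, ← bl_of_lt z hi, y1 i hi, z1 i hi]
  have hexp := form_expand h hB hb (phi_smul_b hb ω) (smul_b_comm ω b) v w X hX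
  rw [hXX, zero_mul, map_zero, neg_zero, Finset.sum_sub_distrib, Finset.sum_add_distrib] at hexp
  have hcross := cross_zero h hB hω hb v w y2 z2
  have hcross' : ∑ k ∈ Finset.range (l + 1), 2 * (∑ i ∈ Finset.range k, (-1 : ℝ) ^ i) *
      T (ω • b) b k (form φ (A k) v w) = 0 := by
    have e1 : ∑ k ∈ Finset.range (l + 1), 2 * (∑ i ∈ Finset.range k, (-1 : ℝ) ^ i) *
        T (ω • b) b k (form φ (A k) v w) = 2 * ∑ k ∈ Finset.range (l + 1),
          (∑ i ∈ Finset.range k, (-1 : ℝ) ^ i) * T (ω • b) b k (form φ (A k) v w) := by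
      rw [Finset.mul_sum]
      exact Finset.sum_congr rfl fun k _ => by ring
    rw [e1, hcross, mul_zero]
  rw [hcross', sub_zero] at hexp
  set w' : Fin n → ℍ[ℝ] := fun i => w i * u with hw'
  have hgw : gam φ l A lam b w' = ∑ k ∈ Finset.range (l + 1), (k : ℝ) *
      ((-1) ^ (k - 1) * T lam b k (form φ (A k) w w)) := by
    rw [gam]
    refine Finset.sum_congr rfl fun k _ => ?_
    rw [hw', T_u h hu2 hub hu]
  rw [← hgw] at hexp
  have hexp' : gam φ l A lam b v + gam φ l A lam b w' = 0 := hexp.symm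
  have hEw : ∑ k ∈ Finset.range (l + 1), A k *ᵥ (fun i => w' i * lam ^ k) = 0 := by
    have e1 : ∀ k, A k *ᵥ (fun i => w' i * lam ^ k) =
        fun i => (A k *ᵥ (fun i => w i * (-lam) ^ k)) i * u := by
      intro k
      rw [← mulVec_mul_right]
      congr 1
      funext i
      rw [hw', mul_assoc, u_pow hub, mul_assoc]
    rw [Finset.sum_congr rfl fun k _ => e1 k]
    funext i
    rw [Finset.sum_apply, ← Finset.sum_mul, ← Finset.sum_apply, z2]
    simp
  have hu0 : u ≠ 0 := by
    rintro rfl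
    rw [zero_mul] at hu2
    have : (1 : ℍ[ℝ]) = 0 := by rw [← neg_eq_zero, ← hu2]
    exact one_ne_zero this
  have hvw : ¬ (v = 0 ∧ w = 0) := by
    rintro ⟨h1, h2⟩
    apply hx0
    have hy0 : y = 0 := by
      by_contra hne
      exact y3 hne h1
    have hz0 : z = 0 := by
      by_contra hne
      exact z3 hne h2
    have hlam0 : (2 : ℝ) • lam ≠ 0 := by
      intro h0
      have h1 : lam = 0 := (smul_eq_zero.mp h0).resolve_left two_ne_zero
      rw [h1, mul_zero] at hll
      have h2 := (smul_eq_zero.mp hll.symm).resolve_right one_ne_zero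
      exact hω (pow_eq_zero_iff (two_ne_zero)|>.mp (neg_eq_zero.mp h2))
    funext p
    have h3 := hXyz p
    rw [hy0, hz0] at h3
    simp only [X, Pi.zero_apply, sub_zero] at h3
    exact (mul_eq_zero.mp h3).resolve_right hlam0
  by_cases hg : gam φ l A lam b v = 0
  · by_cases hv0 : v = 0
    · refine ⟨w', ?_, hEw, by linarith⟩
      intro h0
      apply hvw
      refine ⟨hv0, ?_⟩
      funext i
      have := congrFun h0 i
      exact (mul_eq_zero.mp this).resolve_right hu0
    · exact ⟨v, hv0, y2, hg⟩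
  · -- intermediate value
    let f : ℝ → Fin n → ℍ[ℝ] := fun s => (1 - s) • v + s • w'
    have hf : Continuous f :=
      ((continuous_const.sub continuous_id).smul continuous_const).add
        (continuous_id.smul continuous_const)
    have hcont : Continuous (fun s => gam φ l A lam b (f s)) := continuous_gam lam b hf
    have h0 : gam φ l A lam b (f 0) = gam φ l A lam b v := by simp [f]
    have h1 : gam φ l A lam b (f 1) = -gam φ l A lam b v := by
      have : f 1 = w' := by simp [f]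
      rw [this]; linarith
    have hex : ∃ s, gam φ l A lam b (f s) = 0 := by
      rcases lt_or_gt_of_ne hg with hlt | hgt
      · exact mem_range_of_exists_le_of_exists_ge hcont ⟨0, by rw [h0]; exact hlt.le⟩
          ⟨1, by rw [h1]; linarith⟩
      · exact mem_range_of_exists_le_of_exists_ge hcont ⟨1, by rw [h1]; linarith⟩
          ⟨0, by rw [h0]; exact hgt.le⟩
    obtain ⟨s, hs⟩ := hex
    refine ⟨f s, ?_, ?_, hs⟩
    · intro hfs
      have e1 : (1 - s) • v = -(s • w') := eq_neg_of_add_eq_zero_left hfs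
      have e2 : (1 - s) • v = (-s) • w' := by rw [e1, neg_smul]
      have e3 := congrArg (gam φ l A lam b) e2
      rw [gam_smul, gam_smul] at e3
      have e4 : ((1 - s) ^ 2 + s ^ 2) * gam φ l A lam b v = 0 := by
        have : gam φ l A lam b w' = -gam φ l A lam b v := by linarith
        rw [this] at e3
        linarith
      rcases mul_eq_zero.mp e4 with h5 | h5
      · nlinarith [sq_nonneg (1 - s), sq_nonneg s]
      · exact hg h5
    · have e1 : ∀ k, A k *ᵥ (fun i => f s i * lam ^ k) =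
          (1 - s) • (A k *ᵥ (fun i => v i * lam ^ k)) + s • (A k *ᵥ (fun i => w' i * lam ^ k)) := by
        intro k
        rw [← Matrix.mulVec_smul, ← Matrix.mulVec_smul, ← Matrix.mulVec_add]
        congr 1
        funext i
        simp only [f, Pi.add_apply, Pi.smul_apply, add_mul, smul_mul_assoc]
      rw [Finset.sum_congr rfl fun k _ => e1 k, Finset.sum_add_distrib, ← Finset.smul_sum,
        ← Finset.smul_sum, y2, hEw, smul_zero, smul_zero, add_zero]

end Pool.Agent.R839.Quat
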