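import Pool.Agent.R839.QuatInv

/-!
# Structured quaternion differential systems: definitions and exponential solutions
-/

namespace Pool.Agent.R839.Quat

open Quaternion Matrix

/-- The solutions of the system `∑_{k ≤ l} A_k x^{(k)}(t) = 0`. -/
structure IsSol {n : ℕ} (l : ℕ) (A : ℕ → Matrix (Fin n) (Fin n) ℍ[ℝ]) (x : ℝ → Fin n → ℍ[ℝ]) :
    Prop where
  smooth : ContDiff ℝ l x
  eqn : ∀ t, ∑ k ∈ Finset.range (l + 1), A k *ᵥ iteratedDeriv k x t = 0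

/-- The system is bounded: every solution is bounded on the real line. -/
def Bounded {n : ℕ} (l : ℕ) (A : ℕ → Matrix (Fin n) (Fin n) ℍ[ℝ]) : Prop :=
  ∀ x, IsSol l A x → ∃ M : ℝ, ∀ t, ‖x t‖ ≤ M

/-- Hypothesis (B): the leading coefficient is invertible, the coefficients with an even index are
`φ`-hermitian and the ones with an odd index are `φ`-skewhermitian. -/
structure HypB {n : ℕ} (φ : ℍ[ℝ] →ₗ[ℝ] ℍ[ℝ]) (l : ℕ) (A : ℕ → Matrix (Fin n) (Fin n) ℍ[ℝ]) :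
    Prop where
  unit : IsUnit (A l)
  even : ∀ k ≤ l, Even k → ((A k).map φ).transpose = A k
  odd : ∀ k ≤ l, Odd k → ((A k).map φ).transpose = -A k

/-- Stable boundedness. -/
def StablyBounded {n : ℕ} (φ : ℍ[ℝ] →ₗ[ℝ] ℍ[ℝ]) (l : ℕ)
    (A : ℕ → Matrix (Fin n) (Fin n) ℍ[ℝ]) : Prop :=
  ∃ ε : ℝ, 0 < ε ∧ ∀ A' : ℕ → Matrix (Fin n) (Fin n) ℍ[ℝ], HypB φ l A' →
    (∀ k ≤ l, ∀ i j, ‖A' k i j - A k i j‖ < ε) → Bounded l A'

/-- The block companion matrix. -/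
noncomputable def companion {n : ℕ} (l : ℕ) (A : ℕ → Matrix (Fin n) (Fin n) ℍ[ℝ]) :
    Matrix (Fin l × Fin n) (Fin l × Fin n) ℍ[ℝ] :=
  Matrix.of fun p q =>
    if (p.1 : ℕ) + 1 < l then (if (q.1 : ℕ) = p.1 + 1 ∧ q.2 = p.2 then 1 else 0)
    else -(Ring.inverse (A l) * A q.1) p.2 q.2

/-- The matrix `G`. -/
noncomputable def gram {n : ℕ} (l : ℕ) (A : ℕ → Matrix (Fin n) (Fin n) ℍ[ℝ]) :
    Matrix (Fin l × Fin n) (Fin l × Fin n) ℍ[ℝ] :=
  Matrix.of fun p q =>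
    if (p.1 : ℕ) + q.1 + 1 ≤ l then (-1) ^ (p.1 : ℕ) * A (p.1 + q.1 + 1) p.2 q.2 else 0

/-- `x_φ M z`. -/
noncomputable def form {ι : Type*} [Fintype ι] (φ : ℍ[ℝ] →ₗ[ℝ] ℍ[ℝ]) (M : Matrix ι ι ℍ[ℝ])
    (x z : ι → ℍ[ℝ]) : ℍ[ℝ] := (fun i => φ (x i)) ⬝ᵥ (M *ᵥ z)

/-- The real polynomial attached to `α`, evaluated at the matrix `C`. -/
noncomputable def charFactor {ι : Type*} [Fintype ι] [DecidableEq ι] (C : Matrix ι ι ℍ[ℝ])
    (α : ℍ[ℝ]) : Matrix ι ι ℍ[ℝ] :=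
  open Classical in
  if α.im = 0 then C - α.re • (1 : Matrix ι ι ℍ[ℝ])
  else C ^ 2 - (2 * α.re) • C + (‖α‖ ^ 2) • (1 : Matrix ι ι ℍ[ℝ])

section sol

variable {n : ℕ}

/-- The derivatives of the exponential solutions. -/
noncomputable def Fk (v w : Fin n → ℍ[ℝ]) (μ : ℍ[ℝ]) (k : ℕ) (t : ℝ) : Fin n → ℍ[ℝ] :=
  fun i => (v i * μ ^ k + (k : ℝ) • (w i * μ ^ (k - 1)) + t • (w i * μ ^ k)) *
    NormedSpace.exp (t • μ)

theorem hasDerivAt_Fk (v w : Fin n → ℍ[ℝ]) (μ : ℍ[ℝ]) (k : ℕ) (t : ℝ) :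
    HasDerivAt (Fk v w μ k) (Fk v w μ (k + 1) t) t := by
  rw [hasDerivAt_pi]
  intro i
  have h1 : HasDerivAt (fun t : ℝ => v i * μ ^ k + (k : ℝ) • (w i * μ ^ (k - 1)) +
      t • (w i * μ ^ k)) ((1 : ℝ) • (w i * μ ^ k)) t :=
    ((hasDerivAt_id t).smul_const _).const_add _
  have h2 := hasDerivAt_exp_smul_const' (𝕂 := ℝ) (𝔸 := ℍ[ℝ]) μ t
  have h3 := h1.mul h2
  refine h3.congr_deriv ?_
  change _ = (v i * μ ^ (k + 1) + ((k + 1 : ℕ) : ℝ) • (w i * μ ^ (k + 1 - 1)) +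
    t • (w i * μ ^ (k + 1))) * NormedSpace.exp (t • μ)
  rw [one_smul, ← mul_assoc, ← add_mul]
  congr 1
  rw [Nat.add_sub_cancel, add_mul, add_mul, smul_mul_assoc, smul_mul_assoc, mul_assoc (v i),
    mul_assoc (w i), mul_assoc (w i), ← pow_succ]
  have e : (k : ℝ) • (w i * (μ ^ (k - 1) * μ)) = (k : ℝ) • (w i * μ ^ k) := by
    rcases Nat.eq_zero_or_pos k with rfl | hk
    · simp
    · rw [← pow_succ, Nat.sub_add_cancel hk]
  rw [e, Nat.cast_add, Nat.cast_one, add_smul, one_smul]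
  abel

theorem iteratedDeriv_Fk (v w : Fin n → ℍ[ℝ]) (μ : ℍ[ℝ]) (k : ℕ) :
    iteratedDeriv k (Fk v w μ 0) = Fk v w μ k := by
  induction k with
  | zero => rw [iteratedDeriv_zero]
  | succ k ih =>
    rw [iteratedDeriv_succ, ih]
    funext t
    exact (hasDerivAt_Fk v w μ k t).deriv

theorem isSol_Fk {l : ℕ} {A : ℕ → Matrix (Fin n) (Fin n) ℍ[ℝ]} (v w : Fin n → ℍ[ℝ]) (μ : ℍ[ℝ])
    (h1 : ∑ k ∈ Finset.range (l + 1), A k *ᵥ (fun i => w i * μ ^ k) = 0)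
    (h2 : ∑ k ∈ Finset.range (l + 1),
      A k *ᵥ (fun i => v i * μ ^ k + (k : ℝ) • (w i * μ ^ (k - 1))) = 0) :
    IsSol l A (Fk v w μ 0) := by
  constructor
  · apply contDiff_of_differentiable_iteratedDeriv
    intro m _
    rw [iteratedDeriv_Fk]
    exact fun t => (hasDerivAt_Fk v w μ m t).differentiableAt
  · intro t
    have h3 : ∀ k, A k *ᵥ iteratedDeriv k (Fk v w μ 0) t =
        fun i => ((A k *ᵥ (fun i => v i * μ ^ k + (k : ℝ) • (w i * μ ^ (k - 1)))) i +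
          t • (A k *ᵥ (fun i => w i * μ ^ k)) i) * NormedSpace.exp (t • μ) := by
      intro k
      rw [iteratedDeriv_Fk]
      funext i
      simp only [Matrix.mulVec, dotProduct, Fk]
      rw [Finset.smul_sum, ← Finset.sum_add_distrib, Finset.sum_mul]
      refine Finset.sum_congr rfl fun j _ => ?_
      rw [← mul_assoc, mul_add, mul_smul_comm]
    rw [Finset.sum_congr rfl fun k _ => h3 k]
    funext i
    rw [Finset.sum_apply, ← Finset.sum_mul, Finset.sum_add_distrib, ← Finset.smul_sum,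
      ← Finset.sum_apply, ← Finset.sum_apply, h1, h2]
    simp

theorem norm_exp_smul (μ : ℍ[ℝ]) (t : ℝ) :
    ‖NormedSpace.exp (t • μ)‖ = Real.exp (t * μ.re) := by
  rw [Quaternion.norm_exp, Quaternion.re_smul, smul_eq_mul, ← Real.exp_eq_exp_ℝ, Real.norm_eq_abs,
    Real.abs_exp]

theorem re_zero_of_bounded {c : ℝ} (hc : 0 < c) {a M : ℝ}
    (h : ∀ t : ℝ, c * Real.exp (t * a) ≤ M) : a = 0 := by
  by_contra ha
  have h1 := h (M / c / a)
  rw [div_mul_cancel₀ _ ha] at h1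
  have h2 := Real.add_one_le_exp (M / c)
  have h3 : M < c * Real.exp (M / c) := by
    calc M = c * (M / c) := by field_simp
      _ < c * Real.exp (M / c) := by
        apply mul_lt_mul_of_pos_left _ hc
        linarith
  linarith

theorem bounded_imp {l : ℕ} {A : ℕ → Matrix (Fin n) (Fin n) ℍ[ℝ]} (hb : Bounded l A)
    (v w : Fin n → ℍ[ℝ]) (μ : ℍ[ℝ])
    (h1 : ∑ k ∈ Finset.range (l + 1), A k *ᵥ (fun i => w i * μ ^ k) = 0)
    (h2 : ∑ k ∈ Finset.range (l + 1),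
      A k *ᵥ (fun i => v i * μ ^ k + (k : ℝ) • (w i * μ ^ (k - 1))) = 0) :
    w = 0 ∧ (v ≠ 0 → μ.re = 0) := by
  -- pure exponentials
  have key : ∀ v : Fin n → ℍ[ℝ],
      ∑ k ∈ Finset.range (l + 1), A k *ᵥ (fun i => v i * μ ^ k) = 0 → v ≠ 0 → μ.re = 0 := by
    intro v hv hv0
    obtain ⟨i, hi⟩ := Function.ne_iff.mp hv0
    have hz : ∑ k ∈ Finset.range (l + 1),
        A k *ᵥ (fun i => (0 : Fin n → ℍ[ℝ]) i * μ ^ k) = 0 := by
      apply Finset.sum_eq_zero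
      intro k _
      have : (fun i => (0 : Fin n → ℍ[ℝ]) i * μ ^ k) = 0 := by funext i; simp
      rw [this, Matrix.mulVec_zero]
    obtain ⟨M, hM⟩ := hb _ (isSol_Fk (A := A) (l := l) v 0 μ hz (by simpa using hv))
    apply re_zero_of_bounded (c := ‖v i‖) (norm_pos_iff.mpr hi) (M := M)
    intro t
    have h3 := (norm_le_pi_norm (Fk v 0 μ 0 t) i).trans (hM t)
    simp only [Fk] at h3
    rw [norm_mul, norm_exp_smul] at h3
    simpa using h3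
  have hw : w = 0 := by
    by_contra hw0
    have hre := key w h1 hw0
    obtain ⟨i, hi⟩ := Function.ne_iff.mp hw0
    obtain ⟨M, hM⟩ := hb _ (isSol_Fk (A := A) (l := l) v w μ h1 h2)
    have hwi : 0 < ‖w i‖ := norm_pos_iff.mpr hi
    have h3 : ∀ t : ℝ, ‖v i + t • w i‖ ≤ M := by
      intro t
      have h3 := (norm_le_pi_norm (Fk v w μ 0 t) i).trans (hM t)
      simp only [Fk] at h3
      rw [norm_mul, norm_exp_smul, hre, mul_zero, Real.exp_zero, mul_one] at h3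
      simpa using h3
    have hM0 : 0 ≤ M := (norm_nonneg _).trans (h3 0)
    have h4 := h3 ((M + ‖v i‖ + 1) / ‖w i‖)
    have h5 : ‖((M + ‖v i‖ + 1) / ‖w i‖) • w i‖ = M + ‖v i‖ + 1 := by
      rw [norm_smul, Real.norm_eq_abs, abs_of_nonneg (by positivity), div_mul_cancel₀ _ hwi.ne']
    have h6 : ‖((M + ‖v i‖ + 1) / ‖w i‖) • w i‖ ≤
        ‖v i + ((M + ‖v i‖ + 1) / ‖w i‖) • w i‖ + ‖v i‖ := by
      have := norm_sub_le (v i + ((M + ‖v i‖ + 1) / ‖w i‖) • w i) (v i)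
      rwa [add_sub_cancel_left] at this
    linarith
  subst hw
  refine ⟨rfl, fun hv => key v ?_ hv⟩
  simpa using h2

end sol

end Pool.Agent.R839.Quat
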