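import Pool.Agent.R839.QuatIso

/-!
# The perturbation
-/

namespace Pool.Agent.R839.Quat

open Quaternion Matrix

theorem ivt_aux (f : ℝ → ℝ → ℝ) (hf : Continuous (fun p : ℝ × ℝ => f p.1 p.2)) {a c : ℝ}
    (ha : 0 < a) (h0 : ∀ s, f s 0 = a * s + s ^ 2 * c) (G : ℝ × ℝ → Prop)
    (hG : ∀ᶠ p in nhds ((0 : ℝ), (0 : ℝ)), G p) : ∃ s d, 0 < d ∧ G (s, d) ∧ f s d = 0 := by
  obtain ⟨ρ, hρ, hρG⟩ := Metric.eventually_nhds_iff.mp hG
  have hc1 : 0 < |c| + 1 := by positivity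
  set s₁ := min (ρ / 2) (a / (2 * (|c| + 1))) with hs₁
  have hs0 : 0 < s₁ := lt_min (by positivity) (by positivity)
  have hsρ : s₁ < ρ := lt_of_le_of_lt (min_le_left _ _) (by linarith)
  have hsa : s₁ * |c| < a := by
    have h1 : s₁ ≤ a / (2 * (|c| + 1)) := min_le_right _ _
    have h2 : s₁ * (2 * (|c| + 1)) ≤ a := (le_div_iff₀ (by positivity)).mp h1
    nlinarith [abs_nonneg c]
  have hc2 := le_abs_self c
  have hc3 := neg_abs_le c
  have hp : 0 < f s₁ 0 := by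
    rw [h0, show a * s₁ + s₁ ^ 2 * c = s₁ * (a + s₁ * c) by ring]
    apply mul_pos hs0
    nlinarith
  have hm : f (-s₁) 0 < 0 := by
    rw [h0, show a * -s₁ + (-s₁) ^ 2 * c = -(s₁ * (a - s₁ * c)) by ring]
    apply neg_lt_zero.mpr
    apply mul_pos hs0
    nlinarith
  have hcs : ∀ s, Continuous (fun d => f s d) := fun s =>
    hf.comp (continuous_const.prodMk continuous_id)
  have hcd : ∀ d, Continuous (fun s => f s d) := fun d =>
    hf.comp (continuous_id.prodMk continuous_const)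
  have e1 : ∀ᶠ d in nhds (0 : ℝ), 0 < f s₁ d := (hcs s₁).continuousAt.eventually_const_lt hp
  have e2 : ∀ᶠ d in nhds (0 : ℝ), f (-s₁) d < 0 := (hcs (-s₁)).continuousAt.eventually_lt_const hm
  obtain ⟨δ, hδ, hδG⟩ := Metric.eventually_nhds_iff.mp (e1.and e2)
  set d := min (δ / 2) (ρ / 2) with hd
  have hd0 : 0 < d := lt_min (by positivity) (by positivity)
  have hdδ : d < δ := lt_of_le_of_lt (min_le_left _ _) (by linarith)
  have hdρ : d < ρ := lt_of_le_of_lt (min_le_right _ _) (by linarith)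
  obtain ⟨g1, g2⟩ := hδG (y := d) (by rw [Real.dist_eq, sub_zero, abs_of_pos hd0]; exact hdδ)
  obtain ⟨s, hs, hsf⟩ := intermediate_value_Icc (show -s₁ ≤ s₁ by linarith)
    (hcd d).continuousOn ⟨g2.le, g1.le⟩
  refine ⟨s, d, hd0, hρG ?_, hsf⟩
  rw [Prod.dist_eq]
  apply max_lt
  · rw [Real.dist_eq, sub_zero]
    exact lt_of_le_of_lt (abs_le.mpr ⟨hs.1, hs.2⟩) hsρ
  · rw [Real.dist_eq, sub_zero, abs_of_pos hd0]
    exact hdρ

variable {n l : ℕ} {A : ℕ → Matrix (Fin n) (Fin n) ℍ[ℝ]} {φ : ℍ[ℝ] →ₗ[ℝ] ℍ[ℝ]}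

theorem star_mul_sum (τ : Fin n → ℍ[ℝ]) :
    ∑ i, star (τ i) * τ i = (((∑ i, ‖τ i‖ ^ 2 : ℝ)) : ℍ[ℝ]) := by
  have h1 : ∀ i, star (τ i) * τ i = ((‖τ i‖ ^ 2 : ℝ) : ℍ[ℝ]) := by
    intro i
    rw [Quaternion.star_mul_self, Quaternion.normSq_eq_norm_mul_self, sq]
  rw [Finset.sum_congr rfl fun i _ => h1 i]
  induction (Finset.univ : Finset (Fin n)) using Finset.induction_on with
  | empty => simp
  | insert a s ha ih => rw [Finset.sum_insert ha, Finset.sum_insert ha, ih, Quaternion.coe_add]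

theorem sum_norm_pos {τ : Fin n → ℍ[ℝ]} (hτ : τ ≠ 0) : 0 < ∑ i, ‖τ i‖ ^ 2 := by
  obtain ⟨i, hi⟩ := Function.ne_iff.mp hτ
  apply Finset.sum_pos'
  · intro j _; positivity
  · exact ⟨i, Finset.mem_univ _, by
      have : 0 < ‖τ i‖ := norm_pos_iff.mpr hi
      positivity⟩

/-- Step 4: a direction in which the quadratic form increases. -/
theorem exists_dir (h : IsInv φ) (hB : HypB φ l A) (hbd : Bounded l A) {ω : ℝ} {b : ℍ[ℝ]}
    (hb2 : b * b = -1) (hb : φ b = -b) {v0 : Fin n → ℍ[ℝ]} (hv0 : v0 ≠ 0)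
    (hv : ∑ k ∈ Finset.range (l + 1), A k *ᵥ (fun i => v0 i * (ω • b) ^ k) = 0) :
    ∃ (g : Fin n → ℍ[ℝ]) (a : ℝ), 0 < a ∧ ∀ s : ℝ, gam φ l A (ω • b) b (v0 + s • g) =
      gam φ l A (ω • b) b v0 + 2 * a * s + s ^ 2 * gam φ l A (ω • b) b g := by
  set lam := ω • b with hlam
  set τ : Fin n → ℍ[ℝ] := ∑ k ∈ Finset.range (l + 1),
    A k *ᵥ (fun i => (k : ℝ) • (v0 i * lam ^ (k - 1))) with hτ
  have hτ0 : τ ≠ 0 := by
    intro h0
    apply hv0
    have e : ∑ k ∈ Finset.range (l + 1), A k *ᵥ (fun i => (0 : Fin n → ℍ[ℝ]) i * lam ^ k +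
        (k : ℝ) • (v0 i * lam ^ (k - 1))) = τ := by
      rw [hτ]
      refine Finset.sum_congr rfl fun k _ => ?_
      congr 1
      funext i
      rw [Pi.zero_apply, zero_mul, zero_add]
    exact (bounded_imp hbd 0 v0 lam hv (e.trans h0)).1
  let g : Fin n → ℍ[ℝ] := fun i => φ (b * star (τ i))
  have hbil : ∑ k ∈ Finset.range (l + 1), (k : ℝ) * T lam b k (form φ (A k) g v0) =
      ∑ i, ‖τ i‖ ^ 2 := by
    have h1 : ∑ k ∈ Finset.range (l + 1), (k : ℝ) * T lam b k (form φ (A k) g v0) =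
        -reL ((∑ k ∈ Finset.range (l + 1),
          form φ (A k) g (fun i => (k : ℝ) • (v0 i * lam ^ (k - 1)))) * b) := by
      rw [Finset.sum_mul, map_sum, ← Finset.sum_neg_distrib]
      refine Finset.sum_congr rfl fun k _ => ?_
      have e1 : (fun i => (k : ℝ) • (v0 i * lam ^ (k - 1))) =
          (k : ℝ) • (fun i => v0 i * lam ^ (k - 1)) := rfl
      rw [e1, form_smul_right, form_mul_right, smul_mul_assoc, map_smul, smul_eq_mul, T]
      ring
    rw [h1, sum_form, ← hτ]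
    have h2 : (fun i => φ (g i)) ⬝ᵥ τ = b * (((∑ i, ‖τ i‖ ^ 2 : ℝ)) : ℍ[ℝ]) := by
      rw [← star_mul_sum, Finset.mul_sum]
      simp only [dotProduct, g]
      refine Finset.sum_congr rfl fun i _ => ?_
      rw [h.invol, mul_assoc]
    rw [h2, mul_assoc, Quaternion.coe_commutes, ← mul_assoc, hb2, neg_one_mul, map_neg, neg_neg]
    exact Quaternion.re_coe _
  refine ⟨g, ∑ i, ‖τ i‖ ^ 2, sum_norm_pos hτ0, fun s => ?_⟩
  have hsym : ∀ k ∈ Finset.range (l + 1), (k : ℝ) * T lam b k (form φ (A k) v0 g) =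
      (k : ℝ) * T lam b k (form φ (A k) g v0) := by
    intro k hk
    rw [Finset.mem_range] at hk
    rcases Nat.eq_zero_or_pos k with rfl | hk1
    · simp
    · rw [T_symm h hB hb (phi_smul_b hb ω) (smul_b_comm ω b) (by omega) hk1]
  rw [gam, gam, gam, ← hbil]
  have h3 : ∀ k ∈ Finset.range (l + 1), (k : ℝ) * T lam b k (form φ (A k) (v0 + s • g) (v0 + s • g)) =
      (k : ℝ) * T lam b k (form φ (A k) v0 v0) + 2 * s * ((k : ℝ) * T lam b k (form φ (A k) g v0)) +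
        s ^ 2 * ((k : ℝ) * T lam b k (form φ (A k) g g)) := by
    intro k hk
    rw [form_add_left, form_add_right, form_add_right, form_smul_left, form_smul_left,
      form_smul_right, form_smul_right, T_add, T_add, T_add, T_smul, T_smul, T_smul, T_smul]
    have := hsym k hk
    linear_combination s * this
  rw [Finset.sum_congr rfl h3, Finset.sum_add_distrib, Finset.sum_add_distrib, ← Finset.mul_sum,
    ← Finset.mul_sum]
  ring

/-- The geometric sums. -/
noncomputable def geo (μ μ' : ℍ[ℝ]) (k : ℕ) : ℍ[ℝ] := ∑ i ∈ Finset.range k, μ ^ i * μ' ^ (k - 1 - i)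

/-- The divided difference of the defect. -/
noncomputable def gamd (φ : ℍ[ℝ] →ₗ[ℝ] ℍ[ℝ]) (l : ℕ) (A : ℕ → Matrix (Fin n) (Fin n) ℍ[ℝ])
    (μ μ' b : ℍ[ℝ]) (v : Fin n → ℍ[ℝ]) : ℝ :=
  -∑ k ∈ Finset.range (l + 1), reL (form φ (A k) v v * geo μ μ' k * b)

theorem gamd_self (lam b : ℍ[ℝ]) (v : Fin n → ℍ[ℝ]) :
    gamd φ l A lam lam b v = gam φ l A lam b v := by
  rw [gamd, gam, ← Finset.sum_neg_distrib]
  refine Finset.sum_congr rfl fun k _ => ?_
  have h1 : geo lam lam k = (k : ℝ) • lam ^ (k - 1) := by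
    rw [geo]
    have : ∀ i ∈ Finset.range k, lam ^ i * lam ^ (k - 1 - i) = lam ^ (k - 1) := by
      intro i hi
      rw [Finset.mem_range] at hi
      rw [← pow_add]; congr 1; omega
    rw [Finset.sum_congr rfl this, Finset.sum_const, Finset.card_range, Nat.cast_smul_eq_nsmul]
  rw [h1, mul_smul_comm, smul_mul_assoc, map_smul, smul_eq_mul, T]
  ring

/-- If the divided difference vanishes then the defect vector is `φ`-symmetric. -/
theorem phi_symm (h : IsInv φ) (hB : HypB φ l A) {ω d : ℝ} {b u : ℍ[ℝ]}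
    (hb0 : b.re = 0) (hb2 : b * b = -1) (hb : φ b = -b) (hu2 : u * u = -1)
    (hub : u * b = -(b * u)) (hu : φ u = u) (v : Fin n → ℍ[ℝ])
    (hg : gamd φ l A (ω • b + d • 1) (ω • b - d • 1) b v = 0) :
    φ (∑ k ∈ Finset.range (l + 1), form φ (A k) v v * (ω • b + d • 1) ^ k) =
      ∑ k ∈ Finset.range (l + 1), form φ (A k) v v * (ω • b + d • 1) ^ k := by
  set μ := ω • b + d • (1 : ℍ[ℝ]) with hμ
  set μ' := ω • b - d • (1 : ℍ[ℝ]) with hμ'
  have hφμ : φ μ = -μ' := by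
    rw [hμ, hμ', map_add, map_smul, map_smul, hb, map_one' h, smul_neg]; abel
  have hcμ : Commute μ' b := by
    change μ' * b = b * μ'
    rw [hμ', sub_mul, mul_sub, smul_mul_assoc, smul_mul_assoc, mul_smul_comm, mul_smul_comm,
      one_mul, mul_one]
  have hcc : Commute μ μ' := by
    have c1 : Commute (ω • b) μ' :=
      (Commute.refl (ω • b)).sub_right ((Commute.one_right (ω • b)).smul_right d)
    have c2 : Commute (d • (1 : ℍ[ℝ])) μ' := (Commute.one_left μ').smul_left d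
    exact c1.add_left c2
  have hdiff : μ - μ' = (2 * d) • (1 : ℍ[ℝ]) := by
    rw [hμ, hμ', mul_smul, two_smul]; abel
  set W := ∑ k ∈ Finset.range (l + 1), form φ (A k) v v * μ ^ k with hW
  have hφW : φ W = ∑ k ∈ Finset.range (l + 1), μ' ^ k * form φ (A k) v v := by
    rw [hW, map_sum]
    refine Finset.sum_congr rfl fun k hk => ?_
    rw [Finset.mem_range] at hk
    rw [h.mul, phi_pow h, hφμ, hB_form h hB (by omega), neg_pow_smul, smul_mul_smul_comm, ← mul_pow]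
    norm_num
  have hD : W - φ W = 0 := by
    apply skew_zero h hb0 hb2 hb hu2 hub hu
    · rw [map_sub, h.invol]; abel
    · change reL ((W - φ W) * b) = 0
      rw [hφW, hW, ← Finset.sum_sub_distrib, Finset.sum_mul, map_sum]
      have h1 : ∀ k ∈ Finset.range (l + 1), reL ((form φ (A k) v v * μ ^ k -
          μ' ^ k * form φ (A k) v v) * b) = (2 * d) * reL (form φ (A k) v v * geo μ μ' k * b) := by
        intro k _
        have e1 : reL (μ' ^ k * form φ (A k) v v * b) = reL (form φ (A k) v v * μ' ^ k * b) := by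
          rw [mul_assoc, reL_comm, mul_assoc, mul_assoc, (hcμ.pow_left k).eq]
        have e2 : μ ^ k - μ' ^ k = (2 * d) • geo μ μ' k := by
          rw [← hcc.geom_sum₂_mul k, hdiff, mul_smul_comm, mul_one]; rfl
        rw [sub_mul, map_sub, e1, ← map_sub, ← sub_mul, ← mul_sub, e2, mul_smul_comm,
          smul_mul_assoc, map_smul, smul_eq_mul]
      rw [Finset.sum_congr rfl h1, ← Finset.mul_sum]
      rw [gamd, neg_eq_zero] at hg
      rw [hg, mul_zero]
  exact (sub_eq_zero.mp hD).symm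

/-- The perturbation matrix. -/
noncomputable def pert (φ : ℍ[ℝ] →ₗ[ℝ] ℍ[ℝ]) (v w : Fin n → ℍ[ℝ]) :
    Matrix (Fin n) (Fin n) ℍ[ℝ] :=
  Matrix.of fun i j =>
    w i * ((∑ m, ‖v m‖ ^ 2)⁻¹ • star (v j)) +
      φ ((∑ m, ‖v m‖ ^ 2)⁻¹ • star (v i)) * φ (w j) -
      φ ((∑ m, ‖v m‖ ^ 2)⁻¹ • star (v i)) * (∑ m, φ (w m) * v m) *
        ((∑ m, ‖v m‖ ^ 2)⁻¹ • star (v j))

theorem pert_vec {v : Fin n → ℍ[ℝ]} (hv : v ≠ 0) (w : Fin n → ℍ[ℝ]) : pert φ v w *ᵥ v = w := by
  have hN := sum_norm_pos hv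
  have h1 : ∑ j, ((∑ m, ‖v m‖ ^ 2)⁻¹ • star (v j)) * v j = 1 := by
    simp only [smul_mul_assoc]
    rw [← Finset.smul_sum, star_mul_sum, ← Quaternion.coe_mul_eq_smul, ← Quaternion.coe_mul,
      inv_mul_cancel₀ hN.ne']
    rfl
  funext i
  simp only [Matrix.mulVec, dotProduct, pert, Matrix.of_apply, sub_mul, add_mul,
    Finset.sum_sub_distrib, Finset.sum_add_distrib]
  have e1 : ∑ j, w i * ((∑ m, ‖v m‖ ^ 2)⁻¹ • star (v j)) * v j = w i := by
    simp only [mul_assoc]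
    rw [← Finset.mul_sum, h1, mul_one]
  have e2 : ∑ j, φ ((∑ m, ‖v m‖ ^ 2)⁻¹ • star (v i)) * φ (w j) * v j =
      φ ((∑ m, ‖v m‖ ^ 2)⁻¹ • star (v i)) * ∑ m, φ (w m) * v m := by
    simp only [mul_assoc]
    rw [← Finset.mul_sum]
  have e3 : ∑ j, φ ((∑ m, ‖v m‖ ^ 2)⁻¹ • star (v i)) * (∑ m, φ (w m) * v m) *
      ((∑ m, ‖v m‖ ^ 2)⁻¹ • star (v j)) * v j =
      φ ((∑ m, ‖v m‖ ^ 2)⁻¹ • star (v i)) * ∑ m, φ (w m) * v m := by
    have : ∀ j, φ ((∑ m, ‖v m‖ ^ 2)⁻¹ • star (v i)) * (∑ m, φ (w m) * v m) *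
      ((∑ m, ‖v m‖ ^ 2)⁻¹ • star (v j)) * v j =
      (φ ((∑ m, ‖v m‖ ^ 2)⁻¹ • star (v i)) * (∑ m, φ (w m) * v m)) *
      (((∑ m, ‖v m‖ ^ 2)⁻¹ • star (v j)) * v j) := fun j => by rw [mul_assoc]
    rw [Finset.sum_congr rfl fun j _ => this j, ← Finset.mul_sum, h1, mul_one]
  rw [e1, e2, e3]
  abel

theorem pert_herm (h : IsInv φ) (v w : Fin n → ℍ[ℝ])
    (hq : φ (∑ m, φ (w m) * v m) = ∑ m, φ (w m) * v m) :
    ((pert φ v w).map φ).transpose = pert φ v w := by
  ext1 i j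
  simp only [Matrix.transpose_apply, Matrix.map_apply, pert, Matrix.of_apply]
  rw [map_sub, map_add, h.mul, h.mul, h.mul, h.mul, hq, h.invol, h.invol, mul_assoc]
  abel

/-- Main contradiction. -/
theorem no_isotropic (h : IsInv φ) (hB : HypB φ l A) (hl : 1 ≤ l) (hS : StablyBounded φ l A)
    {ω : ℝ} {b u : ℍ[ℝ]} (hb0 : b.re = 0)
    (hb2 : b * b = -1) (hb : φ b = -b) (hu2 : u * u = -1) (hub : u * b = -(b * u)) (hu : φ u = u)
    (v0 : Fin n → ℍ[ℝ]) (hv0 : v0 ≠ 0)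
    (hv : ∑ k ∈ Finset.range (l + 1), A k *ᵥ (fun i => v0 i * (ω • b) ^ k) = 0)
    (hg0 : gam φ l A (ω • b) b v0 = 0) : False := by
  obtain ⟨ε, hε, hS⟩ := hS
  have hbd : Bounded l A := hS A hB (fun k _ i j => by rw [sub_self, norm_zero]; exact hε)
  obtain ⟨g, a, ha, hga⟩ := exists_dir h hB hbd hb2 hb hv0 hv
  set lam := ω • b with hlam
  -- the family
  let V : ℝ × ℝ → Fin n → ℍ[ℝ] := fun p => v0 + p.1 • g
  let μ : ℝ × ℝ → ℍ[ℝ] := fun p => lam + p.2 • (1 : ℍ[ℝ])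
  let μ' : ℝ × ℝ → ℍ[ℝ] := fun p => lam - p.2 • (1 : ℍ[ℝ])
  let Wv : ℝ × ℝ → Fin n → ℍ[ℝ] := fun p =>
    -∑ k ∈ Finset.range (l + 1), A k *ᵥ (fun i => V p i * μ p ^ k)
  have hV : Continuous V := continuous_const.add (continuous_fst.smul continuous_const)
  have hVi : ∀ i, Continuous (fun p => V p i) := fun i => (continuous_apply i).comp hV
  have hμ : Continuous μ := continuous_const.add (continuous_snd.smul continuous_const)
  have hμ' : Continuous μ' := continuous_const.sub (continuous_snd.smul continuous_const)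
  have hW : Continuous Wv := by
    refine (continuous_finsetSum _ fun k _ => ?_).neg
    exact Continuous.matrix_mulVec continuous_const
      (continuous_pi fun i => (hVi i).mul (hμ.pow k))
  have hWi : ∀ i, Continuous (fun p => Wv p i) := fun i => (continuous_apply i).comp hW
  have hφc : Continuous φ := φ.continuous_of_finiteDimensional
  have hV0 : V (0, 0) = v0 := by simp [V]
  have hμ0 : μ (0, 0) = lam := by simp [μ]
  have hμ'0 : μ' (0, 0) = lam := by simp [μ']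
  have hW0 : Wv (0, 0) = 0 := by
    simp only [Wv]
    rw [hV0, hμ0, hv, neg_zero]
  have hN : Continuous (fun p => ∑ m, ‖V p m‖ ^ 2) :=
    continuous_finsetSum _ fun m _ => ((hVi m).norm).pow 2
  have hN0 : (∑ m, ‖V (0, 0) m‖ ^ 2) ≠ 0 := by
    rw [hV0]; exact (sum_norm_pos hv0).ne'
  have hr : ∀ j, ContinuousAt (fun p => (∑ m, ‖V p m‖ ^ 2)⁻¹ • star (V p j)) (0, 0) := by
    intro j
    exact (hN.continuousAt.inv₀ hN0).smul (continuous_star.comp (hVi j)).continuousAt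
  have hEc : ∀ i j, ContinuousAt (fun p => pert φ (V p) (Wv p) i j) (0, 0) := by
    intro i j
    have h1 : ContinuousAt (fun p => φ ((∑ m, ‖V p m‖ ^ 2)⁻¹ • star (V p i))) (0, 0) :=
      hφc.continuousAt.comp (hr i)
    have h2 : ContinuousAt (fun p => ∑ m, φ (Wv p m) * V p m) (0, 0) :=
      (continuous_finsetSum _ fun m _ => (hφc.comp (hWi m)).mul (hVi m)).continuousAt
    exact (((hWi i).continuousAt.mul (hr j)).add
      (h1.mul (hφc.comp (hWi j)).continuousAt)).sub ((h1.mul h2).mul (hr j))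
  have hE0 : ∀ i j, pert φ (V (0, 0)) (Wv (0, 0)) i j = 0 := by
    intro i j
    rw [hW0]
    simp [pert]
  have hsmall : ∀ᶠ p in nhds ((0 : ℝ), (0 : ℝ)),
      (∀ i j, ‖pert φ (V p) (Wv p) i j‖ < ε) ∧ V p ≠ 0 := by
    apply Filter.Eventually.and
    · rw [Filter.eventually_all]
      intro i
      rw [Filter.eventually_all]
      intro j
      apply (hEc i j).norm.eventually_lt_const
      change ‖pert φ (V (0, 0)) (Wv (0, 0)) i j‖ < ε
      rw [hE0, norm_zero]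
      exact hε
    · have : ∀ᶠ p in nhds ((0 : ℝ), (0 : ℝ)), V p ∈ {x : Fin n → ℍ[ℝ] | x ≠ 0} := by
        apply hV.continuousAt.eventually_mem
        rw [hV0]
        exact isOpen_ne.mem_nhds hv0
      exact this
  let f : ℝ → ℝ → ℝ := fun s d => gamd φ l A (μ (s, d)) (μ' (s, d)) b (V (s, d))
  have hf : Continuous (fun p : ℝ × ℝ => f p.1 p.2) := by
    change Continuous (fun p : ℝ × ℝ => gamd φ l A (μ p) (μ' p) b (V p))
    unfold gamd geo
    refine (continuous_finsetSum _ fun k _ => continuous_reL.comp ?_).neg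
    refine ((continuous_form (A k) hV hV).mul ?_).mul continuous_const
    exact continuous_finsetSum _ fun i _ => (hμ.pow i).mul (hμ'.pow _)
  have hf0 : ∀ s, f s 0 = (2 * a) * s + s ^ 2 * gam φ l A lam b g := by
    intro s
    have e1 : μ (s, 0) = lam := by simp [μ]
    have e2 : μ' (s, 0) = lam := by simp [μ']
    change gamd φ l A (μ (s, 0)) (μ' (s, 0)) b (V (s, 0)) = _
    rw [e1, e2, gamd_self]
    change gam φ l A lam b (v0 + s • g) = _
    rw [hga, hg0]; ring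
  obtain ⟨s, d, hd, ⟨hsm, hVne⟩, hfz⟩ := ivt_aux f hf (by positivity : 0 < 2 * a) hf0 _ hsmall
  -- the symmetric defect
  set v := V (s, d) with hvdef
  set w := Wv (s, d) with hwdef
  have hsym := phi_symm h hB (ω := ω) (d := d) hb0 hb2 hb hu2 hub hu v hfz
  have hq1 : ∑ m, φ (v m) * w m =
      -∑ k ∈ Finset.range (l + 1), form φ (A k) v v * (lam + d • 1) ^ k := by
    have e1 : ∑ m, φ (v m) * w m = (fun m => φ (v m)) ⬝ᵥ w := rfl
    rw [e1, hwdef]
    change (fun m => φ (v m)) ⬝ᵥ (-∑ k ∈ Finset.range (l + 1),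
      A k *ᵥ (fun i => v i * (lam + d • 1) ^ k)) = _
    rw [dotProduct_neg, ← sum_form]
    congr 1
    exact Finset.sum_congr rfl fun k _ => form_mul_right _ _ _ _
  have hq2 : φ (∑ m, φ (w m) * v m) = ∑ m, φ (v m) * w m := by
    rw [map_sum]
    refine Finset.sum_congr rfl fun m _ => ?_
    rw [h.mul, h.invol]
  have hq3 : φ (∑ m, φ (v m) * w m) = ∑ m, φ (v m) * w m := by
    rw [hq1, map_neg, hsym]
  have hq : φ (∑ m, φ (w m) * v m) = ∑ m, φ (w m) * v m := by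
    have e1 : ∑ m, φ (w m) * v m = φ (∑ m, φ (v m) * w m) := by
      rw [← hq2, h.invol]
    rw [hq2, e1, hq3]
  let A' : ℕ → Matrix (Fin n) (Fin n) ℍ[ℝ] := fun k => if k = 0 then A 0 + pert φ v w else A k
  have hA'0 : A' 0 = A 0 + pert φ v w := if_pos rfl
  have hA'k : ∀ k, k ≠ 0 → A' k = A k := fun k hk => if_neg hk
  have hB' : HypB φ l A' := by
    refine ⟨?_, ?_, ?_⟩
    · rw [hA'k l (by omega)]; exact hB.unit
    · intro k hk he
      rcases Nat.eq_zero_or_pos k with rfl | hk1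
      · rw [hA'0, Matrix.map_add φ (fun a b => map_add φ a b), Matrix.transpose_add, pert_herm h v w hq,
          hB.even 0 (Nat.zero_le _) he]
      · rw [hA'k k (by omega)]; exact hB.even k hk he
    · intro k hk ho
      rcases Nat.eq_zero_or_pos k with rfl | hk1
      · exact absurd ho (by decide)
      · rw [hA'k k (by omega)]; exact hB.odd k hk ho
  have hbd' : Bounded l A' := by
    apply hS A' hB'
    intro k hk i j
    rcases Nat.eq_zero_or_pos k with rfl | hk1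
    · rw [hA'0, Matrix.add_apply, add_sub_cancel_left]
      exact hsm i j
    · rw [hA'k k (by omega), sub_self, norm_zero]; exact hε
  have hEq : ∑ k ∈ Finset.range (l + 1), A' k *ᵥ (fun i => v i * (lam + d • 1) ^ k) = 0 := by
    rw [Finset.sum_range_succ', hA'0, Matrix.add_mulVec]
    have e1 : (fun i => v i * (lam + d • (1 : ℍ[ℝ])) ^ 0) = v := by funext i; simp
    have e2 : ∀ k ∈ Finset.range l, A' (k + 1) *ᵥ (fun i => v i * (lam + d • 1) ^ (k + 1)) =
        A (k + 1) *ᵥ (fun i => v i * (lam + d • 1) ^ (k + 1)) := by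
      intro k _
      rw [hA'k (k + 1) (by omega)]
    rw [Finset.sum_congr rfl e2]
    have e3 : w = -∑ k ∈ Finset.range (l + 1), A k *ᵥ (fun i => v i * (lam + d • 1) ^ k) := rfl
    rw [Finset.sum_range_succ'] at e3
    have e4 : pert φ v w *ᵥ (fun i => v i * (lam + d • (1 : ℍ[ℝ])) ^ 0) = w := by
      rw [e1]; exact pert_vec hVne w
    rw [e4, ← add_assoc]
    nth_rewrite 1 [e3]
    exact add_neg_cancel _
  have hz : ∑ k ∈ Finset.range (l + 1),
      A' k *ᵥ (fun i => (0 : Fin n → ℍ[ℝ]) i * (lam + d • 1) ^ k) = 0 := by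
    apply Finset.sum_eq_zero
    intro k _
    have : (fun i => (0 : Fin n → ℍ[ℝ]) i * (lam + d • (1 : ℍ[ℝ])) ^ k) = 0 := by funext i; simp
    rw [this, Matrix.mulVec_zero]
  have hre := (bounded_imp hbd' v 0 (lam + d • 1) hz (by simpa using hEq)).2 hVne
  have hre' : (lam + d • (1 : ℍ[ℝ])).re = d := by
    simp [hlam, hb0]
  rw [hre'] at hre
  exact hd.ne' hre

end Pool.Agent.R839.Quat
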