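import Mathlib

/-! A finitely generated subsemigroup of density zero meeting every automorphic orbit:
the subsemigroup and the words it avoids. -/

namespace Pool.Agent.R839.Semi

open FreeGroup

variable {r : ℕ}

/-- Avoiding the sixth power of the letter `c0`. -/
def Av (c0 : Fin r) (w : List (Fin r × Bool)) : Prop := ¬ (List.replicate 6 (c0, true) <:+: w)

theorem av_append {c0 c1 : Fin r} (hc : c0 ≠ c1) {V B : List (Fin r × Bool)} (hV : Av c0 V)
    (hlast : V = [] ∨ ∃ s, V.getLast? = some (c1, s)) (hB : Av c0 B) : Av c0 (V ++ B) := by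
  intro h
  rcases List.infix_append_iff.1 h with h1 | h1 | ⟨l1, l2, he, h1, h2⟩
  · exact hV h1
  · exact hB h1
  · by_cases hl : l1 = []
    · subst hl
      rw [List.nil_append] at he
      rw [← he] at h2
      exact hB h2.isInfix
    · obtain ⟨A, rfl⟩ := h1
      rcases hlast with h0 | ⟨s, hs⟩
      · exact hl (List.append_eq_nil_iff.1 h0).2
      · rw [List.getLast?_append_of_ne_nil _ hl] at hs
        have hm : (c1, s) ∈ l1 := List.mem_of_getLast? hs
        have hm2 : (c1, s) ∈ List.replicate 6 (c0, true) := by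
          rw [he]; exact List.mem_append_left _ hm
        have := List.eq_of_mem_replicate hm2
        exact hc (congrArg Prod.fst this).symm

theorem av_block {c0 c1 : Fin r} (hc : c0 ≠ c1) {B : List (Fin r × Bool)} (hlen : B.length ≤ 6)
    {s : Bool} (hlast : B.getLast? = some (c1, s)) : Av c0 B := by
  intro h
  have h1 := h.length_le
  rw [List.length_replicate] at h1
  have h2 := h.eq_of_length (by rw [List.length_replicate]; omega)
  have hm : (c1, s) ∈ List.replicate 6 (c0, true) := by
    rw [h2]; exact List.mem_of_getLast? hlast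
  have := List.eq_of_mem_replicate hm
  exact hc (congrArg Prod.fst this).symm

theorem av_short {c0 : Fin r} {B : List (Fin r × Bool)} (hlen : B.length < 6) : Av c0 B := by
  intro h
  have h1 := h.length_le
  rw [List.length_replicate] at h1
  omega

/-- The offset words. -/
def gL (c0 : Fin r) (b : Bool) : List (Fin r × Bool) :=
  if b then [] else [(c0, true), (c0, true), (c0, true), (c0, true)]

/-- The offsets. -/
def gg (c0 : Fin r) (b : Bool) : FreeGroup (Fin r) := FreeGroup.mk (gL c0 b)

/-- The generators of the subsemigroup. -/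
def gen (c0 c1 : Fin r) : Option (Fin r × Bool) × Bool × Bool → FreeGroup (Fin r)
  | (none, s, _) => (gg c0 s)⁻¹ * FreeGroup.mk [(c1, s)] * gg c0 s
  | (some a, s, s') =>
    if a.1 = c1 then (gg c0 s)⁻¹ * FreeGroup.mk [(c1, s)] * gg c0 s
    else (gg c0 s)⁻¹ * FreeGroup.mk [a, (c1, s')] * gg c0 s'

/-- The subsemigroup. -/
def MM (c0 c1 : Fin r) : Subsemigroup (FreeGroup (Fin r)) :=
  Subsemigroup.closure (Set.range (gen c0 c1))

theorem mk_cancel_left (c : Fin r) (b : Bool) (L : List (Fin r × Bool)) :
    FreeGroup.mk ((c, b) :: (c, !b) :: L) = FreeGroup.mk L :=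
  Quot.sound Red.Step.cons_not

theorem mk_cancel_left' (c : Fin r) (b : Bool) (L : List (Fin r × Bool)) :
    FreeGroup.mk ((c, !b) :: (c, b) :: L) = FreeGroup.mk L :=
  Quot.sound Red.Step.cons_not_rev

theorem junction_none {c0 c1 : Fin r} (hc : c0 ≠ c1) (s' s : Bool) :
    ∃ (B : List (Fin r × Bool)),
      gg c0 s' * ((gg c0 s)⁻¹ * FreeGroup.mk [(c1, s)] * gg c0 s) = FreeGroup.mk B * gg c0 s ∧
      B.length ≤ 6 ∧ FreeGroup.IsReduced B ∧ B.getLast? = some (c1, s) ∧
      (∀ y ∈ B.head?, y.1 = c1 → y.2 = s') := by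
  cases s' <;> cases s
  · refine ⟨[(c1, false)], by group, by simp, by simp [FreeGroup.IsReduced], by simp, ?_⟩
    intro y hy _
    simp at hy
    rw [← hy]
  · refine ⟨[(c0, true), (c0, true), (c0, true), (c0, true), (c1, true)], ?_, by simp, ?_, by simp,
      ?_⟩
    · simp only [gg, gL]
      simp [mul_mk, inv_mk]
    · simp [FreeGroup.IsReduced, hc]
    · intro y hy h
      simp at hy
      rw [← hy] at h
      exact absurd h hc
  · refine ⟨[(c0, false), (c0, false), (c0, false), (c0, false), (c1, false)], ?_, by simp, ?_,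
      by simp, ?_⟩
    · simp only [gg, gL]
      simp [mul_mk, inv_mk, invRev]
    · simp [FreeGroup.IsReduced, hc]
    · intro y hy h
      simp at hy
      rw [← hy] at h
      exact absurd h hc
  · refine ⟨[(c1, true)], by group, by simp, by simp [FreeGroup.IsReduced], by simp, ?_⟩
    intro y hy _
    simp at hy
    rw [← hy]

theorem junction_some {c0 c1 : Fin r} (hc : c0 ≠ c1) (s' s s'' : Bool) (a : Fin r × Bool)
    (ha : a.1 ≠ c1) :
    ∃ (B : List (Fin r × Bool)),
      gg c0 s' * ((gg c0 s)⁻¹ * FreeGroup.mk [a, (c1, s'')] * gg c0 s'') =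
        FreeGroup.mk B * gg c0 s'' ∧
      B.length ≤ 6 ∧ FreeGroup.IsReduced B ∧ B.getLast? = some (c1, s'') ∧
      (∀ y ∈ B.head?, y.1 = c1 → y.2 = s') := by
  obtain ⟨a1, a2⟩ := a
  simp only at ha
  have hhead : ∀ (c : Fin r) (b : Bool) (L : List (Fin r × Bool)), c ≠ c1 →
      ∀ y ∈ ((c, b) :: L).head?, y.1 = c1 → y.2 = s' := by
    intro c b L hcc y hy h
    simp at hy
    rw [← hy] at h
    exact absurd h hcc
  cases s' <;> cases s
  · exact ⟨[(a1, a2), (c1, s'')], by group, by simp, by simp [FreeGroup.IsReduced, ha], by simp,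
      hhead _ _ _ ha⟩
  · by_cases h0 : a1 = c0
    · subst h0
      cases a2
      · refine ⟨[(a1, true), (a1, true), (a1, true), (c1, s'')], ?_, by simp, ?_, by simp,
          hhead _ _ _ hc⟩
        · simp only [gg, gL]
          simp only [if_true, Bool.false_eq_true, if_false]
          rw [← one_eq_mk, inv_one, one_mul, ← mul_assoc, mul_mk]
          congr 1
          have := @Red.Step.not (Fin r) [(a1, true), (a1, true), (a1, true)] [(c1, s'')] a1 true
          exact Quot.sound (by simpa using this)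
        · simp [FreeGroup.IsReduced, hc]
      · refine ⟨[(a1, true), (a1, true), (a1, true), (a1, true), (a1, true), (c1, s'')], ?_,
          by simp, ?_, by simp, hhead _ _ _ hc⟩
        · simp only [gg, gL]
          simp [mul_mk, inv_mk, ← mul_assoc]
        · simp [FreeGroup.IsReduced, hc]
    · refine ⟨[(c0, true), (c0, true), (c0, true), (c0, true), (a1, a2), (c1, s'')], ?_, by simp, ?_,
        by simp, hhead _ _ _ hc⟩
      · simp only [gg, gL]
        simp [mul_mk, inv_mk, ← mul_assoc]
      · simp [FreeGroup.IsReduced, ha, Ne.symm h0]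
  · by_cases h0 : a1 = c0
    · subst h0
      cases a2
      · refine ⟨[(a1, false), (a1, false), (a1, false), (a1, false), (a1, false), (c1, s'')], ?_,
          by simp, ?_, by simp, hhead _ _ _ hc⟩
        · simp only [gg, gL]
          simp [mul_mk, inv_mk, invRev, ← mul_assoc]
        · simp [FreeGroup.IsReduced, hc]
      · refine ⟨[(a1, false), (a1, false), (a1, false), (c1, s'')], ?_, by simp, ?_, by simp,
          hhead _ _ _ hc⟩
        · simp only [gg, gL]
          simp only [if_true, Bool.false_eq_true, if_false]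
          rw [← one_eq_mk, one_mul]
          congr 1
          rw [inv_mk, mul_mk]
          have := @Red.Step.not (Fin r) [(a1, false), (a1, false), (a1, false)] [(c1, s'')] a1 false
          exact Quot.sound (by simpa [invRev] using this)
        · simp [FreeGroup.IsReduced, hc]
    · refine ⟨[(c0, false), (c0, false), (c0, false), (c0, false), (a1, a2), (c1, s'')], ?_,
        by simp, ?_, by simp, hhead _ _ _ hc⟩
      · simp only [gg, gL]
        simp [mul_mk, inv_mk, invRev, ← mul_assoc]
      · simp [FreeGroup.IsReduced, ha, Ne.symm h0]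
  · exact ⟨[(a1, a2), (c1, s'')], by group, by simp, by simp [FreeGroup.IsReduced, ha], by simp,
      hhead _ _ _ ha⟩

/-- The shape of the elements of the subsemigroup. -/
def Gd (c0 c1 : Fin r) (u : FreeGroup (Fin r)) (s : Bool) : Prop :=
  ∃ V : List (Fin r × Bool), FreeGroup.IsReduced V ∧ Av c0 V ∧
    ((V = [] ∧ s = true) ∨ V.getLast? = some (c1, s)) ∧ u = FreeGroup.mk V * gg c0 s

theorem Gd_step {c0 c1 : Fin r} (hc : c0 ≠ c1) {u γ : FreeGroup (Fin r)} {s s'' : Bool}
    (hu : Gd c0 c1 u s)
    (hγ : ∃ (B : List (Fin r × Bool)),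
      gg c0 s * γ = FreeGroup.mk B * gg c0 s'' ∧
      B.length ≤ 6 ∧ FreeGroup.IsReduced B ∧ B.getLast? = some (c1, s'') ∧
      (∀ y ∈ B.head?, y.1 = c1 → y.2 = s)) : Gd c0 c1 (u * γ) s'' := by
  obtain ⟨V, hV1, hV2, hV3, rfl⟩ := hu
  obtain ⟨B, hB1, hB2, hB3, hB4, hB5⟩ := hγ
  refine ⟨V ++ B, ?_, ?_, ?_, ?_⟩
  · unfold FreeGroup.IsReduced at hV1 hB3 ⊢
    rw [List.isChain_append]
    refine ⟨hV1, hB3, ?_⟩
    intro x hx y hy hxy
    rcases hV3 with ⟨h0, _⟩ | hl
    · rw [h0] at hx
      simp at hx
    · rw [hl] at hx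
      have hx' : (c1, s) = x := by simpa using hx
      subst hx'
      exact (hB5 y hy hxy.symm).symm
  · apply av_append hc hV2
    · rcases hV3 with ⟨h0, _⟩ | hl
      · exact Or.inl h0
      · exact Or.inr ⟨s, hl⟩
    · exact av_block hc hB2 hB4
  · right
    have hne : B ≠ [] := by
      rintro rfl
      simp at hB4
    rw [List.getLast?_append_of_ne_nil _ hne]
    exact hB4
  · rw [mul_assoc, hB1, ← mul_mk, mul_assoc]

theorem MM_Gd {c0 c1 : Fin r} (hc : c0 ≠ c1) {m : FreeGroup (Fin r)} (hm : m ∈ MM c0 c1) :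
    ∀ u s, Gd c0 c1 u s → ∃ s'', Gd c0 c1 (u * m) s'' := by
  unfold MM at hm
  induction hm using Subsemigroup.closure_induction with
  | mem x hx =>
    obtain ⟨⟨o, s1, s2⟩, rfl⟩ := hx
    intro u s hu
    cases o with
    | none => exact ⟨s1, Gd_step hc hu (junction_none hc s s1)⟩
    | some a =>
      by_cases ha : a.1 = c1
      · simp only [gen, ha, if_true]
        exact ⟨s1, Gd_step hc hu (junction_none hc s s1)⟩
      · simp only [gen, ha, if_false]
        exact ⟨s2, Gd_step hc hu (junction_some hc s s1 s2 a ha)⟩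
  | mul x y _ _ hx hy =>
    intro u s hu
    obtain ⟨s', h'⟩ := hx u s hu
    obtain ⟨s'', h''⟩ := hy _ s' h'
    exact ⟨s'', by rw [← mul_assoc]; exact h''⟩

/-- The reduced words of the elements of the subsemigroup avoid the sixth power. -/
theorem MM_avoid {c0 c1 : Fin r} (hc : c0 ≠ c1) {m : FreeGroup (Fin r)} (hm : m ∈ MM c0 c1) :
    Av c0 m.toWord := by
  have h1 : Gd c0 c1 1 true := by
    refine ⟨[], by simp [FreeGroup.IsReduced], av_short (by simp), Or.inl ⟨rfl, rfl⟩, ?_⟩
    simp [gg, gL, ← one_eq_mk]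
  obtain ⟨s, V, hV1, hV2, hV3, he⟩ := MM_Gd hc hm 1 true h1
  rw [one_mul] at he
  have hred : FreeGroup.IsReduced (V ++ gL c0 s) := by
    unfold FreeGroup.IsReduced at hV1 ⊢
    rw [List.isChain_append]
    refine ⟨hV1, ?_, ?_⟩
    · cases s <;> simp [gL]
    · intro x hx y hy hxy
      cases s
      · rcases hV3 with ⟨_, h⟩ | hl
        · exact absurd h (by simp)
        · rw [hl] at hx
          have hx' : (c1, false) = x := by simpa using hx
          simp [gL] at hy
          rw [← hx', ← hy] at hxy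
          exact absurd hxy.symm hc
      · simp [gL] at hy
  have hw : m.toWord = V ++ gL c0 s := by
    rw [he, gg, mul_mk, toWord_mk, hred.reduce_eq]
  rw [hw]
  apply av_append hc hV2
  · rcases hV3 with ⟨h0, _⟩ | hl
    · exact Or.inl h0
    · exact Or.inr ⟨s, hl⟩
  · apply av_short
    cases s <;> simp [gL]

end Pool.Agent.R839.Semi
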