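import Pool.Agent.R839.SemiA

/-! Every non-trivial element is carried by an automorphism into the subsemigroup. -/

namespace Pool.Agent.R839.Semi

open FreeGroup

variable {r : ℕ}

theorem gen_mem {c0 c1 : Fin r} (o : Option (Fin r × Bool) × Bool × Bool) :
    gen c0 c1 o ∈ MM c0 c1 := Subsemigroup.subset_closure ⟨o, rfl⟩

/-- The sign of an integer exponent. -/
def sgn (e : ℤ) : Bool := decide (0 < e)

/-- The value of a list of letters and exponents. -/
def val (c1 : Fin r) (P : List ((Fin r × Bool) × ℤ)) : FreeGroup (Fin r) :=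
  (P.map (fun q => FreeGroup.mk [q.1] * (FreeGroup.of c1) ^ q.2)).prod

theorem val_append (c1 : Fin r) (P P' : List ((Fin r × Bool) × ℤ)) :
    val c1 (P ++ P') = val c1 P * val c1 P' := by
  simp [val]

theorem val_cons (c1 : Fin r) (q : (Fin r × Bool) × ℤ) (P : List ((Fin r × Bool) × ℤ)) :
    val c1 (q :: P) = FreeGroup.mk [q.1] * (FreeGroup.of c1) ^ q.2 * val c1 P := by
  simp [val]

theorem mem_pow {c0 c1 : Fin r} (s0 : Bool) (a : Fin r × Bool) (ha : a.1 ≠ c1) (s : Bool) (k : ℕ) :
    (gg c0 s0)⁻¹ * (FreeGroup.mk [a] * (FreeGroup.mk [(c1, s)]) ^ (k + 1)) * gg c0 s ∈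
      MM c0 c1 := by
  induction k with
  | zero =>
    have := gen_mem (c0 := c0) (c1 := c1) (some a, s0, s)
    simp only [gen, ha, if_false] at this
    rw [zero_add, pow_one, mul_mk]
    exact this
  | succ k ih =>
    have h1 := gen_mem (c0 := c0) (c1 := c1) (none, s, s)
    simp only [gen] at h1
    have h2 := (MM c0 c1).mul_mem ih h1
    have e : (gg c0 s0)⁻¹ * (FreeGroup.mk [a] * (FreeGroup.mk [(c1, s)]) ^ (k + 1 + 1)) * gg c0 s =
        (gg c0 s0)⁻¹ * (FreeGroup.mk [a] * (FreeGroup.mk [(c1, s)]) ^ (k + 1)) * gg c0 s *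
          ((gg c0 s)⁻¹ * FreeGroup.mk [(c1, s)] * gg c0 s) := by
      rw [pow_succ]
      group
    rw [e]
    exact h2

theorem zpow_letter (c1 : Fin r) (e : ℤ) (he : e ≠ 0) :
    (FreeGroup.of c1) ^ e = (FreeGroup.mk [(c1, sgn e)]) ^ ((e.natAbs - 1) + 1) := by
  have h1 : e.natAbs - 1 + 1 = e.natAbs := by omega
  rw [h1]
  rcases lt_or_gt_of_ne he with h | h
  · have hs : sgn e = false := by simp [sgn]; omega
    rw [hs]
    have h2 : FreeGroup.mk [(c1, false)] = (FreeGroup.of c1)⁻¹ := by
      rw [FreeGroup.of, inv_mk]; rfl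
    rw [h2, inv_pow, ← zpow_natCast, ← zpow_neg]
    congr 1
    omega
  · have hs : sgn e = true := by simp [sgn]; omega
    rw [hs]
    have h2 : FreeGroup.mk [(c1, true)] = FreeGroup.of c1 := rfl
    rw [h2, ← zpow_natCast]
    congr 1
    omega

/-- The state at the end of a list. -/
def es (P : List ((Fin r × Bool) × ℤ)) : Bool :=
  match P.getLast? with
  | some q => sgn q.2
  | none => true

theorem val_mem {c0 c1 : Fin r} (P : List ((Fin r × Bool) × ℤ)) (hP : P ≠ [])
    (h1 : ∀ q ∈ P, q.1.1 ≠ c1) (h2 : ∀ q ∈ P, q.2 ≠ 0) (s0 : Bool) :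
    (gg c0 s0)⁻¹ * val c1 P * gg c0 (es P) ∈ MM c0 c1 := by
  induction P generalizing s0 with
  | nil => exact absurd rfl hP
  | cons q P ih =>
    have hq1 := h1 q List.mem_cons_self
    have hq2 := h2 q List.mem_cons_self
    have hq := mem_pow (c0 := c0) s0 q.1 hq1 (sgn q.2) (q.2.natAbs - 1)
    rw [← zpow_letter c1 q.2 hq2] at hq
    by_cases h0 : P = []
    · subst h0
      have e1 : es [q] = sgn q.2 := rfl
      rw [e1, val_cons]
      have e2 : val c1 ([] : List ((Fin r × Bool) × ℤ)) = 1 := by simp [val]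
      rw [e2, mul_one]
      exact hq
    · have hi := ih h0 (fun q hq => h1 q (List.mem_cons_of_mem _ hq))
        (fun q hq => h2 q (List.mem_cons_of_mem _ hq)) (sgn q.2)
      have e1 : es (q :: P) = es P := by
        unfold es
        rw [List.getLast?_cons]
        cases hl : P.getLast? with
        | none => exact absurd (List.getLast?_eq_none_iff.1 hl) h0
        | some z => rfl
      rw [e1, val_cons]
      have h3 := (MM c0 c1).mul_mem hq hi
      have e : (gg c0 s0)⁻¹ * (FreeGroup.mk [q.1] * (FreeGroup.of c1) ^ q.2 * val c1 P) *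
          gg c0 (es P) =
          (gg c0 s0)⁻¹ * (FreeGroup.mk [q.1] * (FreeGroup.of c1) ^ q.2) * gg c0 (sgn q.2) *
          ((gg c0 (sgn q.2))⁻¹ * val c1 P * gg c0 (es P)) := by
        group
      rw [e]
      exact h3

/-- The twist. -/
noncomputable def tws (c1 : Fin r) (N : ℤ) : FreeGroup (Fin r) →* FreeGroup (Fin r) :=
  FreeGroup.lift (fun i => if i = c1 then FreeGroup.of c1
    else (FreeGroup.of c1) ^ (N * ((i.val : ℤ) + 1)) * FreeGroup.of i *
      (FreeGroup.of c1) ^ (N * ((i.val : ℤ) + 1)))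

theorem tws_c1 (c1 : Fin r) (N : ℤ) : tws c1 N (FreeGroup.of c1) = FreeGroup.of c1 := by
  simp [tws]

theorem tws_of (c1 : Fin r) (N : ℤ) (i : Fin r) (hi : i ≠ c1) : tws c1 N (FreeGroup.of i) =
    (FreeGroup.of c1) ^ (N * ((i.val : ℤ) + 1)) * FreeGroup.of i *
      (FreeGroup.of c1) ^ (N * ((i.val : ℤ) + 1)) := by
  simp [tws, hi]

theorem tws_comp (c1 : Fin r) (N : ℤ) : (tws c1 N).comp (tws c1 (-N)) = MonoidHom.id _ := by
  ext i
  simp only [MonoidHom.comp_apply, MonoidHom.id_apply]
  by_cases h : i = c1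
  · subst h
    rw [tws_c1, tws_c1]
  · rw [tws_of c1 (-N) i h, _root_.map_mul, _root_.map_mul, _root_.map_zpow, tws_c1,
      tws_of c1 N i h]
    group

/-- The twist as an automorphism. -/
noncomputable def twsE (c1 : Fin r) (N : ℤ) : FreeGroup (Fin r) ≃* FreeGroup (Fin r) :=
  MonoidHom.toMulEquiv (tws c1 N) (tws c1 (-N))
    (by have := tws_comp c1 (-N); rwa [neg_neg] at this) (tws_comp c1 N)

theorem twsE_apply (c1 : Fin r) (N : ℤ) (x : FreeGroup (Fin r)) : twsE c1 N x = tws c1 N x := rfl

/-- The shift of a letter. -/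
def shf (a : Fin r × Bool) : ℤ := (if a.2 then 1 else -1) * ((a.1.val : ℤ) + 1)

theorem tws_letter (c1 : Fin r) (N : ℤ) (a : Fin r × Bool) (ha : a.1 ≠ c1) :
    tws c1 N (FreeGroup.mk [a]) = (FreeGroup.of c1) ^ (N * shf a) * FreeGroup.mk [a] *
      (FreeGroup.of c1) ^ (N * shf a) := by
  obtain ⟨i, b⟩ := a
  cases b
  · have h2 : FreeGroup.mk [(i, false)] = (FreeGroup.of i)⁻¹ := by
      rw [FreeGroup.of, inv_mk]; rfl
    rw [h2, _root_.map_inv, tws_of c1 N i ha]
    simp only [shf, Bool.false_eq_true, if_false]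
    group
  · have h2 : FreeGroup.mk [(i, true)] = FreeGroup.of i := rfl
    rw [h2, tws_of c1 N i ha]
    simp only [shf, if_true, one_mul]

/-- The shift of the first letter of a list. -/
def nx (P : List ((Fin r × Bool) × ℤ)) (e : ℤ) : ℤ :=
  match P with
  | [] => e
  | q :: _ => shf q.1

/-- The twisted list. -/
def tw (N : ℤ) : List ((Fin r × Bool) × ℤ) → ℤ → List ((Fin r × Bool) × ℤ)
  | [], _ => []
  | q :: P, e => (q.1, N * shf q.1 + q.2 + N * nx P e) :: tw N P e

theorem tws_val (c1 : Fin r) (N : ℤ) (P : List ((Fin r × Bool) × ℤ)) (e : ℤ)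
    (h1 : ∀ q ∈ P, q.1.1 ≠ c1) :
    tws c1 N (val c1 P) = (FreeGroup.of c1) ^ (N * nx P e) * val c1 (tw N P e) *
      (FreeGroup.of c1) ^ (-(N * e)) := by
  induction P with
  | nil =>
    simp [val, nx, tw]
  | cons q P ih =>
    rw [val_cons, _root_.map_mul, _root_.map_mul, _root_.map_zpow, tws_c1,
      ih (fun q hq => h1 q (List.mem_cons_of_mem _ hq)),
      tws_letter c1 N q.1 (h1 q List.mem_cons_self)]
    simp only [tw, val_cons, nx]
    rw [zpow_add, zpow_add]
    simp only [mul_assoc]

theorem shf_add_eq_zero {a b : Fin r × Bool} (h : shf a + shf b = 0) : b = (a.1, !a.2) := by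
  obtain ⟨i, s⟩ := a
  obtain ⟨j, s'⟩ := b
  simp only [shf] at h
  have hi : i = j := by
    apply Fin.ext
    cases s <;> cases s' <;> simp at h <;> omega
  subst hi
  cases s <;> cases s' <;> simp at h ⊢ <;> omega

/-- The condition that makes the twisted exponents non-zero. -/
def Ok (P : List ((Fin r × Bool) × ℤ)) (z : Fin r × Bool) : Prop :=
  match P with
  | [] => True
  | [q] => q.2 = 0 → z ≠ (q.1.1, !q.1.2)
  | q :: q' :: P => (q.2 = 0 → q'.1 ≠ (q.1.1, !q.1.2)) ∧ Ok (q' :: P) z

theorem tw_ne_zero (N : ℤ) (P : List ((Fin r × Bool) × ℤ)) (z : Fin r × Bool)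
    (hN : ∀ q ∈ P, |q.2| < N) (hok : Ok P z) : ∀ q ∈ tw N P (shf z), q.2 ≠ 0 := by
  have key : ∀ (q : (Fin r × Bool) × ℤ) (y : Fin r × Bool), |q.2| < N →
      (q.2 = 0 → y ≠ (q.1.1, !q.1.2)) → N * shf q.1 + q.2 + N * shf y ≠ 0 := by
    intro q y hq hy h0
    have hd : N ∣ q.2 := ⟨-(shf q.1 + shf y), by linarith⟩
    have hz : q.2 = 0 := Int.eq_zero_of_abs_lt_dvd hd hq
    apply hy hz
    rw [hz] at h0 hq
    have hNpos : 0 < N := lt_of_le_of_lt (abs_nonneg _) hq
    have h1 : N * (shf q.1 + shf y) = 0 := by linarith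
    rcases mul_eq_zero.1 h1 with h | h
    · omega
    · exact shf_add_eq_zero h
  induction P with
  | nil => simp [tw]
  | cons q P ih =>
    cases P with
    | nil =>
      intro x hx
      simp only [tw, nx, List.mem_singleton] at hx
      subst hx
      exact key q z (hN q List.mem_cons_self) hok
    | cons q' P =>
      intro x hx
      rw [tw] at hx
      rcases List.mem_cons.1 hx with h | h
      · subst h
        exact key q q'.1 (hN q List.mem_cons_self) hok.1
      · exact ih (fun q hq => hN q (List.mem_cons_of_mem _ hq)) hok.2 x h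

theorem tw_letters (N : ℤ) (P : List ((Fin r × Bool) × ℤ)) (e : ℤ) {c1 : Fin r}
    (h1 : ∀ q ∈ P, q.1.1 ≠ c1) : ∀ q ∈ tw N P e, q.1.1 ≠ c1 := by
  induction P with
  | nil => simp [tw]
  | cons q P ih =>
    intro x hx
    rw [tw] at hx
    rcases List.mem_cons.1 hx with h | h
    · subst h; exact h1 q List.mem_cons_self
    · exact ih (fun q hq => h1 q (List.mem_cons_of_mem _ hq)) x h

theorem exists_val (c1 : Fin r) (w : FreeGroup (Fin r)) :
    ∃ (j : ℤ) (P : List ((Fin r × Bool) × ℤ)), (∀ q ∈ P, q.1.1 ≠ c1) ∧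
      w = (FreeGroup.of c1) ^ j * val c1 P := by
  have key : ∀ L : List (Fin r × Bool), ∃ (j : ℤ) (P : List ((Fin r × Bool) × ℤ)),
      (∀ q ∈ P, q.1.1 ≠ c1) ∧ FreeGroup.mk L = (FreeGroup.of c1) ^ j * val c1 P := by
    intro L
    induction L with
    | nil => exact ⟨0, [], by simp, by simp [val, one_eq_mk]⟩
    | cons x L ih =>
      obtain ⟨j, P, h1, h2⟩ := ih
      have e : FreeGroup.mk (x :: L) = FreeGroup.mk [x] * FreeGroup.mk L := by
        rw [mul_mk]; rfl
      obtain ⟨i, b⟩ := x
      by_cases hi : i = c1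
      · subst hi
        cases b
        · refine ⟨-1 + j, P, h1, ?_⟩
          have h3 : FreeGroup.mk [(i, false)] = (FreeGroup.of i)⁻¹ := by
            rw [FreeGroup.of, inv_mk]; rfl
          rw [e, h2, h3, zpow_add, zpow_neg_one, mul_assoc]
        · refine ⟨1 + j, P, h1, ?_⟩
          have h3 : FreeGroup.mk [(i, true)] = FreeGroup.of i := rfl
          rw [e, h2, h3, zpow_add, zpow_one, mul_assoc]
      · refine ⟨0, ((i, b), j) :: P, ?_, ?_⟩
        · intro q hq
          rcases List.mem_cons.1 hq with h | h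
          · subst h; exact hi
          · exact h1 q h
        · rw [e, h2, val_cons, zpow_zero, one_mul, mul_assoc]
  obtain ⟨j, P, h1, h2⟩ := key w.toWord
  exact ⟨j, P, h1, by rw [← h2, mk_toWord]⟩

theorem append_exp (c1 : Fin r) (P : List ((Fin r × Bool) × ℤ)) (hP : P ≠ []) (m : ℤ)
    (h1 : ∀ q ∈ P, q.1.1 ≠ c1) : ∃ P' : List ((Fin r × Bool) × ℤ), P'.length = P.length ∧
      (∀ q ∈ P', q.1.1 ≠ c1) ∧ val c1 P' = val c1 P * (FreeGroup.of c1) ^ m := by
  obtain ⟨P0, q, rfl⟩ : ∃ P0 q, P = P0 ++ [q] :=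
    ⟨P.dropLast, P.getLast hP, (List.dropLast_append_getLast hP).symm⟩
  refine ⟨P0 ++ [(q.1, q.2 + m)], by simp, ?_, ?_⟩
  · intro x hx
    rw [List.mem_append, List.mem_singleton] at hx
    rcases hx with h | h
    · exact h1 x (List.mem_append_left _ h)
    · subst h
      exact h1 q (by simp)
  · simp [val, zpow_add, mul_assoc]

theorem isConj_mul_comm' (a b : FreeGroup (Fin r)) : IsConj (a * b) (b * a) := by
  rw [isConj_iff]
  exact ⟨a⁻¹, by group⟩

/-- If two consecutive letters cancel, the list can be shortened. -/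
theorem shorten (c1 : Fin r) (w : FreeGroup (Fin r))
    (hw : ∀ j : ℤ, ¬ IsConj w ((FreeGroup.of c1) ^ j))
    (A B : List ((Fin r × Bool) × ℤ)) (a : Fin r × Bool) (m : ℤ)
    (h1 : ∀ q ∈ A ++ (a, 0) :: ((a.1, !a.2), m) :: B, q.1.1 ≠ c1)
    (hconj : IsConj w (val c1 (A ++ (a, 0) :: ((a.1, !a.2), m) :: B))) :
    ∃ P' : List ((Fin r × Bool) × ℤ), P' ≠ [] ∧ (∀ q ∈ P', q.1.1 ≠ c1) ∧
      IsConj w (val c1 P') ∧ P'.length < (A ++ (a, 0) :: ((a.1, !a.2), m) :: B).length := by
  have e1 : val c1 (A ++ (a, 0) :: ((a.1, !a.2), m) :: B) =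
      val c1 A * ((FreeGroup.of c1) ^ m * val c1 B) := by
    rw [val_append, val_cons, val_cons]
    simp only [zpow_zero, mul_one]
    have h3 : FreeGroup.mk [a] * FreeGroup.mk [(a.1, !a.2)] = 1 := by
      rw [mul_mk, one_eq_mk]
      exact Quot.sound (Red.Step.cons_not (L := []))
    rw [← mul_assoc (FreeGroup.mk [a]), ← mul_assoc (FreeGroup.mk [a]), h3, one_mul]
  have h2 : IsConj w (val c1 (B ++ A) * (FreeGroup.of c1) ^ m) := by
    refine hconj.trans ?_
    rw [e1, val_append, isConj_iff]
    exact ⟨val c1 B, by group⟩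
  by_cases h0 : B ++ A = []
  · exfalso
    rw [h0] at h2
    have e2 : val c1 ([] : List ((Fin r × Bool) × ℤ)) = 1 := by simp [val]
    rw [e2, one_mul] at h2
    exact hw m h2
  · obtain ⟨P', hl, hp, hv⟩ := append_exp c1 (B ++ A) h0 m (by
      intro q hq
      apply h1 q
      rw [List.mem_append] at hq ⊢
      rcases hq with h | h
      · right
        exact List.mem_cons_of_mem _ (List.mem_cons_of_mem _ h)
      · left; exact h)
    refine ⟨P', ?_, hp, ?_, ?_⟩
    · rintro rfl
      rw [List.length_nil] at hl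
      exact h0 (List.eq_nil_of_length_eq_zero hl.symm)
    · rw [hv]; exact h2
    · rw [hl]
      simp only [List.length_append, List.length_cons]
      omega

theorem ok_of_min (P : List ((Fin r × Bool) × ℤ)) (z : Fin r × Bool)
    (hmid : ∀ A B a m, P ≠ A ++ (a, 0) :: ((a.1, !a.2), m) :: B)
    (hend : ∀ q ∈ P.getLast?, q.2 = 0 → z ≠ (q.1.1, !q.1.2)) : Ok P z := by
  induction P with
  | nil => trivial
  | cons q P ih =>
    cases P with
    | nil =>
      intro h
      exact hend q (by simp) h
    | cons q' P =>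
      refine ⟨?_, ih ?_ ?_⟩
      · intro h0 h
        apply hmid [] P q.1 q'.2
        obtain ⟨q1, q2⟩ := q
        obtain ⟨q1', q2'⟩ := q'
        simp only at h0 h
        subst h0 h
        rfl
      · intro A B a m h
        apply hmid (q :: A) B a m
        rw [h]; rfl
      · intro x hx
        apply hend x
        rw [List.getLast?_cons_cons]
        exact hx

/-- Every non-trivial element is the image under an automorphism of an element of the
subsemigroup. -/
theorem covered {c0 c1 : Fin r} (w : FreeGroup (Fin r)) (hw1 : w ≠ 1) :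
    ∃ (ψ : FreeGroup (Fin r) ≃* FreeGroup (Fin r)) (m : FreeGroup (Fin r)), m ∈ MM c0 c1 ∧
      ψ m = w := by
  have fin : ∀ (φ : FreeGroup (Fin r) ≃* FreeGroup (Fin r)) (m v : FreeGroup (Fin r)),
      m ∈ MM c0 c1 → IsConj m (φ v) → IsConj w v →
      ∃ (ψ : FreeGroup (Fin r) ≃* FreeGroup (Fin r)) (m : FreeGroup (Fin r)), m ∈ MM c0 c1 ∧
      ψ m = w := by
    intro φ m v hm h1 h2
    have h3 : IsConj (φ.symm m) v := by
      have := φ.symm.toMonoidHom.map_isConj h1
      simpa using this
    obtain ⟨c, hc⟩ := isConj_iff.1 (h3.trans h2.symm)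
    refine ⟨φ.symm.trans (MulAut.conj c), m, hm, ?_⟩
    rw [MulEquiv.trans_apply, MulAut.conj_apply]
    exact hc
  have tpow : ∀ k : ℕ, (FreeGroup.of c1) ^ (k + 1) ∈ MM c0 c1 := by
    intro k
    have h1 := gen_mem (c0 := c0) (c1 := c1) (none, true, true)
    have e : gen c0 c1 (none, true, true) = FreeGroup.of c1 := by
      simp [gen, gg, gL, FreeGroup.of, ← one_eq_mk]
    rw [e] at h1
    induction k with
    | zero => simpa using h1
    | succ k ih =>
      rw [pow_succ]
      exact (MM c0 c1).mul_mem ih h1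
  by_cases hT : ∃ j : ℤ, IsConj w ((FreeGroup.of c1) ^ j)
  · obtain ⟨j, hj⟩ := hT
    have hj0 : j ≠ 0 := by
      rintro rfl
      rw [zpow_zero] at hj
      exact hw1 (isConj_one_left.1 hj)
    rcases lt_or_gt_of_ne hj0 with h | h
    · -- negative power: invert the letter
      let f : FreeGroup (Fin r) →* FreeGroup (Fin r) :=
        FreeGroup.lift (fun i => if i = c1 then (FreeGroup.of c1)⁻¹ else FreeGroup.of i)
      have hf1 : f (FreeGroup.of c1) = (FreeGroup.of c1)⁻¹ := by simp [f]
      have hff : f.comp f = MonoidHom.id _ := by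
        ext i
        simp only [MonoidHom.comp_apply, MonoidHom.id_apply]
        by_cases hi : i = c1
        · subst hi
          rw [hf1, _root_.map_inv, hf1, inv_inv]
        · have : f (FreeGroup.of i) = FreeGroup.of i := by simp [f, hi]
          rw [this, this]
      let φ : FreeGroup (Fin r) ≃* FreeGroup (Fin r) := MonoidHom.toMulEquiv f f hff hff
      refine fin φ ((FreeGroup.of c1) ^ ((-j).toNat - 1 + 1)) _ (tpow _) ?_ hj
      have e : φ ((FreeGroup.of c1) ^ j) = (FreeGroup.of c1) ^ ((-j).toNat - 1 + 1) := by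
        show f ((FreeGroup.of c1) ^ j) = _
        rw [_root_.map_zpow, hf1, inv_zpow, ← zpow_neg, ← zpow_natCast]
        congr 1
        omega
      rw [e]
    · refine fin (MulEquiv.refl _) ((FreeGroup.of c1) ^ (j.toNat - 1 + 1)) _ (tpow _) ?_ hj
      have e : (FreeGroup.of c1) ^ j = (FreeGroup.of c1) ^ (j.toNat - 1 + 1) := by
        rw [← zpow_natCast]
        congr 1
        omega
      rw [MulEquiv.refl_apply, e]
  · push Not at hT
    -- a shortest list
    have hex : ∃ n, ∃ P : List ((Fin r × Bool) × ℤ), P.length = n ∧ P ≠ [] ∧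
        (∀ q ∈ P, q.1.1 ≠ c1) ∧ IsConj w (val c1 P) := by
      obtain ⟨j, P, h1, h2⟩ := exists_val c1 w
      have h3 : IsConj w (val c1 P * (FreeGroup.of c1) ^ j) := by
        rw [h2]; exact isConj_mul_comm' _ _
      by_cases h0 : P = []
      · subst h0
        exfalso
        apply hT j
        simpa [val] using h3
      · obtain ⟨P', hl, hp, hv⟩ := append_exp c1 P h0 j h1
        refine ⟨P'.length, P', rfl, ?_, hp, ?_⟩
        · rintro rfl
          rw [List.length_nil] at hl
          exact h0 (List.eq_nil_of_length_eq_zero hl.symm)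
        · rw [hv]; exact h3
    classical
    obtain ⟨P, hlen, hne, hlet, hconj⟩ := Nat.find_spec hex
    have hmin : ∀ P' : List ((Fin r × Bool) × ℤ), P' ≠ [] → (∀ q ∈ P', q.1.1 ≠ c1) →
        IsConj w (val c1 P') → P.length ≤ P'.length := by
      intro P' h1 h2 h3
      rw [hlen]
      exact Nat.find_min' hex ⟨P', rfl, h1, h2, h3⟩
    obtain ⟨q0, C, rfl⟩ : ∃ q C, P = q :: C := by
      cases P with
      | nil => exact absurd rfl hne
      | cons q C => exact ⟨q, C, rfl⟩
    have hok : Ok (q0 :: C) q0.1 := by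
      apply ok_of_min
      · intro A B a m h
        rw [h] at hlet hconj hmin
        obtain ⟨P', h1, h2, h3, h4⟩ := shorten c1 w hT A B a m hlet hconj
        have := hmin P' h1 h2 h3
        omega
      · intro q hq h0 h
        by_cases hC : C = []
        · subst hC
          simp at hq
          subst hq
          have := congrArg Prod.snd h
          simp at this
        · obtain ⟨D, y, rfl⟩ : ∃ D y, C = D ++ [y] :=
            ⟨C.dropLast, C.getLast hC, (List.dropLast_append_getLast hC).symm⟩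
          have hy : y = q := by
            have : (q0 :: (D ++ [y])).getLast? = some y := by
              rw [← List.cons_append, List.getLast?_append_of_ne_nil _ (by simp)]
              simp
            rw [this] at hq
            simpa using hq
          subst hy
          have e1 : IsConj w (val c1 (y :: q0 :: D)) := by
            refine hconj.trans ?_
            have e2 : val c1 (q0 :: (D ++ [y])) = val c1 (q0 :: D) * val c1 [y] := by
              rw [← List.cons_append, val_append]
            have e3 : val c1 (y :: q0 :: D) = val c1 [y] * val c1 (q0 :: D) := by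
              rw [← val_append]; rfl
            rw [e2, e3]
            exact isConj_mul_comm' _ _
          have hlet' : ∀ q ∈ y :: q0 :: D, q.1.1 ≠ c1 := by
            intro x hx
            apply hlet x
            simp only [List.mem_cons, List.mem_append, List.mem_singleton] at hx ⊢
            tauto
          have e4 : y :: q0 :: D = [] ++ (y.1, 0) :: ((y.1.1, !y.1.2), q0.2) :: D := by
            obtain ⟨y1, y2⟩ := y
            obtain ⟨q1, q2⟩ := q0
            simp only at h0 h
            subst h0 h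
            rfl
          rw [e4] at e1 hlet'
          obtain ⟨P', h1, h2, h3, h4⟩ := shorten c1 w hT [] D y.1 q0.2 hlet' e1
          have := hmin P' h1 h2 h3
          simp only [List.nil_append, List.length_cons, List.length_append,
            List.length_nil] at h4 this
          omega
    -- a large twist
    obtain ⟨N, hN⟩ : ∃ N : ℤ, ∀ q ∈ q0 :: C, |q.2| < N := by
      have : ∀ L : List ((Fin r × Bool) × ℤ), ∃ N : ℤ, ∀ q ∈ L, |q.2| < N := by
        intro L
        induction L with
        | nil => exact ⟨0, by simp⟩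
        | cons x L ih =>
          obtain ⟨N, hN⟩ := ih
          refine ⟨max N (|x.2| + 1), ?_⟩
          intro q hq
          rcases List.mem_cons.1 hq with h | h
          · subst h
            exact lt_of_lt_of_le (lt_add_one _) (le_max_right _ _)
          · exact lt_of_lt_of_le (hN q h) (le_max_left _ _)
      exact this _
    have hnz := tw_ne_zero N (q0 :: C) q0.1 hN hok
    have hlt := tw_letters N (q0 :: C) (shf q0.1) hlet
    have htne : tw N (q0 :: C) (shf q0.1) ≠ [] := by
      rw [tw]; exact List.cons_ne_nil _ _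
    have hmem := val_mem (c0 := c0) (c1 := c1) _ htne hlt hnz (es (tw N (q0 :: C) (shf q0.1)))
    refine fin (twsE c1 N) _ (val c1 (q0 :: C)) hmem ?_ hconj
    rw [twsE_apply, tws_val c1 N (q0 :: C) (shf q0.1) hlet]
    have e : nx (q0 :: C) (shf q0.1) = shf q0.1 := rfl
    rw [e, isConj_iff]
    refine ⟨(FreeGroup.of c1) ^ (N * shf q0.1) * gg c0 (es (tw N (q0 :: C) (shf q0.1))), ?_⟩
    rw [zpow_neg]
    group

end Pool.Agent.R839.Semi
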